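import Pool.Agent.helper33.L9.OffCore

/-!
# Repair moves at a short leg

`x` is a root (type `K_0`), `c` a leg of `x` whose other neighbours `v, v'` are cross neighbours.
`Rep G X D x c`: no flip of `c` together with vertices of the other side, not roots and not adjacent
to roots, makes all neighbourhoods of vertices outside of `D` bichromatic.
-/

set_option linter.unusedSimpArgs false
set_option linter.unusedSectionVars false

namespace Helper33.Off

open Finset Classical Helper42.L9 Helper33.L9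

variable {V : Type*} [Fintype V] {G : SimpleGraph V} {X : V → Prop} {D : V → Prop}

/-- flip the vertices of `F` -/
def flipS (X F : V → Prop) : V → Prop := fun v => if F v then ¬ X v else X v

omit [Fintype V] in
theorem flipS_pos {F : V → Prop} {v : V} (h : F v) : flipS X F v ↔ ¬ X v := by
  simp [flipS, h]

omit [Fintype V] in
theorem flipS_neg {F : V → Prop} {v : V} (h : ¬ F v) : flipS X F v ↔ X v := by
  simp [flipS, h]

/-- two neighbours on different sides -/
theorem nm_of_two (hcub : ∀ v, (univ.filter fun b => G.Adj v b).card = 3) {Y : V → Prop}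
    {w a b : V} (ha : G.Adj w a) (hb : G.Adj w b) (hab : ¬ (Y a ↔ Y b)) : NM G Y w := by
  have hne : a ≠ b := by
    rintro rfl
    exact hab Iff.rfl
  intro p q r hp hq hr hpq hpr hqr ⟨h1, h2⟩
  -- `a` and `b` are among `p, q, r`
  have key : ∀ z, G.Adj w z → z = p ∨ z = q ∨ z = r := by
    intro z hz
    by_contra hcon
    push Not at hcon
    exact no_four (fun v => (hcub v).le) hz hp hq hr hcon.1 hcon.2.1 hcon.2.2 hpq hpr hqr
  rcases key a ha with rfl | rfl | rfl <;> rcases key b hb with rfl | rfl | rfl <;> tauto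

omit [Fintype V] in
/-- no neighbour is flipped -/
theorem nm_flip_off {F : V → Prop} {w : V} (hw : NM G X w) (h : ∀ v, F v → ¬ G.Adj w v) :
    NM G (flipS X F) w := by
  intro a b c ha hb hc hab hac hbc hh
  have fa : ¬ F a := fun h' => h a h' ha
  have fb : ¬ F b := fun h' => h b h' hb
  have fc : ¬ F c := fun h' => h c h' hc
  rw [flipS_neg fa, flipS_neg fb, flipS_neg fc] at hh
  exact hw a b c ha hb hc hab hac hbc hh

/-- not a root and not adjacent to a root -/
def Far (G : SimpleGraph V) (D : V → Prop) (v : V) : Prop := ¬ D v ∧ ∀ d, D d → ¬ G.Adj d v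

/-- the leg `c` of `x` cannot be repaired -/
def Rep (G : SimpleGraph V) (X D : V → Prop) (x c : V) : Prop :=
  ∀ F : V → Prop, F c → (∀ v, F v → v = c ∨ (¬ (X v ↔ X x) ∧ Far G D v)) →
    ∃ w, ¬ D w ∧ ¬ NM G (flipS X F) w

section

variable (hcub : ∀ v, (univ.filter fun b => G.Adj v b).card = 3)
  (hNM : ∀ w, ¬ D w → NM G X w)

include hcub in
/-- the neighbours of a leg with two cross neighbours -/
theorem leg_nb {x c v v' : V} (hxc : G.Adj x c) (hs : X c ↔ X x)
    (hcr : cr G X c = {v, v'}) (hvv : v ≠ v') : ∀ w, G.Adj c w → w = x ∨ w = v ∨ w = v' := by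
  intro w hw
  by_cases h1 : X w ↔ X c
  · left
    have h2 : (cr G X c).card = 2 := by rw [hcr, Finset.card_pair hvv]
    exact own_one hcub (cc_two.mpr h2) ⟨hw, h1.symm⟩ ⟨hxc.symm, hs⟩
  · right
    have h3 : w ∈ cr G X c := mem_cr.mpr ⟨hw, h1⟩
    rw [hcr, Finset.mem_insert, Finset.mem_singleton] at h3
    exact h3

include hcub hNM in
/-- **(E3)** a short leg does not have a partner at both cross neighbours -/
theorem rep_E3 {x c v v' : V} (hrep : Rep G X D x c) (hDx : D x) (hxc : G.Adj x c)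
    (hs : X c ↔ X x) (hcr : cr G X c = {v, v'}) (hvv : v ≠ v')
    (h1 : v ∈ pt G X c) (h2 : v' ∈ pt G X c) : False := by
  obtain ⟨w, hDw, hw⟩ := hrep (fun z => z = c) rfl (fun z hz => Or.inl hz)
  have hnb := leg_nb hcub hxc hs hcr hvv
  apply hw
  by_cases hcw : G.Adj c w
  · have key : w ∈ pt G X c := by
      rcases hnb w hcw with rfl | rfl | rfl
      · exact absurd hDx hDw
      · exact h1
      · exact h2
    obtain ⟨_, u, hu, hwu, hsu⟩ := mem_pt.mp key
    refine nm_of_two hcub hcw.symm hwu ?_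
    rw [flipS_pos (F := fun z => z = c) rfl, flipS_neg (F := fun z => z = c) hu]
    tauto
  · exact nm_flip_off (hNM w hDw) (fun z hz hwz => by
      rw [hz] at hwz
      exact hcw hwz.symm)

include hcub hNM in
/-- **(E1)** partner at `v'`, no partner at `v`: no own neighbour of `v` is flippable -/
theorem rep_E1 {x c v v' p : V} (hrep : Rep G X D x c) (hDx : D x) (hxc : G.Adj x c)
    (hs : X c ↔ X x) (hcr : cr G X c = {v, v'}) (hvv : v ≠ v')
    (h2 : v' ∈ pt G X c) (hp : ownR G X v p) (hpD : Far G D p) (hfl : ∀ w, G.Adj p w → w ≠ v → w ∈ pt G X p) :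
    False := by
  have hvc : v ∈ cr G X c := by rw [hcr]; simp
  have hvc' := mem_cr.mp hvc
  have hpX : ¬ (X p ↔ X c) := by
    intro h
    exact hvc'.2 (hp.2.trans h)
  have hpc : p ≠ c := by
    rintro rfl
    exact hpX Iff.rfl
  obtain ⟨w, hDw, hw⟩ := hrep (fun z => z = c ∨ z = p) (Or.inl rfl) (by
    rintro z (rfl | rfl)
    · exact Or.inl rfl
    · exact Or.inr ⟨fun h => hpX (h.trans hs.symm), hpD⟩)
  have hnb := leg_nb hcub hxc hs hcr hvv
  have Fc : flipS X (fun z => z = c ∨ z = p) c ↔ ¬ X c := flipS_pos (Or.inl rfl)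
  have Fp : flipS X (fun z => z = c ∨ z = p) p ↔ ¬ X p := flipS_pos (Or.inr rfl)
  have Fo : ∀ z, z ≠ c → z ≠ p → (flipS X (fun z => z = c ∨ z = p) z ↔ X z) := by
    intro z h3 h4
    exact flipS_neg (by tauto)
  apply hw
  by_cases hwv : w = v
  · subst hwv
    refine nm_of_two hcub hvc'.1.symm hp.1 ?_
    rw [Fc, Fp]
    tauto
  by_cases hpw : G.Adj p w
  · obtain ⟨_, u, hu, hwu, hsu⟩ := mem_pt.mp (hfl w hpw hwv)
    have huc : u ≠ c := by
      rintro rfl
      exact hpX hsu.symm
    refine nm_of_two hcub hpw.symm hwu ?_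
    rw [Fp, Fo u huc hu]
    tauto
  by_cases hcw : G.Adj c w
  · have hwv' : w = v' := by
      rcases hnb w hcw with rfl | rfl | rfl
      · exact absurd hDx hDw
      · exact absurd rfl hwv
      · rfl
    subst hwv'
    obtain ⟨_, u, hu, hwu, hsu⟩ := mem_pt.mp h2
    have hup : u ≠ p := by
      rintro rfl
      exact hpX hsu
    refine nm_of_two hcub hcw.symm hwu ?_
    rw [Fc, Fo u hu hup]
    tauto
  · refine nm_flip_off (hNM w hDw) ?_
    rintro z (rfl | rfl) hwz
    · exact hcw hwz.symm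
    · exact hpw hwz.symm

include hcub hNM in
/-- **(E2)** flippable own neighbours `p` of `v` and `p'` of `v'` have a further common
neighbour -/
theorem rep_E2 {x c v v' p p' : V} (hrep : Rep G X D x c) (hDx : D x) (hxc : G.Adj x c)
    (hs : X c ↔ X x) (hcr : cr G X c = {v, v'}) (hvv : v ≠ v')
    (hp : ownR G X v p) (hpD : Far G D p) (hfl : ∀ w, G.Adj p w → w ≠ v → w ∈ pt G X p)
    (hp' : ownR G X v' p') (hpD' : Far G D p') (hfl' : ∀ w, G.Adj p' w → w ≠ v' → w ∈ pt G X p') :
    ∃ r, r ≠ v ∧ r ≠ v' ∧ G.Adj p r ∧ G.Adj p' r := by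
  have hvc : v ∈ cr G X c := by rw [hcr]; simp
  have hvc' := mem_cr.mp hvc
  have hvd : v' ∈ cr G X c := by rw [hcr]; simp
  have hvd' := mem_cr.mp hvd
  have hpX : ¬ (X p ↔ X c) := by
    intro h
    exact hvc'.2 (hp.2.trans h)
  have hpX' : ¬ (X p' ↔ X c) := by
    intro h
    exact hvd'.2 (hp'.2.trans h)
  have hpc : p ≠ c := by
    rintro rfl
    exact hpX Iff.rfl
  have hpc' : p' ≠ c := by
    rintro rfl
    exact hpX' Iff.rfl
  obtain ⟨w, hDw, hw⟩ := hrep (fun z => z = c ∨ z = p ∨ z = p') (Or.inl rfl) (by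
    rintro z (rfl | rfl | rfl)
    · exact Or.inl rfl
    · exact Or.inr ⟨fun h => hpX (h.trans hs.symm), hpD⟩
    · exact Or.inr ⟨fun h => hpX' (h.trans hs.symm), hpD'⟩)
  have hnb := leg_nb hcub hxc hs hcr hvv
  have Fc : flipS X (fun z => z = c ∨ z = p ∨ z = p') c ↔ ¬ X c := flipS_pos (Or.inl rfl)
  have Fp : flipS X (fun z => z = c ∨ z = p ∨ z = p') p ↔ ¬ X p :=
    flipS_pos (Or.inr (Or.inl rfl))
  have Fp' : flipS X (fun z => z = c ∨ z = p ∨ z = p') p' ↔ ¬ X p' :=
    flipS_pos (Or.inr (Or.inr rfl))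
  have Fo : ∀ z, z ≠ c → z ≠ p → z ≠ p' →
      (flipS X (fun z => z = c ∨ z = p ∨ z = p') z ↔ X z) := by
    intro z h3 h4 h5
    exact flipS_neg (by tauto)
  by_contra hno
  push Not at hno
  apply hw
  by_cases hwv : w = v
  · subst hwv
    refine nm_of_two hcub hvc'.1.symm hp.1 ?_
    rw [Fc, Fp]
    tauto
  by_cases hwv' : w = v'
  · subst hwv'
    refine nm_of_two hcub hvd'.1.symm hp'.1 ?_
    rw [Fc, Fp']
    tauto
  by_cases hpw : G.Adj p w
  · obtain ⟨_, u, hu, hwu, hsu⟩ := mem_pt.mp (hfl w hpw hwv)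
    have huc : u ≠ c := by
      rintro rfl
      exact hpX hsu.symm
    have hup' : u ≠ p' := by
      rintro rfl
      exact hno w hwv hwv' hpw hwu.symm
    refine nm_of_two hcub hpw.symm hwu ?_
    rw [Fp, Fo u huc hu hup']
    tauto
  by_cases hpw' : G.Adj p' w
  · obtain ⟨_, u, hu, hwu, hsu⟩ := mem_pt.mp (hfl' w hpw' hwv')
    have huc : u ≠ c := by
      rintro rfl
      exact hpX' hsu.symm
    have hup : u ≠ p := by
      rintro rfl
      exact hno w hwv hwv' hwu.symm hpw'
    refine nm_of_two hcub hpw'.symm hwu ?_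
    rw [Fp', Fo u huc hup hu]
    tauto
  by_cases hcw : G.Adj c w
  · rcases hnb w hcw with rfl | rfl | rfl
    · exact absurd hDx hDw
    · exact absurd rfl hwv
    · exact absurd rfl hwv'
  · refine nm_flip_off (hNM w hDw) ?_
    rintro z (rfl | rfl | rfl) hwz
    · exact hcw hwz.symm
    · exact hpw hwz.symm
    · exact hpw' hwz.symm

end

end Helper33.Off
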