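import Pool.Agent.helper33.L9.LoopRecog

/-!
# T1: a cubic graph with a cut without monochromatic neighbourhoods

The three region theorems enter as hypotheses.
-/

set_option linter.unusedSimpArgs false
set_option linter.unusedSectionVars false

namespace Helper33.L9

open Finset Classical Helper42.L9
open Pool.Agent.helper40.L9 (Cyc nice_of_world)

variable {V : Type*} [Fintype V] {G : SimpleGraph V} {X : V → Prop}

/-- statement of the region theorem for loops -/
def LoopRegion (G : SimpleGraph V) (X : V → Prop) : Prop :=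
  ∀ (Z S : Finset V), InvZ G X Z → StuckZ G X Z S → ∀ t, cc G X t = 2 →
    Lp (ownR G X) (cc G X) (QE G X S).val t t → ∃ Lam, Region G X Z Lam

/-- statement of the region theorem for `U_5`'s -/
def U5Region (G : SimpleGraph V) (X : V → Prop) : Prop :=
  ∀ (Z S : Finset V), InvZ G X Z → StuckZ G X Z S →
    ∀ (v1 v2 v3 v4 v5 z1 z3 z5 l1 l5 : V) (kA kB : ℕ)
      (pA uA vA qA yA pB uB vB qB yB : ℕ → V),
      U5 G X Z S v1 v2 v3 v4 v5 z1 z3 z5 l1 l5 kA kB pA uA vA qA yA pB uB vB qB yB →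
      ∃ Lam, Region G X Z Lam

/-- statement of the region theorem for `K_4`'s -/
def K4Region (G : SimpleGraph V) (X : V → Prop) : Prop :=
  ∀ (Z S : Finset V), InvZ G X Z → StuckZ G X Z S → ∀ a b d e : V,
    cc G X a = 2 → cc G X b = 2 → cc G X d = 2 → cc G X e = 2 → [a, b, d, e].Nodup →
    Rg (ownR G X) (cc G X) (QE G X S).val a b → Rg (ownR G X) (cc G X) (QE G X S).val a d →
    Rg (ownR G X) (cc G X) (QE G X S).val a e → Rg (ownR G X) (cc G X) (QE G X S).val b d →
    Rg (ownR G X) (cc G X) (QE G X S).val b e → Rg (ownR G X) (cc G X) (QE G X S).val d e →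
    ∃ Lam, Region G X Z Lam

/-- five own-consecutive vertices form an own five-cycle -/
theorem cyc_of {a b d e f : V} (h1 : ownR G X a b) (h2 : ownR G X b d) (h3 : ownR G X d e)
    (h4 : ownR G X e f) (h5 : ownR G X f a) (hnd : [a, b, d, e, f].Nodup) :
    Cyc G X ![a, b, d, e, f] := by
  simp only [List.nodup_cons, List.mem_cons, List.not_mem_nil, or_false, not_or,
    List.nodup_nil, and_true, not_false_eq_true] at hnd
  obtain ⟨⟨n1, n2, n3, n4⟩, ⟨n5, n6, n7⟩, ⟨n8, n9⟩, n10⟩ := hnd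
  refine ⟨?_, ?_, ?_⟩
  · intro i j hij
    fin_cases i <;> fin_cases j <;> simp_all
  · intro i
    fin_cases i
    · exact h1.1
    · exact h2.1
    · exact h3.1
    · exact h4.1
    · exact h5.1
  · intro i
    fin_cases i
    · exact Iff.rfl
    · exact h1.2.symm
    · exact (h1.2.trans h2.2).symm
    · exact ((h1.2.trans h2.2).trans h3.2).symm
    · exact h5.2

/-- **T1 from the region theorems.** -/
theorem t1_of_regions (hcub : ∀ v, (univ.filter fun b => G.Adj v b).card = 3)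
    (hW : World G X) (hLoop : LoopRegion G X) (hU5 : U5Region G X) (hK4 : K4Region G X) :
    ∃ f : V → ℕ, (∀ v, f v ≤ 9) ∧ (∀ u v, G.Adj u v → 2 ≤ |(f u : ℤ) - (f v : ℤ)|) ∧
      (∀ u v w, u ≠ v → G.Adj u w → G.Adj w v → f u ≠ f v) := by
  have hX := hW.noMono
  have hst : ∀ v, StarAt G X v := hW.star
  refine stack_main hcub hW ?_
  intro Z S hI hS hcl
  by_contra hno
  refine hcl ⟨?_, ?_, ?_, ?_⟩
  · intro t h2 hL
    exact hno (hLoop Z S hI hS t h2 hL)
  · intro s u w v t c1 c2 c3 c4 c5 o1 o2 o3 o4 huv d1 d5 hB hA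
    obtain ⟨z1, z3, z5, l1, l5, kA, kB, pA, uA, vA, qA, yA, pB, uB, vB, qB, yB, hU⟩ :=
      u5_config hX hcub hI hS hst c1 c2 c3 c4 c5 o1 o2 o3 o4 huv d1 d5 hB hA
    exact hno (hU5 Z S hI hS _ _ _ _ _ _ _ _ _ _ _ _ _ _ _ _ _ _ _ _ _ _ hU)
  · intro a b d e f ha _ _ _ _ _ h1 h2 h3 h4 h5 hnd
    have := hI.C _ (nice_of_world (fun v => (hcub v).le) hW (cyc_of h1 h2 h3 h4 h5 hnd)) 0
    exact this (hS.1 ha)
  · intro a b d e ha hb hd he hnd r1 r2 r3 r4 r5 r6
    exact hno (hK4 Z S hI hS a b d e ha hb hd he hnd r1 r2 r3 r4 r5 r6)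

end Helper33.L9
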