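import Pool.Agent.helper33.L9.Config
import Pool.Agent.helper17.L9.LoopG

/-!
# Recognition of loops in the form of `LoopG`
-/

set_option linter.unusedSimpArgs false
set_option linter.unusedSectionVars false

namespace Helper33.L9

open Finset Classical Helper42.L9 Helper17.L9

variable {V : Type*} [Fintype V] {G : SimpleGraph V} {X : V → Prop} {Z S : Finset V}

theorem Wire.wireG {k : ℕ} {p u v q y : ℕ → V} {σ τ : V}
    (h : Wire G X Z S k p u v q y σ τ) : WireG G X k u v p q (fun i => y (i + 1)) := by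
  refine ⟨fun i hi => (h.unit i hi).cu, fun i hi => (h.unit i hi).cv, fun i hi => (h.unit i hi).cp,
    fun i hi => (h.unit i hi).cq, fun i hi => ownR_symm (h.unit i hi).pu,
    fun i hi => (h.unit i hi).uv, fun i hi => (h.unit i hi).vq, ?_, ?_,
    fun i j hi hj => h.nuu i hi j hj, fun i j hi hj => h.nvv i hi j hj,
    fun i j hi hj => h.nuv i hi j hj⟩
  · intro i hi
    have h1 := mem_cr.mp (h.yv (i := i) (by omega))
    exact h1
  · intro i hi
    have h1 := mem_cr.mp (h.yu (i := i + 1) hi)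
    exact ⟨h1.1.symm, h1.2⟩

theorem loopG_of (hX : NoMono G X) (hcub : ∀ v, (univ.filter fun b => G.Adj v b).card = 3)
    (hI : InvZ G X Z) (h : StuckZ G X Z S) (hst : ∀ v, StarAt G X v) {t : V}
    (h2 : cc G X t = 2) (hL : Lp (ownR G X) (cc G X) (QE G X S).val t t) :
    ∃ (k : ℕ) (u v p q y : ℕ → V) (z0 z1 : V), LoopG G X k u v p q y t z0 z1 ∧ t ∈ S ∧
      ∀ i, i < k → u i ∈ S ∧ v i ∈ S ∧ p i ∈ S ∧ q i ∈ S := by
  obtain ⟨k, p, u, v, q, y, hk, hw, hne, _⟩ := loop_config hX hcub hI h hst h2 hL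
  have y0 := mem_cr.mp hw.yσ
  have yk := mem_cr.mp hw.yτ
  have u0 := mem_cr.mp (hw.yu hk)
  have vk := hw.yv (i := k - 1) (by omega)
  have e : k - 1 + 1 = k := by omega
  rw [e] at vk
  have vk := mem_cr.mp vk
  refine ⟨k, u, v, p, q, fun i => y (i + 1), y 0, y k, ⟨hw.wireG, hk, h2, y0, yk, ?_, ?_, hne, ?_⟩,
    hw.σS, ?_⟩
  · exact ⟨u0.1.symm, u0.2⟩
  · exact ⟨vk.1.symm, vk.2⟩
  · exact ⟨(hw.p0 hk).1.symm, (hw.p0 hk).2.symm, (hw.pk hk).1.symm, (hw.pk hk).2.symm⟩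
  · intro i hi
    obtain ⟨a, b, c, d⟩ := hw.mem i hi
    exact ⟨b, c, a, d⟩

end Helper33.L9
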