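import Pool.Agent.helper33.L9.Wire

/-!
# Bad configurations in graph terms: loops and `U_5`'s

`loop_config`: a loop is a wire with `k ≥ 1` units from the end `t` to itself.
`U5`: an own path `v1 .. v5` with wires `v4 - v1` and `v2 - v5` and full outer links at `v1`, `v5`.
-/

set_option linter.unusedSimpArgs false
set_option linter.unusedSectionVars false

namespace Helper33.L9

open Finset Classical Helper42.L9

variable {V : Type*} [Fintype V] {G : SimpleGraph V} {X : V → Prop} {Z S : Finset V}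

section

variable (hX : NoMono G X) (hcub : ∀ v, (univ.filter fun b => G.Adj v b).card = 3)

variable {k k' : ℕ} {p u v q y p' u' v' q' y' : ℕ → V} {σ τ σ' τ' : V}

theorem Wire.mid (h : Wire G X Z S k p u v q y σ τ) {i : ℕ} (hi : i < k) :
    Mid (ownR G X) (cc G X) (u i) (v i) := by
  have h1 := h.unit i hi
  exact ⟨h1.cu, h1.cv, h1.uv, ⟨p i, ownR_symm h1.pu, h1.cp⟩, ⟨q i, h1.vq, h1.cq⟩⟩

theorem Wire.yu (h : Wire G X Z S k p u v q y σ τ) {i : ℕ} (hi : i < k) :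
    y i ∈ cr G X (u i) := by
  rw [h.cu i hi]; simp

theorem Wire.yv (h : Wire G X Z S k p u v q y σ τ) {i : ℕ} (hi : i < k) :
    y (i + 1) ∈ cr G X (v i) := by
  rw [h.cv i hi]; simp

theorem Wire.yσ (h : Wire G X Z S k p u v q y σ τ) : y 0 ∈ cr G X σ := by
  rw [mem_crs, h.link 0 (Nat.zero_le _)]
  simp

theorem Wire.yτ (h : Wire G X Z S k p u v q y σ τ) : y k ∈ cr G X τ := by
  rw [mem_crs, h.link k le_rfl]
  simp

/-- the walk of a wire -/
def walkOf (u v : ℕ → V) (n : ℕ) : V := if n % 2 = 0 then u (n / 2) else v (n / 2)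

theorem walkOf_even (u v : ℕ → V) (i : ℕ) : walkOf u v (2 * i) = u i := by
  have e1 : 2 * i % 2 = 0 := by omega
  have e2 : 2 * i / 2 = i := by omega
  simp [walkOf, e1, e2]

theorem walkOf_odd (u v : ℕ → V) (i : ℕ) : walkOf u v (2 * i + 1) = v i := by
  have e1 : (2 * i + 1) % 2 = 1 := by omega
  have e2 : (2 * i + 1) / 2 = i := by omega
  simp [walkOf, e1, e2]

theorem Wire.walk_mid (h : Wire G X Z S k p u v q y σ τ) : ∀ n < 2 * k,
    ∃ b, Mid (ownR G X) (cc G X) (walkOf u v n) b := by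
  intro n hn
  rcases Nat.mod_two_eq_zero_or_one n with hpar | hpar
  · obtain ⟨i, rfl⟩ : ∃ i, n = 2 * i := ⟨n / 2, by omega⟩
    rw [walkOf_even]
    exact ⟨v i, h.mid (by omega)⟩
  · obtain ⟨i, rfl⟩ : ∃ i, n = 2 * i + 1 := ⟨n / 2, by omega⟩
    rw [walkOf_odd]
    exact ⟨u i, Mid_symm (h.mid (by omega))⟩

theorem Wire.walk_even (h : Wire G X Z S k p u v q y σ τ) : ∀ n, n + 1 < 2 * k → n % 2 = 0 →
    Mid (ownR G X) (cc G X) (walkOf u v n) (walkOf u v (n + 1)) := by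
  intro n hn hpar
  obtain ⟨i, rfl⟩ : ∃ i, n = 2 * i := ⟨n / 2, by omega⟩
  rw [walkOf_even, walkOf_odd]
  exact h.mid (by omega)

theorem Wire.walk_odd (h : Wire G X Z S k p u v q y σ τ) : ∀ n, n + 1 < 2 * k → n % 2 = 1 →
    Lk G X (walkOf u v n) (walkOf u v (n + 1)) := by
  intro n hn hpar
  obtain ⟨i, rfl⟩ : ∃ i, n = 2 * i + 1 := ⟨n / 2, by omega⟩
  have e : 2 * i + 1 + 1 = 2 * (i + 1) := by ring
  rw [walkOf_odd, e, walkOf_even]
  exact ⟨(h.nuv (i + 1) (by omega) i (by omega)).symm, y (i + 1), h.yv (by omega),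
    h.yu (by omega)⟩

theorem NoMid.ne (hσ : NoMid G X σ) {b : V} (hb : ∃ d, Mid (ownR G X) (cc G X) b d) :
    b ≠ σ := by
  rintro rfl
  obtain ⟨d, hd⟩ := hb
  exact hσ d hd

include hX hcub in
/-- two wires with different ends have no common middle -/
theorem Wire.disj (h : Wire G X Z S k p u v q y σ τ) (h' : Wire G X Z S k' p' u' v' q' y' σ' τ')
    (nσ : NoMid G X σ) (nσ' : NoMid G X σ') (nτ' : NoMid G X τ')
    (h1 : σ ≠ σ') (h2 : σ ≠ τ') :
    ∀ i < k, ∀ j < k', u i ≠ u' j ∧ u i ≠ v' j ∧ v i ≠ u' j ∧ v i ≠ v' j := by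
  have main := walks_disjoint (Mid (ownR G X) (cc G X)) (Lk G X) (2 * k) (2 * k')
    (walkOf u v) (walkOf u' v') (by omega) (by omega) (fun _ _ => Mid_symm)
    (fun _ _ => Lk_symm) (fun n _ x z hx hz => Mid_unique hX hcub hx hz)
    (by
      intro n hn x z hx hz
      obtain ⟨b, hb⟩ := h'.walk_mid n hn
      exact Lk_unique hX hcub hb.1 hx hz)
    h.walk_even h.walk_odd h'.walk_even h'.walk_odd σ σ' τ'
    (by
      intro hk
      have e := walkOf_even u v 0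
      rw [Nat.mul_zero] at e
      rw [e]
      exact ⟨(h.nσ 0 (by omega)).1, y 0, h.yu (by omega), h.yσ⟩)
    (by
      intro hk
      have e := walkOf_even u' v' 0
      rw [Nat.mul_zero] at e
      rw [e]
      exact ⟨(h'.nσ 0 (by omega)).1, y' 0, h'.yu (by omega), h'.yσ⟩)
    (by
      intro hk
      have e := walkOf_odd u' v' (k' - 1)
      have e2 : 2 * (k' - 1) + 1 = 2 * k' - 1 := by omega
      rw [e2] at e
      rw [e]
      have h3 := h'.yv (i := k' - 1) (by omega)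
      have e3 : k' - 1 + 1 = k' := by omega
      rw [e3] at h3
      exact ⟨(h'.nτ (k' - 1) (by omega)).2, y' k', h3, h'.yτ⟩)
    (fun n hn => nσ.ne (h'.walk_mid n hn)) (fun n hn => nσ'.ne (h.walk_mid n hn))
    (fun n hn => nτ'.ne (h.walk_mid n hn)) h1 h2
  intro i hi j hj
  refine ⟨?_, ?_, ?_, ?_⟩
  · have := main (2 * i) (by omega) (2 * j) (by omega)
    rwa [walkOf_even, walkOf_even] at this
  · have := main (2 * i) (by omega) (2 * j + 1) (by omega)
    rwa [walkOf_even, walkOf_odd] at this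
  · have := main (2 * i + 1) (by omega) (2 * j) (by omega)
    rwa [walkOf_odd, walkOf_even] at this
  · have := main (2 * i + 1) (by omega) (2 * j + 1) (by omega)
    rwa [walkOf_odd, walkOf_odd] at this

include hX hcub in
/-- the links of two wires with different ends are different -/
theorem Wire.disj_y (h : Wire G X Z S k p u v q y σ τ)
    (h' : Wire G X Z S k' p' u' v' q' y' σ' τ')
    (nσ : NoMid G X σ) (nτ : NoMid G X τ) (nσ' : NoMid G X σ') (nτ' : NoMid G X τ')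
    (h1 : σ ≠ σ') (h2 : σ ≠ τ') (h3 : τ ≠ σ') (h4 : τ ≠ τ') :
    ∀ i ≤ k, ∀ j ≤ k', y i ≠ y' j := by
  have hd := h.disj hX hcub h' nσ nσ' nτ' h1 h2
  intro i hi j hj he
  have e1 := h.link i hi
  have e2 := h'.link j hj
  rw [he, e2] at e1
  have h5 : (if i = 0 then σ else v (i - 1)) ∈
      ({if j = 0 then σ' else v' (j - 1), if j = k' then τ' else u' j} : Finset V) := by
    rw [e1]; simp
  rw [Finset.mem_insert, Finset.mem_singleton] at h5
  have sv : ∀ j < k', σ ≠ v' j ∧ σ ≠ u' j := fun j hj =>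
    ⟨(nσ.ne ⟨_, Mid_symm (h'.mid hj)⟩).symm, (nσ.ne ⟨_, h'.mid hj⟩).symm⟩
  have sv' : ∀ i < k, v i ≠ σ' ∧ v i ≠ τ' := fun i hi =>
    ⟨nσ'.ne ⟨_, Mid_symm (h.mid hi)⟩, nτ'.ne ⟨_, Mid_symm (h.mid hi)⟩⟩
  by_cases hi0 : i = 0
  · simp only [hi0, if_true] at h5
    rcases h5 with h5 | h5
    · by_cases hj0 : j = 0
      · simp only [hj0, if_true] at h5
        exact h1 h5
      · simp only [hj0, if_false] at h5
        exact (sv (j - 1) (by omega)).1 h5
    · by_cases hjk : j = k'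
      · simp only [hjk, if_true] at h5
        exact h2 h5
      · simp only [hjk, if_false] at h5
        exact (sv j (by omega)).2 h5
  · simp only [hi0, if_false] at h5
    rcases h5 with h5 | h5
    · by_cases hj0 : j = 0
      · simp only [hj0, if_true] at h5
        exact (sv' (i - 1) (by omega)).1 h5
      · simp only [hj0, if_false] at h5
        exact (hd (i - 1) (by omega) (j - 1) (by omega)).2.2.2 h5
    · by_cases hjk : j = k'
      · simp only [hjk, if_true] at h5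
        exact (sv' (i - 1) (by omega)).2 h5
      · simp only [hjk, if_false] at h5
        exact (hd (i - 1) (by omega) j (by omega)).2.2.1 h5

include hX hcub in
/-- **Loops in graph terms.** -/
theorem loop_config (hI : InvZ G X Z) (h : StuckZ G X Z S) (hst : ∀ v, StarAt G X v) {t : V}
    (h2 : cc G X t = 2) (hL : Lp (ownR G X) (cc G X) (QE G X S).val t t) :
    ∃ (k : ℕ) (p u v q y : ℕ → V), 0 < k ∧ Wire G X Z S k p u v q y t t ∧
      y 0 ≠ y k ∧ cr G X t = {y 0, y k} := by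
  obtain ⟨k, p, u, v, q, y, hk, hw⟩ := wire_of_lp hX hcub hI h hst hL (NoMid_of_end h2)
    (NoMid_of_end h2)
  have hne : y 0 ≠ y k := by
    intro he
    have := hw.nyy 0 (by omega) k le_rfl he
    omega
  exact ⟨k, p, u, v, q, y, hk, hw, hne, end_cr hX hcub h2 hw.yσ hw.yτ hne⟩

/-- a `U_5` in graph terms -/
structure U5 (G : SimpleGraph V) (X : V → Prop) (Z S : Finset V)
    (v1 v2 v3 v4 v5 z1 z3 z5 l1 l5 : V) (kA kB : ℕ)
    (pA uA vA qA yA pB uB vB qB yB : ℕ → V) : Prop where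
  o12 : ownR G X v1 v2
  o23 : ownR G X v2 v3
  o34 : ownR G X v3 v4
  o45 : ownR G X v4 v5
  c1 : cc G X v1 = 2
  c2 : cc G X v2 = 3
  c3 : cc G X v3 = 3
  c4 : cc G X v4 = 3
  c5 : cc G X v5 = 2
  nd : [v1, v2, v3, v4, v5].Nodup
  mem : v1 ∈ S ∧ v2 ∈ S ∧ v3 ∈ S ∧ v4 ∈ S ∧ v5 ∈ S
  A : Wire G X Z S kA pA uA vA qA yA v4 v1
  B : Wire G X Z S kB pB uB vB qB yB v2 v5
  cr1 : cr G X v1 = {yA kA, z1}
  cr2 : cr G X v2 = {yB 0}
  cr3 : cr G X v3 = {z3}
  cr4 : cr G X v4 = {yA 0}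
  cr5 : cr G X v5 = {yB kB, z5}
  cz1 : cr G X z1 = {v1, l1}
  cz3 : cr G X z3 = {v3}
  cz5 : cr G X z5 = {v5, l5}
  e1 : z1 ∈ Z ∧ cc G X z1 = 2 ∧ l1 ∈ S ∧ l1 ≠ v1
  e3 : z3 ∈ Z ∧ cc G X z3 = 3
  e5 : z5 ∈ Z ∧ cc G X z5 = 2 ∧ l5 ∈ S ∧ l5 ≠ v5
  z1y : ∀ i ≤ kA, z1 ≠ yA i
  z1y' : ∀ i ≤ kB, z1 ≠ yB i
  z5y : ∀ i ≤ kA, z5 ≠ yA i
  z5y' : ∀ i ≤ kB, z5 ≠ yB i
  dAB : ∀ i < kA, ∀ j < kB, uA i ≠ uB j ∧ uA i ≠ vB j ∧ vA i ≠ uB j ∧ vA i ≠ vB j
  dy : ∀ i ≤ kA, ∀ j ≤ kB, yA i ≠ yB j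
  noA : ∀ i < kA, uA i ∉ [v1, v2, v3, v4, v5] ∧ vA i ∉ [v1, v2, v3, v4, v5]
  noB : ∀ i < kB, uB i ∉ [v1, v2, v3, v4, v5] ∧ vB i ∉ [v1, v2, v3, v4, v5]

include hX hcub in
/-- the outer link of an end of full degree -/
theorem outer_link (hI : InvZ G X Z) (h : StuckZ G X Z S) {a y z : V} (haS : a ∈ S)
    (h2 : cc G X a = 2) (h4 : 4 ≤ Dq G X S a) (hcr : cr G X a = {y, z}) (hyz : y ≠ z) :
    ∃ l, cr G X z = {a, l} ∧ z ∈ Z ∧ cc G X z = 2 ∧ l ∈ S ∧ l ≠ a := by
  have h3 := count_bound hX (fun v => (hcub v).le) S a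
  have h5 := (cc_two hX hcub).mp h2
  have h6 : (pt G X a).card ≤ (univ.filter fun b => G.Adj a b).card :=
    Finset.card_le_card pt_subset
  have h7 := hcub a
  unfold Dq at h4
  have h8 : (pt G X a).card = 3 := by omega
  have h9 : pt G X a = univ.filter fun b => G.Adj a b :=
    Finset.eq_of_subset_of_card_le pt_subset (by omega)
  have h10 : ((pt G X a).filter fun w => partner G X w a ∉ S).card = 0 := by omega
  rw [Finset.card_eq_zero, Finset.filter_eq_empty_iff] at h10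
  have hz : z ∈ cr G X a := by rw [hcr]; simp
  have hz' := mem_cr.mp hz
  have hzp : z ∈ pt G X a := by
    rw [h9]
    simp [hz'.1]
  obtain ⟨g1, g2, g3⟩ := partner_spec hzp
  have hlS : partner G X z a ∈ S := not_not.mp (h10 hzp)
  have hzl : z ∈ cr G X (partner G X z a) := by
    refine mem_cr.mpr ⟨g2.symm, ?_⟩
    have h11 := hz'.2
    tauto
  obtain ⟨k1, k2, k3⟩ := hI.link hX hcub (h.1 haS) (h.1 hlS) g1.symm hz hzl
  exact ⟨_, k3, k1, k2, hlS, g1⟩

include hX hcub in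
/-- **`U_5`'s in graph terms.** -/
theorem u5_config (hI : InvZ G X Z) (h : StuckZ G X Z S) (hst : ∀ v, StarAt G X v)
    {v1 v2 v3 v4 v5 : V} (c1 : cc G X v1 = 2) (c2 : cc G X v2 = 3) (c3 : cc G X v3 = 3)
    (c4 : cc G X v4 = 3) (c5 : cc G X v5 = 2) (o12 : ownR G X v1 v2) (o23 : ownR G X v2 v3)
    (o34 : ownR G X v3 v4) (o45 : ownR G X v4 v5) (h24 : v2 ≠ v4)
    (d1 : 4 ≤ dg (QE G X S).val v1) (d5 : 4 ≤ dg (QE G X S).val v5)
    (hB : Port (ownR G X) (cc G X) (QE G X S).val v2 v5 ∨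
      Lp (ownR G X) (cc G X) (QE G X S).val v2 v5)
    (hA : Port (ownR G X) (cc G X) (QE G X S).val v4 v1 ∨
      Lp (ownR G X) (cc G X) (QE G X S).val v4 v1) :
    ∃ (z1 z3 z5 l1 l5 : V) (kA kB : ℕ) (pA uA vA qA yA pB uB vB qB yB : ℕ → V),
      U5 G X Z S v1 v2 v3 v4 v5 z1 z3 z5 l1 l5 kA kB pA uA vA qA yA pB uB vB qB yB := by
  have n12 := ownR_ne o12
  have n23 := ownR_ne o23
  have n34 := ownR_ne o34
  have n45 := ownR_ne o45
  have n13 : v1 ≠ v3 := by rintro rfl; omega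
  have n14 : v1 ≠ v4 := by rintro rfl; omega
  have n25 : v2 ≠ v5 := by rintro rfl; omega
  have n35 : v3 ≠ v5 := by rintro rfl; omega
  have n15 : v1 ≠ v5 := by
    rintro rfl
    exact h24 (own_one hX hcub c1 o12 (ownR_symm o45))
  -- membership
  have hv1S : v1 ∈ S := by
    by_contra hn
    rw [dg_QE_notMem hn] at d1
    omega
  have hv5S : v5 ∈ S := by
    by_contra hn
    rw [dg_QE_notMem hn] at d5
    omega
  rw [dg_QE hv1S] at d1
  rw [dg_QE hv5S] at d5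
  -- the middles `v2`, `v4` are no middles of a `P_4`
  have m2 : NoMid G X v2 := by
    rintro b ⟨_, hb3, hb, _, ⟨s, hs, hs2⟩⟩
    have hb3' : b = v3 := by
      rcases own_two hX (ownR_symm o12) o23 hb with h' | h' | h'
      · exact absurd h' n13
      · rw [h'] at c1; omega
      · exact h'.symm
    subst hb3'
    rcases own_two hX (ownR_symm o23) o34 hs with h' | h' | h'
    · exact h24 h'
    · rw [h'] at c2; omega
    · rw [h'] at c4; omega
  have m4 : NoMid G X v4 := by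
    rintro b ⟨_, hb3, hb, _, ⟨s, hs, hs2⟩⟩
    have hb3' : b = v3 := by
      rcases own_two hX o45 (ownR_symm o34) hb with h' | h' | h'
      · exact absurd h' n35.symm
      · rw [h'] at c5; omega
      · exact h'.symm
    subst hb3'
    rcases own_two hX (ownR_symm o23) o34 hs with h' | h' | h'
    · exact h24 h'
    · rw [h'] at c2; omega
    · rw [h'] at c4; omega
  have m1 : NoMid G X v1 := NoMid_of_end c1
  have m5 : NoMid G X v5 := NoMid_of_end c5
  -- the wires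
  have wA : ∃ (k : ℕ) (p u v q y : ℕ → V), Wire G X Z S k p u v q y v4 v1 := by
    rcases hA with hA | hA
    · obtain ⟨y, hy⟩ := wire_of_port hX hcub hI h hA (fun _ => v1) (fun _ => v1) (fun _ => v1)
        (fun _ => v1)
      exact ⟨0, _, _, _, _, y, hy⟩
    · obtain ⟨k, p, u, v, q, y, _, hw⟩ := wire_of_lp hX hcub hI h hst hA m4 m1
      exact ⟨k, p, u, v, q, y, hw⟩
  have wB : ∃ (k : ℕ) (p u v q y : ℕ → V), Wire G X Z S k p u v q y v2 v5 := by
    rcases hB with hB | hB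
    · obtain ⟨y, hy⟩ := wire_of_port hX hcub hI h hB (fun _ => v1) (fun _ => v1) (fun _ => v1)
        (fun _ => v1)
      exact ⟨0, _, _, _, _, y, hy⟩
    · obtain ⟨k, p, u, v, q, y, _, hw⟩ := wire_of_lp hX hcub hI h hst hB m2 m5
      exact ⟨k, p, u, v, q, y, hw⟩
  obtain ⟨kA, pA, uA, vA, qA, yA, hA'⟩ := wA
  obtain ⟨kB, pB, uB, vB, qB, yB, hB'⟩ := wB
  have hv4S := hA'.σS
  have hv2S := hB'.σS
  have hv3S := h.inner_own hX hcub hst hv2S c2 o23
  have dAB := hA'.disj hX hcub hB' m4 m2 m5 h24.symm n45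
  have dy := hA'.disj_y hX hcub hB' m4 m1 m2 m5 h24.symm n45 n12 n15
  -- cross neighbours
  have second : ∀ a y, cc G X a = 2 → y ∈ cr G X a → ∃ z, z ≠ y ∧ cr G X a = {y, z} := by
    intro a y ha hy
    have h1 := (cc_two hX hcub).mp ha
    obtain ⟨b, d, hbd, he⟩ := Finset.card_eq_two.mp h1
    rw [he, Finset.mem_insert, Finset.mem_singleton] at hy
    rcases hy with rfl | rfl
    · exact ⟨d, hbd.symm, he⟩
    · exact ⟨b, hbd, by rw [he, Finset.pair_comm]⟩
  obtain ⟨z1, hz1, cr1⟩ := second v1 (yA kA) c1 hA'.yτ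
  obtain ⟨z5, hz5, cr5⟩ := second v5 (yB kB) c5 hB'.yτ
  obtain ⟨l1, a1, a2, a3, a4, a5⟩ := outer_link hX hcub hI h hv1S c1 d1 cr1 hz1.symm
  obtain ⟨l5, b1, b2, b3, b4, b5⟩ := outer_link hX hcub hI h hv5S c5 d5 cr5 hz5.symm
  obtain ⟨z3, hz3⟩ := Finset.card_eq_one.mp ((cc_three hX hcub).mp c3)
  obtain ⟨g1, g2, g3⟩ := h.beta hX hcub hst hv3S c3 h24 (ownR_symm o23) o34 c2 c4
    (by rw [hz3]; simp : z3 ∈ cr G X v3)
  have hz1v1 : v1 ∈ cr G X z1 := by rw [a1]; simp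
  have hz5v5 : v5 ∈ cr G X z5 := by rw [b1]; simp
  -- an end which is no end of the wire sees no link
  have noy : ∀ {k : ℕ} {p u v q y : ℕ → V} {σ τ a : V}, Wire G X Z S k p u v q y σ τ →
      NoMid G X a → a ≠ σ → a ≠ τ → ∀ i ≤ k, a ∉ cr G X (y i) := by
    intro k p u v q y σ τ a hw ha h1 h2 i hi hmem
    rw [hw.link i hi, Finset.mem_insert, Finset.mem_singleton] at hmem
    rcases hmem with hm | hm
    · by_cases h0 : i = 0
      · simp only [h0, if_true] at hm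
        exact h1 hm
      · simp only [h0, if_false] at hm
        exact ha.ne ⟨_, Mid_symm (hw.mid (i := i - 1) (by omega))⟩ hm.symm
    · by_cases h0 : i = k
      · simp only [h0, if_true] at hm
        exact h2 hm
      · simp only [h0, if_false] at hm
        exact ha.ne ⟨_, hw.mid (i := i) (by omega)⟩ hm.symm
  -- the end `τ` sees only the last link
  have lasty : ∀ {k : ℕ} {p u v q y : ℕ → V} {σ τ : V}, Wire G X Z S k p u v q y σ τ →
      NoMid G X τ → τ ≠ σ → ∀ i ≤ k, τ ∈ cr G X (y i) → i = k := by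
    intro k p u v q y σ τ hw ha h1 i hi hmem
    by_contra h0
    rw [hw.link i hi, Finset.mem_insert, Finset.mem_singleton] at hmem
    simp only [h0, if_false] at hmem
    rcases hmem with hm | hm
    · by_cases h0 : i = 0
      · simp only [h0, if_true] at hm
        exact h1 hm
      · simp only [h0, if_false] at hm
        exact ha.ne ⟨_, Mid_symm (hw.mid (i := i - 1) (by omega))⟩ hm.symm
    · exact ha.ne ⟨_, hw.mid (i := i) (by omega)⟩ hm.symm
  refine ⟨z1, z3, z5, l1, l5, kA, kB, pA, uA, vA, qA, yA, pB, uB, vB, qB, yB,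
    ⟨o12, o23, o34, o45, c1, c2, c3, c4, c5, ?_, ⟨hv1S, hv2S, hv3S, hv4S, hv5S⟩, hA', hB', cr1,
    inner_cr_eq hX hcub c2 hB'.yσ, hz3, inner_cr_eq hX hcub c4 hA'.yσ, cr5, a1, g2, b1,
    ⟨a2, a3, a4, a5⟩, ⟨g3, g1⟩, ⟨b2, b3, b4, b5⟩, ?_, ?_, ?_, ?_, dAB, dy, ?_, ?_⟩⟩
  · simp only [List.nodup_cons, List.mem_cons, List.not_mem_nil, or_false, not_or,
      List.nodup_nil, and_true, not_false_eq_true]
    exact ⟨⟨n12, n13, n14, n15⟩, ⟨n23, h24, n25⟩, ⟨n34, n35⟩, n45⟩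
  · intro i hi he
    rw [he] at hz1v1
    have := lasty hA' m1 n14 i hi hz1v1
    rw [this] at he
    exact hz1 he
  · intro i hi he
    rw [he] at hz1v1
    exact noy hB' m1 n12 n15 i hi hz1v1
  · intro i hi he
    rw [he] at hz5v5
    exact noy hA' m5 n45.symm n15.symm i hi hz5v5
  · intro i hi he
    rw [he] at hz5v5
    have := lasty hB' m5 n25.symm i hi hz5v5
    rw [this] at he
    exact hz5 he
  · have m3 : ∀ b, (∃ d, Mid (ownR G X) (cc G X) b d) → b ≠ v3 := by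
      rintro b ⟨d, hd⟩ rfl
      obtain ⟨_, _, _, ⟨s, hs, hs2⟩, _⟩ := hd
      rcases own_two hX (ownR_symm o23) o34 hs with h' | h' | h'
      · exact h24 h'
      · rw [h'] at c2; omega
      · rw [h'] at c4; omega
    intro i hi
    have hu : ∃ d, Mid (ownR G X) (cc G X) (uA i) d := ⟨_, hA'.mid hi⟩
    have hv : ∃ d, Mid (ownR G X) (cc G X) (vA i) d := ⟨_, Mid_symm (hA'.mid hi)⟩
    simp only [List.mem_cons, List.not_mem_nil, or_false, not_or]
    exact ⟨⟨m1.ne hu, m2.ne hu, m3 _ hu, m4.ne hu, m5.ne hu⟩,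
      ⟨m1.ne hv, m2.ne hv, m3 _ hv, m4.ne hv, m5.ne hv⟩⟩
  · have m3 : ∀ b, (∃ d, Mid (ownR G X) (cc G X) b d) → b ≠ v3 := by
      rintro b ⟨d, hd⟩ rfl
      obtain ⟨_, _, _, ⟨s, hs, hs2⟩, _⟩ := hd
      rcases own_two hX (ownR_symm o23) o34 hs with h' | h' | h'
      · exact h24 h'
      · rw [h'] at c2; omega
      · rw [h'] at c4; omega
    intro i hi
    have hu : ∃ d, Mid (ownR G X) (cc G X) (uB i) d := ⟨_, hB'.mid hi⟩
    have hv : ∃ d, Mid (ownR G X) (cc G X) (vB i) d := ⟨_, Mid_symm (hB'.mid hi)⟩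
    simp only [List.mem_cons, List.not_mem_nil, or_false, not_or]
    exact ⟨⟨m1.ne hu, m2.ne hu, m3 _ hu, m4.ne hu, m5.ne hu⟩,
      ⟨m1.ne hv, m2.ne hv, m3 _ hv, m4.ne hv, m5.ne hv⟩⟩

end

end Helper33.L9
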