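import Pool.Agent.helper85.L9.BnMain

/-!
# Root block `C1`: own five-cycle through both roots

Order `x z a m c b d`: roots `x, z`, path `a - m - c`, short legs `b` of `x`, `d` of `z`.
-/

namespace Helper33.Off

open Helper42.L9 Helper19.Gadget Helper85.Bn

variable {V : Type*} {c : V → ℕ}

/-- caps -/
def cC1 : List ℕ := [4, 4, 3, 3, 3, 2, 2]

/-- the caps which are used -/
def cC1' : List ℕ := [4, 3, 3, 3, 1, 2, 2]

/-- slots -/
def sC1 : List ℕ := [0, 0, 0, 0, 0, 1, 1]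

/-- own edges -/
def eC1 : List (Fin 7 × Fin 7) :=
  [(0, 1), (0, 2), (0, 3), (0, 4), (0, 5), (0, 6), (1, 2), (1, 3), (1, 4), (1, 5), (1, 6), (2, 3),
    (2, 4), (2, 5), (3, 4), (4, 6)]

/-- own edges, numbers -/
def gC1 : List (ℕ × ℕ) :=
  [(0, 1), (0, 2), (0, 3), (0, 4), (0, 5), (0, 6), (1, 2), (1, 3), (1, 4), (1, 5), (1, 6), (2, 3),
    (2, 4), (2, 5), (3, 4), (4, 6)]

theorem chkC1 : chkEn 7 cC1' gC1 sC1 [] [] true = true := by decide +kernel

theorem cC1_le : ∀ i : Fin 7, cp cC1' i ≤ cp cC1 i := by decide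

theorem tabC1 : chkTab 7 cC1' gC1 sC1 [] [] = true := by
  rw [chkTab, fstC_eq]; rfl

/-- **Block `C1`** -/
theorem at_C1 {g : Fin 7 → V} (hg : Function.Injective g) (hc : ∀ i : Fin 7, cp cC1 i ≤ c (g i))
    (W : List V) (N : Multiset (Sym2 V)) (hd : ∀ i : Fin 7, dg N (g i) ≤ sC1.getD i 0)
    (C : Ctx g (msk []) W N c) : AT (emb g eC1 + N) c :=
  bn_at_x hg cC1' sC1 [] eC1 gC1 rfl [] [] true (by decide +kernel) tabC1 chkC1
    (fun i => (cC1_le i).trans (hc i)) W N hd C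
    (fun J r N h => absurd h (by simp))

end Helper33.Off
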