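import Pool.Agent.helper33.L9.Plus0
import Pool.Agent.helper85.L9.BnMain

/-!
# The side of the roots: root blocks

Bridge from `plus_net` to the blocks of helper85.
-/

set_option linter.unusedSimpArgs false
set_option linter.unusedSectionVars false

namespace Helper33.Off

open Finset Classical Helper42.L9 Helper33.L9 Helper97.L9
open Helper85.Bn (Ctx pre mem_pre)

variable {V : Type*} [Fintype V] {G : SimpleGraph V} {X D C : V → Prop} {S' : Finset V}
  {s : Prop} {n : ℕ}

/-- **Root blocks.** -/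
theorem plus_block (hcub : ∀ v, (univ.filter fun b => G.Adj v b).card = 3) (h : StA G X D)
    (hside : ∀ v ∈ S', (X v ↔ s)) (g : Fin n → V) (T : Fin n → Prop) (W : List V)
    (hg : Function.Injective g) (hWn : W.Nodup) (hWo : ∀ w ∈ W, ∀ i, g i ≠ w)
    (hC : ∀ v, C v ↔ (∃ i, g i = v) ∨ v ∈ W) (hcl : ∀ u v, ownR G X u v → C u → C v)
    (hfar : ∀ v, (X v ↔ s) → ¬ C v → Far G D v) (E : List (Fin n × Fin n))
    (hEl : ∀ p ∈ E, p.1 ≠ p.2) (sl : List ℕ)
    (h1 : ∀ i : Fin n, dg (LK G X S' (emb g E)) (g i) ≤ sl.getD i 0)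
    (h2 : ∀ l1 w l2, W = l1 ++ w :: l2 →
      dg (outt (pre g T l1) (OO G X C S' (emb g E))) w + dg (LL G X C S' (emb g E)) w ≤ 2)
    (h3 : ∀ N : Multiset (Sym2 V), (∀ i : Fin n, dg N (g i) ≤ sl.getD i 0) →
      Ctx g T W N (c3 G X D) → AT (emb g E + N) (c3 G X D))
    (hE : ENetX (ownN G X (NC X s C)) (cN G X (NC X s C)) (c3 G X D) (QE G X S').val) :
    AT (QE G X S').val (c3 G X D) := by
  set K0 := emb g E with hK0
  set O := OO G X C S' K0 with hO
  have hOC : ∀ e ∈ O, ∀ v ∈ e, C v := by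
    intro e he v hv
    induction e with
    | _ x y =>
      obtain ⟨_, _, h4⟩ := mem_OO.mp he
      have : C x ∧ C y := by
        rcases h4 with h4 | ⟨w, h4, h5⟩
        · exact ⟨h4.2.1, h4.2.2⟩
        · exact ⟨h4.2.1, h5.2.2⟩
      rcases Sym2.mem_iff.mp hv with rfl | rfl
      · exact this.1
      · exact this.2
  have hK0C : ∀ e ∈ K0, ∀ v ∈ e, C v := by
    intro e he v hv
    obtain ⟨p, _, rfl⟩ := mem_emb.mp he
    rcases Sym2.mem_iff.mp hv with rfl | rfl
    · exact (hC _).mpr (Or.inl ⟨_, rfl⟩)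
    · exact (hC _).mpr (Or.inl ⟨_, rfl⟩)
  have hOl : ∀ e ∈ O, ¬ e.IsDiag := by
    intro e he
    refine QE_loopless (S := S') (G := G) (X := X) e ?_
    rw [hO] at he
    unfold OO at he
    rw [Finset.mem_val, Finset.mem_filter] at he
    exact he.1
  refine plus_net (K := K0 + O) hcub h hcl hfar ?_ ?_ hside hE ?_
  · intro e he
    rcases Multiset.mem_add.mp he with h4 | h4
    · exact hK0C e h4
    · exact hOC e h4
  · intro e he
    rcases Multiset.mem_add.mp he with h4 | h4
    · obtain ⟨p, hp, rfl⟩ := mem_emb.mp h4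
      rw [Sym2.mk_isDiag_iff]
      exact fun e1 => hEl p hp (hg e1)
    · exact hOl e h4
  intro R hl hRC hR3 _ _ hK4
  rw [add_assoc]
  have hLL : ∀ v, C v → dg R v ≤ dg (LL G X C S' K0) v := hRC
  have hsplit : ∀ v, dg (LK G X S' K0) v = dg (LL G X C S' K0) v + dg O v := by
    intro v
    rw [LK_split (N := C) K0, dg_add]
  refine h3 (O + R) ?_ ?_
  · intro i
    refine le_trans ?_ (h1 i)
    rw [dg_add, hsplit]
    have := hLL (g i) ((hC _).mpr (Or.inl ⟨i, rfl⟩))
    omega
  have hO0 : ∀ v, ¬ C v → dg O v = 0 := by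
    intro v hv
    exact Helper19.DN.dg_zero fun e he hve => hv (hOC e he v hve)
  have hpeel : ∀ l1 w l2, W = l1 ++ w :: l2 → dg (outt (pre g T l1) (O + R)) w ≤ 2 := by
    intro l1 w l2 hw
    have hwC : C w := (hC w).mpr (Or.inr (by rw [hw]; simp))
    refine le_trans ?_ (h2 l1 w l2 hw)
    rw [Helper19.DN.outt_add, dg_add]
    have h4 := dg_le_of_le (outt_le (pre g T l1) R) w
    have h5 := hLL w hwC
    omega
  refine ⟨?_, hWn, hWo, ?_, ?_, ?_⟩
  · intro e he
    rcases Multiset.mem_add.mp he with h4 | h4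
    · exact hOl e h4
    · exact hl e h4
  · intro v hv1 hv2
    have hv : ¬ C v := by
      rw [hC]
      rintro (⟨i, hi⟩ | hw)
      · exact hv1 i hi
      · exact hv2 hw
    rw [dg_add, hO0 v hv, zero_add]
    exact ⟨hR3 v hv, c3_two v⟩
  · intro l1 w l2 hw
    exact (hpeel l1 w l2 hw).trans (c3_two w)
  · intro N' hN' hN'g a b d e hn m1 m2 m3 m4 m5 m6
    -- all vertices are off the block
    have off : ∀ {x y}, s(x, y) ∈ N' → (∀ i, g i ≠ x) ∧ ∀ i, g i ≠ y := by
      intro x y hm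
      refine ⟨fun i hi => hN'g _ hm i (by rw [hi]; exact Sym2.mem_mk_left _ _),
        fun i hi => hN'g _ hm i (by rw [hi]; exact Sym2.mem_mk_right _ _)⟩
    -- a vertex of the list with three later neighbours
    have first : ∀ l1 w l2, W = l1 ++ w :: l2 → ∀ u1 u2 u3 : V, u1 ≠ u2 → u1 ≠ u3 → u2 ≠ u3 →
        u1 ∉ l1 → u2 ∉ l1 → u3 ∉ l1 → s(w, u1) ∈ N' → s(w, u2) ∈ N' → s(w, u3) ∈ N' → False := by
      intro l1 w l2 hw u1 u2 u3 n12 n13 n23 v1 v2 v3 e1 e2 e3
      have hwl : w ∉ l1 := by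
        have hnd := hWn
        rw [hw, List.nodup_append] at hnd
        exact fun h4 => hnd.2.2 w h4 w List.mem_cons_self rfl
      have hin : ∀ {u}, s(w, u) ∈ N' → u ∉ l1 → s(w, u) ∈ outt (pre g T l1) (O + R) := by
        intro u hm hu
        refine Helper19.DN.mem_outt.mpr ⟨Multiset.mem_of_le hN' hm, fun v hv => ?_⟩
        rw [mem_pre]
        obtain ⟨o1, o2⟩ := off hm
        rcases Sym2.mem_iff.mp hv with rfl | rfl
        · rintro (h4 | ⟨i, _, h4⟩)
          · exact hwl h4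
          · exact o1 i h4
        · rintro (h4 | ⟨i, _, h4⟩)
          · exact hu h4
          · exact o2 i h4
      have h4 := Helper19.DN.three_le_dg n12 n13 n23 (hin e1 v1) (hin e2 v2) (hin e3 v3)
      have h5 := hpeel l1 w l2 hw
      omega
    simp only [List.nodup_cons, List.mem_cons, List.not_mem_nil, or_false, not_or,
      List.nodup_nil, and_true, not_false_eq_true] at hn
    obtain ⟨⟨n1, n2, n3⟩, ⟨n4, n5⟩, n6⟩ := hn
    by_cases hW : a ∈ W ∨ b ∈ W ∨ d ∈ W ∨ e ∈ W
    · -- the first of them in the list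
      obtain ⟨l1, w, l2, hw, hwm, hl1⟩ : ∃ l1 w l2, W = l1 ++ w :: l2 ∧
          (w = a ∨ w = b ∨ w = d ∨ w = e) ∧ ∀ u ∈ l1, ¬ (u = a ∨ u = b ∨ u = d ∨ u = e) := by
        obtain ⟨w, hwW, hwm⟩ : ∃ w ∈ W, (w = a ∨ w = b ∨ w = d ∨ w = e) := by
          rcases hW with h4 | h4 | h4 | h4
          · exact ⟨a, h4, Or.inl rfl⟩
          · exact ⟨b, h4, Or.inr (Or.inl rfl)⟩
          · exact ⟨d, h4, Or.inr (Or.inr (Or.inl rfl))⟩
          · exact ⟨e, h4, Or.inr (Or.inr (Or.inr rfl))⟩
        clear h2 h3 hpeel hWn hWo hC first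
        induction W with
        | nil => simp at hwW
        | cons u W ih =>
          by_cases hu : u = a ∨ u = b ∨ u = d ∨ u = e
          · exact ⟨[], u, W, rfl, hu, by simp⟩
          · have hwW' : w ∈ W := by
              rcases List.mem_cons.mp hwW with h4 | h4
              · exact absurd (h4 ▸ hwm) hu
              · exact h4
            obtain ⟨l1, w', l2, k1, k2, k3⟩ := ih (Or.elim hwm (fun h4 => Or.inl (h4 ▸ hwW'))
              (fun h4 => h4.elim (fun h4 => Or.inr (Or.inl (h4 ▸ hwW')))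
                (fun h4 => h4.elim (fun h4 => Or.inr (Or.inr (Or.inl (h4 ▸ hwW'))))
                  (fun h4 => Or.inr (Or.inr (Or.inr (h4 ▸ hwW'))))))) hwW'
            refine ⟨u :: l1, w', l2, by rw [k1]; rfl, k2, ?_⟩
            intro v hv
            rcases List.mem_cons.mp hv with rfl | hv
            · exact hu
            · exact k3 v hv
      have na : a ∉ l1 := fun h4 => hl1 a h4 (Or.inl rfl)
      have nb : b ∉ l1 := fun h4 => hl1 b h4 (Or.inr (Or.inl rfl))
      have nd : d ∉ l1 := fun h4 => hl1 d h4 (Or.inr (Or.inr (Or.inl rfl)))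
      have ne : e ∉ l1 := fun h4 => hl1 e h4 (Or.inr (Or.inr (Or.inr rfl)))
      rcases hwm with rfl | rfl | rfl | rfl
      · exact first l1 _ l2 hw b d e n4 n5 n6 nb nd ne m1 m2 m3
      · exact first l1 _ l2 hw a d e n2 n3 n6 na nd ne (mem_swap' m1) m4 m5
      · exact first l1 _ l2 hw a b e n1 n3 n5 na nb ne (mem_swap' m2) (mem_swap' m4) m6
      · exact first l1 _ l2 hw a b d n1 n2 n4 na nb nd (mem_swap' m3) (mem_swap' m5)
          (mem_swap' m6)
    · -- all off `C`
      have nC : ∀ x, (∀ i, g i ≠ x) → x ∉ W → ¬ C x := by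
        intro x hx hxW
        rw [hC]
        rintro (⟨i, hi⟩ | hw)
        · exact hx i hi
        · exact hxW hw
      have ca := nC a (off m1).1 (fun h4 => hW (Or.inl h4))
      have cb := nC b (off m1).2 (fun h4 => hW (Or.inr (Or.inl h4)))
      have cd := nC d (off m2).2 (fun h4 => hW (Or.inr (Or.inr (Or.inl h4))))
      have ce := nC e (off m3).2 (fun h4 => hW (Or.inr (Or.inr (Or.inr h4))))
      have inR : ∀ {x y}, ¬ C x → s(x, y) ∈ N' → s(x, y) ∈ R := by
        intro x y hx hm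
        rcases Multiset.mem_add.mp (Multiset.mem_of_le hN' hm) with h4 | h4
        · exact absurd (hOC _ h4 x (Sym2.mem_mk_left _ _)) hx
        · exact h4
      exact hK4 a b d e ca cb cd ce (by simp [*]) (inR ca m1) (inR ca m2) (inR ca m3) (inR cb m4)
        (inR cb m5) (inR cd m6)

end Helper33.Off
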