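import Pool.Agent.helper33.L9.Stack

/-!
# Facts on stuck sets

`S` stuck for `Z`: every vertex of `S` is a core vertex.  Inner vertices (`cc v = 3`, one cross
neighbour) have all own neighbours and partners in `S` and the cross neighbour in `Z`; ends
(`cc v = 2`) have at least three conflicts in `S`, and both cross neighbours in `Z` if exactly
three.  A link (common cross neighbour) of two vertices of `Z` is in `Z`.
-/

set_option linter.unusedSimpArgs false
set_option linter.unusedSectionVars false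

namespace Helper33.L9

open Finset Classical Helper42.L9

variable {V : Type*} [Fintype V] {G : SimpleGraph V} {X : V → Prop} {Z S : Finset V}

theorem ownR_symm {u v : V} (h : ownR G X u v) : ownR G X v u := ⟨h.1.symm, h.2.symm⟩

theorem ownR_ne {u v : V} (h : ownR G X u v) : u ≠ v := h.1.ne

theorem mem_crs {v y : V} : y ∈ cr G X v ↔ v ∈ cr G X y := by
  rw [mem_cr, mem_cr]
  constructor
  · rintro ⟨h1, h2⟩
    exact ⟨h1.symm, fun h => h2 h.symm⟩
  · rintro ⟨h1, h2⟩
    exact ⟨h1.symm, fun h => h2 h.symm⟩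

/-- a common cross neighbour gives a conflict -/
theorem qadj_of_cr {a b y : V} (hab : a ≠ b) (ha : y ∈ cr G X a) (hb : y ∈ cr G X b) :
    qadj G X a b := by
  rw [mem_cr] at ha hb
  refine ⟨?_, hab, Or.inr ⟨y, ha.1, hb.1.symm⟩⟩
  have h1 := ha.2
  have h2 := hb.2
  tauto

theorem side_of_cr {a b y : V} (ha : y ∈ cr G X a) (hb : y ∈ cr G X b) : X a ↔ X b := by
  have h1 := (mem_cr.mp ha).2
  have h2 := (mem_cr.mp hb).2
  tauto

section

variable (hX : NoMono G X) (hcub : ∀ v, (univ.filter fun b => G.Adj v b).card = 3)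

theorem StuckZ.core (h : StuckZ G X Z S) {v : V} (hv : v ∈ S) : CoreAt G X S v := by
  have h1 := h.2 v hv
  have h2 := crW_card_le (G := G) (X := X) (W := Z) v
  unfold CoreAt
  omega

theorem crW_sub {v : V} : crW G.Adj X Z v ⊆ cr G X v := by
  intro b hb
  unfold crW at hb
  rw [Finset.mem_filter] at hb
  exact mem_cr.mpr hb.2

include hX hcub in
/-- an inner vertex of a stuck set: its cross neighbour is in `Z` -/
theorem StuckZ.inner_cr (h : StuckZ G X Z S) (hst : ∀ v, StarAt G X v) {v : V} (hv : v ∈ S)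
    (h3 : cc G X v = 3) {y : V} (hy : y ∈ cr G X v) : y ∈ Z := by
  have h1 := (cc_three hX hcub).mp h3
  obtain ⟨_, _, _, h4⟩ := core_I hX (fun v => (hcub v).le) (h.core hv) (hst v) h1
  have h5 := h.2 v hv
  have h6 : crW G.Adj X Z v = cr G X v :=
    Finset.eq_of_subset_of_card_le crW_sub (by omega)
  rw [← h6] at hy
  unfold crW at hy
  exact (Finset.mem_filter.mp hy).1

include hX hcub in
theorem StuckZ.inner_own (h : StuckZ G X Z S) (hst : ∀ v, StarAt G X v) {v : V} (hv : v ∈ S)
    (h3 : cc G X v = 3) {u : V} (hu : ownR G X v u) : u ∈ S := by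
  have h1 := (cc_three hX hcub).mp h3
  obtain ⟨_, h2, _, _⟩ := core_I hX (fun v => (hcub v).le) (h.core hv) (hst v) h1
  exact h2 u (mem_ow_iff.mpr hu)

include hX hcub in
/-- all conflicts of an inner vertex are in `S` -/
theorem StuckZ.inner_q (h : StuckZ G X Z S) (hst : ∀ v, StarAt G X v) {v : V} (hv : v ∈ S)
    (h3 : cc G X v = 3) {u : V} (hu : qadj G X u v) : u ∈ S := by
  have h1 := (cc_three hX hcub).mp h3
  obtain ⟨_, h2, h4, _⟩ := core_I hX (fun v => (hcub v).le) (h.core hv) (hst v) h1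
  rcases qadj_cases hX hu with h5 | ⟨w, hw, rfl⟩
  · exact h2 u h5
  · exact h4 w hw

include hX hcub in
theorem StuckZ.inner_pt (h : StuckZ G X Z S) (hst : ∀ v, StarAt G X v) {v : V} (hv : v ∈ S)
    (h3 : cc G X v = 3) : (pt G X v).card = 2 ∧ Dq G X S v = 4 := by
  have h1 := (cc_three hX hcub).mp h3
  obtain ⟨h2, _, _, h4⟩ := core_I hX (fun v => (hcub v).le) (h.core hv) (hst v) h1
  exact ⟨h2, h4⟩

include hX hcub in
theorem StuckZ.end_dq (h : StuckZ G X Z S) {v : V} (hv : v ∈ S) (h2 : cc G X v = 2) :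
    3 ≤ Dq G X S v ∧ Dq G X S v ≤ 4 ∧ (Dq G X S v = 3 → ∀ y ∈ cr G X v, y ∈ Z) := by
  have h1 := (cc_two hX hcub).mp h2
  have h3 := h.2 v hv
  have h4 : (crW G.Adj X Z v).card ≤ (cr G X v).card := Finset.card_le_card crW_sub
  have h5 := le4_of hX hcub (S := S) h2
  rw [dg_QE hv] at h5
  refine ⟨by omega, h5, fun h6 y hy => ?_⟩
  have h7 : crW G.Adj X Z v = cr G X v :=
    Finset.eq_of_subset_of_card_le crW_sub (by omega)
  rw [← h7] at hy
  unfold crW at hy
  exact (Finset.mem_filter.mp hy).1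

include hX hcub in
/-- a link of two vertices of `Z` is in `Z` -/
theorem InvZ.link (hI : InvZ G X Z) {a b y : V} (ha : a ∈ Z) (hb : b ∈ Z) (hab : a ≠ b)
    (hya : y ∈ cr G X a) (hyb : y ∈ cr G X b) :
    y ∈ Z ∧ cc G X y = 2 ∧ cr G X y = {a, b} := by
  have h1 := mem_crs.mp hya
  have h2 := mem_crs.mp hyb
  have h3 : ({a, b} : Finset V) ⊆ cr G X y := by
    intro z hz
    rw [Finset.mem_insert, Finset.mem_singleton] at hz
    rcases hz with rfl | rfl
    · exact h1
    · exact h2
  have h4 := Finset.card_le_card h3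
  rw [Finset.card_pair hab] at h4
  have h5 := cr_bounds hX hcub y
  have h6 : cr G X y = {a, b} := by
    symm
    exact Finset.eq_of_subset_of_card_le h3 (by rw [Finset.card_pair hab]; omega)
  have h7 : cc G X y = 2 := (cc_two hX hcub).mpr (by omega)
  refine ⟨?_, h7, h6⟩
  by_contra hy
  obtain ⟨x, hx1, hx2, hx3⟩ := hI.crs y hy h7
  have h8 : x ∈ cr G X y := mem_cr.mpr ⟨hx1, hx2⟩
  rw [h6, Finset.mem_insert, Finset.mem_singleton] at h8
  rcases h8 with rfl | rfl
  · exact hx3 ha
  · exact hx3 hb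

include hX hcub in
/-- the two own neighbours of an inner vertex -/
theorem inner_own_pair {v : V} (h3 : cc G X v = 3) : ∃ a b, a ≠ b ∧ ow G X v = {a, b} ∧
    ownR G X v a ∧ ownR G X v b := by
  have h1 := (cc_three hX hcub).mp h3
  have h2 := cr_ow (X := X) hcub v
  obtain ⟨a, b, hab, he⟩ := Finset.card_eq_two.mp (by omega : (ow G X v).card = 2)
  exact ⟨a, b, hab, he, mem_ow_iff.mp (by rw [he]; simp), mem_ow_iff.mp (by rw [he]; simp)⟩

include hX hcub in
/-- the own neighbour of an end -/
theorem end_own {v : V} (h2 : cc G X v = 2) : ∃ a, ow G X v = {a} ∧ ownR G X v a := by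
  have h1 := (cc_two hX hcub).mp h2
  have h3 := cr_ow (X := X) hcub v
  obtain ⟨a, he⟩ := Finset.card_eq_one.mp (by omega : (ow G X v).card = 1)
  exact ⟨a, he, mem_ow_iff.mp (by rw [he]; simp)⟩

include hX hcub in
/-- the cross neighbours of an end -/
theorem end_cr {v y z : V} (h2 : cc G X v = 2) (hy : y ∈ cr G X v) (hz : z ∈ cr G X v)
    (hyz : y ≠ z) : cr G X v = {y, z} := by
  have h1 := (cc_two hX hcub).mp h2
  have h3 : ({y, z} : Finset V) ⊆ cr G X v := by
    intro w hw
    rw [Finset.mem_insert, Finset.mem_singleton] at hw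
    rcases hw with rfl | rfl
    · exact hy
    · exact hz
  symm
  exact Finset.eq_of_subset_of_card_le h3 (by rw [Finset.card_pair hyz]; omega)

include hX hcub in
/-- the cross neighbour of an inner vertex -/
theorem inner_cr_eq {v y : V} (h3 : cc G X v = 3) (hy : y ∈ cr G X v) : cr G X v = {y} := by
  have h1 := (cc_three hX hcub).mp h3
  obtain ⟨z, hz⟩ := Finset.card_eq_one.mp h1
  rw [hz, Finset.mem_singleton] at hy
  rw [hz, hy]

include hX hcub in
theorem inner_cr_unique {v y z : V} (h3 : cc G X v = 3) (hy : y ∈ cr G X v)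
    (hz : z ∈ cr G X v) : y = z := by
  have h1 := inner_cr_eq hX hcub h3 hy
  rw [h1, Finset.mem_singleton] at hz
  exact hz.symm

include hX hcub in
/-- both own neighbours inner: the cross neighbour has no further neighbour on the side of `v` -/
theorem StuckZ.beta (h : StuckZ G X Z S) (hst : ∀ v, StarAt G X v) {v a b y : V} (hv : v ∈ S)
    (h3 : cc G X v = 3) (hab : a ≠ b) (ha : ownR G X v a) (hb : ownR G X v b)
    (ha3 : cc G X a = 3) (hb3 : cc G X b = 3) (hy : y ∈ cr G X v) :
    cc G X y = 3 ∧ cr G X y = {v} ∧ y ∈ Z := by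
  obtain ⟨h1, _⟩ := h.inner_pt hX hcub hst hv h3
  have hpa : a ∈ pt G X v := by
    by_contra hn
    have := cc_of_not_pt hX hcub ha hn
    omega
  have hpb : b ∈ pt G X v := by
    by_contra hn
    have := cc_of_not_pt hX hcub hb hn
    omega
  have hpt : pt G X v = {a, b} := by
    symm
    refine Finset.eq_of_subset_of_card_le ?_ (by rw [Finset.card_pair hab]; omega)
    intro w hw
    rw [Finset.mem_insert, Finset.mem_singleton] at hw
    rcases hw with rfl | rfl
    · exact hpa
    · exact hpb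
  have hy' := mem_cr.mp hy
  have hyn : y ∉ pt G X v := by
    rw [hpt, Finset.mem_insert, Finset.mem_singleton]
    rintro (rfl | rfl)
    · exact hy'.2 ha.2.symm
    · exact hy'.2 hb.2.symm
  have hvy := mem_crs.mp hy
  have hcr : cr G X y = {v} := by
    ext z
    rw [Finset.mem_singleton]
    constructor
    · intro hz
      by_contra hne
      have hz' := mem_cr.mp hz
      refine hyn (mem_pt.mpr ⟨hy'.1, z, hne, hz'.1, ?_⟩)
      have h5 := hz'.2
      have h6 := hy'.2
      tauto
    · rintro rfl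
      exact hvy
  refine ⟨?_, hcr, h.inner_cr hX hcub hst hv h3 hy⟩
  rw [cc_three hX hcub, hcr, Finset.card_singleton]

include hX hcub in
/-- one own neighbour is an end: the cross neighbour is a link -/
theorem StuckZ.alpha (h : StuckZ G X Z S) (hst : ∀ v, StarAt G X v) {v a y : V} (hv : v ∈ S)
    (h3 : cc G X v = 3) (ha : ownR G X v a) (ha2 : cc G X a = 2) (hy : y ∈ cr G X v) :
    (∃ p, p ≠ v ∧ p ∈ S ∧ cr G X y = {v, p} ∧ (X p ↔ X v) ∧ G.Adj y p) ∧ cc G X y = 2 ∧ y ∈ Z ∧
      ∀ b, ownR G X v b → b ≠ a → cc G X b = 3 := by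
  obtain ⟨h1, _⟩ := h.inner_pt hX hcub hst hv h3
  obtain ⟨a', b, hab, how, hoa, hob⟩ := inner_own_pair hX hcub h3
  -- choose names such that `a' = a`
  have hmain : ∀ b, b ≠ a → ow G X v = {a, b} →
      (∃ p, p ≠ v ∧ p ∈ S ∧ cr G X y = {v, p} ∧ (X p ↔ X v) ∧ G.Adj y p) ∧ cc G X y = 2 ∧
        y ∈ Z ∧ ∀ b, ownR G X v b → b ≠ a → cc G X b = 3 := by
    intro b hba how
    have hy' := mem_cr.mp hy
    have hvy := mem_crs.mp hy
    have hna : a ∉ pt G X v := by
      intro hpa
      have := (cc_of_pt hX hcub ha hpa).1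
      omega
    have hsub : pt G X v ⊆ {b, y} := by
      intro w hw
      have hw' := mem_pt.mp hw
      rw [Finset.mem_insert, Finset.mem_singleton]
      by_cases hs : X w ↔ X v
      · left
        have h5 : w ∈ ow G X v := mem_ow.mpr ⟨hw'.1, hs⟩
        rw [how, Finset.mem_insert, Finset.mem_singleton] at h5
        rcases h5 with rfl | rfl
        · exact absurd hw hna
        · rfl
      · right
        exact inner_cr_unique hX hcub h3 (mem_cr.mpr ⟨hw'.1, hs⟩) hy
    have hby : b ≠ y := by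
      rintro rfl
      have h5 : b ∈ ow G X v := by rw [how]; simp
      exact hy'.2 (mem_ow.mp h5).2
    have hpt : pt G X v = {b, y} :=
      Finset.eq_of_subset_of_card_le hsub (by rw [Finset.card_pair hby]; omega)
    have hyp : y ∈ pt G X v := by rw [hpt]; simp
    obtain ⟨_, p, hpv, hyp1, hpX⟩ := mem_pt.mp hyp
    have hpq : qadj G X p v := ⟨hpX, hpv, Or.inr ⟨y, hyp1.symm, hy'.1.symm⟩⟩
    have hpS := h.inner_q hX hcub hst hv h3 hpq
    have hpy : p ∈ cr G X y := by
      refine mem_cr.mpr ⟨hyp1, ?_⟩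
      have h6 := hy'.2
      tauto
    have hb5 := cr_bounds hX hcub y
    have hcr : cr G X y = {v, p} := by
      symm
      refine Finset.eq_of_subset_of_card_le ?_ (by rw [Finset.card_pair hpv.symm]; omega)
      intro w hw
      rw [Finset.mem_insert, Finset.mem_singleton] at hw
      rcases hw with rfl | rfl
      · exact hvy
      · exact hpy
    refine ⟨⟨p, hpv, hpS, hcr, hpX, hyp1⟩, ?_, h.inner_cr hX hcub hst hv h3 hy, ?_⟩
    · rw [cc_two hX hcub, hcr, Finset.card_pair hpv.symm]
    · intro c hc hca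
      have hcb : c = b := by
        have h7 := mem_ow_iff.mpr hc
        rw [how, Finset.mem_insert, Finset.mem_singleton] at h7
        rcases h7 with h7 | h7
        · exact absurd h7 hca
        · exact h7
      subst hcb
      exact (cc_of_pt hX hcub hc (by rw [hpt]; simp)).1
  have haw := mem_ow_iff.mpr ha
  rw [how, Finset.mem_insert, Finset.mem_singleton] at haw
  rcases haw with rfl | rfl
  · exact hmain b hab.symm how
  · exact hmain a' hab (by rw [how, Finset.pair_comm])

end

end Helper33.L9
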