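import Pool.Agent.helper33.L9.Minus

/-!
# The side of the roots: reduction to networks

`C`: the own component of the roots (own-closed, contains all vertices of the side which are not
far).  `K`: edges on `C` which contain all own edges of `C` inside `S'`.
-/

set_option linter.unusedSimpArgs false
set_option linter.unusedSectionVars false

namespace Helper33.Off

open Finset Classical Helper42.L9 Helper33.L9 Helper97.L9
open Helper19.DN (EZ ED TE slZ slD cZ)

variable {V : Type*} [Fintype V] {G : SimpleGraph V} {X D C : V → Prop} {Z S S' : Finset V}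
  {s : Prop} {K : Multiset (Sym2 V)}

/-- the ordinary vertices -/
def NC (X : V → Prop) (s : Prop) (C : V → Prop) (v : V) : Prop := (X v ↔ s) ∧ ¬ C v

theorem NC.closed (hcl : ∀ u v, ownR G X u v → C u → C v) {u v : V} (huv : ownR G X u v)
    (hu : NC X s C u) : NC X s C v :=
  ⟨huv.2.symm.trans hu.1, fun hv => hu.2 (hcl v u (ownR_symm huv) hv)⟩

/-- **The side of the roots.** -/
theorem plus_net (hcub : ∀ v, (univ.filter fun b => G.Adj v b).card = 3) (h : StA G X D)
    (hcl : ∀ u v, ownR G X u v → C u → C v) (hfar : ∀ v, (X v ↔ s) → ¬ C v → Far G D v)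
    (hK : ∀ e ∈ K, ∀ v ∈ e, C v) (hKl : ∀ e ∈ K, ¬ e.IsDiag) (hside : ∀ v ∈ S', (X v ↔ s))
    (hE : ENetX (ownN G X (NC X s C)) (cN G X (NC X s C)) (c3 G X D) (QE G X S').val)
    (hfin : ∀ R : Multiset (Sym2 V), (∀ e ∈ R, ¬ e.IsDiag) →
      (∀ v, C v → dg R v ≤ dg (LK G X S' K) v) → (∀ v, ¬ C v → dg R v ≤ 3) →
      (∀ v, ¬ C v → cc G X v = 3 → dg R v = 0) → (∀ v, ¬ (X v ↔ s) → dg R v = 0) →
      (∀ a b d e, ¬ C a → ¬ C b → ¬ C d → ¬ C e → [a, b, d, e].Nodup → s(a, b) ∈ R →
        s(a, d) ∈ R → s(a, e) ∈ R → s(b, d) ∈ R → s(b, e) ∈ R → s(d, e) ∈ R → False) →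
      AT (K + R) (c3 G X D)) :
    AT (QE G X S').val (c3 G X D) := by
  set N := NC X s C with hN
  set z : Fin 0 → Fin 4 → V := fun j => j.elim0 with hz
  have hNcl : ∀ u v, ownR G X u v → N u → N v := fun u v huv hu => NC.closed hcl huv hu
  have hTE : TE EZ z = 0 := by
    unfold TE
    simp
  have hC : Cells (cN G X N) (c3 G X D) K z (fun v => dg (LK G X S' K) v) :=
    { inj := fun j => j.elim0
      ex := fun j => j.elim0
      cap := fun j => j.elim0
      eb := fun e he v hv hn => (nf_iff.mp hn).2 (hK e he v hv)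
      ebz := fun j => j.elim0
      slz := fun j => j.elim0 }
  obtain ⟨E', hE'K, hE'⟩ := exists_rest (G := G) (X := X) (S := S') K
  have hE2 : ENetX (ownN G X N) (cN G X N) (c3 G X D) (K + LK G X S' K) := by
    rw [hE']
    refine enetx_add hE (fun e he v hv hn => ?_) (fun e he => ?_)
    · exact (nf_iff.mp hn).2 (hK e (Multiset.mem_of_le hE'K he) v hv)
    · exact hKl e (Multiset.mem_of_le hE'K he)
  have h2 : ∀ v, cN G X N v = 2 → dg (LL G X N S' K) v ≤ 2 := by
    intro v hv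
    obtain ⟨nv, _⟩ := cN_two hv
    have hfr := h.fr_of_far (hfar v nv.1 nv.2)
    refine (dg_LL_le hNcl nv fun y hy => hfr.nb y (mem_cr.mp hy).1).trans ?_
    exact (cr_bounds hcub v hfr.self).2
  have h0 : Inv0 (ownN G X N) (cN G X N) K z
      (fun v => dg (LK G X S' K) v) univ (LL G X N S' K) (OO G X N S' K)
      (K + LK G X S' K) := by
    refine
      { eq := ?_
        exO := ?_
        typ := ?_
        slots := ?_
        dead := fun j hj => absurd (Finset.mem_univ j) hj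
        ph := Or.inl h2
        tri := noTri_of_dg hC h2 }
    · rw [LK_split (N := N) K]
      simp
    · intro e he v hv
      induction e with
      | _ x y =>
        obtain ⟨_, _, h3⟩ := mem_OO.mp he
        have : N x ∧ N y := by
          rcases h3 with h3 | ⟨w, h3, h4⟩
          · exact ⟨h3.2.1, h3.2.2⟩
          · exact ⟨h3.2.1, h4.2.2⟩
        rcases Sym2.mem_iff.mp hv with rfl | rfl
        · exact nf_iff.mpr this.1
        · exact nf_iff.mpr this.2
    · intro x y he
      obtain ⟨hq, _, h3⟩ := mem_OO.mp he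
      rcases h3 with h3 | ⟨w, h3, h4⟩
      · exact Or.inl h3
      · refine Or.inr (Or.inl ⟨w, h3, h4, ?_⟩)
        rw [cN_pos h3.2.2]
        rcases cc_cap (G := G) (X := X) w with h5 | h5
        · exfalso
          have := own_one hcub h5 h3.symm.1 h4.1
          exact (qadj_ne (mem_QE.mp hq).2.2) this
        · exact h5
    · intro v _
      exact dg_le_of_le (by rw [LK_split (N := N) K]; exact Multiset.le_add_right _ _) v
  refine AT.of_le (hE2.at_cells hC h0 ?_) (QE_le_LK K)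
  intro R hRl hRs hR2 hR3 hR4 _
  rw [hTE, zero_add]
  have oth : ∀ v, ¬ (X v ↔ s) → dg R v = 0 := by
    intro v hv
    have h1 := hRs v (fun hn => hv (nf_iff.mp hn).1)
    have h2 : v ∉ S' := fun hvS => hv (hside v hvS)
    have h3 := dg_le_of_le (LK_le (G := G) (X := X) (S := S') (K := K)) v
    rw [dg_QE_notMem h2] at h3
    omega
  have deg : ∀ v, ¬ C v → (dg R v ≤ 3 ∧ (cc G X v = 3 → dg R v = 0)) := by
    intro v hv
    by_cases hs : X v ↔ s
    · have nv : N v := ⟨hs, hv⟩
      rcases cc_cap (G := G) (X := X) v with h1 | h1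
      · exact ⟨hR2 v (by rw [cN_pos nv]; exact h1), fun h2 => by omega⟩
      · have h4 := hR3 v (by rw [cN_pos nv]; exact h1)
        exact ⟨by omega, fun _ => h4⟩
    · have h4 := oth v hs
      exact ⟨by omega, fun _ => h4⟩
  have big : ∀ v, ¬ C v → 3 ≤ dg R v → cN G X N v = 2 := by
    intro v hv hd
    by_cases hs : X v ↔ s
    · have nv : N v := ⟨hs, hv⟩
      rw [cN_pos nv]
      rcases cc_cap (G := G) (X := X) v with h1 | h1
      · exact h1
      · have := (deg v hv).2 h1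
        omega
    · have := oth v hs
      omega
  refine hfin R hRl (fun v hv => hRs v (fun hn => (nf_iff.mp hn).2 hv)) (fun v hv => (deg v hv).1)
    (fun v hv => (deg v hv).2) oth ?_
  intro a b d e ha hb hd he hn m1 m2 m3 m4 m5 m6
  have hn' := hn
  simp only [List.nodup_cons, List.mem_cons, List.not_mem_nil, or_false, not_or,
    List.nodup_nil, and_true, not_false_eq_true] at hn'
  obtain ⟨⟨n1, n2, n3⟩, ⟨n4, n5⟩, n6⟩ := hn'
  exact hR4 a b d e (big a ha (Helper19.DN.three_le_dg n4 n5 n6 m1 m2 m3))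
    (big b hb (Helper19.DN.three_le_dg n2 n3 n6 (mem_swap' m1) m4 m5))
    (big d hd (Helper19.DN.three_le_dg n1 n3 n5 (mem_swap' m2) (mem_swap' m4) m6))
    (big e he (Helper19.DN.three_le_dg n1 n2 n4 (mem_swap' m3) (mem_swap' m5) (mem_swap' m6)))
    hn m1 m2 m3 m4 m5 m6

/-- conflicts of a vertex of `C` which are not in `K` are links -/
theorem LK_link (hcl : ∀ u v, ownR G X u v → C u → C v)
    (hKo : ∀ x y, C x → C y → x ≠ y → (ownR G X x y ∨ ∃ w, ownR G X x w ∧ ownR G X w y) →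
      s(x, y) ∈ K) {v z : V} (cv : C v) (hq : qadj G X z v) (hn : s(v, z) ∉ K) :
    ∃ y, y ∈ cr G X v ∧ y ∈ cr G X z := by
  obtain ⟨hs, hne, hadj | ⟨w, hw1, hw2⟩⟩ := hq
  · exfalso
    have h1 : ownR G X v z := ⟨hadj.symm, hs.symm⟩
    exact hn (hKo v z cv (hcl _ _ h1 cv) hne.symm (Or.inl h1))
  · by_cases hw : X w ↔ X v
    · exfalso
      have h1 : ownR G X v w := ⟨hw2.symm, hw.symm⟩
      have nw := hcl _ _ h1 cv
      have h2 : ownR G X w z := ⟨hw1.symm, hw.trans hs.symm⟩
      exact hn (hKo v z cv (hcl _ _ h2 nw) hne.symm (Or.inr ⟨w, h1, h2⟩))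
    · exact ⟨w, mem_cr.mpr ⟨hw2.symm, hw⟩, mem_cr.mpr ⟨hw1, fun hh => hw (hh.trans hs)⟩⟩

/-- the links of a vertex of `C` -/
theorem dg_LK_C (hcl : ∀ u v, ownR G X u v → C u → C v)
    (hKo : ∀ x y, C x → C y → x ≠ y → (ownR G X x y ∨ ∃ w, ownR G X x w ∧ ownR G X w y) →
      s(x, y) ∈ K) {v : V} (cv : C v) (T : Finset V) (hT : ∀ y ∈ T, NM G X y)
    (hcr : ∀ y ∈ cr G X v, y ∉ T → ∀ z ∈ S', z ≠ v → y ∈ cr G X z → s(v, z) ∈ K) :
    dg (LK G X S' K) v ≤ T.card := by
  refine dg_LK_le T hT ?_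
  intro _ z hz hq hn
  obtain ⟨y, h1, h2⟩ := LK_link hcl hKo cv hq hn
  by_cases hy : y ∈ T
  · exact ⟨y, hy, h1, h2⟩
  · exact absurd (hcr y h1 hy z hz (qadj_ne hq) h2) hn

end Helper33.Off
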