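import Pool.Agent.helper33.L9.Cert
import Pool.Agent.helper42.L9.Path

/-!
# Blocks for the contraction of unit systems

* `at_ring`: a ring of `P_4`-middles, reduced to a double edge
* `at_block6`: `K_4` with one edge subdivided twice (a `P_4`-wire), caps `2,2,2,2,1,1`
* `at_block8`: `P_5` with chord `v_2 v_5` and a triangle at `v_4, v_1, v_1`
* `at_block8'`: `P_5` with chord `v_1 v_4` and a triangle at `v_2, v_5, v_5`
* `at_block11`: `P_5` with a triangle at `v_2, v_5, v_5` and a triangle at `v_4, v_1, v_1`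
-/

namespace Helper33.L9

open Helper42.L9

variable {V : Type*}

/-- certificate for a list of different vertices -/
theorem AT.certL (l : List V) (hn : l.Nodup) (K : List (Fin l.length × Fin l.length))
    (τ : Fin l.length → ℕ) (hK : co K τ ≠ 0) (c : V → ℕ) (hc : ∀ i, τ i ≤ c (l.get i)) :
    AT (K.map (fun p => s(l.get p.1, l.get p.2)) : List (Sym2 V)) c :=
  AT.cert l.get (List.nodup_iff_injective_get.mp hn) K τ hK c hc

/-- `a b p q u v = 0 .. 5`, `K_4` on `a b p q` with the wire `a - u - v - b` -/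
def k4wire : List (Fin 6 × Fin 6) := [(0,2),(0,3),(1,2),(1,3),(2,3),(0,4),(4,5),(5,1)]

theorem co_k4wire : co k4wire ![2,2,1,2,1,0] ≠ 0 := by decide +kernel

theorem at_block6 {a b p q u v : V} (hn : [a,b,p,q,u,v].Nodup) {c : V → ℕ} (ha : 2 ≤ c a)
    (hb : 2 ≤ c b) (hp : 2 ≤ c p) (hq : 2 ≤ c q) (hu : 1 ≤ c u) (_hv : 1 ≤ c v) :
    AT ({s(a,p),s(a,q),s(b,p),s(b,q),s(p,q),s(a,u),s(u,v),s(v,b)} : Multiset (Sym2 V)) c := by
  have h := AT.certL [a,b,p,q,u,v] hn k4wire ![2,2,1,2,1,0] co_k4wire c (by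
    intro i
    fin_cases i <;> simp <;> omega)
  exact h

/-- `v1 .. v5 = 0 .. 4`, triangle `a p q = 5 6 7`, chord `v1 v4` -/
def p14 : List (Fin 8 × Fin 8) :=
  [(0,1),(0,2),(1,2),(1,3),(2,3),(2,4),(3,4),(0,3),(1,5),(4,6),(4,7),(5,6),(5,7),(6,7)]

theorem co_p14 : co p14 ![1,1,3,2,2,2,2,1] ≠ 0 := by decide +kernel

theorem at_block8' {v1 v2 v3 v4 v5 a p q : V} (hn : [v1,v2,v3,v4,v5,a,p,q].Nodup) {c : V → ℕ}
    (h1 : 1 ≤ c v1) (h2 : 3 ≤ c v2) (h3 : 3 ≤ c v3) (h4 : 3 ≤ c v4) (h5 : 2 ≤ c v5)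
    (ha : 2 ≤ c a) (hp : 2 ≤ c p) (hq : 2 ≤ c q) :
    AT ({s(v1,v2),s(v1,v3),s(v2,v3),s(v2,v4),s(v3,v4),s(v3,v5),s(v4,v5),s(v1,v4),s(v2,a),
      s(v5,p),s(v5,q),s(a,p),s(a,q),s(p,q)} : Multiset (Sym2 V)) c := by
  have h := AT.certL [v1,v2,v3,v4,v5,a,p,q] hn p14 ![1,1,3,2,2,2,2,1] co_p14 c (by
    intro i
    fin_cases i <;> simp <;> omega)
  exact h

/-- `v1 .. v5 = 0 .. 4`, triangle `b x y = 5 6 7`, chord `v2 v5` -/
def p25 : List (Fin 8 × Fin 8) :=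
  [(0,1),(0,2),(1,2),(1,3),(2,3),(2,4),(3,4),(1,4),(3,5),(0,6),(0,7),(5,6),(5,7),(6,7)]

theorem co_p25 : co p25 ![2,2,3,1,1,2,2,1] ≠ 0 := by decide +kernel

theorem at_block8 {v1 v2 v3 v4 v5 b x y : V} (hn : [v1,v2,v3,v4,v5,b,x,y].Nodup) {c : V → ℕ}
    (h1 : 2 ≤ c v1) (h2 : 3 ≤ c v2) (h3 : 3 ≤ c v3) (h4 : 3 ≤ c v4) (h5 : 1 ≤ c v5)
    (hb : 2 ≤ c b) (hx : 2 ≤ c x) (hy : 2 ≤ c y) :
    AT ({s(v1,v2),s(v1,v3),s(v2,v3),s(v2,v4),s(v3,v4),s(v3,v5),s(v4,v5),s(v2,v5),s(v4,b),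
      s(v1,x),s(v1,y),s(b,x),s(b,y),s(x,y)} : Multiset (Sym2 V)) c := by
  have h := AT.certL [v1,v2,v3,v4,v5,b,x,y] hn p25 ![2,2,3,1,1,2,2,1] co_p25 c (by
    intro i
    fin_cases i <;> simp <;> omega)
  exact h

/-- `v1 .. v5 = 0 .. 4`, triangle `a p q = 5 6 7`, triangle `b x y = 8 9 10` -/
def p5tt : List (Fin 11 × Fin 11) :=
  [(0,1),(0,2),(1,2),(1,3),(2,3),(2,4),(3,4),(1,5),(4,6),(4,7),(5,6),(5,7),(6,7),(3,8),(0,9),
   (0,10),(8,9),(8,10),(9,10)]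

theorem co_p5tt : co p5tt ![1,1,2,3,2,2,1,2,2,1,2] ≠ 0 := by decide +kernel

theorem at_block11 {v1 v2 v3 v4 v5 a p q b x y : V} (hn : [v1,v2,v3,v4,v5,a,p,q,b,x,y].Nodup)
    {c : V → ℕ} (h1 : 2 ≤ c v1) (h2 : 3 ≤ c v2) (h3 : 3 ≤ c v3) (h4 : 3 ≤ c v4) (h5 : 2 ≤ c v5)
    (ha : 2 ≤ c a) (hp : 2 ≤ c p) (hq : 2 ≤ c q) (hb : 2 ≤ c b) (hx : 2 ≤ c x) (hy : 2 ≤ c y) :
    AT ({s(v1,v2),s(v1,v3),s(v2,v3),s(v2,v4),s(v3,v4),s(v3,v5),s(v4,v5),s(v2,a),s(v5,p),s(v5,q),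
      s(a,p),s(a,q),s(p,q),s(v4,b),s(v1,x),s(v1,y),s(b,x),s(b,y),s(x,y)} : Multiset (Sym2 V))
      c := by
  have h := AT.certL [v1,v2,v3,v4,v5,a,p,q,b,x,y] hn p5tt ![1,1,2,3,2,2,1,2,2,1,2] co_p5tt c (by
    intro i
    fin_cases i <;> simp <;> omega)
  exact h

section ring

open MvPolynomial

/-- two adjacent vertices with a double edge and two further edges each pay everything -/
theorem at_ring {u v s t s' t' : V} {N : Multiset (Sym2 V)} {c : V → ℕ} (huv : u ≠ v)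
    (hsu : s ≠ u) (hsv : s ≠ v) (htu : t ≠ u) (htv : t ≠ v)
    (hsu' : s' ≠ u) (hsv' : s' ≠ v) (htu' : t' ≠ u) (htv' : t' ≠ v)
    (hNu : ∀ e ∈ N, u ∉ e) (hNv : ∀ e ∈ N, v ∉ e)
    (h : AT N c) (hu : 3 ≤ c u) (hv : 3 ≤ c v) :
    AT (s(u,v) ::ₘ s(u,v) ::ₘ s(u,s) ::ₘ s(u,t) ::ₘ s(v,s') ::ₘ s(v,t') ::ₘ N) c := by
  unfold AT at h ⊢
  have fu := fr_gp hNu
  have fv := fr_gp hNv
  set R := (X u - X s) * ((X u - X t) * gp N) with hR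
  have fR : Fr v R := by
    have h1 : Fr v (X u : MvPolynomial V ℤ) := fr_X huv
    exact (h1.sub (fr_X hsv)).mul ((h1.sub (fr_X htv)).mul fv)
  set P := (X v - X u) * ((X v - X u) * ((X v - X s') * ((X v - X t') * R))) with hP
  have key : gp (s(u,v) ::ₘ s(u,v) ::ₘ s(u,s) ::ₘ s(u,t) ::ₘ s(v,s') ::ₘ s(v,t') ::ₘ N) = P ∨
      gp (s(u,v) ::ₘ s(u,v) ::ₘ s(u,s) ::ₘ s(u,t) ::ₘ s(v,s') ::ₘ s(v,t') ::ₘ N) = -P := by
    have h1 := gp_pairs [(u, v), (u, v), (u, s), (u, t), (v, s'), (v, t')] N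
    have h2 : (([(u, v), (u, v), (u, s), (u, t), (v, s'), (v, t')].map
        fun p => (X p.1 - X p.2 : MvPolynomial V ℤ)).prod * gp N) = P := by
      simp only [List.map_cons, List.map_nil, List.prod_cons, List.prod_nil, hP, hR]
      ring
    rw [h2] at h1
    simpa only [List.map_cons, List.map_nil, ← Multiset.cons_coe, Multiset.coe_nil,
      Multiset.cons_add, zero_add] using h1
  refine sup_congr_sign key ?_
  refine Sup.of_cf' (k := 3) (v := v) ?_ hv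
  rw [hP, cf4_3 (fr_X huv) (fr_X huv) (fr_X hsv') (fr_X htv') fR]
  refine Sup.of_cf' (k := 3) (v := u) ?_ hu
  have e1 : -(X u + X u + X s' + X t') * R = -(X u * R + (X u * R + (X s' + X t') * R)) := by
    ring
  have f3 : Fr u (X s' + X t' : MvPolynomial V ℤ) := (fr_X hsu').add (fr_X htu')
  rw [e1, map_neg, map_add, map_add, cf_X_mul_succ u 2, cf_mul _ f3, hR,
    cf2_2 (fr_X hsu) (fr_X htu) fu, cf2_big (fr_X hsu) (fr_X htu) fu 0, mul_zero, add_zero]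
  obtain ⟨m, hm, hne⟩ := h
  refine ⟨m, hm, ?_⟩
  rw [coeff_neg, coeff_add]
  omega

end ring

end Helper33.L9
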