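import Pool.Agent.helper42.L9.LemmaE

/-!
# Certificates for the Alon-Tarsi property of small multigraphs

`co K τ` computes (in the kernel) the coefficient of the monomial `τ` in the product of the
differences along the list `K` of pairs; `AT.cert` transports it along an injection.
-/

namespace Helper33.L9

open MvPolynomial Finset Helper42.L9

variable {V : Type*}

/-- coefficient of `x^τ` in `∏ (x_a - x_b)` over the list -/
def co {n : ℕ} : List (Fin n × Fin n) → (Fin n → ℕ) → ℤ
  | [], τ => if ∀ i, τ i = 0 then 1 else 0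
  | (a, b) :: K, τ =>
    (if τ a = 0 then 0 else co K (fun i => if i = a then τ i - 1 else τ i)) -
    (if τ b = 0 then 0 else co K (fun i => if i = b then τ i - 1 else τ i))

/-- the exponent vector as a finitely supported function -/
noncomputable def fs {n : ℕ} (f : Fin n → V) (τ : Fin n → ℕ) : V →₀ ℕ :=
  ∑ i, Finsupp.single (f i) (τ i)

theorem fs_apply {n : ℕ} {f : Fin n → V} (hf : Function.Injective f) (τ : Fin n → ℕ)
    (i : Fin n) : fs f τ (f i) = τ i := by
  classical
  unfold fs
  rw [Finsupp.finsetSum_apply, Finset.sum_eq_single i]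
  · simp
  · intro j _ hj
    rw [Finsupp.single_apply, if_neg fun h => hj (hf h)]
  · intro h; exact absurd (Finset.mem_univ i) h

theorem fs_notMem {n : ℕ} {f : Fin n → V} (τ : Fin n → ℕ) {v : V} (hv : ∀ i, f i ≠ v) :
    fs f τ v = 0 := by
  classical
  unfold fs
  rw [Finsupp.finsetSum_apply]
  exact Finset.sum_eq_zero fun j _ => by rw [Finsupp.single_apply, if_neg (hv j)]

theorem fs_sub {n : ℕ} {f : Fin n → V} (hf : Function.Injective f) (τ : Fin n → ℕ) (a : Fin n) :
    fs f τ - Finsupp.single (f a) 1 = fs f (fun i => if i = a then τ i - 1 else τ i) := by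
  classical
  ext v
  by_cases hv : ∃ i, f i = v
  · obtain ⟨i, rfl⟩ := hv
    rw [Finsupp.tsub_apply, fs_apply hf, fs_apply hf, Finsupp.single_apply]
    by_cases h : i = a
    · subst h; simp
    · rw [if_neg fun h' => h (hf h').symm]; simp [h]
  · push Not at hv
    rw [Finsupp.tsub_apply, fs_notMem _ hv, fs_notMem _ hv]; simp

theorem coeff_X_mul_fs {n : ℕ} {f : Fin n → V} (hf : Function.Injective f) (τ : Fin n → ℕ)
    (a : Fin n) (Q : MvPolynomial V ℤ) :
    coeff (fs f τ) (X (f a) * Q) =
      if τ a = 0 then 0 else coeff (fs f (fun i => if i = a then τ i - 1 else τ i)) Q := by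
  classical
  rw [coeff_X_mul']
  have h1 : f a ∈ (fs f τ).support ↔ τ a ≠ 0 := by
    rw [Finsupp.mem_support_iff, fs_apply hf]
  by_cases h : τ a = 0
  · rw [if_pos h, if_neg]
    rw [h1]; simpa using h
  · rw [if_neg h, if_pos (h1.mpr h), fs_sub hf]

theorem coeff_co {n : ℕ} {f : Fin n → V} (hf : Function.Injective f) (K : List (Fin n × Fin n)) :
    ∀ τ : Fin n → ℕ, coeff (fs f τ)
      ((K.map fun p => (X (f p.1) - X (f p.2) : MvPolynomial V ℤ)).prod) = co K τ := by
  classical
  induction K with
  | nil =>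
    intro τ
    simp only [List.map_nil, List.prod_nil, co]
    rw [coeff_one]
    by_cases h : ∀ i, τ i = 0
    · rw [if_pos h, if_pos]
      symm
      ext v
      by_cases hv : ∃ i, f i = v
      · obtain ⟨i, rfl⟩ := hv
        rw [fs_apply hf, h i]; rfl
      · push Not at hv
        rw [fs_notMem _ hv]; rfl
    · rw [if_neg h, if_neg]
      intro h0
      apply h
      intro i
      rw [← fs_apply hf τ i, ← h0]; rfl
  | cons p K ih =>
    obtain ⟨a, b⟩ := p
    intro τ
    simp only [List.map_cons, List.prod_cons, co]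
    rw [sub_mul, coeff_sub, coeff_X_mul_fs hf, coeff_X_mul_fs hf, ih, ih]

/-- **Certificate.** -/
theorem AT.cert {n : ℕ} (f : Fin n → V) (hf : Function.Injective f) (K : List (Fin n × Fin n))
    (τ : Fin n → ℕ) (hK : co K τ ≠ 0) (c : V → ℕ) (hc : ∀ i, τ i ≤ c (f i)) :
    AT (K.map (fun p => s(f p.1, f p.2)) : List (Sym2 V)) c := by
  classical
  have h1 := gp_pairs (K.map fun p => (f p.1, f p.2)) 0
  simp only [List.map_map, add_zero, gp_zero, mul_one] at h1
  unfold AT
  refine sup_congr_sign h1 ⟨fs f τ, fun v => ?_, ?_⟩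
  · by_cases hv : ∃ i, f i = v
    · obtain ⟨i, rfl⟩ := hv
      rw [fs_apply hf]; exact hc i
    · push Not at hv
      rw [fs_notMem _ hv]; exact Nat.zero_le _
  · have := coeff_co hf K τ
    simp only [Function.comp_def]
    rw [this]; exact hK

end Helper33.L9
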