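import Pool.Agent.helper42.L9.World
import Pool.Agent.helper42.L9.Gp

/-!
# Core vertices of a set `S`

`QE S`: the conflicts (`qadj`) inside `S` as a finset of unordered pairs.
`Dq S v`: the number of conflicts of `v` inside `S`.
A *core vertex* of `S` has `5 ≤ k v + Dq S v`, where `k v` is the number of cross neighbours.
Facts: a core vertex has degree three; if `k v = 1` then (by `star`) exactly two of its three
neighbours have a further neighbour on the side of `v`, its own neighbours and its partners are
in `S`, and `Dq S v = 4`.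
-/

set_option linter.unusedSimpArgs false
set_option linter.unusedSectionVars false
set_option linter.unusedTactic false

namespace Helper33.L9

open Finset Classical Helper42.L9

variable {V : Type*} [Fintype V] {G : SimpleGraph V} {X : V → Prop}

theorem qadj_symm {u v : V} (h : qadj G X u v) : qadj G X v u := ⟨h.1.symm, h.2.symm⟩

theorem qadj_ne {u v : V} (h : qadj G X u v) : u ≠ v := h.2.1

/-- number of conflicts inside `S` -/
noncomputable def Dq (G : SimpleGraph V) (X : V → Prop) (S : Finset V) (v : V) : ℕ :=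
  (S.filter fun u => qadj G X u v).card

/-- the conflicts inside `S` -/
noncomputable def QE (G : SimpleGraph V) (X : V → Prop) (S : Finset V) : Finset (Sym2 V) :=
  ((S ×ˢ S).filter fun p => qadj G X p.1 p.2).image fun p => s(p.1, p.2)

theorem mem_QE {S : Finset V} {u v : V} :
    s(u, v) ∈ QE G X S ↔ u ∈ S ∧ v ∈ S ∧ qadj G X u v := by
  unfold QE
  rw [Finset.mem_image]
  constructor
  · rintro ⟨⟨a, b⟩, hp, he⟩
    rw [Finset.mem_filter, Finset.mem_product] at hp
    rcases Sym2.eq_iff.mp he with ⟨h1, h2⟩ | ⟨h1, h2⟩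
    · simp only at h1 h2; subst h1; subst h2
      exact ⟨hp.1.1, hp.1.2, hp.2⟩
    · simp only at h1 h2; subst h1; subst h2
      exact ⟨hp.1.2, hp.1.1, qadj_symm hp.2⟩
  · rintro ⟨h1, h2, h3⟩
    exact ⟨(u, v), Finset.mem_filter.mpr ⟨Finset.mem_product.mpr ⟨h1, h2⟩, h3⟩, rfl⟩

theorem QE_loopless {S : Finset V} : ∀ e ∈ QE G X S, ¬ e.IsDiag := by
  intro e he
  induction e with
  | _ a b =>
    rw [Sym2.mk_isDiag_iff]
    exact qadj_ne (mem_QE.mp he).2.2

omit [Fintype V] in
theorem dg_val (E : Finset (Sym2 V)) (v : V) : dg E.val v = (E.filter fun e => v ∈ e).card := by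
  unfold dg
  rw [Multiset.countP_eq_card_filter]
  rfl

theorem dg_QE {S : Finset V} {v : V} (hv : v ∈ S) : dg (QE G X S).val v = Dq G X S v := by
  rw [dg_val]
  unfold Dq
  symm
  apply Finset.card_bij (fun u _ => s(u, v))
  · intro u hu
    rw [Finset.mem_filter] at hu
    exact Finset.mem_filter.mpr ⟨mem_QE.mpr ⟨hu.1, hv, hu.2⟩, Sym2.mem_mk_right _ _⟩
  · intro u _ u' _ he
    rcases Sym2.eq_iff.mp he with ⟨h1, _⟩ | ⟨h1, h2⟩
    · exact h1
    · exact h1.trans h2
  · intro e he
    rw [Finset.mem_filter] at he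
    obtain ⟨he, hve⟩ := he
    induction e with
    | _ a b =>
      have hq := mem_QE.mp he
      rcases Sym2.mem_iff.mp hve with h | h
      · subst h
        exact ⟨b, Finset.mem_filter.mpr ⟨hq.2.1, qadj_symm hq.2.2⟩, Sym2.eq_swap⟩
      · subst h
        exact ⟨a, Finset.mem_filter.mpr ⟨hq.1, hq.2.2⟩, rfl⟩

theorem dg_QE_notMem {S : Finset V} {v : V} (hv : v ∉ S) : dg (QE G X S).val v = 0 := by
  rw [dg_val, Finset.card_eq_zero, Finset.filter_eq_empty_iff]
  intro e he hve
  induction e with
  | _ a b =>
    have hq := mem_QE.mp he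
    rcases Sym2.mem_iff.mp hve with h | h
    · subst h; exact hv hq.1
    · subst h; exact hv hq.2.1

theorem QE_mono {S T : Finset V} (h : S ⊆ T) : QE G X S ⊆ QE G X T := by
  intro e he
  induction e with
  | _ a b =>
    obtain ⟨h1, h2, h3⟩ := mem_QE.mp he
    exact mem_QE.mpr ⟨h h1, h h2, h3⟩

/-- outside of `A` -/
theorem outt_QE {S A : Finset V} : outt A (QE G X S).val = (QE G X (S \ A)).val := by
  unfold outt
  have : (QE G X (S \ A)) = (QE G X S).filter (fun e => ∀ v ∈ e, v ∉ A) := by
    ext e
    induction e with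
    | _ a b =>
      rw [Finset.mem_filter, mem_QE, mem_QE, Finset.mem_sdiff, Finset.mem_sdiff]
      constructor
      · rintro ⟨⟨h1, h2⟩, ⟨h3, h4⟩, h5⟩
        refine ⟨⟨h1, h3, h5⟩, fun v hv => ?_⟩
        rcases Sym2.mem_iff.mp hv with rfl | rfl
        · exact h2
        · exact h4
      · rintro ⟨⟨h1, h3, h5⟩, h⟩
        exact ⟨⟨h1, h a (Sym2.mem_mk_left _ _)⟩, ⟨h3, h b (Sym2.mem_mk_right _ _)⟩, h5⟩
  rw [this, Finset.filter_val]
  congr

/-- a core vertex -/
def CoreAt (G : SimpleGraph V) (X : V → Prop) (S : Finset V) (v : V) : Prop :=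
  5 ≤ (cr G X v).card + Dq G X S v

variable {S : Finset V} {v : V}

theorem pt_subset : (pt G X v) ⊆ univ.filter fun b => G.Adj v b := by
  intro w hw
  exact Finset.mem_filter.mpr ⟨Finset.mem_univ _, (mem_pt.mp hw).1⟩

/-- slots which are lost -/
theorem core_count (hX : NoMono G X) (hdeg : ∀ v, (univ.filter fun b => G.Adj v b).card ≤ 3)
    (hc : CoreAt G X S v) :
    ((ow G X v).filter fun u => u ∉ S).card +
      ((pt G X v).filter fun w => partner G X w v ∉ S).card + 2 ≤ (pt G X v).card := by
  have h := count_bound hX hdeg S v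
  unfold CoreAt Dq at hc
  omega

/-- a core vertex has degree three and `1 ≤ k ≤ 2` -/
theorem core_deg (hX : NoMono G X) (hdeg : ∀ v, (univ.filter fun b => G.Adj v b).card ≤ 3)
    (hc : CoreAt G X S v) :
    (cr G X v).card + (ow G X v).card = 3 ∧ 1 ≤ (ow G X v).card ∧ 1 ≤ (cr G X v).card := by
  have h1 := cr_add_ow (G := G) (X := X) v
  have h2 := hdeg v
  -- conflicts are own neighbours or partners
  have h3 : Dq G X S v ≤ (ow G X v).card + (pt G X v).card := by
    unfold Dq
    have : S.filter (fun u => qadj G X u v) ⊆ ow G X v ∪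
        (pt G X v).image (fun w => partner G X w v) := by
      intro u hu
      rw [Finset.mem_filter] at hu
      rw [Finset.mem_union, Finset.mem_image]
      rcases qadj_cases hX hu.2 with h | ⟨w, hw, rfl⟩
      · exact Or.inl h
      · exact Or.inr ⟨w, hw, rfl⟩
    exact (Finset.card_le_card this).trans ((Finset.card_union_le _ _).trans
      (Nat.add_le_add_left Finset.card_image_le _))
  have h4 : (pt G X v).card ≤ (univ.filter fun b => G.Adj v b).card :=
    Finset.card_le_card pt_subset
  unfold CoreAt at hc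
  have h5 : (cr G X v).card + (ow G X v).card = 3 := by omega
  refine ⟨h5, ?_, ?_⟩
  · by_contra hcon
    have h6 : (cr G X v).card = 3 := by omega
    obtain ⟨a, b, c, hab, hac, hbc, he⟩ := Finset.card_eq_three.mp h6
    have ha := mem_cr.mp (he ▸ (by simp : a ∈ ({a, b, c} : Finset V)))
    have hb := mem_cr.mp (he ▸ (by simp : b ∈ ({a, b, c} : Finset V)))
    have hc' := mem_cr.mp (he ▸ (by simp : c ∈ ({a, b, c} : Finset V)))
    exact hX v a b c ha.1 hb.1 hc'.1 hab hac hbc (by tauto)
  · by_contra hcon
    have h6 : (ow G X v).card = 3 := by omega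
    obtain ⟨a, b, c, hab, hac, hbc, he⟩ := Finset.card_eq_three.mp h6
    have ha := mem_ow.mp (he ▸ (by simp : a ∈ ({a, b, c} : Finset V)))
    have hb := mem_ow.mp (he ▸ (by simp : b ∈ ({a, b, c} : Finset V)))
    have hc' := mem_ow.mp (he ▸ (by simp : c ∈ ({a, b, c} : Finset V)))
    exact hX v a b c ha.1 hb.1 hc'.1 hab hac hbc (by tauto)

/-- `star` at `v` -/
def StarAt (G : SimpleGraph V) (X : V → Prop) (v : V) : Prop :=
  (∀ w, G.Adj v w → w ∈ pt G X v) → (ow G X v).card ≤ (cr G X v).card

/-- a core vertex with one cross neighbour -/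
theorem core_I (hX : NoMono G X) (hdeg : ∀ v, (univ.filter fun b => G.Adj v b).card ≤ 3)
    (hc : CoreAt G X S v) (hst : StarAt G X v) (h1 : (cr G X v).card = 1) :
    (pt G X v).card = 2 ∧ (∀ u ∈ ow G X v, u ∈ S) ∧ (∀ w ∈ pt G X v, partner G X w v ∈ S) ∧
      Dq G X S v = 4 := by
  obtain ⟨h3, _, _⟩ := core_deg hX hdeg hc
  have hcnt := core_count hX hdeg hc
  have h2 : (pt G X v).card ≤ (univ.filter fun b => G.Adj v b).card :=
    Finset.card_le_card pt_subset
  have hd := hdeg v
  have hlt : (pt G X v).card ≠ 3 := by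
    intro h
    have heq : (pt G X v) = univ.filter fun b => G.Adj v b :=
      Finset.eq_of_subset_of_card_le pt_subset (by omega)
    have := hst (fun w hw => heq ▸ Finset.mem_filter.mpr ⟨Finset.mem_univ _, hw⟩)
    omega
  have h4 : (pt G X v).card = 2 := by omega
  have h5 : ((ow G X v).filter fun u => u ∉ S).card = 0 := by omega
  have h6 : ((pt G X v).filter fun w => partner G X w v ∉ S).card = 0 := by omega
  rw [Finset.card_eq_zero, Finset.filter_eq_empty_iff] at h5 h6
  refine ⟨h4, fun u hu => not_not.mp (h5 hu), fun w hw => not_not.mp (h6 hw), ?_⟩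
  have h7 := count_bound hX hdeg S v
  unfold CoreAt at hc
  unfold Dq at hc ⊢
  omega

/-- explicit form of a core vertex with one cross neighbour: own neighbours `a, b`, cross
neighbour `y`; either `a, b` both have a further own neighbour and `y` has no further neighbour on
the side of `v` (type `β`), or only `b` and `y` (type `α`). -/
theorem core_I_cases (hX : NoMono G X)
    (hdeg : ∀ v, (univ.filter fun b => G.Adj v b).card ≤ 3)
    (hc : CoreAt G X S v) (hst : StarAt G X v) (h1 : (cr G X v).card = 1) :
    ∃ a b y, a ≠ b ∧ ow G X v = {a, b} ∧ cr G X v = {y} ∧ a ∈ S ∧ b ∈ S ∧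
      ((pt G X v = {a, b} ∧ partner G X a v ∈ S ∧ partner G X b v ∈ S ∧
          S.filter (fun u => qadj G X u v) = {a, b, partner G X a v, partner G X b v} ∧
          [a, b, partner G X a v, partner G X b v].Nodup) ∨
        (pt G X v = {b, y} ∧ partner G X b v ∈ S ∧ partner G X y v ∈ S ∧
          S.filter (fun u => qadj G X u v) = {a, b, partner G X b v, partner G X y v} ∧
          [a, b, partner G X b v, partner G X y v].Nodup)) := by
  obtain ⟨hp, hown, hpar, hD⟩ := core_I hX hdeg hc hst h1
  obtain ⟨h3, _, _⟩ := core_deg hX hdeg hc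
  have ho : (ow G X v).card = 2 := by omega
  obtain ⟨a, b, hab, hoab⟩ := Finset.card_eq_two.mp ho
  obtain ⟨y, hy⟩ := Finset.card_eq_one.mp h1
  have haS : a ∈ S := hown a (by rw [hoab]; simp)
  have hbS : b ∈ S := hown b (by rw [hoab]; simp)
  have hya : y ≠ a := by
    rintro rfl
    have h4 := mem_cr.mp (by rw [hy]; simp : y ∈ cr G X v)
    have h5 := mem_ow.mp (by rw [hoab]; simp : y ∈ ow G X v)
    exact h4.2 h5.2
  have hyb : y ≠ b := by
    rintro rfl
    have h4 := mem_cr.mp (by rw [hy]; simp : y ∈ cr G X v)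
    have h5 := mem_ow.mp (by rw [hoab]; simp : y ∈ ow G X v)
    exact h4.2 h5.2
  -- `pt` consists of own and cross neighbours
  have hsub : pt G X v ⊆ {a, b, y} := by
    intro w hw
    have h4 := (mem_pt.mp hw).1
    by_cases hs : X w ↔ X v
    · have : w ∈ ow G X v := mem_ow.mpr ⟨h4, hs⟩
      rw [hoab] at this
      simp only [Finset.mem_insert, Finset.mem_singleton] at this ⊢
      tauto
    · have : w ∈ cr G X v := mem_cr.mpr ⟨h4, hs⟩
      rw [hy] at this
      simp only [Finset.mem_insert, Finset.mem_singleton] at this ⊢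
      tauto
  -- the conflicts of `v`
  have hsubQ : S.filter (fun u => qadj G X u v) ⊆ {a, b} ∪
      (pt G X v).image (fun w => partner G X w v) := by
    intro u hu
    rw [Finset.mem_filter] at hu
    rw [Finset.mem_union, Finset.mem_image]
    rcases qadj_cases hX hu.2 with h | ⟨w, hw, rfl⟩
    · rw [hoab] at h; exact Or.inl h
    · exact Or.inr ⟨w, hw, rfl⟩
  have key : ∀ z w, z ≠ w → pt G X v = {z, w} →
      S.filter (fun u => qadj G X u v) = {a, b, partner G X z v, partner G X w v} ∧
        [a, b, partner G X z v, partner G X w v].Nodup := by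
    intro z w hzw hpt
    rw [hpt, Finset.image_insert, Finset.image_singleton] at hsubQ
    have e1 : ({a, b} ∪ {partner G X z v, partner G X w v} : Finset V) =
        {a, b, partner G X z v, partner G X w v} := by
      ext u; simp only [Finset.mem_union, Finset.mem_insert, Finset.mem_singleton]; tauto
    rw [e1] at hsubQ
    have e2 : [a, b, partner G X z v, partner G X w v].toFinset =
        ({a, b, partner G X z v, partner G X w v} : Finset V) := by
      ext u; simp
    have e3 : ({a, b, partner G X z v, partner G X w v} : Finset V).card ≤ 4 := by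
      rw [← e2]; exact List.toFinset_card_le _
    have e4 : S.filter (fun u => qadj G X u v) =
        ({a, b, partner G X z v, partner G X w v} : Finset V) :=
      Finset.eq_of_subset_of_card_le hsubQ (by unfold Dq at hD; omega)
    refine ⟨e4, ?_⟩
    have e5 : [a, b, partner G X z v, partner G X w v].toFinset.card = 4 := by
      rw [e2, ← e4]; exact hD
    have h6 : [a, b, partner G X z v, partner G X w v].dedup.length =
        [a, b, partner G X z v, partner G X w v].length := by
      rw [List.card_toFinset] at e5; simpa using e5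
    have h7 := (List.dedup_sublist [a, b, partner G X z v, partner G X w v]).eq_of_length h6
    rw [← h7]; exact List.nodup_dedup _
  -- which two
  obtain ⟨z, w, hzw, hpt⟩ := Finset.card_eq_two.mp hp
  have hz : z ∈ ({a, b, y} : Finset V) := hsub (by rw [hpt]; simp)
  have hw : w ∈ ({a, b, y} : Finset V) := hsub (by rw [hpt]; simp)
  have hpS : ∀ w, w ∈ pt G X v → partner G X w v ∈ S := hpar
  simp only [Finset.mem_insert, Finset.mem_singleton] at hz hw
  have hcases : pt G X v = {a, b} ∨ pt G X v = {b, y} ∨ pt G X v = {a, y} := by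
    rcases hz with rfl | rfl | rfl <;> rcases hw with rfl | rfl | rfl
    all_goals first
      | exact absurd rfl hzw
      | (left; exact hpt)
      | (left; rw [hpt, Finset.pair_comm]; done)
      | (right; left; exact hpt)
      | (right; left; rw [hpt, Finset.pair_comm]; done)
      | (right; right; exact hpt)
      | (right; right; rw [hpt, Finset.pair_comm]; done)
  rcases hcases with h | h | h
  · obtain ⟨k1, k2⟩ := key a b hab h
    exact ⟨a, b, y, hab, hoab, hy, haS, hbS, Or.inl ⟨h, hpS a (by rw [h]; simp),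
      hpS b (by rw [h]; simp), k1, k2⟩⟩
  · obtain ⟨k1, k2⟩ := key b y hyb.symm h
    exact ⟨a, b, y, hab, hoab, hy, haS, hbS, Or.inr ⟨h, hpS b (by rw [h]; simp),
      hpS y (by rw [h]; simp), k1, k2⟩⟩
  · obtain ⟨k1, k2⟩ := key a y hya.symm h
    refine ⟨b, a, y, hab.symm, by rw [hoab, Finset.pair_comm], hy, hbS, haS,
      Or.inr ⟨h, hpS a (by rw [h]; simp), hpS y (by rw [h]; simp), ?_, ?_⟩⟩
    · rw [k1, Finset.insert_comm]
    · exact (List.Perm.swap b a _).nodup_iff.mp k2

end Helper33.L9
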