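import Pool.Agent.helper33.L9.Tab

/-!
# Tables of own neighbours; families of blocks
-/

set_option linter.unusedSimpArgs false
set_option linter.unusedSectionVars false

namespace Helper33.Off

open Finset Classical Helper42.L9 Helper33.L9

/-- a maximal family of disjoint blocks with the property `P` -/
theorem exists_family {V : Type*} [Fintype V] {n : ℕ} (hn : 0 < n) (P : (Fin n → V) → Prop) :
    ∃ (m : ℕ) (b : Fin m → Fin n → V), (∀ j, P (b j)) ∧
      (∀ i j, i ≠ j → ∀ x y, b i x ≠ b j y) ∧
      ∀ d, P d → ∃ j x y, b j x = d y := by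
  have key : ∀ (k m : ℕ) (b : Fin m → Fin n → V), Fintype.card V - m = k → (∀ j, P (b j)) →
      (∀ i j, i ≠ j → ∀ x y, b i x ≠ b j y) →
      ∃ (m : ℕ) (b : Fin m → Fin n → V), (∀ j, P (b j)) ∧
        (∀ i j, i ≠ j → ∀ x y, b i x ≠ b j y) ∧ ∀ d, P d → ∃ j x y, b j x = d y := by
    intro k
    induction k using Nat.strong_induction_on with
    | _ k ih =>
      intro m b hk h1 h2
      by_cases h3 : ∀ d, P d → ∃ j x y, b j x = d y
      · exact ⟨m, b, h1, h2, h3⟩
      · push Not at h3
        obtain ⟨d, hd, hd2⟩ := h3
        have h4 : m + 1 ≤ Fintype.card V := by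
          have : Function.Injective (fun j : Fin (m + 1) =>
              (Fin.cons (d ⟨0, hn⟩) (fun j : Fin m => b j ⟨0, hn⟩) : Fin (m + 1) → V) j) := by
            intro i j hij
            induction i using Fin.cases with
            | zero =>
              induction j using Fin.cases with
              | zero => rfl
              | succ j =>
                simp only [Fin.cons_zero, Fin.cons_succ] at hij
                exact absurd hij.symm (hd2 j _ _)
            | succ i =>
              induction j using Fin.cases with
              | zero =>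
                simp only [Fin.cons_zero, Fin.cons_succ] at hij
                exact absurd hij (hd2 i _ _)
              | succ j =>
                simp only [Fin.cons_succ] at hij
                by_contra hne
                exact h2 i j (fun h => hne (by rw [h])) _ _ hij
          have := Fintype.card_le_of_injective _ this
          simpa using this
        refine ih (Fintype.card V - (m + 1)) (by omega) (m + 1) (Fin.cons d b) rfl ?_ ?_
        · intro j
          induction j using Fin.cases with
          | zero => simpa using hd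
          | succ j => simpa using h1 j
        · intro i j hij x y
          induction i using Fin.cases with
          | zero =>
            induction j using Fin.cases with
            | zero => exact absurd rfl hij
            | succ j =>
              simp only [Fin.cons_zero, Fin.cons_succ]
              exact (hd2 j y x).symm
          | succ i =>
            induction j using Fin.cases with
            | zero =>
              simp only [Fin.cons_zero, Fin.cons_succ]
              exact hd2 i x y
            | succ j =>
              simp only [Fin.cons_succ]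
              exact h2 i j (fun h => hij (by rw [h])) x y
  exact key _ 0 (fun j => j.elim0) rfl (fun j => j.elim0) (fun i => i.elim0)

variable {V : Type*} [Fintype V] {G : SimpleGraph V} {X : V → Prop} {Z S S' : Finset V} {n : ℕ}

/-- own adjacency table -/
def OwnTab (G : SimpleGraph V) (X : V → Prop) (b : Fin n → V) (A : Fin n → List (Fin n)) : Prop :=
  ∀ i z, ownR G X (b i) z → ∃ j ∈ A i, z = b j

/-- `E` contains all pairs at distance one or two in `A` -/
def covT (A : Fin n → List (Fin n)) (E : List (Fin n × Fin n)) : Prop :=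
  ∀ i j, i ≠ j → (j ∈ A i ∨ ∃ k ∈ A i, j ∈ A k) → ((i, j) ∈ E ∨ (j, i) ∈ E)

instance (A : Fin n → List (Fin n)) (E : List (Fin n × Fin n)) : Decidable (covT A E) := by
  unfold covT
  infer_instance

theorem mem_emb_pair {b : Fin n → V} {E : List (Fin n × Fin n)} {i j : Fin n}
    (h : (i, j) ∈ E ∨ (j, i) ∈ E) : s(b i, b j) ∈ emb b E := by
  rw [mem_emb]
  rcases h with h | h
  · exact ⟨_, h, rfl⟩
  · exact ⟨_, h, Sym2.eq_swap⟩

/-- conflicts of a block vertex -/
theorem OwnTab.conf {b : Fin n → V} {A : Fin n → List (Fin n)} (h : OwnTab G X b A)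
    {E : List (Fin n × Fin n)} (hE : covT A E) {i : Fin n} {z : V} (hq : qadj G X z (b i)) :
    s(b i, z) ∈ emb b E ∨ ∃ y, y ∈ cr G X (b i) ∧ y ∈ cr G X z := by
  obtain ⟨hs, hne, hadj | ⟨w, hw1, hw2⟩⟩ := hq
  · left
    obtain ⟨j, hj, rfl⟩ := h i z ⟨hadj.symm, hs.symm⟩
    exact mem_emb_pair (hE i j (fun e => hne (by rw [e])) (Or.inl hj))
  · by_cases hw : X w ↔ X (b i)
    · left
      obtain ⟨k, hk, rfl⟩ := h i w ⟨hw2.symm, hw.symm⟩
      obtain ⟨j, hj, rfl⟩ := h k z ⟨hw1.symm, hw.trans hs.symm⟩
      exact mem_emb_pair (hE i j (fun e => hne (by rw [e])) (Or.inr ⟨k, hk, hj⟩))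
    · right
      exact ⟨w, mem_cr.mpr ⟨hw2.symm, hw⟩, mem_cr.mpr ⟨hw1, fun hh => hw (hh.trans hs)⟩⟩

/-- the slots of a block vertex -/
theorem OwnTab.dg_le {K : Multiset (Sym2 V)} {b : Fin n → V} {A : Fin n → List (Fin n)}
    (h : OwnTab G X b A) {E : List (Fin n × Fin n)} (hE : covT A E)
    (hK : ∀ e ∈ emb b E, e ∈ K) (i : Fin n) (T : Finset V) (hN : ∀ y ∈ T, NM G X y)
    (hT : ∀ y ∈ cr G X (b i), y ∉ T → ∀ z ∈ S, z ≠ b i → y ∈ cr G X z → s(b i, z) ∈ K) :
    dg (LK G X S K) (b i) ≤ T.card := by
  refine dg_LK_le T hN ?_
  intro _ z hz hq hnK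
  rcases h.conf hE hq with h1 | ⟨y, h1, h2⟩
  · exact absurd (hK _ h1) hnK
  · by_cases hy : y ∈ T
    · exact ⟨y, hy, h1, h2⟩
    · exact absurd (hT y h1 hy z hz (qadj_ne hq) h2) hnK

end Helper33.Off
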