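import Pool.Agent.helper33.L9.NetSpec
import Pool.Agent.helper33.L9.OwnTab
import Pool.Agent.helper42.L9.EX15
import Pool.Agent.helper19.L9.DFN

/-!
# The side without roots: own paths `P_4`, cells `F`, blocks `D`

`IsP4 z`: own path with four vertices.  `IsF z`: `P_4` whose first end has a cross neighbour which
is not a link.  `IsD b`: two `P_4`'s `b 0 .. b 3`, `b 4 .. b 7` with links `b 2 - b 5` and
`b 3 - b 4`.
-/

set_option linter.unusedSimpArgs false
set_option linter.unusedSectionVars false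

namespace Helper33.Off

open Finset Classical Helper42.L9 Helper33.L9 Helper97.L9
open Helper19.DN (EZ ED TE slZ slD cZ)

variable {V : Type*} [Fintype V] {G : SimpleGraph V} {X D N : V → Prop} {Z S S' : Finset V}
  {s : Prop}

/-- own path with four vertices on the side `s` -/
structure IsP4 (G : SimpleGraph V) (X : V → Prop) (s : Prop) (z : Fin 4 → V) : Prop where
  side : ∀ i, (X (z i) ↔ s)
  c0 : cc G X (z 0) = 2
  c1 : cc G X (z 1) = 3
  c2 : cc G X (z 2) = 3
  c3 : cc G X (z 3) = 2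
  o01 : ownR G X (z 0) (z 1)
  o12 : ownR G X (z 1) (z 2)
  o23 : ownR G X (z 2) (z 3)

/-- own adjacency of a path -/
def A4 : Fin 4 → List (Fin 4) := ![[1], [0, 2], [1, 3], [2]]

/-- own adjacency of two paths -/
def A8 : Fin 8 → List (Fin 8) := ![[1], [0, 2], [1, 3], [2], [5], [4, 6], [5, 7], [6]]

theorem cov4 : covT A4 EZ := by decide

theorem cov8 : covT A8 ED := by decide

section

variable (hcub : ∀ v, (univ.filter fun b => G.Adj v b).card = 3) (h : StA G X D)
  (hs : ∀ d, D d → ¬ (X d ↔ s))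

include h hs in
theorem far_side {v : V} (hv : X v ↔ s) : Far G D v := by
  refine ⟨fun hd => hs v hd hv, fun d hd hdv => hs d hd ?_⟩
  have := h.k0 d v hd hdv
  tauto

include h hs in
theorem fr_side {v : V} (hv : X v ↔ s) : Fr G X v := h.fr_of_far (far_side h hs hv)

include hcub in
theorem IsP4.inj {z : Fin 4 → V} (hz : IsP4 G X s z) : Function.Injective z := by
  have n01 : z 0 ≠ z 1 := ownR_ne hz.o01
  have n12 : z 1 ≠ z 2 := ownR_ne hz.o12
  have n23 : z 2 ≠ z 3 := ownR_ne hz.o23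
  have n02 : z 0 ≠ z 2 := fun e => by
    have h1 := hz.c0
    have h2 := hz.c2
    rw [e] at h1
    omega
  have n13 : z 1 ≠ z 3 := fun e => by
    have h1 := hz.c1
    have h2 := hz.c3
    rw [e] at h1
    omega
  have n03 : z 0 ≠ z 3 := fun e => by
    have h1 := hz.o23
    rw [← e] at h1
    exact n12 (own_one hcub hz.c0 hz.o01 (ownR_symm h1))
  intro i j hij
  fin_cases i <;> fin_cases j <;> simp_all

include hcub h hs in
theorem IsP4.tab {z : Fin 4 → V} (hz : IsP4 G X s z) : OwnTab G X z A4 := by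
  have hinj := hz.inj hcub
  have ne : ∀ i j : Fin 4, i ≠ j → z i ≠ z j := fun i j hij e => hij (hinj e)
  intro i w hw
  fin_cases i
  · exact ⟨1, by simp [A4], own_one hcub hz.c0 hw hz.o01⟩
  · have h1 := own_two (fr_side h hs (hz.side 1)).self hw (ownR_symm hz.o01) hz.o12
    rcases h1 with h1 | h1 | h1
    · exact ⟨0, by simp [A4], h1⟩
    · exact ⟨2, by simp [A4], h1⟩
    · exact absurd h1 (ne 0 2 (by decide))
  · have h1 := own_two (fr_side h hs (hz.side 2)).self hw (ownR_symm hz.o12) hz.o23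
    rcases h1 with h1 | h1 | h1
    · exact ⟨1, by simp [A4], h1⟩
    · exact ⟨3, by simp [A4], h1⟩
    · exact absurd h1 (ne 1 3 (by decide))
  · exact ⟨2, by simp [A4], own_one hcub hz.c3 hw (ownR_symm hz.o23)⟩

/-- the reversed path -/
theorem IsP4.rev {z : Fin 4 → V} (hz : IsP4 G X s z) : IsP4 G X s ![z 3, z 2, z 1, z 0] where
  side := fun i => by fin_cases i <;> exact hz.side _
  c0 := hz.c3
  c1 := hz.c2
  c2 := hz.c1
  c3 := hz.c0
  o01 := ownR_symm hz.o23
  o12 := ownR_symm hz.o12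
  o23 := ownR_symm hz.o01

/-- cell `F` -/
structure IsF (G : SimpleGraph V) (X : V → Prop) (s : Prop) (z : Fin 4 → V) : Prop
    extends IsP4 G X s z where
  nf : ∃ w ∈ cr G X (z 0), w ∉ pt G X (z 0)

/-- block `D` -/
structure IsD (G : SimpleGraph V) (X : V → Prop) (s : Prop) (b : Fin 8 → V) : Prop where
  pa : IsP4 G X s ![b 0, b 1, b 2, b 3]
  pb : IsP4 G X s ![b 4, b 5, b 6, b 7]
  ne : b 3 ≠ b 4 ∧ b 3 ≠ b 7
  lc : ∃ c, cr G X c = {b 2, b 5}
  lr : ∃ r, cr G X r = {b 3, b 4}

include hcub h hs in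
/-- own paths which meet are equal -/
theorem IsP4.mem {z z' : Fin 4 → V} (hz : IsP4 G X s z) (hz' : IsP4 G X s z') {i j : Fin 4}
    (he : z i = z' j) : ∀ k, ∃ l, z' l = z k := by
  have hT := hz'.tab hcub h hs
  have step : ∀ a b : V, ownR G X a b → (∃ l, z' l = a) → ∃ l, z' l = b := by
    rintro a b hab ⟨l, rfl⟩
    obtain ⟨m, _, hm⟩ := hT l b hab
    exact ⟨m, hm.symm⟩
  have all : ∀ k, (∃ l, z' l = z k) → (∃ l, z' l = z 0) := by
    intro k hk
    fin_cases k
    · exact hk
    · exact step _ _ (ownR_symm hz.o01) hk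
    · exact step _ _ (ownR_symm hz.o01) (step _ _ (ownR_symm hz.o12) hk)
    · exact step _ _ (ownR_symm hz.o01) (step _ _ (ownR_symm hz.o12)
        (step _ _ (ownR_symm hz.o23) hk))
  have h0 := all i ⟨j, he.symm⟩
  have h1 := step _ _ hz.o01 h0
  have h2 := step _ _ hz.o12 h1
  have h3 := step _ _ hz.o23 h2
  intro k
  fin_cases k
  · exact h0
  · exact h1
  · exact h2
  · exact h3

include hcub h hs in
/-- an end of a path is one of the two ends -/
theorem IsP4.mem_end {z z' : Fin 4 → V} (hz : IsP4 G X s z) (hz' : IsP4 G X s z') {i j : Fin 4}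
    (he : z i = z' j) {k : Fin 4} (hk : k = 0 ∨ k = 3) : z k = z' 0 ∨ z k = z' 3 := by
  obtain ⟨l, hl⟩ := hz.mem hcub h hs hz' he k
  have hc : cc G X (z' l) = 2 := by
    rw [hl]
    rcases hk with rfl | rfl
    · exact hz.c0
    · exact hz.c3
  have c1 := hz'.c1
  have c2 := hz'.c2
  fin_cases l
  · exact Or.inl hl.symm
  · simp only [Fin.mk_one, Fin.isValue] at hc; omega
  · simp only [Fin.reduceFinMk, Fin.isValue] at hc; omega
  · exact Or.inr hl.symm

include hcub h hs in
theorem IsD.disj {b : Fin 8 → V} (hb : IsD G X s b) (i j : Fin 4) :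
    (![b 0, b 1, b 2, b 3] : Fin 4 → V) i ≠ (![b 4, b 5, b 6, b 7] : Fin 4 → V) j := by
  intro he
  have := hb.pa.mem_end hcub h hs hb.pb he (k := 3) (Or.inr rfl)
  rcases this with h1 | h1
  · exact hb.ne.1 h1
  · exact hb.ne.2 h1

include hcub h hs in
theorem IsD.inj {b : Fin 8 → V} (hb : IsD G X s b) : Function.Injective b := by
  have ia := hb.pa.inj hcub
  have ib := hb.pb.inj hcub
  have hd := hb.disj hcub h hs
  have na : ∀ i j : Fin 4, i ≠ j →
      (![b 0, b 1, b 2, b 3] : Fin 4 → V) i ≠ (![b 0, b 1, b 2, b 3] : Fin 4 → V) j :=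
    fun i j hij e => hij (ia e)
  have nb : ∀ i j : Fin 4, i ≠ j →
      (![b 4, b 5, b 6, b 7] : Fin 4 → V) i ≠ (![b 4, b 5, b 6, b 7] : Fin 4 → V) j :=
    fun i j hij e => hij (ib e)
  have a01 := na 0 1 (by decide)
  have a02 := na 0 2 (by decide)
  have a03 := na 0 3 (by decide)
  have a12 := na 1 2 (by decide)
  have a13 := na 1 3 (by decide)
  have a23 := na 2 3 (by decide)
  have b01 := nb 0 1 (by decide)
  have b02 := nb 0 2 (by decide)
  have b03 := nb 0 3 (by decide)
  have b12 := nb 1 2 (by decide)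
  have b13 := nb 1 3 (by decide)
  have b23 := nb 2 3 (by decide)
  have d00 := hd 0 0
  have d01 := hd 0 1
  have d02 := hd 0 2
  have d03 := hd 0 3
  have d10 := hd 1 0
  have d11 := hd 1 1
  have d12 := hd 1 2
  have d13 := hd 1 3
  have d20 := hd 2 0
  have d21 := hd 2 1
  have d22 := hd 2 2
  have d23 := hd 2 3
  have d30 := hd 3 0
  have d31 := hd 3 1
  have d32 := hd 3 2
  have d33 := hd 3 3
  simp only [Matrix.cons_val_zero, Matrix.cons_val_one, Matrix.cons_val, ne_eq] at *
  intro i j hij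
  fin_cases i <;> fin_cases j <;> simp_all

include hcub h hs in
theorem IsD.tab {b : Fin 8 → V} (hb : IsD G X s b) : OwnTab G X b A8 := by
  have ha := hb.pa.tab hcub h hs
  have hb := hb.pb.tab hcub h hs
  intro i w hw
  fin_cases i
  · obtain ⟨j, hj, e⟩ := ha 0 w hw
    simp only [A4, Matrix.cons_val_zero, List.mem_singleton] at hj
    subst hj
    exact ⟨1, by simp [A8], e⟩
  · obtain ⟨j, hj, e⟩ := ha 1 w hw
    change j ∈ ([0, 2] : List (Fin 4)) at hj
    simp only [List.mem_cons, List.not_mem_nil, or_false] at hj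
    rcases hj with rfl | rfl
    · exact ⟨0, by simp [A8], e⟩
    · exact ⟨2, by simp [A8], e⟩
  · obtain ⟨j, hj, e⟩ := ha 2 w hw
    change j ∈ ([1, 3] : List (Fin 4)) at hj
    simp only [List.mem_cons, List.not_mem_nil, or_false] at hj
    rcases hj with rfl | rfl
    · exact ⟨1, by simp [A8], e⟩
    · exact ⟨3, by simp [A8], e⟩
  · obtain ⟨j, hj, e⟩ := ha 3 w hw
    simp only [A4, Matrix.cons_val, List.mem_singleton] at hj
    subst hj
    exact ⟨2, by simp [A8], e⟩
  · obtain ⟨j, hj, e⟩ := hb 0 w hw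
    simp only [A4, Matrix.cons_val_zero, List.mem_singleton] at hj
    subst hj
    exact ⟨5, by simp [A8], e⟩
  · obtain ⟨j, hj, e⟩ := hb 1 w hw
    change j ∈ ([0, 2] : List (Fin 4)) at hj
    simp only [List.mem_cons, List.not_mem_nil, or_false] at hj
    rcases hj with rfl | rfl
    · exact ⟨4, by simp [A8], e⟩
    · exact ⟨6, by simp [A8], e⟩
  · obtain ⟨j, hj, e⟩ := hb 2 w hw
    change j ∈ ([1, 3] : List (Fin 4)) at hj
    simp only [List.mem_cons, List.not_mem_nil, or_false] at hj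
    rcases hj with rfl | rfl
    · exact ⟨5, by simp [A8], e⟩
    · exact ⟨7, by simp [A8], e⟩
  · obtain ⟨j, hj, e⟩ := hb 3 w hw
    simp only [A4, Matrix.cons_val, List.mem_singleton] at hj
    subst hj
    exact ⟨6, by simp [A8], e⟩

end

end Helper33.Off
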