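import Pool.Agent.helper33.L9.Fam

/-!
# Maximal families of cells and blocks on the side without roots
-/

set_option linter.unusedSimpArgs false
set_option linter.unusedSectionVars false

namespace Helper33.Off

open Finset Classical Helper42.L9 Helper33.L9 Helper97.L9
open Helper19.DN (EZ ED TE slZ slD cZ)

variable {V : Type*} [Fintype V] {G : SimpleGraph V} {X D N : V → Prop} {Z S S' : Finset V}
  {s : Prop} {k m : ℕ} {z : Fin k → Fin 4 → V} {b : Fin m → Fin 8 → V}

/-- maximal families -/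
structure Fam (G : SimpleGraph V) (X : V → Prop) (s : Prop) (z : Fin k → Fin 4 → V)
    (b : Fin m → Fin 8 → V) : Prop where
  F : ∀ j, IsF G X s (z j)
  B : ∀ j, IsD G X s (b j)
  dF : ∀ i j, i ≠ j → ∀ x y, z i x ≠ z j y
  dB : ∀ i j, i ≠ j → ∀ x y, b i x ≠ b j y
  dFB : ∀ i j x y, b i x ≠ z j y
  maxF : ∀ d, IsF G X s d → ∃ j x y, z j x = d y
  maxB : ∀ d, IsD G X s d → (∃ j x y, z j x = d y) ∨ ∃ j x y, b j x = d y

theorem exists_fam (G : SimpleGraph V) (X : V → Prop) (s : Prop) :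
    ∃ (k m : ℕ) (z : Fin k → Fin 4 → V) (b : Fin m → Fin 8 → V), Fam G X s z b := by
  obtain ⟨k, z, h1, h2, h3⟩ := exists_family (n := 4) (by norm_num) (IsF G X s)
  obtain ⟨m, b, h4, h5, h6⟩ := exists_family (n := 8) (by norm_num)
    (fun d => IsD G X s d ∧ ∀ j x y, d x ≠ z j y)
  refine ⟨k, m, z, b, h1, fun j => (h4 j).1, h2, h5, fun i j x y => (h4 i).2 j x y, h3, ?_⟩
  intro d hd
  by_cases h7 : ∀ j x y, d x ≠ z j y
  · exact Or.inr (h6 d ⟨hd, h7⟩)
  · left
    push Not at h7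
    obtain ⟨j, x, y, h7⟩ := h7
    exact ⟨j, y, x, h7.symm⟩

/-- vertices of the blocks -/
def IsBlk (z : Fin k → Fin 4 → V) (b : Fin m → Fin 8 → V) (v : V) : Prop :=
  (∃ j i, z j i = v) ∨ ∃ j i, b j i = v

/-- ordinary vertices of the side `s` -/
def NB (X : V → Prop) (s : Prop) (z : Fin k → Fin 4 → V) (b : Fin m → Fin 8 → V) (v : V) : Prop :=
  (X v ↔ s) ∧ ¬ IsBlk z b v

section

variable (hcub : ∀ v, (univ.filter fun b => G.Adj v b).card = 3) (h : StA G X D)
  (hs : ∀ d, D d → ¬ (X d ↔ s)) (hF : Fam G X s z b)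

include hcub h hs hF

theorem Fam.closed {u v : V} (huv : ownR G X u v) (hu : NB X s z b u) : NB X s z b v := by
  refine ⟨huv.2.symm.trans hu.1, fun hv => hu.2 ?_⟩
  rcases hv with ⟨j, i, rfl⟩ | ⟨j, i, rfl⟩
  · obtain ⟨l, _, hl⟩ := (hF.F j).toIsP4.tab hcub h hs i u (ownR_symm huv)
    exact Or.inl ⟨j, l, hl.symm⟩
  · obtain ⟨l, _, hl⟩ := (hF.B j).tab hcub h hs i u (ownR_symm huv)
    exact Or.inr ⟨j, l, hl.symm⟩

theorem Fam.full : FullN G X (NB X s z b) := by
  rintro p u v c2 ⟨hpu, np, nu⟩ ⟨cu, cv, ⟨huv, _, nv⟩, _, ⟨t, ⟨hvt, _, nt⟩, ct⟩⟩ w hw hwu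
  by_contra hpt
  have hcr : w ∈ cr G X p := by
    refine mem_cr.mpr ⟨hw, fun e => hwu ?_⟩
    exact own_one hcub c2 ⟨hw, e.symm⟩ hpu
  have hI : IsF G X s ![p, u, v, t] := by
    refine ⟨⟨?_, c2, cu, cv, ct, hpu, huv, hvt⟩, w, hcr, hpt⟩
    intro i
    fin_cases i
    · exact np.1
    · exact nu.1
    · exact nv.1
    · exact nt.1
  obtain ⟨j, x, y, e⟩ := hF.maxF _ hI
  have : ∀ y : Fin 4, NB X s z b ((![p, u, v, t] : Fin 4 → V) y) := by
    intro y
    fin_cases y
    · exact np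
    · exact nu
    · exact nv
    · exact nt
  exact (this y).2 (Or.inl ⟨j, x, e⟩)

theorem Fam.noLeg : NoLeg G X D (NB X s z b) := by
  have hfull := hF.full hcub h hs
  have root : ∀ {c a b' : V}, ¬ Far G D c → cr G X c = {a, b'} → ¬ D c ∧ ∃ d, D d ∧ G.Adj d c := by
    intro c a b' hc hcr
    have h1 : ¬ D c := h.not_root (y := a) (by rw [hcr]; simp)
    refine ⟨h1, ?_⟩
    by_contra hn
    push Not at hn
    exact hc ⟨h1, fun d hd => hn d hd⟩
  constructor
  · rintro c a b' x hc hcr hab hax hb'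
    obtain ⟨h1, d, hd, hdc⟩ := root hc hcr
    obtain ⟨ca, cx, oax, ⟨p, oap, cp⟩, _⟩ := id hax
    refine h.link_end_port hcub hd h1 hdc hcr hab hb' oap.1 ?_ (far_side h hs oap.2.2.1)
    exact hfull p a x cp oap.symm hax
  · rintro c a b' x x' hc hcr hab hxb hax hbx
    obtain ⟨h1, d, hd, hdc⟩ := root hc hcr
    obtain ⟨ca, cx, oax, ⟨p, oap, cp⟩, ⟨q, oxq, cq⟩⟩ := id hax
    obtain ⟨cb, cx', obx, ⟨p', obp, cp'⟩, ⟨q', oxq', cq'⟩⟩ := id hbx
    obtain ⟨r, hpp, _, hr, _, _⟩ := h.link_port_port hcub hd h1 hdc hcr hab oap.1 cp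
      (hfull p a x cp oap.symm hax) obp.1 cp' (hfull p' b' x' cp' obp.symm hbx)
    have hne : p ≠ q' := by
      rintro rfl
      have e1 : a = x' := own_one hcub cp (ownR_symm oap.1) (ownR_symm oxq'.1)
      subst e1
      have e2 := own_two (fr_side h hs oax.2.1.1).self oax.1 oap.1 (ownR_symm obx.1)
      rcases e2 with e2 | e2 | e2
      · rw [e2] at cx; omega
      · exact hxb e2
      · rw [e2] at cp; omega
    have hI : IsD G X s ![q, x, a, p, p', b', x', q'] := by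
      refine ⟨⟨?_, cq, cx, ca, cp, ownR_symm oxq.1, ownR_symm oax.1, oap.1⟩,
        ⟨?_, cp', cb, cx', cq', ownR_symm obp.1, obx.1, oxq'.1⟩, ⟨hpp, hne⟩, ⟨c, hcr⟩, ⟨r, hr⟩⟩
      · intro i
        fin_cases i
        · exact oxq.2.2.1
        · exact oax.2.2.1
        · exact oax.2.1.1
        · exact oap.2.2.1
      · intro i
        fin_cases i
        · exact obp.2.2.1
        · exact obx.2.1.1
        · exact obx.2.2.1
        · exact oxq'.2.2.1
    have : ∀ y : Fin 8, NB X s z b ((![q, x, a, p, p', b', x', q'] : Fin 8 → V) y) := by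
      intro y
      fin_cases y
      · exact oxq.2.2
      · exact oax.2.2
      · exact oax.2.1
      · exact oap.2.2
      · exact obp.2.2
      · exact obx.2.1
      · exact obx.2.2
      · exact oxq'.2.2
    rcases hF.maxB _ hI with ⟨j, x, y, e⟩ | ⟨j, x, y, e⟩
    · exact (this y).2 (Or.inl ⟨j, x, e⟩)
    · exact (this y).2 (Or.inr ⟨j, x, e⟩)

omit hF in
theorem nm_cr {v y : V} (hy : y ∈ cr G X v) : NM G X y := h.nm y (h.not_root (mem_crs.mp hy))

omit hF in
theorem cr_le2 {v : V} (hv : X v ↔ s) : (cr G X v).card ≤ 2 :=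
  (cr_bounds hcub v (fr_side h hs hv).self).2

omit hF in
theorem cr_le1 {v : V} (hv : X v ↔ s) (h3 : cc G X v = 3) : (cr G X v).card ≤ 1 :=
  ((cc_three hcub (fr_side h hs hv).self).mp h3).le

/-- slots of the cells -/
theorem Fam.slotZ (S' : Finset V) (j : Fin k) (i : Fin 4) :
    dg (LK G X S' (TE ED b + TE EZ z)) (z j i) ≤ slZ i := by
  have hP := (hF.F j).toIsP4
  have hT := hP.tab hcub h hs
  have hK : ∀ e ∈ emb (z j) EZ, e ∈ TE ED b + TE EZ z := fun e he =>
    Multiset.mem_add.mpr (Or.inr (Helper19.DN.mem_TE.mpr ⟨j, he⟩))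
  obtain ⟨w, hw, hwp⟩ := (hF.F j).nf
  have gen : ∀ i : Fin 4, ∀ n, (cr G X (z j i)).card ≤ n →
      dg (LK G X S' (TE ED b + TE EZ z)) (z j i) ≤ n := by
    intro i n hn
    refine (hT.dg_le cov4 hK i (cr G X (z j i)) (fun y hy => nm_cr hcub h hs hy) ?_).trans hn
    intro y hy hyT
    exact absurd hy hyT
  fin_cases i
  · refine (hT.dg_le cov4 hK 0 ((cr G X (z j 0)).erase w)
      (fun y hy => nm_cr hcub h hs (Finset.mem_of_mem_erase hy)) ?_).trans ?_
    · intro y hy hyT z' hz' hne hyz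
      exfalso
      rw [Finset.mem_erase, not_and'] at hyT
      have hyw : y = w := not_not.mp (hyT hy)
      subst hyw
      refine hwp ?_
      have h1 := mem_cr.mp hy
      have h2 := mem_cr.mp hyz
      exact mem_pt.mpr ⟨h1.1, z', hne, h2.1.symm, by
        have := h1.2
        have := h2.2
        tauto⟩
    · rw [Finset.card_erase_of_mem hw]
      have := cr_le2 hcub h hs (hP.side 0)
      change _ ≤ 1
      omega
  · exact gen 1 1 (cr_le1 hcub h hs (hP.side 1) hP.c1)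
  · exact gen 2 1 (cr_le1 hcub h hs (hP.side 2) hP.c2)
  · exact gen 3 2 (cr_le2 hcub h hs (hP.side 3))

/-- slots of the blocks -/
theorem Fam.slotB (S' : Finset V) (j : Fin m) (i : Fin 8) :
    dg (LK G X S' (TE ED b + TE EZ z)) (b j i) ≤ slD i := by
  have hP := hF.B j
  have hT := hP.tab hcub h hs
  have hK : ∀ e ∈ emb (b j) ED, e ∈ TE ED b + TE EZ z := fun e he =>
    Multiset.mem_add.mpr (Or.inl (Helper19.DN.mem_TE.mpr ⟨j, he⟩))
  have hside : ∀ i, (X (b j i) ↔ s) := by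
    intro i
    fin_cases i
    · exact hP.pa.side 0
    · exact hP.pa.side 1
    · exact hP.pa.side 2
    · exact hP.pa.side 3
    · exact hP.pb.side 0
    · exact hP.pb.side 1
    · exact hP.pb.side 2
    · exact hP.pb.side 3
  have gen : ∀ i : Fin 8, ∀ n, (cr G X (b j i)).card ≤ n →
      dg (LK G X S' (TE ED b + TE EZ z)) (b j i) ≤ n := by
    intro i n hn
    refine (hT.dg_le cov8 hK i (cr G X (b j i)) (fun y hy => nm_cr hcub h hs hy) ?_).trans hn
    intro y hy hyT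
    exact absurd hy hyT
  -- a link inside of the block
  have lk : ∀ (i i' : Fin 8) (r : V) (n : ℕ), (cr G X (b j i)).card ≤ n + 1 →
      cr G X r = {b j i, b j i'} → ((i, i') ∈ ED ∨ (i', i) ∈ ED) →
      dg (LK G X S' (TE ED b + TE EZ z)) (b j i) ≤ n := by
    intro i i' r n hn hr hE
    have hri : r ∈ cr G X (b j i) := mem_crs.mp (by rw [hr]; simp)
    refine (hT.dg_le cov8 hK i ((cr G X (b j i)).erase r)
      (fun y hy => nm_cr hcub h hs (Finset.mem_of_mem_erase hy)) ?_).trans ?_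
    · intro y hy hyT z' hz' hne hyz
      rw [Finset.mem_erase, not_and'] at hyT
      have hyw : y = r := not_not.mp (hyT hy)
      subst hyw
      have h1 := mem_crs.mp hyz
      rw [hr, Finset.mem_insert, Finset.mem_singleton] at h1
      rcases h1 with h1 | h1
      · exact absurd h1 hne
      · rw [h1]
        exact hK _ (mem_emb_pair hE)
    · rw [Finset.card_erase_of_mem hri]
      omega
  obtain ⟨c, hc⟩ := hP.lc
  obtain ⟨r, hr⟩ := hP.lr
  fin_cases i
  · exact gen 0 2 (cr_le2 hcub h hs (hside 0))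
  · exact gen 1 1 (cr_le1 hcub h hs (hside 1) hP.pa.c1)
  · exact lk 2 5 c 0 (cr_le1 hcub h hs (hside 2) hP.pa.c2) hc (by decide)
  · exact lk 3 4 r 1 (cr_le2 hcub h hs (hside 3)) hr (by decide)
  · exact lk 4 3 r 1 (cr_le2 hcub h hs (hside 4)) (by rw [hr, Finset.pair_comm]) (by decide)
  · exact lk 5 2 c 0 (cr_le1 hcub h hs (hside 5) hP.pb.c1) (by rw [hc, Finset.pair_comm])
      (by decide)
  · exact gen 6 1 (cr_le1 hcub h hs (hside 6) hP.pb.c2)
  · exact gen 7 2 (cr_le2 hcub h hs (hside 7))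

end

end Helper33.Off
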