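import Pool.Agent.helper33.L9.Wire
import Pool.Agent.helper33.L9.OffFacts

/-!
# Wires for the non-exempt vertices

`N`: the non-exempt vertices; all of them satisfy `Fr` and `StarAt`.  `ownN`: own adjacency of
non-exempt vertices.  Ports and chains with respect to `ownN` are wires.
-/

set_option linter.unusedSimpArgs false
set_option linter.unusedSectionVars false

namespace Helper33.Off

open Finset Classical Helper42.L9 Helper33.L9

variable {V : Type*} [Fintype V] {G : SimpleGraph V} {X : V → Prop} {Z S : Finset V}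
  {N : V → Prop}

/-- own adjacency of non-exempt vertices -/
def ownN (G : SimpleGraph V) (X N : V → Prop) (u v : V) : Prop := ownR G X u v ∧ N u ∧ N v

theorem ownN.symm {u v : V} (h : ownN G X N u v) : ownN G X N v u :=
  ⟨ownR_symm h.1, h.2.2, h.2.1⟩

/-- `x` is no middle of a `P_4` of non-exempt vertices -/
def NoMidN (G : SimpleGraph V) (X N : V → Prop) (x : V) : Prop :=
  ∀ b, ¬ Mid (ownN G X N) (cc G X) x b

theorem NoMidN_of_end {x : V} (h : cc G X x = 2) : NoMidN G X N x := by
  intro b hb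
  have := hb.1
  omega

theorem MidN_symm {x y : V} (h : Mid (ownN G X N) (cc G X) x y) :
    Mid (ownN G X N) (cc G X) y x := by
  obtain ⟨h1, h2, h3, h4, h5⟩ := h
  exact ⟨h2, h1, h3.symm, h5, h4⟩

section

variable (hN : ∀ v, N v → Fr G X v) (hst : ∀ v, N v → StarAt G X v)
  (hcub : ∀ v, (univ.filter fun b => G.Adj v b).card = 3)

include hN hcub in
/-- the port of `u` in graph terms: `p` is joined to `u` through the cross neighbour `y` -/
theorem port_graphN {u p : V}
    (h : Port (ownN G X N) (cc G X) (QE G X S).val u p) :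
    ∃ s v v' y, ownR G X u s ∧ cc G X s = 2 ∧ ownR G X u v ∧ cc G X v = 3 ∧ s ≠ v ∧
      ownR G X v v' ∧ v' ≠ u ∧
      cr G X u = {y} ∧ G.Adj u y ∧ G.Adj y p ∧ ¬ (X y ↔ X u) ∧ (X p ↔ X u) ∧ p ≠ u ∧
      ¬ G.Adj u p ∧ p ≠ v' ∧
      u ∈ S ∧ p ∈ S ∧ v ∈ S ∧ v' ∈ S ∧ s ∈ S ∧ N u ∧ N s ∧ N v ∧ N v' := by
  obtain ⟨h3, s, v, v', hs, hloc⟩ := h
  have hv3 : cc G X v = 3 := by
    rcases hloc.one with h | h
    · rw [hs] at h; omega
    · exact h
  obtain ⟨hov, hv'u⟩ := hloc.hy hv3
  have Nu : N u := hloc.ox.2.1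
  have Nv : N v := hloc.oy.2.2
  have hmem : ∀ z, s(u, z) ∈ fl (QE G X S).val u → z ∈ S ∧ u ∈ S ∧ qadj G X u z := by
    intro z hz
    have := mem_QE.mp (mem_fl.mp hz).1
    exact ⟨this.2.1, this.1, this.2.2⟩
  have hfl := hloc.edges
  have hp := hmem p (by rw [hfl]; simp)
  have hvS := hmem v (by rw [hfl]; simp)
  have hv'S := hmem v' (by rw [hfl]; simp)
  have hsS := hmem s (by rw [hfl]; simp)
  -- the four neighbours are different
  have hnd : [s, v, p, v'].Nodup := by
    have h4 := fl_QE (G := G) (X := X) hp.2.1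
    rw [hfl] at h4
    have h5 : ((S.filter fun z => qadj G X z u).val.map (fun z => s(u, z))).Nodup := by
      refine (Multiset.nodup_map_iff_of_inj_on ?_).mpr (Finset.nodup _)
      intro a _ b _ h
      rcases Sym2.eq_iff.mp h with ⟨_, h⟩ | ⟨h3, h4⟩
      · exact h
      · exact h4.trans h3
    rw [← h4] at h5
    have h6 : (({s(u, s), s(u, v), s(u, p), s(u, v')} : Multiset (Sym2 V))) =
        (([s, v, p, v'].map fun z => s(u, z) : List (Sym2 V)) : Multiset (Sym2 V)) := rfl
    rw [h6, Multiset.coe_nodup] at h5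
    exact List.Nodup.of_map _ h5
  simp only [List.nodup_cons, List.mem_cons, List.not_mem_nil, or_false, not_or,
    List.nodup_nil, and_true, not_false_eq_true] at hnd
  obtain ⟨⟨n1, n2, n3⟩, ⟨n4, n5⟩, n6⟩ := hnd
  have hnadj : ¬ G.Adj u p := by
    intro h
    have hop : ownR G X u p := ⟨h, hp.2.2.1⟩
    rcases own_two (hN u Nu).self hloc.ox.1 hloc.oy.1 hop with h | h | h
    · exact n1 h
    · exact n2 h
    · exact n4 h
  obtain ⟨y, hy⟩ := Finset.card_eq_one.mp ((cc_three hcub (hN u Nu).self).mp h3)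
  obtain ⟨hs1, hne, hadj | ⟨w, hw1, hw2⟩⟩ := hp.2.2
  · exact absurd hadj hnadj
  · -- the common neighbour is `y`
    have hwy : w = y := by
      by_cases hsw : X w ↔ X u
      · have how : ownR G X u w := ⟨hw1, hsw.symm⟩
        have howp : ownR G X w p := ⟨hw2, hsw.trans hs1⟩
        rcases own_two (hN u Nu).self hloc.ox.1 hloc.oy.1 how with h | h | h
        · exact absurd h n1
        · subst h
          exact absurd (own_one hcub hs ⟨hw1.symm, hsw⟩ howp) hne
        · subst h
          rcases own_two (hN _ Nv).self (⟨hw1.symm, hsw⟩ : ownR G X _ u) hov.1 howp with h | h | h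
          · exact absurd h.symm hv'u
          · exact absurd h hne
          · exact absurd h.symm n6
      · have := mem_cr.mpr ⟨hw1, hsw⟩
        rw [hy, Finset.mem_singleton] at this
        exact this
    subst hwy
    have hcr := mem_cr.mp (by rw [hy]; simp : w ∈ cr G X u)
    exact ⟨s, v, v', w, hloc.ox.1, hs, hloc.oy.1, hv3, n1, hov.1, hv'u, hy, hw1, hw2, hcr.2,
      hs1.symm, hne.symm, hnadj, n6, hp.2.1, hp.1, hvS.1, hv'S.1, hsS.1, Nu, hloc.ox.2.2, Nv,
      hov.2.2⟩

include hN in
theorem MidN_unique {x y z : V} (h : Mid (ownN G X N) (cc G X) x y)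
    (h' : Mid (ownN G X N) (cc G X) x z) : y = z := by
  obtain ⟨_, h2, h3, ⟨s, h4, h5⟩, _⟩ := h
  obtain ⟨_, k2, k3, _, _⟩ := h'
  rcases own_two (hN x h3.2.1).self h4.1 h3.1 k3.1 with h | h | h
  · subst h; omega
  · subst h; omega
  · exact h

include hcub in
theorem cr_two {y a b d : V} (hy : NM G X y) (ha : y ∈ cr G X a) (hb : y ∈ cr G X b) (hd : y ∈ cr G X d)
    (hab : a ≠ b) (had : a ≠ d) : b = d := by
  by_contra hbd
  have h3 : ({a, b, d} : Finset V) ⊆ cr G X y := by
    intro w hw
    rw [Finset.mem_insert, Finset.mem_insert, Finset.mem_singleton] at hw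
    rcases hw with rfl | rfl | rfl
    · exact mem_crs.mp ha
    · exact mem_crs.mp hb
    · exact mem_crs.mp hd
  have h4 := Finset.card_le_card h3
  have h5 : ({a, b, d} : Finset V).card = 3 := by
    rw [Finset.card_eq_three]
    exact ⟨a, b, d, hab, had, hbd, rfl⟩
  have h6 := cr_bounds hcub y hy
  omega

include hcub in
theorem Lk_unique {x y z : V} (hF : Fr G X x) (h3 : cc G X x = 3) (h : Lk G X x y) (h' : Lk G X x z) :
    y = z := by
  obtain ⟨h1, w, h2, h4⟩ := h
  obtain ⟨k1, w', k2, k4⟩ := h'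
  have := inner_cr_unique hcub hF.self h3 h2 k2
  subst this
  exact cr_two hcub (hF.nb w (mem_cr.mp h2).1) h2 h4 k4 h1 k1

include hN hcub in
/-- a port is a wire of length zero -/
theorem wire_of_port (hI : InvZ G X Z) (h : StuckZ G X Z S) {σ τ : V}
    (hP : Port (ownN G X N) (cc G X) (QE G X S).val σ τ) (p u v q : ℕ → V) :
    ∃ y, Wire G X Z S 0 p u v q y σ τ := by
  obtain ⟨s, w, w', y, h1, h2, h3, h4, h5, h6, h7, h8, h9, h10, h11, h12, h13, h14, h15, h16,
    h17, h18, h19, h20, h21, _⟩ := port_graphN hN hcub hP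
  have hyσ : y ∈ cr G X σ := mem_cr.mpr ⟨h9, h11⟩
  have hyτ : y ∈ cr G X τ := mem_cr.mpr ⟨h10.symm, fun hh => h11 (hh.trans h12)⟩
  obtain ⟨k1, k2, k3⟩ := inv_link hcub hI ((hN σ h21).nb y h9) (h.1 h16) (h.1 h17) h13.symm hyσ hyτ
  refine ⟨fun _ => y, ⟨h16, h17, h12, fun i hi => by omega, fun i hi => by omega,
    fun i hi => by omega, fun i hi => by omega, fun i hi => by omega, ?_, ?_, fun _ _ => k1,
    fun _ _ => k2, fun i hi => by omega, fun i hi => by omega, fun i hi => by omega,
    fun i hi => by omega, fun i hi => by omega, ?_, fun hk => by omega, fun hk => by omega⟩⟩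
  · intro i hi
    obtain rfl : i = 0 := by omega
    simpa using k3
  · intro i hi
    obtain rfl : i = 0 := by omega
    simpa using h13.symm
  · intro i hi j hj _
    omega

include hN hst hcub in
/-- a chain is a wire -/
theorem wire_of_lp (hI : InvZ G X Z) (h : StuckZ G X Z S) {σ τ : V}
    (hL : Lp (ownN G X N) (cc G X) (QE G X S).val σ τ) (hσ : NoMidN G X N σ)
    (hτ : NoMidN G X N τ) :
    ∃ (k : ℕ) (p u v q y : ℕ → V), 0 < k ∧ Wire G X Z S k p u v q y σ τ ∧
      ∀ i < k, N (p i) ∧ N (u i) ∧ N (v i) ∧ N (q i) := by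
  obtain ⟨k, u, v, hk, hmid, hp0, hlk, hpk⟩ := lp_chain hL
  -- the vertices `p`, `q`
  have hex : ∀ i, ∃ a b, i < k → P4 G X a (u i) (v i) b ∧ N a ∧ N b := by
    intro i
    by_cases hi : i < k
    · obtain ⟨h1, h2, h3, ⟨a, h4, h5⟩, ⟨b, h6, h7⟩⟩ := hmid i hi
      refine ⟨a, b, fun _ => ⟨⟨ownR_symm h4.1, h3.1, h6.1, h5, h1, h2, h7, ?_⟩, h4.2.2, h6.2.2⟩⟩
      rintro rfl
      have h8 := own_one hcub h5 (ownR_symm h4.1) (ownR_symm h6.1)
      exact ownR_ne h3.1 h8
    · exact ⟨u i, u i, fun h => absurd h hi⟩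
  choose p q hpq' using hex
  have hpq : ∀ i, i < k → P4 G X (p i) (u i) (v i) (q i) := fun i hi => (hpq' i hi).1
  have hNu : ∀ i, i < k → N (u i) := fun i hi => (hmid i hi).2.2.1.2.1
  have hNv : ∀ i, i < k → N (v i) := fun i hi => (hmid i hi).2.2.1.2.2
  -- the alternating walk
  set a : ℕ → V := fun n => if n % 2 = 0 then u (n / 2) else v (n / 2) with ha
  have a0 : ∀ i, a (2 * i) = u i := by
    intro i
    have e1 : 2 * i % 2 = 0 := by omega
    have e2 : 2 * i / 2 = i := by omega
    simp [ha, e1, e2]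
  have a1 : ∀ i, a (2 * i + 1) = v i := by
    intro i
    have e1 : (2 * i + 1) % 2 = 1 := by omega
    have e2 : (2 * i + 1) / 2 = i := by omega
    simp [ha, e1, e2]
  have hLk : ∀ x z, Port (ownN G X N) (cc G X) (QE G X S).val x z → Lk G X x z := by
    intro x z hxz
    obtain ⟨s, w, w', y, h1, h2, h3, h4, h5, h6, h7, h8, h9, h10, h11, h12, h13, h14, h15, h16,
      h17, h18, h19, h20⟩ := port_graphN hN hcub hxz
    exact ⟨h13.symm, y, mem_cr.mpr ⟨h9, h11⟩, mem_cr.mpr ⟨h10.symm, fun hh => h11 (hh.trans h12)⟩⟩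
  have amid : ∀ n < 2 * k, ∃ b, Mid (ownN G X N) (cc G X) (a n) b := by
    intro n hn
    rcases Nat.mod_two_eq_zero_or_one n with hpar | hpar
    · obtain ⟨i, rfl⟩ : ∃ i, n = 2 * i := ⟨n / 2, by omega⟩
      rw [a0]
      exact ⟨v i, hmid i (by omega)⟩
    · obtain ⟨i, rfl⟩ : ∃ i, n = 2 * i + 1 := ⟨n / 2, by omega⟩
      rw [a1]
      exact ⟨u i, MidN_symm (hmid i (by omega))⟩
  have hnd : ∀ n < 2 * k, ∀ m < n, a m ≠ a n := by
    refine walk_nodup (Mid (ownN G X N) (cc G X)) (Lk G X) (2 * k) a (fun _ _ => MidN_symm)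
      (fun _ _ => Lk_symm) (fun n _ x y hx hy => MidN_unique hN hx hy) ?_ ?_
      (fun x hx => hx.1 rfl) ?_ ?_ σ ?_ ?_
    · intro n hn x y hx hy
      obtain ⟨b, hb⟩ := amid n hn
      exact Lk_unique hcub (hN _ hb.2.2.1.2.1) hb.1 hx hy
    · intro x hx
      exact ownR_ne hx.2.2.1.1 rfl
    · intro n hn hpar
      obtain ⟨i, rfl⟩ : ∃ i, n = 2 * i := ⟨n / 2, by omega⟩
      rw [a0, a1]
      exact hmid i (by omega)
    · intro n hn hpar
      obtain ⟨i, rfl⟩ : ∃ i, n = 2 * i + 1 := ⟨n / 2, by omega⟩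
      have e : 2 * i + 1 + 1 = 2 * (i + 1) := by ring
      rw [a1, e, a0]
      exact hLk _ _ (hlk i (by omega))
    · intro _
      have := a0 0
      rw [Nat.mul_zero] at this
      rw [this]
      exact hLk _ _ hp0
    · intro n hn he
      obtain ⟨b, hb⟩ := amid n hn
      rw [he] at hb
      exact hσ b hb
  have hnd2 : ∀ n < 2 * k, ∀ m < 2 * k, a m = a n → m = n := by
    intro n hn m hm he
    rcases lt_trichotomy m n with h1 | h1 | h1
    · exact absurd he (hnd n hn m h1)
    · exact h1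
    · exact absurd he.symm (hnd m hm n h1)
  -- port facts
  obtain ⟨s0, w0, w0', y0, g1, g2, g3, g4, g5, g6, g7, g8, g9, g10, g11, g12, g13, g14, g15,
    g16, g17, g18, g19, g20, _⟩ := port_graphN hN hcub hp0
  obtain ⟨sk, wk, wk', yk, f1, f2, f3, f4, f5, f6, f7, f8, f9, f10, f11, f12, f13, f14, f15,
    f16, f17, f18, f19, f20, _⟩ := port_graphN hN hcub hpk
  -- membership
  have huS : ∀ i < k, u i ∈ S ∧ v i ∈ S := by
    intro i hi
    have hu : u i ∈ S := by
      rcases Nat.eq_zero_or_pos i with rfl | hpos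
      · exact g16
      · obtain ⟨j, rfl⟩ : ∃ j, i = j + 1 := ⟨i - 1, by omega⟩
        obtain ⟨_, _, _, _, _, _, _, _, _, _, _, _, _, _, _, _, _, _, _, _, hh, _⟩ :=
          port_graphN hN hcub (hlk j hi)
        exact hh
    exact ⟨hu, inner_own hcub h (hN _ (hNu i hi)) (hst _ (hNu i hi)) hu (hmid i hi).1
      (hmid i hi).2.2.1.1⟩
  have hmem : ∀ i < k, p i ∈ S ∧ u i ∈ S ∧ v i ∈ S ∧ q i ∈ S := by
    intro i hi
    obtain ⟨h1, h2⟩ := huS i hi
    have h3 := hpq i hi
    exact ⟨inner_own hcub h (hN _ (hNu i hi)) (hst _ (hNu i hi)) h1 h3.cu (ownR_symm h3.pu), h1, h2,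
      inner_own hcub h (hN _ (hNv i hi)) (hst _ (hNv i hi)) h2 h3.cv h3.vq⟩
  -- the links
  have hexy : ∀ i, ∃ y, (i < k → cr G X (u i) = {y}) ∧ (i = k → cr G X (v (k - 1)) = {y}) := by
    intro i
    rcases lt_trichotomy i k with hi | hi | hi
    · obtain ⟨y, hy⟩ := Finset.card_eq_one.mp
        ((cc_three hcub (hN _ (hNu i hi)).self).mp (hmid i hi).1)
      exact ⟨y, fun _ => hy, fun h => by omega⟩
    · obtain ⟨y, hy⟩ := Finset.card_eq_one.mp
        ((cc_three hcub (hN _ (hNv (k - 1) (by omega))).self).mp (hmid (k - 1) (by omega)).2.1)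
      exact ⟨y, fun h => by omega, fun _ => hy⟩
    · exact ⟨u i, fun h => by omega, fun h => by omega⟩
  choose y hy using hexy
  have cu : ∀ i < k, cr G X (u i) = {y i} := fun i hi => (hy i).1 hi
  have cv : ∀ i < k, cr G X (v i) = {y (i + 1)} := by
    intro i hi
    by_cases hik : i + 1 < k
    · obtain ⟨_, z, h1, h2⟩ := hLk _ _ (hlk i hik)
      have h3 := inner_cr_eq hcub (hN _ (hNv i hi)).self (hmid i hi).2.1 h1
      rw [cu (i + 1) hik, Finset.mem_singleton] at h2
      rw [h3, h2]
    · obtain rfl : i = k - 1 := by omega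
      have e : k - 1 + 1 = k := by omega
      rw [e]
      exact (hy k).2 rfl
  have hside : ∀ i < k, X (u i) ↔ X σ := by
    intro i
    induction i with
    | zero =>
      intro _
      exact g12.symm
    | succ j ih =>
      intro hj
      have h1 := ih (by omega)
      have h2 := (hmid j (by omega)).2.2.1.1.2
      obtain ⟨_, z, h3, h4⟩ := hLk _ _ (hlk j hj)
      have h5 := side_of_cr h3 h4
      exact h5.symm.trans (h2.symm.trans h1)
  have hyu : ∀ i < k, y i ∈ cr G X (u i) := fun i hi => by rw [cu i hi]; simp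
  have hyv : ∀ i < k, y (i + 1) ∈ cr G X (v i) := fun i hi => by rw [cv i hi]; simp
  have hyσ : y 0 ∈ cr G X σ := by
    have h1 : y0 = y 0 := by
      have h2 := cu 0 hk
      rw [g8] at h2
      exact Finset.singleton_injective h2
    rw [← h1]
    exact mem_cr.mpr ⟨g10.symm, fun hh => g11 (hh.trans g12)⟩
  have hyτ : y k ∈ cr G X τ := by
    have h1 : yk = y k := by
      have h2 := cv (k - 1) (by omega)
      have e : k - 1 + 1 = k := by omega
      rw [f8, e] at h2
      exact Finset.singleton_injective h2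
    rw [← h1]
    exact mem_cr.mpr ⟨f10.symm, fun hh => f11 (hh.trans f12)⟩
  have nuσ : ∀ i < k, u i ≠ σ ∧ v i ≠ σ := by
    intro i hi
    refine ⟨?_, ?_⟩
    · intro he
      exact hσ (v i) (he ▸ hmid i hi)
    · intro he
      exact hσ (u i) (he ▸ MidN_symm (hmid i hi))
  have nuτ : ∀ i < k, u i ≠ τ ∧ v i ≠ τ := by
    intro i hi
    refine ⟨?_, ?_⟩
    · intro he
      exact hτ (v i) (he ▸ hmid i hi)
    · intro he
      exact hτ (u i) (he ▸ MidN_symm (hmid i hi))
  have nuu : ∀ i < k, ∀ j < k, u i = u j → i = j := by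
    intro i hi j hj he
    have := hnd2 (2 * j) (by omega) (2 * i) (by omega) (by rw [a0, a0]; exact he)
    omega
  have nvv : ∀ i < k, ∀ j < k, v i = v j → i = j := by
    intro i hi j hj he
    have := hnd2 (2 * j + 1) (by omega) (2 * i + 1) (by omega) (by rw [a1, a1]; exact he)
    omega
  have nuv : ∀ i < k, ∀ j < k, u i ≠ v j := by
    intro i hi j hj he
    have := hnd2 (2 * j + 1) (by omega) (2 * i) (by omega) (by rw [a0, a1]; exact he)
    omega
  have lne : ∀ i ≤ k, (if i = 0 then σ else v (i - 1)) ≠ (if i = k then τ else u i) := by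
    intro i hi
    by_cases h0 : i = 0
    · subst h0
      have : ¬ (0 = k) := by omega
      simp only [if_true, this, if_false]
      exact (nuσ 0 hk).1.symm
    · by_cases h1 : i = k
      · subst h1
        simp only [h0, if_false, if_true]
        exact (nuτ (i - 1) (by omega)).2
      · simp only [h0, h1, if_false]
        exact (nuv i (by omega) (i - 1) (by omega)).symm
  have hleft : ∀ i ≤ k, (if i = 0 then σ else v (i - 1)) ∈ S ∧
      y i ∈ cr G X (if i = 0 then σ else v (i - 1)) := by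
    intro i hi
    by_cases h0 : i = 0
    · subst h0
      simp only [if_true]
      exact ⟨g17, hyσ⟩
    · simp only [h0, if_false]
      have := hyv (i - 1) (by omega)
      have e : i - 1 + 1 = i := by omega
      rw [e] at this
      exact ⟨(hmem (i - 1) (by omega)).2.2.1, this⟩
  have hright : ∀ i ≤ k, (if i = k then τ else u i) ∈ S ∧
      y i ∈ cr G X (if i = k then τ else u i) := by
    intro i hi
    by_cases h0 : i = k
    · subst h0
      simp only [if_true]
      exact ⟨f17, hyτ⟩
    · simp only [h0, if_false]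
      exact ⟨(hmem i (by omega)).2.1, hyu i (by omega)⟩
  have hNy : ∀ i ≤ k, NM G X (y i) := by
    intro i hi
    by_cases h0 : i = 0
    · subst h0
      exact (hN _ (hNu 0 hk)).nb _ (mem_cr.mp (hyu 0 hk)).1
    · have e1 : i - 1 + 1 = i := by omega
      have := (mem_cr.mp (hyv (i - 1) (by omega))).1
      rw [e1] at this
      exact (hN _ (hNv (i - 1) (by omega))).nb _ this
  have hlink : ∀ i ≤ k, y i ∈ Z ∧ cc G X (y i) = 2 ∧ cr G X (y i) =
      {if i = 0 then σ else v (i - 1), if i = k then τ else u i} := fun i hi =>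
    inv_link hcub hI (hNy i hi) (h.1 (hleft i hi).1) (h.1 (hright i hi).1) (lne i hi)
      (hleft i hi).2 (hright i hi).2
  have hside2 : X τ ↔ X σ := by
    have h1 := side_of_cr hyτ (hyv (k - 1) (by omega) |> fun h2 => by
      have e : k - 1 + 1 = k := by omega
      rwa [e] at h2)
    have h2 := (hmid (k - 1) (by omega)).2.2.1.1.2
    exact h1.trans (h2.symm.trans (hside (k - 1) (by omega)))
  refine ⟨k, p, u, v, q, y, hk, ?_, fun i hi => ⟨(hpq' i hi).2.1, hNu i hi, hNv i hi,
    (hpq' i hi).2.2⟩⟩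
  refine ⟨g17, f17, hside2, hpq, hside, hmem, cu, cv,
    fun i hi => (hlink i hi).2.2, lne, fun i hi => (hlink i hi).1, fun i hi => (hlink i hi).2.1,
    nuu, nvv, nuv, nuσ, nuτ, ?_, ?_, ?_⟩
  · -- the links are different
    have key : ∀ i j, i < j → j ≤ k → y i ≠ y j := by
      intro i j hij hj he
      have h1 := (hleft j hj).2
      rw [← he] at h1
      have h2 := (hlink i (by omega)).2.2
      have h3 := mem_crs.mp h1
      rw [h2, Finset.mem_insert, Finset.mem_singleton] at h3
      have hj0 : ¬ (j = 0) := by omega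
      have hik : ¬ (i = k) := by omega
      simp only [hj0, hik, if_false] at h3
      rcases h3 with h3 | h3
      · by_cases hi0 : i = 0
        · simp only [hi0, if_true] at h3
          exact (nuσ (j - 1) (by omega)).2 h3
        · simp only [hi0, if_false] at h3
          have := nvv (j - 1) (by omega) (i - 1) (by omega) h3
          omega
      · exact nuv i (by omega) (j - 1) (by omega) h3.symm
    intro i hi j hj he
    rcases lt_trichotomy i j with h1 | h1 | h1
    · exact absurd he (key i j h1 hj)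
    · exact h1
    · exact absurd he.symm (key j i h1 hi)
  · intro _
    have h3 := hpq 0 hk
    refine ⟨?_, ?_⟩
    · rintro rfl
      exact g14 h3.pu.1.symm
    · rintro rfl
      -- `w0 = v 0`, `w0' = q 0`
      have e1 : w0 = v 0 := by
        rcases own_two (hN _ (hNu 0 hk)).self (ownR_symm h3.pu) h3.uv g3 with h4 | h4 | h4
        · exact absurd h4 h3.pv
        · have h5 := h3.cp
          rw [h4] at h5
          omega
        · exact h4.symm
      subst e1
      rcases own_two (hN _ (hNv 0 hk)).self (ownR_symm h3.uv) h3.vq g6 with h4 | h4 | h4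
      · exact h3.uq h4
      · exact g7 h4.symm
      · exact g15 h4
  · intro _
    have h3 := hpq (k - 1) (by omega)
    refine ⟨?_, ?_⟩
    · rintro rfl
      have e1 : wk = u (k - 1) := by
        rcases own_two (hN _ (hNv (k - 1) (by omega))).self h3.vq (ownR_symm h3.uv) f3 with
          h4 | h4 | h4
        · exact absurd h4 h3.uq.symm
        · have h5 := h3.cq
          rw [h4] at h5
          omega
        · exact h4.symm
      subst e1
      rcases own_two (hN _ (hNu (k - 1) (by omega))).self h3.uv (ownR_symm h3.pu) f6 with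
        h4 | h4 | h4
      · exact h3.pv h4.symm
      · exact f7 h4.symm
      · exact f15 h4
    · rintro rfl
      exact f14 h3.vq.1

end

end Helper33.Off
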