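import Pool.Agent.helper33.L9.StackX
import Pool.Agent.helper33.L9.OffWire
import Pool.Agent.helper33.L9.Config
import Pool.Agent.helper40.L9.JDefs

/-!
# The joint stage for `U_5`'s

The `U_5`'s (with `z1 ≠ z5`) are selected one after the other; the rest is labelled first, then the
`U_5`'s in the order of selection.  Altogether this is one region.
-/

set_option linter.unusedSimpArgs false
set_option linter.unusedSectionVars false

namespace Helper33.Joint

open Finset Classical Helper42.L9 Helper33.L9 Helper33.Off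
open Pool.Agent.helper40.L9 (JSt Bad Tol LamU)
open Pool.Agent.helper58.L9 (St Rel)

variable {V : Type*}

/-- the data of a `U_5` -/
structure U5T (V : Type*) where
  v1 : V
  v2 : V
  v3 : V
  v4 : V
  v5 : V
  z1 : V
  z3 : V
  z5 : V
  l1 : V
  l5 : V
  kA : ℕ
  kB : ℕ
  pA : ℕ → V
  uA : ℕ → V
  vA : ℕ → V
  qA : ℕ → V
  yA : ℕ → V
  pB : ℕ → V
  uB : ℕ → V
  vB : ℕ → V
  qB : ℕ → V
  yB : ℕ → V

/-- the labelled vertices of a `U_5` -/
def U5T.lam (t : U5T V) : V → Prop :=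
  LamU t.v1 t.v2 t.v3 t.v4 t.v5 t.kA t.kB t.uA t.vA t.yA t.uB t.vB t.yB

variable [Fintype V] {G : SimpleGraph V} {X : V → Prop} {Z Z' Zm S : Finset V}

/-- `t` is a `U_5` -/
def U5T.Is (t : U5T V) (G : SimpleGraph V) (X : V → Prop) (Z S : Finset V) : Prop :=
  U5 G X Z S t.v1 t.v2 t.v3 t.v4 t.v5 t.z1 t.z3 t.z5 t.l1 t.l5 t.kA t.kB t.pA t.uA t.vA t.qA t.yA
    t.pB t.uB t.vB t.qB t.yB

/-- the local facts at the vertices of a wire -/
def WFr (G : SimpleGraph V) (X : V → Prop) (k : ℕ) (p u v q : ℕ → V) : Prop :=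
  ∀ i < k, Fr G X (p i) ∧ Fr G X (u i) ∧ Fr G X (v i) ∧ Fr G X (q i)

/-- the local facts at the vertices of a `U_5` -/
structure U5T.Loc (t : U5T V) (G : SimpleGraph V) (X : V → Prop) : Prop where
  f1 : Fr G X t.v1
  f2 : Fr G X t.v2
  f3 : Fr G X t.v3
  f4 : Fr G X t.v4
  f5 : Fr G X t.v5
  fA : WFr G X t.kA t.pA t.uA t.vA t.qA
  fB : WFr G X t.kB t.pB t.uB t.vB t.qB

/-- the vertices of a `U_5` as a finset -/
noncomputable def U5T.Lam (t : U5T V) : Finset V := univ.filter t.lam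

theorem U5T.mem_Lam {t : U5T V} {x : V} : x ∈ t.Lam ↔ t.lam x := by simp [U5T.Lam]

theorem wire_ends {k : ℕ} {p u v q y : ℕ → V} {σ τ : V} (h : Wire G X Z S k p u v q y σ τ)
    {i : ℕ} (hi : i ≤ k) :
    (if i = 0 then σ else v (i - 1)) ∈ S ∧ (if i = k then τ else u i) ∈ S := by
  constructor
  · split_ifs with h0
    · exact h.σS
    · exact (h.mem (i - 1) (by omega)).2.2.1
  · split_ifs with h0
    · exact h.τS
    · exact (h.mem i (by omega)).2.1

theorem wire_side {k : ℕ} {p u v q y : ℕ → V} {σ τ : V} (h : Wire G X Z S k p u v q y σ τ)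
    {i : ℕ} (hi : i ≤ k) : ¬ (X (y i) ↔ X σ) := by
  have h1 : (if i = 0 then σ else v (i - 1)) ∈ cr G X (y i) := by rw [h.link i hi]; simp
  have h2 := (mem_cr.mp h1).2
  split_ifs at h2 with h0
  · tauto
  · have h3 := h.sides (i - 1) (by omega)
    have h4 := (h.unit (i - 1) (by omega)).uv.2
    tauto

/-- everything near a wire lies in `Z` -/
theorem wire_cl {k : ℕ} {p u v q y : ℕ → V} {σ τ : V} (h : Wire G X Z S k p u v q y σ τ)
    (hS : S ⊆ Z) (hσ : ∀ w ∈ cr G X σ, w ∈ Z) (hτ : ∀ w ∈ cr G X τ, w ∈ Z) :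
    (∀ i ≤ k, ∀ z ∈ cr G X (y i), z ∈ Z ∧ ∀ w ∈ cr G X z, w ∈ Z) ∧
    (∀ i ≤ k, ∀ w ∈ cr G X (y i), w ∈ Z) ∧
    ∀ i < k, ∀ x, x = u i ∨ x = v i → ∀ z ∈ cr G X x, z ∈ Z ∧ ∀ w ∈ cr G X z, w ∈ Z := by
  have h2 : ∀ i ≤ k, ∀ w ∈ cr G X (y i), w ∈ Z := by
    intro i hi w hw
    rw [h.link i hi, Finset.mem_insert, Finset.mem_singleton] at hw
    rcases hw with rfl | rfl
    · exact hS (wire_ends h hi).1
    · exact hS (wire_ends h hi).2
  refine ⟨?_, h2, ?_⟩
  · intro i hi z hz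
    refine ⟨h2 i hi z hz, ?_⟩
    rw [h.link i hi, Finset.mem_insert, Finset.mem_singleton] at hz
    rcases hz with rfl | rfl
    · split_ifs with h0
      · exact hσ
      · intro w hw
        rw [h.cv (i - 1) (by omega), Finset.mem_singleton] at hw
        rw [hw]
        exact h.yZ _ (by omega)
    · split_ifs with h0
      · exact hτ
      · intro w hw
        rw [h.cu i (by omega), Finset.mem_singleton] at hw
        rw [hw]
        exact h.yZ _ (by omega)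
  · intro i hi x hx z hz
    rcases hx with rfl | rfl
    · rw [h.cu i hi, Finset.mem_singleton] at hz
      rw [hz]
      exact ⟨h.yZ _ (by omega), h2 _ (by omega)⟩
    · rw [h.cv i hi, Finset.mem_singleton] at hz
      rw [hz]
      exact ⟨h.yZ _ (by omega), h2 _ (by omega)⟩

theorem U5T.Is.sub {t : U5T V} (h : t.Is G X Z S) (hS : S ⊆ Z) {x : V} (hx : t.lam x) : x ∈ Z := by
  obtain ⟨m1, m2, m3, m4, m5⟩ := h.mem
  rcases hx with rfl | rfl | rfl | rfl | rfl | ⟨i, hi, rfl | rfl⟩ | ⟨i, hi, rfl⟩ |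
    ⟨i, hi, rfl | rfl⟩ | ⟨i, hi, rfl⟩
  · exact hS m1
  · exact hS m2
  · exact hS m3
  · exact hS m4
  · exact hS m5
  · exact hS (h.A.mem i hi).2.1
  · exact hS (h.A.mem i hi).2.2.1
  · exact h.A.yZ i hi
  · exact hS (h.B.mem i hi).2.1
  · exact hS (h.B.mem i hi).2.2.1
  · exact h.B.yZ i hi

/-- the cross neighbours of the removed vertices and their cross neighbours lie in `Z` -/
theorem U5T.Is.crcr {t : U5T V} (h : t.Is G X Z S) (hS : S ⊆ Z) {x : V} (hx : t.lam x) :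
    ∀ z ∈ cr G X x, z ∈ Z ∧ ∀ w ∈ cr G X z, w ∈ Z := by
  obtain ⟨m1, m2, m3, m4, m5⟩ := h.mem
  have hz1 : ∀ w ∈ cr G X t.z1, w ∈ Z := by
    intro w hw
    rw [h.cz1, Finset.mem_insert, Finset.mem_singleton] at hw
    rcases hw with rfl | rfl
    · exact hS m1
    · exact hS h.e1.2.2.1
  have hz5 : ∀ w ∈ cr G X t.z5, w ∈ Z := by
    intro w hw
    rw [h.cz5, Finset.mem_insert, Finset.mem_singleton] at hw
    rcases hw with rfl | rfl
    · exact hS m5
    · exact hS h.e5.2.2.1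
  have c1 : ∀ w ∈ cr G X t.v1, w ∈ Z := by
    intro w hw
    rw [h.cr1, Finset.mem_insert, Finset.mem_singleton] at hw
    rcases hw with rfl | rfl
    · exact h.A.yZ _ le_rfl
    · exact h.e1.1
  have c5 : ∀ w ∈ cr G X t.v5, w ∈ Z := by
    intro w hw
    rw [h.cr5, Finset.mem_insert, Finset.mem_singleton] at hw
    rcases hw with rfl | rfl
    · exact h.B.yZ _ le_rfl
    · exact h.e5.1
  have c4 : ∀ w ∈ cr G X t.v4, w ∈ Z := by
    intro w hw
    rw [h.cr4, Finset.mem_singleton] at hw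
    rw [hw]
    exact h.A.yZ _ (Nat.zero_le _)
  have c2 : ∀ w ∈ cr G X t.v2, w ∈ Z := by
    intro w hw
    rw [h.cr2, Finset.mem_singleton] at hw
    rw [hw]
    exact h.B.yZ _ (Nat.zero_le _)
  obtain ⟨a1, a2, a3⟩ := wire_cl h.A hS c4 c1
  obtain ⟨b1, b2, b3⟩ := wire_cl h.B hS c2 c5
  rcases hx with rfl | rfl | rfl | rfl | rfl | ⟨i, hi, hx⟩ | ⟨i, hi, rfl⟩ |
    ⟨i, hi, hx⟩ | ⟨i, hi, rfl⟩
  · intro z hz
    refine ⟨c1 z hz, ?_⟩
    rw [h.cr1, Finset.mem_insert, Finset.mem_singleton] at hz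
    rcases hz with rfl | rfl
    · exact a2 _ le_rfl
    · exact hz1
  · intro z hz
    refine ⟨c2 z hz, ?_⟩
    rw [h.cr2, Finset.mem_singleton] at hz
    rw [hz]
    exact b2 _ (Nat.zero_le _)
  · intro z hz
    rw [h.cr3, Finset.mem_singleton] at hz
    rw [hz]
    refine ⟨h.e3.1, ?_⟩
    intro w hw
    rw [h.cz3, Finset.mem_singleton] at hw
    rw [hw]
    exact hS m3
  · intro z hz
    refine ⟨c4 z hz, ?_⟩
    rw [h.cr4, Finset.mem_singleton] at hz
    rw [hz]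
    exact a2 _ (Nat.zero_le _)
  · intro z hz
    refine ⟨c5 z hz, ?_⟩
    rw [h.cr5, Finset.mem_insert, Finset.mem_singleton] at hz
    rcases hz with rfl | rfl
    · exact b2 _ le_rfl
    · exact hz5
  · exact a3 i hi x hx
  · exact a1 i hi
  · exact b3 i hi x hx
  · exact b1 i hi

section

variable (hcub : ∀ v, (univ.filter fun b => G.Adj v b).card = 3)

theorem lam_yA {t : U5T V} {i : ℕ} (hi : i ≤ t.kA) : t.lam (t.yA i) :=
  Or.inr (Or.inr (Or.inr (Or.inr (Or.inr (Or.inr (Or.inl ⟨i, hi, rfl⟩))))))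

theorem lam_yB {t : U5T V} {i : ℕ} (hi : i ≤ t.kB) : t.lam (t.yB i) :=
  Or.inr (Or.inr (Or.inr (Or.inr (Or.inr (Or.inr (Or.inr (Or.inr ⟨i, hi, rfl⟩)))))))

theorem lam_uA {t : U5T V} {i : ℕ} (hi : i < t.kA) : t.lam (t.uA i) ∧ t.lam (t.vA i) :=
  ⟨Or.inr (Or.inr (Or.inr (Or.inr (Or.inr (Or.inl ⟨i, hi, Or.inl rfl⟩))))),
    Or.inr (Or.inr (Or.inr (Or.inr (Or.inr (Or.inl ⟨i, hi, Or.inr rfl⟩)))))⟩

theorem lam_uB {t : U5T V} {i : ℕ} (hi : i < t.kB) : t.lam (t.uB i) ∧ t.lam (t.vB i) :=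
  ⟨Or.inr (Or.inr (Or.inr (Or.inr (Or.inr (Or.inr (Or.inr (Or.inl ⟨i, hi, Or.inl rfl⟩))))))),
    Or.inr (Or.inr (Or.inr (Or.inr (Or.inr (Or.inr (Or.inr (Or.inl ⟨i, hi, Or.inr rfl⟩)))))))⟩

include hcub in
/-- the own neighbours of the removed vertices -/
theorem U5T.Is.own {t : U5T V} (h : t.Is G X Z S) (hL : t.Loc G X) {m a : V} (hm : t.lam m)
    (ha : ownR G X m a) : cc G X m = 2 ∨ t.lam a ∨ (a ∈ S ∧ Fr G X a ∧ cc G X a = 2 ∧ NM G X m ∧
      ∃ m', ownR G X m m' ∧ t.lam m') := by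
  obtain ⟨⟨n12, n13, n14, n15⟩, ⟨n23, n24, n25⟩, ⟨n34, n35⟩, n45⟩ :
      (t.v1 ≠ t.v2 ∧ t.v1 ≠ t.v3 ∧ t.v1 ≠ t.v4 ∧ t.v1 ≠ t.v5) ∧
      (t.v2 ≠ t.v3 ∧ t.v2 ≠ t.v4 ∧ t.v2 ≠ t.v5) ∧ (t.v3 ≠ t.v4 ∧ t.v3 ≠ t.v5) ∧ t.v4 ≠ t.v5 := by
    have := h.nd
    simpa only [List.nodup_cons, List.mem_cons, List.not_mem_nil, or_false, not_or,
      List.nodup_nil, and_true, not_false_eq_true] using this
  have l1 : t.lam t.v1 := Or.inl rfl
  have l2 : t.lam t.v2 := Or.inr (Or.inl rfl)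
  have l3 : t.lam t.v3 := Or.inr (Or.inr (Or.inl rfl))
  have l4 : t.lam t.v4 := Or.inr (Or.inr (Or.inr (Or.inl rfl)))
  have l5 : t.lam t.v5 := Or.inr (Or.inr (Or.inr (Or.inr (Or.inl rfl))))
  rcases hm with rfl | rfl | rfl | rfl | rfl | ⟨i, hi, hx⟩ | ⟨i, hi, rfl⟩ |
    ⟨i, hi, hx⟩ | ⟨i, hi, rfl⟩
  · right; left
    rw [own_one hcub h.c1 ha h.o12]
    exact l2
  · right; left
    rcases own_two hL.f2.self (ownR_symm h.o12) h.o23 ha with h1 | h1 | h1
    · exact absurd h1 n13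
    · rw [← h1]; exact l1
    · rw [← h1]; exact l3
  · right; left
    rcases own_two hL.f3.self (ownR_symm h.o23) h.o34 ha with h1 | h1 | h1
    · exact absurd h1 n24
    · rw [← h1]; exact l2
    · rw [← h1]; exact l4
  · right; left
    rcases own_two hL.f4.self (ownR_symm h.o34) h.o45 ha with h1 | h1 | h1
    · exact absurd h1 n35
    · rw [← h1]; exact l3
    · rw [← h1]; exact l5
  · right; left
    rw [own_one hcub h.c5 ha (ownR_symm h.o45)]
    exact l4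
  · have hu := h.A.unit i hi
    obtain ⟨g1, g2, g3, g4⟩ := hL.fA i hi
    obtain ⟨k1, k2⟩ := lam_uA (t := t) hi
    rcases hx with rfl | rfl
    · rcases own_two g2.self (ownR_symm hu.pu) hu.uv ha with h1 | h1 | h1
      · exact absurd h1 hu.pv
      · rw [← h1]
        exact Or.inr (Or.inr ⟨(h.A.mem i hi).1, g1, hu.cp, g2.self, _, hu.uv, k2⟩)
      · right; left
        rw [← h1]
        exact k2
    · rcases own_two g3.self (ownR_symm hu.uv) hu.vq ha with h1 | h1 | h1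
      · exact absurd h1 hu.uq
      · right; left
        rw [← h1]
        exact k1
      · rw [← h1]
        exact Or.inr (Or.inr ⟨(h.A.mem i hi).2.2.2, g4, hu.cq, g3.self, _, ownR_symm hu.uv, k1⟩)
  · exact Or.inl (h.A.y2 i hi)
  · have hu := h.B.unit i hi
    obtain ⟨g1, g2, g3, g4⟩ := hL.fB i hi
    obtain ⟨k1, k2⟩ := lam_uB (t := t) hi
    rcases hx with rfl | rfl
    · rcases own_two g2.self (ownR_symm hu.pu) hu.uv ha with h1 | h1 | h1
      · exact absurd h1 hu.pv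
      · rw [← h1]
        exact Or.inr (Or.inr ⟨(h.B.mem i hi).1, g1, hu.cp, g2.self, _, hu.uv, k2⟩)
      · right; left
        rw [← h1]
        exact k2
    · rcases own_two g3.self (ownR_symm hu.uv) hu.vq ha with h1 | h1 | h1
      · exact absurd h1 hu.uq
      · right; left
        rw [← h1]
        exact k1
      · rw [← h1]
        exact Or.inr (Or.inr ⟨(h.B.mem i hi).2.2.2, g4, hu.cq, g3.self, _, ownR_symm hu.uv, k1⟩)
  · exact Or.inl (h.B.y2 i hi)

/-- vertices on the side of the path with a cross neighbour -/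
theorem U5T.Is.z_notLam {t : U5T V} (h : t.Is G X Z S) {z : V} (hs : ¬ (X z ↔ X t.v1))
    (hA : ∀ i ≤ t.kA, z ≠ t.yA i) (hB : ∀ i ≤ t.kB, z ≠ t.yB i) : ¬ t.lam z := by
  have s2 := h.o12.2
  have s3 := s2.trans h.o23.2
  have s4 := s3.trans h.o34.2
  have s5 := s4.trans h.o45.2
  rintro (rfl | rfl | rfl | rfl | rfl | ⟨i, hi, hx⟩ | ⟨i, hi, hx⟩ | ⟨i, hi, hx⟩ | ⟨i, hi, hx⟩)
  · exact hs Iff.rfl
  · exact hs s2.symm
  · exact hs s3.symm
  · exact hs s4.symm
  · exact hs s5.symm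
  · have h1 := h.A.sides i hi
    have h2 := (h.A.unit i hi).uv.2
    rcases hx with rfl | rfl
    · exact hs (h1.trans s4.symm)
    · exact hs (h2.symm.trans (h1.trans s4.symm))
  · exact hA i hi hx
  · have h1 := h.B.sides i hi
    have h2 := (h.B.unit i hi).uv.2
    rcases hx with rfl | rfl
    · exact hs (h1.trans s2.symm)
    · exact hs (h2.symm.trans (h1.trans s2.symm))
  · exact hB i hi hx

/-- an outer end is no removed vertex -/
theorem U5T.Is.l_notLam {t : U5T V} (h : t.Is G X Z S) {z l : V} (hzl : l ∈ cr G X z)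
    (hz : ¬ (X z ↔ X t.v1))
    (hA : ∀ i ≤ t.kA, z ≠ t.yA i) (hB : ∀ i ≤ t.kB, z ≠ t.yB i) (h3 : z ≠ t.z3)
    (h1 : l ≠ t.v1) (h5 : l ≠ t.v5) : ¬ t.lam l := by
  have hlz := mem_crs.mpr hzl
  have s2 := h.o12.2
  have s4 := (s2.trans h.o23.2).trans h.o34.2
  have hyA : ∀ i ≤ t.kA, ¬ (X (t.yA i) ↔ X t.v1) := by
    intro i hi hh
    have h6 := (wire_side h.A hi)
    exact h6 (hh.trans s4)
  have hyB : ∀ i ≤ t.kB, ¬ (X (t.yB i) ↔ X t.v1) := by
    intro i hi hh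
    have h6 := (wire_side h.B hi)
    exact h6 (hh.trans s2)
  have hl : (X l ↔ X t.v1) := by
    have := (mem_cr.mp hzl).2
    tauto
  rintro (rfl | rfl | rfl | rfl | rfl | ⟨i, hi, hx⟩ | ⟨i, hi, rfl⟩ | ⟨i, hi, hx⟩ | ⟨i, hi, rfl⟩)
  · exact h1 rfl
  · rw [h.cr2, Finset.mem_singleton] at hlz
    exact hB 0 (Nat.zero_le _) hlz
  · rw [h.cr3, Finset.mem_singleton] at hlz
    exact h3 hlz
  · rw [h.cr4, Finset.mem_singleton] at hlz
    exact hA 0 (Nat.zero_le _) hlz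
  · exact h5 rfl
  · rcases hx with rfl | rfl
    · rw [h.A.cu i hi, Finset.mem_singleton] at hlz
      exact hA i (by omega) hlz
    · rw [h.A.cv i hi, Finset.mem_singleton] at hlz
      exact hA (i + 1) (by omega) hlz
  · exact hyA i hi hl
  · rcases hx with rfl | rfl
    · rw [h.B.cu i hi, Finset.mem_singleton] at hlz
      exact hB i (by omega) hlz
    · rw [h.B.cv i hi, Finset.mem_singleton] at hlz
      exact hB (i + 1) (by omega) hlz
  · exact hyB i hi hl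


include hcub in
/-- the invariants survive the removal of a `U_5` -/
theorem U5T.Is.inv {t : U5T V} (h : t.Is G X Z S) (hS : S ⊆ Z) (hL : t.Loc G X)
    (hI : InvZ G X Z) : InvZ G X (Z \ t.Lam) := by
  refine ⟨fun c hc i hi => hI.C c hc i (Finset.mem_sdiff.mp hi).1, ?_, ?_⟩
  · intro w hw a b ha hb haZ hbZ
    rw [Finset.mem_sdiff, U5T.mem_Lam] at haZ hbZ
    by_cases hwZ : w ∈ Z
    · have hwL : t.lam w := by
        by_contra hn
        exact hw (Finset.mem_sdiff.mpr ⟨hwZ, fun hh => hn (U5T.mem_Lam.mp hh)⟩)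
      rcases h.own hcub hL hwL ha with h1 | h1 | ⟨_, _, _, h1, m', h2, h3⟩
      · exact own_one hcub h1 ha hb
      · exact absurd h1 haZ.2
      · rcases own_two h1 ha hb h2 with h4 | h4 | h4
        · exact h4
        · exact absurd (h4 ▸ h3) haZ.2
        · exact absurd (h4 ▸ h3) hbZ.2
    · exact hI.own1 w hwZ a b ha hb haZ.1 hbZ.1
  · intro y hy h2
    have key : ∀ x, G.Adj y x → ¬ (X x ↔ X y) → t.lam x →
        ∃ x, G.Adj y x ∧ ¬ (X x ↔ X y) ∧ x ∉ Z \ t.Lam :=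
      fun x h1 h2 h3 => ⟨x, h1, h2, fun hh =>
        (Finset.mem_sdiff.mp hh).2 (U5T.mem_Lam.mpr h3)⟩
    by_cases hyZ : y ∈ Z
    · have hyL : t.lam y := by
        by_contra hn
        exact hy (Finset.mem_sdiff.mpr ⟨hyZ, fun hh => hn (U5T.mem_Lam.mp hh)⟩)
      rcases hyL with rfl | rfl | rfl | rfl | rfl | ⟨i, hi, hx⟩ | ⟨i, hi, rfl⟩ |
        ⟨i, hi, hx⟩ | ⟨i, hi, rfl⟩
      · have h3 := mem_cr.mp h.A.yτ
        exact key _ h3.1 h3.2 (lam_yA le_rfl)
      · have := h.c2; omega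
      · have := h.c3; omega
      · have := h.c4; omega
      · have h3 := mem_cr.mp h.B.yτ
        exact key _ h3.1 h3.2 (lam_yB le_rfl)
      · exfalso
        have hu := h.A.unit i hi
        have e1 := hu.cu
        have e2 := hu.cv
        rcases hx with rfl | rfl
        · omega
        · omega
      · have h3 : (if i = 0 then t.v4 else t.vA (i - 1)) ∈ cr G X (t.yA i) := by
          rw [h.A.link i hi]; simp
        have h4 := mem_cr.mp h3
        refine key _ h4.1 h4.2 ?_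
        split_ifs with h0
        · exact Or.inr (Or.inr (Or.inr (Or.inl rfl)))
        · exact (lam_uA (by omega)).2
      · exfalso
        have hu := h.B.unit i hi
        have e1 := hu.cu
        have e2 := hu.cv
        rcases hx with rfl | rfl
        · omega
        · omega
      · have h3 : (if i = 0 then t.v2 else t.vB (i - 1)) ∈ cr G X (t.yB i) := by
          rw [h.B.link i hi]; simp
        have h4 := mem_cr.mp h3
        refine key _ h4.1 h4.2 ?_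
        split_ifs with h0
        · exact Or.inr (Or.inl rfl)
        · exact (lam_uB (by omega)).2
    · obtain ⟨x, h3, h4, h5⟩ := hI.crs y hyZ h2
      exact ⟨x, h3, h4, fun hh => h5 (Finset.mem_sdiff.mp hh).1⟩

theorem stuckZ_mono (h : Z' ⊆ Z) (hS : StuckZ G X Z' S) : StuckZ G X Z S := by
  refine ⟨hS.1.trans h, fun v hv => (hS.2 v hv).trans ?_⟩
  have h1 : (crW G.Adj X Z' v).card ≤ (crW G.Adj X Z v).card := by
    apply Finset.card_le_card
    intro b hb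
    unfold crW at hb ⊢
    rw [Finset.mem_filter] at hb ⊢
    exact ⟨h hb.1, hb.2⟩
  omega

/-- the removed part `Z \ Zm` -/
structure RemOK (G : SimpleGraph V) (X : V → Prop) (Z Zm : Finset V) : Prop where
  cr : ∀ m ∈ Z, m ∉ Zm → ∀ z ∈ cr G X m, z ∈ Z ∧ ∀ w ∈ cr G X z, w ∈ Z
  own : ∀ m ∈ Z, m ∉ Zm → cc G X m ≠ 2 → ∀ a, ownR G X m a → a ∈ Z ∧
    (a ∉ Zm ∨ ∃ S, StuckZ G X Z S ∧ a ∈ S ∧ Fr G X a ∧ cc G X a = 2)
  two : ∀ m ∈ Z, m ∉ Zm → cc G X m = 2 → ∀ b ∈ Helper42.L9.cr G X m, b ∉ Zm ∨ cc G X b = 2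

/-- the cross neighbours of the removed ends are removed or ends -/
theorem U5T.Is.two {t : U5T V} (h : t.Is G X Z S) {m b : V} (hm : t.lam m) (h2 : cc G X m = 2)
    (hb : b ∈ cr G X m) : t.lam b ∨ cc G X b = 2 := by
  have key : ∀ {k : ℕ} {p u v q y : ℕ → V} {σ τ : V}, Wire G X Z S k p u v q y σ τ →
      t.lam σ → t.lam τ → (∀ i < k, t.lam (u i) ∧ t.lam (v i)) → ∀ i ≤ k, b ∈ cr G X (y i) →
      t.lam b := by
    intro k p u v q y σ τ hw hσ hτ huv i hi hb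
    rw [hw.link i hi, Finset.mem_insert, Finset.mem_singleton] at hb
    rcases hb with rfl | rfl
    · split_ifs with h0
      · exact hσ
      · exact (huv (i - 1) (by omega)).2
    · split_ifs with h0
      · exact hτ
      · exact (huv i (by omega)).1
  have l1 : t.lam t.v1 := Or.inl rfl
  have l2 : t.lam t.v2 := Or.inr (Or.inl rfl)
  have l4 : t.lam t.v4 := Or.inr (Or.inr (Or.inr (Or.inl rfl)))
  have l5 : t.lam t.v5 := Or.inr (Or.inr (Or.inr (Or.inr (Or.inl rfl))))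
  rcases hm with rfl | rfl | rfl | rfl | rfl | ⟨i, hi, hx⟩ | ⟨i, hi, rfl⟩ |
    ⟨i, hi, hx⟩ | ⟨i, hi, rfl⟩
  · rw [h.cr1, Finset.mem_insert, Finset.mem_singleton] at hb
    rcases hb with rfl | rfl
    · exact Or.inl (Or.inr (Or.inr (Or.inr (Or.inr (Or.inr (Or.inr (Or.inl
        ⟨t.kA, le_rfl, rfl⟩)))))))
    · exact Or.inr h.e1.2.1
  · rw [h.c2] at h2; omega
  · rw [h.c3] at h2; omega
  · rw [h.c4] at h2; omega
  · rw [h.cr5, Finset.mem_insert, Finset.mem_singleton] at hb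
    rcases hb with rfl | rfl
    · exact Or.inl (Or.inr (Or.inr (Or.inr (Or.inr (Or.inr (Or.inr (Or.inr (Or.inr
        ⟨t.kB, le_rfl, rfl⟩))))))))
    · exact Or.inr h.e5.2.1
  · rcases hx with rfl | rfl
    · rw [(h.A.unit i hi).cu] at h2; omega
    · rw [(h.A.unit i hi).cv] at h2; omega
  · exact Or.inl (key h.A l4 l1 (fun j hj =>
      ⟨Or.inr (Or.inr (Or.inr (Or.inr (Or.inr (Or.inl ⟨j, hj, Or.inl rfl⟩))))),
        Or.inr (Or.inr (Or.inr (Or.inr (Or.inr (Or.inl ⟨j, hj, Or.inr rfl⟩)))))⟩) i hi hb)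
  · rcases hx with rfl | rfl
    · rw [(h.B.unit i hi).cu] at h2; omega
    · rw [(h.B.unit i hi).cv] at h2; omega
  · exact Or.inl (key h.B l2 l5 (fun j hj =>
      ⟨Or.inr (Or.inr (Or.inr (Or.inr (Or.inr (Or.inr (Or.inr (Or.inl ⟨j, hj, Or.inl rfl⟩))))))),
        Or.inr (Or.inr (Or.inr (Or.inr (Or.inr (Or.inr (Or.inr (Or.inl
          ⟨j, hj, Or.inr rfl⟩)))))))⟩) i hi hb)

include hcub in
theorem RemOK.step {t : U5T V} (h : t.Is G X Z S) (hS : StuckZ G X Z S) (hL : t.Loc G X)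
    (hZm : Zm ⊆ Z \ t.Lam) (hR : RemOK G X (Z \ t.Lam) Zm) : RemOK G X Z Zm := by
  have nm : ∀ {x}, t.lam x → x ∉ Zm := fun hx hh =>
    (Finset.mem_sdiff.mp (hZm hh)).2 (U5T.mem_Lam.mpr hx)
  refine ⟨?_, ?_, ?_⟩
  · intro m hm hmm
    by_cases hl : t.lam m
    · exact h.crcr hS.1 hl
    · intro z hz
      obtain ⟨h1, h2⟩ := hR.cr m (Finset.mem_sdiff.mpr ⟨hm, fun hh => hl (U5T.mem_Lam.mp hh)⟩)
        hmm z hz
      exact ⟨(Finset.mem_sdiff.mp h1).1, fun w hw => (Finset.mem_sdiff.mp (h2 w hw)).1⟩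
  · intro m hm hmm hc a ha
    by_cases hl : t.lam m
    · rcases h.own hcub hL hl ha with h1 | h1 | ⟨h1, h2, h3, _⟩
      · exact absurd h1 hc
      · exact ⟨h.sub hS.1 h1, Or.inl (nm h1)⟩
      · exact ⟨hS.1 h1, Or.inr ⟨S, hS, h1, h2, h3⟩⟩
    · obtain ⟨h1, h2⟩ := hR.own m (Finset.mem_sdiff.mpr ⟨hm, fun hh => hl (U5T.mem_Lam.mp hh)⟩)
        hmm hc a ha
      refine ⟨(Finset.mem_sdiff.mp h1).1, ?_⟩
      rcases h2 with h2 | ⟨S', h2, h3⟩
      · exact Or.inl h2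
      · exact Or.inr ⟨S', stuckZ_mono Finset.sdiff_subset h2, h3⟩
  · intro m hm hmm h2 b hb
    by_cases hl : t.lam m
    · exact (h.two hl h2 hb).imp nm id
    · exact hR.two m (Finset.mem_sdiff.mpr ⟨hm, fun hh => hl (U5T.mem_Lam.mp hh)⟩) hmm h2 b hb

include hcub in
/-- `z1` lies in no stuck set after the removal -/
theorem z_not_stuck {z v y l : V} (hF : Fr G X z) (h2 : cc G X z = 2) (hcz : cr G X z = {v, l})
    (hvl : v ≠ l) (hcv : cr G X v = {y, z}) (hy : y ∉ Z) (hv : v ∉ Z) (hyz : y ≠ z)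
    (hS : StuckZ G X Z S) (hz : z ∈ S) : False := by
  have h5 := hS.2 z hz
  have hvz : v ∈ cr G X z := by rw [hcz]; simp
  have hyv : y ∈ cr G X v := by rw [hcv]; simp
  have hzv : z ∈ cr G X v := by rw [hcv]; simp
  have h6 : (crW G.Adj X Z z).card ≤ 1 := by
    have : crW G.Adj X Z z ⊆ {l} := by
      intro b hb
      have h7 : b ∈ cr G X z := crW_sub hb
      unfold crW at hb
      rw [Finset.mem_filter] at hb
      rw [hcz, Finset.mem_insert, Finset.mem_singleton] at h7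
      rcases h7 with rfl | rfl
      · exact absurd hb.1 hv
      · simp
    exact (Finset.card_le_card this).trans (by simp)
  have h7 := count_bound (fun v => (hcub v).le) S hF
  have h8 := cc_two.mp h2
  have h9 : (pt G X z).card ≤ 3 := by
    have h6 : (pt G X z).card ≤ (univ.filter fun b => G.Adj z b).card :=
      Finset.card_le_card pt_subset
    have := hcub z
    omega
  have a1 := mem_cr.mp hvz
  have a2 := mem_cr.mp hyv
  have a3 := mem_cr.mp hzv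
  obtain ⟨p1, p2⟩ := partner_unique (hF.nb v a1.1) a1.1 hyz a2.1 (by
    have := a2.2; have := a3.2; tauto)
  have h10 : 1 ≤ ((pt G X z).filter fun w => partner G X w z ∉ S).card := by
    rw [Nat.one_le_iff_ne_zero, ← Nat.pos_iff_ne_zero, Finset.card_pos]
    refine ⟨v, Finset.mem_filter.mpr ⟨p1, ?_⟩⟩
    rw [p2]
    exact fun hh => hy (hS.1 hh)
  unfold Dq at h5
  omega

/-- the extension theorem for one `U_5` -/
def U5T.Ext (t : U5T V) (G : SimpleGraph V) (X : V → Prop) : Prop :=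
  ∀ (L : V → Prop) (f : V → ℕ), JSt G X L f →
    (∀ x, t.lam x → ¬ L x) → L t.z1 → L t.z3 → L t.z5 → L t.l1 → L t.l5 →
    (∀ w, ownR G X t.z1 w → ¬ L w → ¬ t.lam w → cc G X w = 2) →
    (∀ w, ownR G X t.z5 w → ¬ L w → ¬ t.lam w → cc G X w = 2) →
    (∀ b, ownR G X (t.yA t.kA) b → ¬ L b → ¬ t.lam b → cc G X b = 2) →
    (∀ b, ownR G X (t.yB t.kB) b → ¬ L b → ¬ t.lam b → cc G X b = 2) →
    (∀ b, ownR G X (t.yA t.kA) b → L b → cc G X b = 3 → ∀ d ∈ cr G X b, ¬ L d → cc G X d = 3) →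
    (∀ b, ownR G X (t.yB t.kB) b → L b → cc G X b = 3 → ∀ d ∈ cr G X b, ¬ L d → cc G X d = 3) →
    ∃ f' : V → ℕ, JSt G X (fun x => L x ∨ t.lam x) f'

end

end Helper33.Joint
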