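import Pool.Agent.helper33.L9.Joint

/-!
# The joint stage for `U_5`'s as one region
-/

set_option linter.unusedSimpArgs false
set_option linter.unusedSectionVars false

namespace Helper33.Joint

open Finset Classical Helper33.L9 Helper33.Off
open Helper42.L9 hiding near
open Pool.Agent.helper40.L9 (JSt Bad Tol LamU)
open Pool.Agent.helper58.L9 (St Rel)

variable {V : Type*} [Fintype V] {G : SimpleGraph V} {X : V → Prop} {Z Z' Zm S : Finset V}

/-- a state is a joint state -/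
theorem jst_of_st {L E : V → Prop} {f : V → ℕ} (h : StG G X L E f) : JSt G X L f := by
  have hE : ∀ e, L e → Bad X f e → E e := by
    intro e he hb
    by_contra hn
    exact hb (h.par.par e ⟨he, hn⟩)
  refine ⟨?_, ?_, ?_, ?_, ?_⟩
  · intro v hv
    by_cases he : E v
    · exact h.le v he
    · exact h.par.le v ⟨hv, he⟩
  · intro u v hu hv huv
    by_cases heu : E u
    · exact h.adj u v heu huv
    · by_cases hev : E v
      · exact (h.adj v u hev huv.symm).symm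
      · have pu := h.par.par u ⟨hu, heu⟩
        have pv := h.par.par v ⟨hv, hev⟩
        by_cases hs : X u ↔ X v
        · have hq : f u ≠ f v := h.par.q u v ⟨hu, heu⟩ ⟨hv, hev⟩ ⟨hs, huv.ne, Or.inl huv⟩
          have h6 : Even (f u) ↔ Even (f v) := pu.symm.trans (hs.trans pv)
          rw [Nat.even_iff, Nat.even_iff] at h6
          omega
        · have c1 := h.par.cross u v ⟨hu, heu⟩ ⟨hv, hev⟩ huv hs
          have c2 := h.par.cross v u ⟨hv, hev⟩ ⟨hu, heu⟩ huv.symm (fun h => hs h.symm)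
          have h6 : ¬ (Even (f u) ↔ Even (f v)) := fun h => hs (pu.trans (h.trans pv.symm))
          rw [Nat.even_iff, Nat.even_iff] at h6
          omega
  · intro u v hu hv hN
    by_cases heu : E u
    · exact h.ne u v heu hN
    · by_cases hev : E v
      · exact (h.ne v u hev (near_symm hN)).symm
      · have pu := h.par.par u ⟨hu, heu⟩
        have pv := h.par.par v ⟨hv, hev⟩
        by_cases hs : X u ↔ X v
        · exact h.par.q u v ⟨hu, heu⟩ ⟨hv, hev⟩ ⟨hs, hN.1, hN.2⟩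
        · intro he
          exact hs (pu.trans (by rw [he]; exact pv.symm))
  · intro e v he hb hev
    exact h.inv e v (hE e he hb) ⟨hev.ne, Or.inl hev⟩
  · intro e v he hb hv hN
    exact absurd (h.inv e v (hE e he hb) hN) hv

/-- a joint state is a state if no unlabelled vertex is an end -/
theorem st_of_jst {L : V → Prop} {f : V → ℕ} (h : JSt G X L f) (hc : ∀ v, ¬ L v → cc G X v ≠ 2) :
    StG G X L (fun e => L e ∧ Bad X f e) f := by
  have hinv : ∀ e v, (L e ∧ Bad X f e) → near G e v → L v := by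
    rintro e v ⟨he, hb⟩ hN
    by_contra hv
    exact hc v hv (h.tol e v he hb hv hN).1
  refine ⟨⟨?_, ?_, ?_, ?_⟩, ?_, ?_, ?_, ?_, ?_⟩
  · intro v hv
    exact h.le v hv.1
  · intro v hv
    by_contra hb
    exact hv.2 ⟨hv.1, hb⟩
  · intro u v hu hv hq
    exact h.ne u v hu.1 hv.1 (qadj_near hq)
  · intro u v hu hv huv _
    have := h.adj u v hu.1 hv.1 huv
    omega
  · exact fun e he => he.1
  · exact fun e he => h.le e he.1
  · exact hinv
  · intro e v he hev
    exact h.adj e v he.1 (hinv e v he ⟨hev.ne, Or.inl hev⟩) hev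
  · intro e v he hN
    exact h.ne e v he.1 (hinv e v he hN) hN

theorem jst_congr {L L' : V → Prop} {f : V → ℕ} (h : JSt G X L f) (he : ∀ x, L x ↔ L' x) :
    JSt G X L' f := by
  have : L = L' := funext fun x => propext (he x)
  rw [← this]
  exact h

variable (hcub : ∀ v, (univ.filter fun b => G.Adj v b).card = 3)

include hcub in
/-- **The selection of the `U_5`'s.** -/
theorem joint_chain (Ok : Finset V → Finset V → U5T V → Prop)
    (ok : ∀ Z S t, Ok Z S t → StuckZ G X Z S ∧ t.Is G X Z S ∧ t.z1 ≠ t.z5 ∧ t.Loc G X)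
    (hJ : ∀ Z S t, InvZ G X Z → Ok Z S t → t.Ext G X) (Q : Finset V → Prop)
    (hQ : ∀ Z S t, InvZ G X Z → Q Z → Ok Z S t → Q (Z \ t.Lam)) (Z0 : Finset V)
    (hC : ∀ w, w ∉ Z0 → ∀ a, ownR G X w a → a ∉ Z0) (hC2 : ∀ w, w ∉ Z0 → cc G X w ≠ 2)
    (n : ℕ) :
    ∀ Z : Finset V, Z.card = n → Z ⊆ Z0 → InvZ G X Z → Q Z →
      ∃ Zm ⊆ Z, InvZ G X Zm ∧ Q Zm ∧ (∀ S t, ¬ Ok Zm S t) ∧ RemOK G X Z Zm ∧
        ((∃ S t, Ok Z S t) → Zm ≠ Z) ∧
        ∀ (L : V → Prop) (f : V → ℕ), JSt G X L f → (∀ x ∈ Z, L x ↔ x ∈ Zm) →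
          (∀ x, x ∉ Z → L x ∨ x ∉ Z0) → ∃ f' : V → ℕ, JSt G X (fun x => L x ∨ x ∈ Z) f' := by
  induction n using Nat.strong_induction_on with
  | _ n ih =>
    intro Z hn hZ0 hI hq
    by_cases hex : ∃ S t, Ok Z S t
    swap
    · refine ⟨Z, Finset.Subset.refl _, hI, hq, fun S t h => hex ⟨S, t, h⟩,
        ⟨fun m h1 h2 => absurd h1 h2, fun m h1 h2 => absurd h1 h2, fun m h1 h2 => absurd h1 h2⟩,
        fun h => absurd h hex, ?_⟩
      intro L f h h1 h2
      refine ⟨f, jst_congr h fun x => ⟨Or.inl, ?_⟩⟩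
      rintro (h3 | h3)
      · exact h3
      · exact (h1 x h3).mpr h3
    obtain ⟨S, t, hok⟩ := hex
    obtain ⟨hS, hU, hz, hL⟩ := ok Z S t hok
    have hlt : (Z \ t.Lam).card < n := by
      rw [← hn]
      apply Finset.card_lt_card
      rw [Finset.ssubset_iff_of_subset Finset.sdiff_subset]
      refine ⟨t.v1, hU.sub hS.1 (Or.inl rfl), ?_⟩
      rw [Finset.mem_sdiff, not_and_not_right]
      exact fun _ => U5T.mem_Lam.mpr (Or.inl rfl)
    obtain ⟨Zm, hZm, hIm, hqm, hno, hR, _, hext⟩ := ih _ hlt (Z \ t.Lam) rfl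
      (Finset.sdiff_subset.trans hZ0) (hU.inv hcub hS.1 hL hI) (hQ Z S t hI hq hok)
    have hnl : ∀ {x}, x ∈ Zm → ¬ t.lam x := fun hx hl =>
      (Finset.mem_sdiff.mp (hZm hx)).2 (U5T.mem_Lam.mpr hl)
    refine ⟨Zm, hZm.trans Finset.sdiff_subset, hIm, hqm, hno, hR.step hcub hU hS hL hZm, ?_, ?_⟩
    · intro _ he
      exact hnl (he ▸ hU.sub hS.1 (Or.inl rfl)) (Or.inl rfl)
    intro L f hf h1 h2
    have mem' : ∀ {x}, x ∈ Z → ¬ t.lam x → x ∈ Z \ t.Lam := fun hx hl =>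
      Finset.mem_sdiff.mpr ⟨hx, fun hh => hl (U5T.mem_Lam.mp hh)⟩
    have v1n : t.v1 ∉ Z \ t.Lam := fun hh =>
      (Finset.mem_sdiff.mp hh).2 (U5T.mem_Lam.mpr (Or.inl rfl))
    have v3n : t.v3 ∉ Z \ t.Lam := fun hh =>
      (Finset.mem_sdiff.mp hh).2 (U5T.mem_Lam.mpr (Or.inr (Or.inr (Or.inl rfl))))
    have v5n : t.v5 ∉ Z \ t.Lam := fun hh =>
      (Finset.mem_sdiff.mp hh).2 (U5T.mem_Lam.mpr (Or.inr (Or.inr (Or.inr (Or.inr (Or.inl rfl))))))
    have hv1z : t.z1 ∈ cr G X t.v1 := by rw [hU.cr1]; simp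
    have hv3z : t.z3 ∈ cr G X t.v3 := by rw [hU.cr3]; simp
    have hv5z : t.z5 ∈ cr G X t.v5 := by rw [hU.cr5]; simp
    have s3 : (X t.v3 ↔ X t.v1) := (hU.o12.2.trans hU.o23.2).symm
    have s5 : (X t.v5 ↔ X t.v1) :=
      (((hU.o12.2.trans hU.o23.2).trans hU.o34.2).trans hU.o45.2).symm
    have z1s : ¬ (X t.z1 ↔ X t.v1) := (mem_cr.mp hv1z).2
    have z3s : ¬ (X t.z3 ↔ X t.v1) := fun hh => (mem_cr.mp hv3z).2 (hh.trans s3.symm)
    have z5s : ¬ (X t.z5 ↔ X t.v1) := fun hh => (mem_cr.mp hv5z).2 (hh.trans s5.symm)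
    have z3A : ∀ i ≤ t.kA, t.z3 ≠ t.yA i := by
      intro i hi he
      have h3 := hU.A.y2 i hi
      rw [← he] at h3
      have := hU.e3.2
      omega
    have z3B : ∀ i ≤ t.kB, t.z3 ≠ t.yB i := by
      intro i hi he
      have h3 := hU.B.y2 i hi
      rw [← he] at h3
      have := hU.e3.2
      omega
    have nz1 := hU.z_notLam z1s hU.z1y hU.z1y'
    have nz3 := hU.z_notLam z3s z3A z3B
    have nz5 := hU.z_notLam z5s hU.z5y hU.z5y'
    have z13 : t.z1 ≠ t.z3 := by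
      intro he
      have h3 := hU.e1.2.1
      rw [he] at h3
      have := hU.e3.2
      omega
    have z53 : t.z5 ≠ t.z3 := by
      intro he
      have h3 := hU.e5.2.1
      rw [he] at h3
      have := hU.e3.2
      omega
    have cz1l : t.l1 ∈ cr G X t.z1 := by rw [hU.cz1]; simp
    have cz5l : t.l5 ∈ cr G X t.z5 := by rw [hU.cz5]; simp
    have l1v5 : t.l1 ≠ t.v5 := by
      intro he
      have h3 := mem_crs.mpr cz1l
      rw [he, hU.cr5, Finset.mem_insert, Finset.mem_singleton] at h3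
      rcases h3 with h3 | h3
      · exact hU.z1y' _ le_rfl h3
      · exact hz h3
    have l5v1 : t.l5 ≠ t.v1 := by
      intro he
      have h3 := mem_crs.mpr cz5l
      rw [he, hU.cr1, Finset.mem_insert, Finset.mem_singleton] at h3
      rcases h3 with h3 | h3
      · exact hU.z5y _ le_rfl h3
      · exact hz h3.symm
    have nl1 := hU.l_notLam cz1l z1s hU.z1y hU.z1y' z13 hU.e1.2.2.2 l1v5
    have nl5 := hU.l_notLam cz5l z5s hU.z5y hU.z5y' z53 l5v1 hU.e5.2.2.2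
    -- membership of the outer vertices in `Zm`
    have inm : ∀ {z v}, z ∈ Z → ¬ t.lam z → v ∈ cr G X z → v ∉ Z \ t.Lam → z ∈ Zm := by
      intro z v h3 h4 h5 h6
      by_contra hn
      exact h6 (hR.cr z (mem' h3 h4) hn v h5).1
    have inl : ∀ {l z v}, l ∈ Z → ¬ t.lam l → l ∈ cr G X z → v ∈ cr G X z → v ∉ Z \ t.Lam →
        l ∈ Zm := by
      intro l z v h3 h4 h5 h6 h7
      by_contra hn
      exact h7 ((hR.cr l (mem' h3 h4) hn z (mem_crs.mp h5)).2 v h6)
    have hv1c : t.v1 ∈ cr G X t.z1 := mem_crs.mp hv1z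
    have hv3c : t.v3 ∈ cr G X t.z3 := mem_crs.mp hv3z
    have hv5c : t.v5 ∈ cr G X t.z5 := mem_crs.mp hv5z
    have m1 : t.z1 ∈ Zm := inm hU.e1.1 nz1 hv1c v1n
    have m3 : t.z3 ∈ Zm := inm hU.e3.1 nz3 hv3c v3n
    have m5 : t.z5 ∈ Zm := inm hU.e5.1 nz5 hv5c v5n
    have ml1 : t.l1 ∈ Zm := inl (hS.1 hU.e1.2.2.1) nl1 cz1l hv1c v1n
    have ml5 : t.l5 ∈ Zm := inl (hS.1 hU.e5.2.2.1) nl5 cz5l hv5c v5n
    have toL : ∀ {x}, x ∈ Zm → L x := fun hx =>
      (h1 _ (Finset.mem_sdiff.mp (hZm hx)).1).mpr hx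
    have yAn : t.yA t.kA ∉ Z \ t.Lam := fun hh =>
      (Finset.mem_sdiff.mp hh).2 (U5T.mem_Lam.mpr (lam_yA le_rfl))
    have yBn : t.yB t.kB ∉ Z \ t.Lam := fun hh =>
      (Finset.mem_sdiff.mp hh).2 (U5T.mem_Lam.mpr (lam_yB le_rfl))
    -- unlabelled own neighbours
    have gen : ∀ {a w}, a ∈ Z → ownR G X a w → ¬ L w → ¬ t.lam w →
        (∀ S', a ∈ Zm → StuckZ G X (Z \ t.Lam) S' → a ∈ S' → Fr G X a → cc G X a = 2 → False) →
        (a ∉ Zm → a ∉ Z \ t.Lam) → cc G X w = 2 := by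
      intro a w ha how hw hwl hst hnz
      by_contra hc
      by_cases hwZ : w ∈ Z
      · have hwm : w ∉ Zm := fun hh => hw (toL hh)
        obtain ⟨g1, g2⟩ := hR.own w (mem' hwZ hwl) hwm hc a (ownR_symm how)
        rcases g2 with g2 | ⟨S', g2, g3, g4, g5⟩
        · exact hnz g2 g1
        · by_cases ham : a ∈ Zm
          · exact hst S' ham g2 g3 g4 g5
          · exact hnz ham g1
      · rcases h2 w hwZ with h3 | h3
        · exact hw h3
        · exact hC w h3 a (ownR_symm how) (hZ0 ha)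
    have w1 : ∀ w, ownR G X t.z1 w → ¬ L w → ¬ t.lam w → cc G X w = 2 := by
      intro w hw hLw hlw
      refine gen hU.e1.1 hw hLw hlw ?_ (fun h => absurd m1 h)
      intro S' _ hS' hz' hF hc'
      refine z_not_stuck hcub hF hc' hU.cz1 hU.e1.2.2.2.symm hU.cr1 yAn v1n ?_ hS' hz'
      exact (hU.z1y _ le_rfl).symm
    have w5 : ∀ w, ownR G X t.z5 w → ¬ L w → ¬ t.lam w → cc G X w = 2 := by
      intro w hw hLw hlw
      refine gen hU.e5.1 hw hLw hlw ?_ (fun h => absurd m5 h)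
      intro S' _ hS' hz' hF hc'
      refine z_not_stuck hcub hF hc' hU.cz5 hU.e5.2.2.2.symm hU.cr5 yBn v5n ?_ hS' hz'
      exact (hU.z5y' _ le_rfl).symm
    have bA : ∀ b, ownR G X (t.yA t.kA) b → ¬ L b → ¬ t.lam b → cc G X b = 2 := by
      intro b hb hLb hlb
      refine gen (hU.A.yZ _ le_rfl) hb hLb hlb ?_ (fun _ => yAn)
      intro S' ha _ _ _ _
      exact yAn (hZm ha)
    have bB : ∀ b, ownR G X (t.yB t.kB) b → ¬ L b → ¬ t.lam b → cc G X b = 2 := by
      intro b hb hLb hlb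
      refine gen (hU.B.yZ _ le_rfl) hb hLb hlb ?_ (fun _ => yBn)
      intro S' ha _ _ _ _
      exact yBn (hZm ha)
    have hun : ∀ x, t.lam x → ¬ L x := by
      intro x hx hLx
      exact hnl ((h1 x (hU.sub hS.1 hx)).mp hLx) hx
    have hd : ∀ b, L b → cc G X b = 3 → ∀ d ∈ cr G X b, ¬ L d → cc G X d = 3 := by
      intro b hLb hb d hd hLd
      by_contra hd3
      have hd2 : cc G X d = 2 := (cc_cap (G := G) (X := X) d).resolve_right hd3
      have hbd : b ∈ cr G X d := mem_crs.mp hd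
      by_cases hdZ : d ∈ Z
      · by_cases hl : t.lam d
        · rcases hU.two hl hd2 hbd with h3 | h3
          · exact hun b h3 hLb
          · omega
        · have hdm : d ∉ Zm := fun hh => hLd (toL hh)
          rcases hR.two d (mem' hdZ hl) hdm hd2 b hbd with h3 | h3
          · have hbZ := (Finset.mem_sdiff.mp (hR.cr d (mem' hdZ hl) hdm b hbd).1).1
            exact h3 ((h1 b hbZ).mp hLb)
          · omega
      · rcases h2 d hdZ with h3 | h3
        · exact hLd h3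
        · exact hC2 d h3 hd2
    obtain ⟨f1, hf1⟩ := hJ Z S t hI hok L f hf hun (toL m1) (toL m3) (toL m5) (toL ml1) (toL ml5)
      w1 w5 bA bB (fun b _ => hd b) (fun b _ => hd b)
    obtain ⟨f2, hf2⟩ := hext _ f1 hf1 (by
        intro x hx
        obtain ⟨g1, g2⟩ := Finset.mem_sdiff.mp hx
        constructor
        · rintro (h3 | h3)
          · exact (h1 x g1).mp h3
          · exact absurd (U5T.mem_Lam.mpr h3) g2
        · exact fun h3 => Or.inl (toL h3)) (by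
        intro x hx
        by_cases hl : t.lam x
        · exact Or.inl (Or.inr hl)
        · rcases h2 x (fun hxZ => hx (mem' hxZ hl)) with h3 | h3
          · exact Or.inl (Or.inl h3)
          · exact Or.inr h3)
    refine ⟨f2, jst_congr hf2 fun x => ⟨?_, ?_⟩⟩
    · rintro ((h3 | h3) | h3)
      · exact Or.inl h3
      · exact Or.inr (hU.sub hS.1 h3)
      · exact Or.inr (Finset.mem_sdiff.mp h3).1
    · rintro (h3 | h3)
      · exact Or.inl (Or.inl h3)
      · by_cases hl : t.lam x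
        · exact Or.inl (Or.inr hl)
        · exact Or.inr (mem' h3 hl)

include hcub in
/-- **The joint stage is one region.** -/
theorem joint_region (Ok : Finset V → Finset V → U5T V → Prop)
    (ok : ∀ Z S t, Ok Z S t → StuckZ G X Z S ∧ t.Is G X Z S ∧ t.z1 ≠ t.z5 ∧ t.Loc G X)
    (hJ : ∀ Z S t, InvZ G X Z → Ok Z S t → t.Ext G X) (Q : Finset V → Prop)
    (hQ : ∀ Z S t, InvZ G X Z → Q Z → Ok Z S t → Q (Z \ t.Lam)) {Z0 : Finset V}
    (hC : ∀ w, w ∉ Z0 → ∀ a, ownR G X w a → a ∉ Z0) (hC2 : ∀ w, w ∉ Z0 → cc G X w ≠ 2)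
    (hI : InvZ G X Z0) (hq : Q Z0) (hex : ∃ S t, Ok Z0 S t) :
    ∃ Lam, Region G X Z0 Lam ∧ Q (Z0 \ Lam) ∧ ∀ S t, ¬ Ok (Z0 \ Lam) S t := by
  obtain ⟨Zm, hZm, hIm, hqm, hno, _, hne, hext⟩ := joint_chain hcub Ok ok hJ Q hQ Z0 hC hC2 _ Z0 rfl
    (Finset.Subset.refl _) hI hq
  have hne := hne hex
  have e : Z0 \ (Z0 \ Zm) = Zm := Finset.sdiff_sdiff_eq_self hZm
  refine ⟨Z0 \ Zm, ⟨Finset.sdiff_subset, ?_, ?_, ?_⟩, ?_, ?_⟩
  · rw [Finset.sdiff_nonempty]
    exact fun h => hne (Finset.Subset.antisymm hZm h)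
  · rw [e]; exact hIm
  · rw [e]
    intro E f hf
    obtain ⟨f', hf'⟩ := hext (fun x => x ∈ Zm) f (jst_of_st hf) (fun x _ => Iff.rfl)
      (fun x hx => Or.inr hx)
    have h1 : JSt G X (fun x => x ∈ Z0) f' := jst_congr hf' fun x =>
      ⟨fun h => h.elim (fun h => hZm h) id, Or.inr⟩
    exact ⟨_, f', st_of_jst h1 hC2⟩
  · rw [e]; exact hqm
  · rw [e]; exact hno

end Helper33.Joint
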