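import Pool.Agent.helper33.L9.Core
import Pool.Agent.helper19.L9.Game
import Pool.Agent.helper40.L9.ParLast

/-!
# Peeling to the core and translation of the game

`QR R S`: the edges of a symmetric relation `R` inside `S`.
`at_of_core`: if `AT` holds for every `S ⊆ W` in which every vertex has more than `cap v` edges,
it holds for `W`.
`label_of_at`: `AT` with `cap v + (cross neighbours in W) + |Fb v| ≤ 4` gives a labelling of `W`
in parity (`ParOK`) which avoids the static lists `Fb`.
-/

set_option linter.unusedSimpArgs false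
set_option linter.unusedSectionVars false

namespace Helper33.L9

open Finset Classical Helper42.L9 MvPolynomial

variable {V : Type*}

/-- edges of the relation `R` inside `S` -/
noncomputable def QR (R : V → V → Prop) (S : Finset V) : Finset (Sym2 V) :=
  ((S ×ˢ S).filter fun p => R p.1 p.2).image fun p => s(p.1, p.2)

/-- degree inside `S` -/
noncomputable def DR (R : V → V → Prop) (S : Finset V) (v : V) : ℕ :=
  (S.filter fun u => R u v).card

theorem QR_qadj [Fintype V] {G : SimpleGraph V} {X : V → Prop} (S : Finset V) :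
    QR (qadj G X) S = QE G X S := rfl

section rel

variable {R : V → V → Prop} (hs : ∀ u v, R u v → R v u) (hi : ∀ v, ¬ R v v)

include hs in
theorem mem_QR {S : Finset V} {u v : V} : s(u, v) ∈ QR R S ↔ u ∈ S ∧ v ∈ S ∧ R u v := by
  unfold QR
  rw [Finset.mem_image]
  constructor
  · rintro ⟨⟨a, b⟩, hp, he⟩
    rw [Finset.mem_filter, Finset.mem_product] at hp
    rcases Sym2.eq_iff.mp he with ⟨h1, h2⟩ | ⟨h1, h2⟩
    · simp only at h1 h2; subst h1; subst h2
      exact ⟨hp.1.1, hp.1.2, hp.2⟩
    · simp only at h1 h2; subst h1; subst h2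
      exact ⟨hp.1.2, hp.1.1, hs _ _ hp.2⟩
  · rintro ⟨h1, h2, h3⟩
    exact ⟨(u, v), Finset.mem_filter.mpr ⟨Finset.mem_product.mpr ⟨h1, h2⟩, h3⟩, rfl⟩

include hs hi in
theorem QR_loopless {S : Finset V} : ∀ e ∈ QR R S, ¬ e.IsDiag := by
  intro e he
  induction e with
  | _ a b =>
    rw [Sym2.mk_isDiag_iff]
    rintro rfl
    exact hi _ ((mem_QR hs).mp he).2.2

include hs in
theorem dg_QR {S : Finset V} {v : V} (hv : v ∈ S) : dg (QR R S).val v = DR R S v := by
  rw [dg_val]
  unfold DR
  symm
  apply Finset.card_bij (fun u _ => s(u, v))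
  · intro u hu
    rw [Finset.mem_filter] at hu
    exact Finset.mem_filter.mpr ⟨(mem_QR hs).mpr ⟨hu.1, hv, hu.2⟩, Sym2.mem_mk_right _ _⟩
  · intro u _ u' _ he
    rcases Sym2.eq_iff.mp he with ⟨h1, _⟩ | ⟨h1, h2⟩
    · exact h1
    · exact h1.trans h2
  · intro e he
    rw [Finset.mem_filter] at he
    obtain ⟨he, hve⟩ := he
    induction e with
    | _ a b =>
      have hq := (mem_QR hs).mp he
      rcases Sym2.mem_iff.mp hve with h | h
      · subst h
        exact ⟨b, Finset.mem_filter.mpr ⟨hq.2.1, hs _ _ hq.2.2⟩, Sym2.eq_swap⟩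
      · subst h
        exact ⟨a, Finset.mem_filter.mpr ⟨hq.1, hq.2.2⟩, rfl⟩

include hs in
theorem outt_QR {S A : Finset V} : outt A (QR R S).val = (QR R (S \ A)).val := by
  unfold outt
  have : (QR R (S \ A)) = (QR R S).filter (fun e => ∀ v ∈ e, v ∉ A) := by
    ext e
    induction e with
    | _ a b =>
      rw [Finset.mem_filter, mem_QR hs, mem_QR hs, Finset.mem_sdiff, Finset.mem_sdiff]
      constructor
      · rintro ⟨⟨h1, h2⟩, ⟨h3, h4⟩, h5⟩
        refine ⟨⟨h1, h3, h5⟩, fun v hv => ?_⟩
        rcases Sym2.mem_iff.mp hv with rfl | rfl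
        · exact h2
        · exact h4
      · rintro ⟨⟨h1, h3, h5⟩, h⟩
        exact ⟨⟨h1, h a (Sym2.mem_mk_left _ _)⟩, ⟨h3, h b (Sym2.mem_mk_right _ _)⟩, h5⟩
  rw [this, Finset.filter_val]

theorem QR_congr {R' : V → V → Prop} {S : Finset V}
    (h : ∀ u ∈ S, ∀ v ∈ S, R u v ↔ R' u v) : QR R S = QR R' S := by
  unfold QR
  congr 1
  apply Finset.filter_congr
  rintro ⟨a, b⟩ hp
  rw [Finset.mem_product] at hp
  exact h a hp.1 b hp.2

include hs hi in
/-- **Peeling to the core.** -/
theorem at_of_core (cap : V → ℕ) (W : Finset V)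
    (h : ∀ S ⊆ W, (∀ v ∈ S, cap v < DR R S v) → AT (QR R S).val cap) :
    AT (QR R W).val cap := by
  induction hn : W.card generalizing W with
  | zero =>
    exact h W (Finset.Subset.refl _) (by
      rw [Finset.card_eq_zero] at hn
      subst hn
      intro v hv
      simp at hv)
  | succ n ih =>
    by_cases hW : ∀ v ∈ W, cap v < DR R W v
    · exact h W (Finset.Subset.refl _) hW
    · push Not at hW
      obtain ⟨v, hv, hle⟩ := hW
      refine AT.peel v _ _ (fun e he => QR_loopless hs hi e he) (by rw [dg_QR hs hv]; exact hle) ?_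
      rw [outt_QR hs]
      refine ih _ (fun S hS => h S (hS.trans Finset.sdiff_subset)) ?_
      rw [Finset.card_sdiff_of_subset (by simpa using hv)]
      simp [hn]

end rel

section game

variable [Fintype V] {A Q : V → V → Prop} {X : V → Prop}

/-- cross neighbours in `W` -/
noncomputable def crW (A : V → V → Prop) (X : V → Prop) (W : Finset V) (v : V) : Finset V :=
  W.filter fun b => A v b ∧ ¬ (X b ↔ X v)

/-- **Translation of the game.** -/
theorem label_of_at (hAs : ∀ u v, A u v → A v u) (hQs : ∀ u v, Q u v → Q v u)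
    (W : Finset V) (Fb : V → Finset ℕ) (cap : V → ℕ)
    (hcap : ∀ v ∈ W, cap v + (crW A X W v).card + (Fb v).card ≤ 4)
    (hat : AT (QR Q W).val cap) :
    ∃ f : V → ℕ, Pool.Agent.helper40.L9.ParOK A Q X (fun v => v ∈ W) f ∧
      ∀ v ∈ W, f v ∉ Fb v := by
  obtain ⟨t, ht, hne⟩ := hat
  rw [gp_val] at hne
  have ht0 : ∀ v, v ∉ W → t v = 0 := by
    intro v hv
    refine coeff_gp_support (M := (QR Q W).val) (by rw [gp_val]; exact hne) v ?_
    intro e he hve
    induction e with
    | _ a b =>
      have hq := (mem_QR hQs).mp he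
      rcases Sym2.mem_iff.mp hve with h | h
      · subst h; exact hv hq.1
      · subst h; exact hv hq.2.1
  set Al : V → Finset ℕ := fun v =>
    if v ∈ W then ((range 10).filter fun l => (X v ↔ Even l)) \ Fb v else {0} with hAl
  set Bl : V → Finset V := fun v => if v ∈ W then crW A X W v else ∅ with hBl
  have h5 : ∀ v, ((range 10).filter fun l => (X v ↔ Even l)).card = 5 := by
    intro v
    by_cases hXv : X v
    · have : ((range 10).filter fun l => (X v ↔ Even l)) = {0, 2, 4, 6, 8} := by
        ext l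
        simp only [Finset.mem_filter, Finset.mem_range, Finset.mem_insert, Finset.mem_singleton,
          hXv, true_iff]
        constructor
        · rintro ⟨h1, h2⟩
          rw [Nat.even_iff] at h2
          omega
        · intro h
          rw [Nat.even_iff]
          omega
      rw [this]; rfl
    · have : ((range 10).filter fun l => (X v ↔ Even l)) = {1, 3, 5, 7, 9} := by
        ext l
        simp only [Finset.mem_filter, Finset.mem_range, Finset.mem_insert, Finset.mem_singleton,
          hXv, false_iff]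
        constructor
        · rintro ⟨h1, h2⟩
          rw [Nat.even_iff] at h2
          omega
        · intro h
          rw [Nat.even_iff]
          omega
      rw [this]; rfl
  have hbud : ∀ v, t v + (Bl v).card < (Al v).card := by
    intro v
    by_cases hv : v ∈ W
    · simp only [hAl, hBl, hv, if_true]
      have h1 := ht v
      have h2 := hcap v hv
      have h3 := Finset.le_card_sdiff (Fb v) ((range 10).filter fun l => (X v ↔ Even l))
      rw [h5 v] at h3
      omega
    · simp [hAl, hBl, hv, ht0 v hv]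
  obtain ⟨f, hf1, hf2, hf3⟩ := Helper19.L9.game _ _ (QR Q W) Al Bl t hne hbud
  have hin : ∀ v ∈ W, f v ≤ 9 ∧ (X v ↔ Even (f v)) ∧ f v ∉ Fb v := by
    intro v hv
    have := hf1 v
    simp only [hAl, hv, if_true, Finset.mem_sdiff, Finset.mem_filter, Finset.mem_range] at this
    exact ⟨by omega, this.1.2, this.2⟩
  refine ⟨f, ⟨fun v hv => (hin v hv).1, fun v hv => (hin v hv).2.1, ?_, ?_⟩,
    fun v hv => (hin v hv).2.2⟩
  · intro u v hu hv huv
    have hmem : s(u, v) ∈ QR Q W := (mem_QR hQs).mpr ⟨hu, hv, huv⟩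
    have h := hf2 _ hmem
    have ho : s((s(u, v) : Sym2 V).out.1, (s(u, v) : Sym2 V).out.2) = s(u, v) := Quot.out_eq _
    rcases Sym2.eq_iff.mp ho with ⟨h1, h2⟩ | ⟨h1, h2⟩
    · rw [h1, h2] at h; exact h
    · rw [h1, h2] at h; exact h.symm
  · intro u v hu hv huv hX
    have hb : u ∈ Bl v := by
      simp only [hBl, hv, if_true, crW, Finset.mem_filter]
      exact ⟨hu, hAs _ _ huv, hX⟩
    exact (hf3 v u hb).symm

end game

end Helper33.L9
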