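import Pool.Agent.helper33.L9.Recog
import Pool.Agent.helper33.L9.Peel
import Pool.Agent.helper42.L9.Eph11

/-!
# The part `W` which is labelled by the game

`Clean G X S`: the set `S` contains no loop, no `U_5`, no own five-cycle, no real `K_4`.
`label_W`: if `|crW v| + |Fb v| ≤ 4` on `W` and every stuck set `S ⊆ W` is clean and has no static
forbids, then `W` has a labelling in parity which avoids the static lists `Fb`.
-/

set_option linter.unusedSimpArgs false
set_option linter.unusedSectionVars false

namespace Helper33.L9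

open Finset Classical Helper42.L9 MvPolynomial

variable {V : Type*} [Fintype V] {G : SimpleGraph V} {X : V → Prop}

/-- no bad configuration inside `S` -/
structure Clean (G : SimpleGraph V) (X : V → Prop) (S : Finset V) : Prop where
  noLoop : ∀ t, cc G X t = 2 → ¬ Lp (ownR G X) (cc G X) (QE G X S).val t t
  noU : ∀ s u w v t, cc G X s = 2 → cc G X u = 3 → cc G X w = 3 → cc G X v = 3 →
    cc G X t = 2 → ownR G X s u → ownR G X u w → ownR G X w v → ownR G X v t → u ≠ v →
    4 ≤ dg (QE G X S).val s → 4 ≤ dg (QE G X S).val t →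
    (Port (ownR G X) (cc G X) (QE G X S).val u t ∨ Lp (ownR G X) (cc G X) (QE G X S).val u t) →
    (Port (ownR G X) (cc G X) (QE G X S).val v s ∨ Lp (ownR G X) (cc G X) (QE G X S).val v s) →
    False
  noC : ∀ a b d e f, a ∈ S → cc G X a = 3 → cc G X b = 3 → cc G X d = 3 → cc G X e = 3 →
    cc G X f = 3 → ownR G X a b → ownR G X b d → ownR G X d e → ownR G X e f → ownR G X f a →
    [a, b, d, e, f].Nodup → False
  noK4 : ∀ a b d e, cc G X a = 2 → cc G X b = 2 → cc G X d = 2 → cc G X e = 2 →
    [a, b, d, e].Nodup → Rg (ownR G X) (cc G X) (QE G X S).val a b →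
    Rg (ownR G X) (cc G X) (QE G X S).val a d → Rg (ownR G X) (cc G X) (QE G X S).val a e →
    Rg (ownR G X) (cc G X) (QE G X S).val b d → Rg (ownR G X) (cc G X) (QE G X S).val b e →
    Rg (ownR G X) (cc G X) (QE G X S).val d e → False

/-- a clean set has the Alon-Tarsi property for the caps `cc` -/
theorem Clean.at {S : Finset V} (hX : NoMono G X)
    (hcub : ∀ v, (univ.filter fun b => G.Adj v b).card = 3) (hst : ∀ v ∈ S, StarAt G X v)
    (h : Clean G X S) : AT (QE G X S).val (cc G X) :=
  (enet_of hst hX hcub h.noLoop h.noU h.noC h.noK4).at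

theorem at_mono_on {S : Finset V} {c c' : V → ℕ} (h : AT (QE G X S).val c)
    (hc : ∀ v ∈ S, c v ≤ c' v) : AT (QE G X S).val c' := by
  obtain ⟨t, ht, hne⟩ := h
  refine ⟨t, fun v => ?_, hne⟩
  by_cases hv : v ∈ S
  · exact (ht v).trans (hc v hv)
  · have : t v = 0 := by
      refine coeff_gp_support hne v ?_
      intro e he hve
      induction e with
      | _ a b =>
        have hq := mem_QE.mp he
        rcases Sym2.mem_iff.mp hve with h | h
        · subst h; exact hv hq.1
        · subst h; exact hv hq.2.1
    omega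

/-- a stuck set: nobody can be peeled in the game on `W` with static lists `Fb` -/
def Stuck (G : SimpleGraph V) (X : V → Prop) (W : Finset V) (Fb : V → Finset ℕ)
    (S : Finset V) : Prop :=
  S ⊆ W ∧ ∀ v ∈ S, 5 ≤ Dq G X S v + (crW G.Adj X W v).card + (Fb v).card

theorem crW_card_le {W : Finset V} (v : V) : (crW G.Adj X W v).card ≤ (cr G X v).card := by
  apply Finset.card_le_card
  intro b hb
  unfold crW at hb
  rw [Finset.mem_filter] at hb
  exact mem_cr.mpr hb.2

/-- **The part labelled by the game.** -/
theorem label_W (hX : NoMono G X) (hcub : ∀ v, (univ.filter fun b => G.Adj v b).card = 3)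
    (W : Finset V) (Fb : V → Finset ℕ) (hst : ∀ v ∈ W, StarAt G X v)
    (h4 : ∀ v ∈ W, (crW G.Adj X W v).card + (Fb v).card ≤ 4)
    (hS : ∀ S, Stuck G X W Fb S → (∀ v ∈ S, Fb v = ∅) ∧ Clean G X S) :
    ∃ f : V → ℕ, Pool.Agent.helper40.L9.ParOK G.Adj (qadj G X) X (fun v => v ∈ W) f ∧
      ∀ v ∈ W, f v ∉ Fb v := by
  set cap : V → ℕ := fun v => 4 - (crW G.Adj X W v).card - (Fb v).card with hcap
  refine label_of_at (fun u v h => h.symm) (fun u v h => qadj_symm h) W Fb cap ?_ ?_
  · intro v hv
    have := h4 v hv
    simp only [hcap]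
    omega
  · refine at_of_core (fun u v h => qadj_symm h) (fun v h => qadj_ne h rfl) cap W ?_
    intro S hSW hcore
    have hstuck : Stuck G X W Fb S := by
      refine ⟨hSW, fun v hv => ?_⟩
      have h1 := hcore v hv
      have h2 := h4 v (hSW hv)
      simp only [hcap] at h1
      have h3 : DR (qadj G X) S v = Dq G X S v := rfl
      rw [h3] at h1
      omega
    obtain ⟨h1, h2⟩ := hS S hstuck
    have h3 := h2.at hX hcub (fun v hv => hst v (hSW hv))
    refine at_mono_on h3 ?_
    intro v hv
    have h5 := crW_card_le (G := G) (X := X) (W := W) v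
    have h6 := cr_bounds hX hcub v
    have h7 := h1 v hv
    simp only [hcap, h7, Finset.card_empty]
    unfold cc
    split_ifs with h8 <;> omega

end Helper33.L9
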