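import Pool.Agent.helper33.L9.Fam2

/-!
# Own edges and links; the side without roots
-/

set_option linter.unusedSimpArgs false
set_option linter.unusedSectionVars false

namespace Helper33.Off

open Finset Classical Helper42.L9 Helper33.L9 Helper97.L9
open Helper19.DN (EZ ED TE slZ slD cZ)

section add

variable {V : Type*} {own : V → V → Prop} {c c' : V → ℕ} {M E : Multiset (Sym2 V)}

theorem fl_add_zero {u : V} (hu : ∀ e ∈ E, u ∉ e) : fl (E + M) u = fl M u := by
  unfold fl
  rw [Multiset.filter_add, Multiset.filter_eq_nil.mpr hu, zero_add]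

theorem dg_add_zero {u : V} (hu : ∀ e ∈ E, u ∉ e) : dg (E + M) u = dg M u := by
  rw [← card_fl, ← card_fl, fl_add_zero hu]

/-- further edges at exempt vertices -/
theorem enetx_add (h : ENetX own c c' M) (hE : ∀ e ∈ E, ∀ v ∈ e, ¬ Nf c v)
    (hl : ∀ e ∈ E, ¬ e.IsDiag) : ENetX own c c' (E + M) := by
  have key : ∀ {u : V}, Nf c u → ∀ e ∈ E, u ∉ e := fun hu e he hue => hE e he _ hue hu
  have hfl : ∀ {u : V}, Nf c u → fl (E + M) u = fl M u := fun hu => fl_add_zero (key hu)
  have hdg : ∀ {u : V}, Nf c u → dg (E + M) u = dg M u := fun hu => dg_add_zero (key hu)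
  have hmem : ∀ {u : V} {e : Sym2 V}, Nf c u → u ∈ e → e ∈ E + M → e ∈ M := by
    intro u e hu hue he
    rcases Multiset.mem_add.mp he with h1 | h1
    · exact absurd hue (key hu e h1)
    · exact h1
  have hport : ∀ {u p : V}, Port own c (E + M) u p → Port own c M u p := fun hp =>
    hp.congr (hfl (Or.inr hp.1)).symm
  have hlp : ∀ {t x : V}, Lp own c (E + M) t x → Lp own c M t x := by
    intro t x hL
    induction hL with
    | start h1 h2 h3 => exact Lp.start h1 (hport h2) (hport h3)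
    | cons _ h2 h3 ih => exact Lp.cons ih h2 (hport h3)
  have hvr : ∀ {a b : V}, VR own c (E + M) a b → VR own c M a b := by
    rintro a b ⟨u, v, t, t', h1, h2, h3, h4, h5, h6, h7, h8, h9, h10, h11, h12⟩
    exact ⟨u, v, t, t', h1, h2, h3, h4, h5, h6, h7, h8, h9, h10, h11, hport h12⟩
  have hrg : ∀ {a b : V}, c a = 2 → Rg own c (E + M) a b → Rg own c M a b := by
    rintro a b ha (h1 | h1 | h1)
    · exact Or.inl (hmem (Or.inl ha) (Sym2.mem_mk_left _ _) h1)
    · exact Or.inr (Or.inl (hvr h1))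
    · exact Or.inr (Or.inr (hvr h1))
  exact {
    loopless := fun e he => (Multiset.mem_add.mp he).elim (hl e) (h.loopless e)
    symm := h.symm
    irr := h.irr
    two := h.two
    oneE := h.oneE
    own2 := h.own2
    hcc := h.hcc
    loc := fun u h3 h4 => by
      rw [hdg (Or.inr h3)] at h4
      obtain ⟨x, y, x', y', h5⟩ := h.loc u h3 h4
      exact ⟨x, y, x', y', h5.congr (hfl (Or.inr h3))⟩
    le4 := fun q hq => by rw [hdg (Or.inl hq)]; exact h.le4 q hq
    heavy := fun q hq h4 => by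
      rw [hdg (Or.inl hq)] at h4
      obtain ⟨u, u', h1, h2, h3, h5, h6, h7⟩ := h.heavy q hq h4
      exact ⟨u, u', h1, h2, h3, h5, Multiset.mem_add.mpr (Or.inr h6),
        Multiset.mem_add.mpr (Or.inr h7)⟩
    noLoop := fun t ht hL => h.noLoop t ht (hlp hL)
    noU := fun s u w v t hs hu hw hv ht h1 h2 h3 h4 h5 d1 d2 h6 h7 => by
      rw [hdg (Or.inl hs)] at d1
      rw [hdg (Or.inl ht)] at d2
      exact h.noU s u w v t hs hu hw hv ht h1 h2 h3 h4 h5 d1 d2 (h6.imp hport hlp)
        (h7.imp hport hlp)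
    noC := fun a b d e f ha hb hd he hf h1 h2 h3 h4 h5 h6 h7 => by
      rw [hdg (Or.inr ha)] at h7
      exact h.noC a b d e f ha hb hd he hf h1 h2 h3 h4 h5 h6 h7
    noK4 := fun a b d e ha hb hd he hn h1 h2 h3 h4 h5 h6 =>
      h.noK4 a b d e ha hb hd he hn (hrg ha h1) (hrg ha h2) (hrg ha h3) (hrg hb h4) (hrg hb h5)
        (hrg hd h6) }

end add

variable {V : Type*} [Fintype V] {G : SimpleGraph V} {X D N : V → Prop} {Z S S' : Finset V}
  {s : Prop} {k m : ℕ} {z : Fin k → Fin 4 → V} {b : Fin m → Fin 8 → V}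

/-- own type -/
def OTs (G : SimpleGraph V) (X N : V → Prop) (x y : V) : Prop :=
  ownN G X N x y ∨ ∃ w, ownN G X N x w ∧ ownN G X N w y

theorem OTs.symm {x y : V} (h : OTs G X N x y) : OTs G X N y x := by
  rcases h with h | ⟨w, h1, h2⟩
  · exact Or.inl h.symm
  · exact Or.inr ⟨w, h2.symm, h1.symm⟩

/-- the own edges outside of `K` -/
noncomputable def OO (G : SimpleGraph V) (X N : V → Prop) (S : Finset V)
    (K : Multiset (Sym2 V)) : Multiset (Sym2 V) :=
  ((QE G X S).filter fun e => e ∉ K ∧ ∃ x y, e = s(x, y) ∧ OTs G X N x y).val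

/-- the links outside of `K` -/
noncomputable def LL (G : SimpleGraph V) (X N : V → Prop) (S : Finset V)
    (K : Multiset (Sym2 V)) : Multiset (Sym2 V) :=
  LK G X S (K + OO G X N S K)

theorem mem_OO {K : Multiset (Sym2 V)} {x y : V} :
    s(x, y) ∈ OO G X N S K ↔ s(x, y) ∈ QE G X S ∧ s(x, y) ∉ K ∧ OTs G X N x y := by
  unfold OO
  rw [Finset.mem_val, Finset.mem_filter]
  constructor
  · rintro ⟨h1, h2, x', y', he, h3⟩
    refine ⟨h1, h2, ?_⟩
    rcases Sym2.eq_iff.mp he with ⟨rfl, rfl⟩ | ⟨rfl, rfl⟩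
    · exact h3
    · exact h3.symm
  · rintro ⟨h1, h2, h3⟩
    exact ⟨h1, h2, x, y, rfl, h3⟩

theorem LK_split (K : Multiset (Sym2 V)) : LK G X S K = LL G X N S K + OO G X N S K := by
  unfold LL LK OO
  rw [← Finset.disjUnion_val (h := ?_)]
  · congr 1
    ext e
    rw [Finset.mem_disjUnion, Finset.mem_filter, Finset.mem_filter, Finset.mem_filter,
      Multiset.mem_add, Finset.mem_val, Finset.mem_filter]
    by_cases h1 : e ∈ QE G X S <;> by_cases h2 : e ∈ K <;>
      by_cases h3 : ∃ x y, e = s(x, y) ∧ OTs G X N x y <;> simp [h1, h2, h3]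
  · rw [Finset.disjoint_left]
    intro e he he'
    rw [Finset.mem_filter] at he
    exact he.2 (Multiset.mem_add.mpr (Or.inr he'))

/-- a link of an ordinary vertex is given by a common cross neighbour -/
theorem LL_link {K : Multiset (Sym2 V)} (hcl : ∀ u v, ownR G X u v → N u → N v) {v z : V}
    (nv : N v) (hv : v ∈ S) (hz : z ∈ S) (hq : qadj G X z v)
    (hn : s(v, z) ∉ K + OO G X N S K) : ∃ y, y ∈ cr G X v ∧ y ∈ cr G X z := by
  have hQ : s(v, z) ∈ QE G X S := mem_QE.mpr ⟨hv, hz, qadj_symm hq⟩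
  have hK : s(v, z) ∉ K := fun h1 => hn (Multiset.mem_add.mpr (Or.inl h1))
  have hO : ¬ OTs G X N v z := fun h1 =>
    hn (Multiset.mem_add.mpr (Or.inr (mem_OO.mpr ⟨hQ, hK, h1⟩)))
  obtain ⟨hs, hne, hadj | ⟨w, hw1, hw2⟩⟩ := hq
  · exfalso
    have h1 : ownR G X v z := ⟨hadj.symm, hs.symm⟩
    exact hO (Or.inl ⟨h1, nv, hcl _ _ h1 nv⟩)
  · by_cases hw : X w ↔ X v
    · exfalso
      have h1 : ownR G X v w := ⟨hw2.symm, hw.symm⟩
      have nw := hcl _ _ h1 nv
      have h2 : ownR G X w z := ⟨hw1.symm, hw.trans hs.symm⟩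
      exact hO (Or.inr ⟨w, ⟨h1, nv, nw⟩, ⟨h2, nw, hcl _ _ h2 nw⟩⟩)
    · exact ⟨w, mem_cr.mpr ⟨hw2.symm, hw⟩, mem_cr.mpr ⟨hw1, fun hh => hw (hh.trans hs)⟩⟩

theorem dg_LL_le {K : Multiset (Sym2 V)} (hcl : ∀ u v, ownR G X u v → N u → N v) {v : V}
    (nv : N v) (hnm : ∀ y ∈ cr G X v, NM G X y) : dg (LL G X N S K) v ≤ (cr G X v).card := by
  unfold LL
  refine dg_LK_le (cr G X v) hnm ?_
  intro hv z hz hq hn
  obtain ⟨y, h1, h2⟩ := LL_link hcl nv hv hz hq hn
  exact ⟨y, h1, h1, h2⟩

theorem nf_iff {v : V} : Nf (cN G X N) v ↔ N v := by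
  constructor
  · exact fun h => N_of_cN h
  · intro h
    unfold Nf
    rw [cN_pos h]
    exact cc_cap v

/-- all edges of the blocks -/
theorem exists_rest (K : Multiset (Sym2 V)) :
    ∃ E' ≤ K, K + LK G X S K = E' + (QE G X S).val := by
  set Q1 : Finset (Sym2 V) := (QE G X S).filter fun e => e ∈ K with hQ1
  have h1 : Q1.val ≤ K := by
    rw [Multiset.le_iff_subset Q1.nodup]
    intro e he
    rw [Finset.mem_val, hQ1, Finset.mem_filter] at he
    exact he.2
  obtain ⟨E', hE'⟩ := Multiset.le_iff_exists_add.mp h1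
  refine ⟨E', ?_, ?_⟩
  · rw [hE']
    exact Multiset.le_add_left _ _
  · have h2 : (QE G X S).val = Q1.val + LK G X S K := by
      unfold LK
      rw [hQ1, Finset.filter_val, Finset.filter_val, Multiset.filter_add_not]
    have h3 : K + LK G X S K = Q1.val + E' + LK G X S K := by rw [← hE']
    rw [h2, h3]
    abel

section

variable (hcub : ∀ v, (univ.filter fun b => G.Adj v b).card = 3) (h : StA G X D)
  (hs : ∀ d, D d → ¬ (X d ↔ s)) (hF : Fam G X s z b)

include hcub h hs hF

theorem Fam.cells (S' : Finset V) : Cells (cN G X (NB X s z b)) (c3 G X D) (TE ED b) z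
    (fun v => dg (LK G X S' (TE ED b + TE EZ z)) v) where
  inj := by
    intro j i j' i' he
    by_cases hj : j = j'
    · subst hj
      exact ⟨rfl, ((hF.F j).toIsP4.inj hcub) he⟩
    · exact absurd he (hF.dF j j' hj i i')
  ex := fun j i hn => (nf_iff.mp hn).2 (Or.inl ⟨j, i, rfl⟩)
  cap := by
    intro j i
    have hP := (hF.F j).toIsP4
    unfold c3
    rw [if_neg (far_side h hs (hP.side i)).1]
    fin_cases i
    · exact hP.c0.ge
    · exact hP.c1.ge
    · exact hP.c2.ge
    · exact hP.c3.ge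
  eb := by
    intro e he v hv hn
    obtain ⟨j, hj⟩ := Helper19.DN.mem_TE.mp he
    obtain ⟨p, _, rfl⟩ := mem_emb.mp hj
    rcases Sym2.mem_iff.mp hv with rfl | rfl
    · exact (nf_iff.mp hn).2 (Or.inr ⟨j, _, rfl⟩)
    · exact (nf_iff.mp hn).2 (Or.inr ⟨j, _, rfl⟩)
  ebz := by
    intro j i
    refine Helper19.DN.dg_zero fun e he hv => ?_
    obtain ⟨j', hj⟩ := Helper19.DN.mem_TE.mp he
    obtain ⟨p, _, rfl⟩ := mem_emb.mp hj
    rcases Sym2.mem_iff.mp hv with h1 | h1
    · exact hF.dFB j' j _ _ h1.symm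
    · exact hF.dFB j' j _ _ h1.symm
  slz := fun j i => hF.slotZ hcub h hs S' j i

/-- **The side without roots.** -/
theorem Fam.at (hside : ∀ v ∈ S', (X v ↔ s))
    (hE : ENetX (ownN G X (NB X s z b)) (cN G X (NB X s z b)) (c3 G X D) (QE G X S').val) :
    AT (QE G X S').val (c3 G X D) := by
  set N := NB X s z b with hN
  set K := TE ED b + TE EZ z with hK
  have hC := hF.cells hcub h hs S'
  have hcl : ∀ u v, ownR G X u v → N u → N v := fun u v huv hu => hF.closed hcub h hs huv hu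
  have hKx : ∀ e ∈ K, ∀ v ∈ e, ¬ N v := by
    intro e he v hv hn
    rcases Multiset.mem_add.mp he with h1 | h1
    · exact hC.eb e h1 v hv (nf_iff.mpr hn)
    · obtain ⟨j, hj⟩ := Helper19.DN.mem_TE.mp h1
      obtain ⟨p, _, rfl⟩ := mem_emb.mp hj
      rcases Sym2.mem_iff.mp hv with rfl | rfl
      · exact hC.ex _ _ (nf_iff.mpr hn)
      · exact hC.ex _ _ (nf_iff.mpr hn)
  have hKl : ∀ e ∈ K, ¬ e.IsDiag := by
    intro e he
    rcases Multiset.mem_add.mp he with h1 | h1
    · obtain ⟨j, hj⟩ := Helper19.DN.mem_TE.mp h1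
      obtain ⟨p, hp, rfl⟩ := mem_emb.mp hj
      rw [Sym2.mk_isDiag_iff]
      intro e1
      have e2 := (hF.B j).inj hcub h hs e1
      revert hp e2
      have : ∀ p ∈ ED, p.1 ≠ p.2 := by decide
      exact fun hp e2 => this p hp e2
    · obtain ⟨j, hj⟩ := Helper19.DN.mem_TE.mp h1
      obtain ⟨p, hp, rfl⟩ := mem_emb.mp hj
      rw [Sym2.mk_isDiag_iff]
      intro e1
      have e2 := (hF.F j).toIsP4.inj hcub e1
      have : ∀ p ∈ EZ, p.1 ≠ p.2 := by decide
      exact this p hp e2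
  obtain ⟨E', hE'K, hE'⟩ := exists_rest (G := G) (X := X) (S := S') K
  have hE2 : ENetX (ownN G X N) (cN G X N) (c3 G X D) (K + LK G X S' K) := by
    rw [hE']
    refine enetx_add hE (fun e he v hv hn => ?_) (fun e he => ?_)
    · exact hKx e (Multiset.mem_of_le hE'K he) v hv (nf_iff.mp hn)
    · exact hKl e (Multiset.mem_of_le hE'K he)
  have hfr : ∀ {v}, N v → Fr G X v := fun hv => fr_side h hs hv.1
  have h2 : ∀ v, cN G X N v = 2 → dg (LL G X N S' K) v ≤ 2 := by
    intro v hv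
    obtain ⟨nv, _⟩ := cN_two hv
    refine (dg_LL_le hcl nv fun y hy => nm_cr hcub h hs hy).trans ?_
    exact cr_le2 hcub h hs nv.1
  have h0 : Inv0 (ownN G X N) (cN G X N) (TE ED b) z
      (fun v => dg (LK G X S' K) v) univ (LL G X N S' K) (OO G X N S' K)
      (K + LK G X S' K) := by
    refine
      { eq := ?_
        exO := ?_
        typ := ?_
        slots := ?_
        dead := fun j hj => absurd (Finset.mem_univ j) hj
        ph := Or.inl h2
        tri := noTri_of_dg hC h2 }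
    · rw [LK_split (N := N) K, hK, add_assoc]
      rfl
    · intro e he v hv
      induction e with
      | _ x y =>
        obtain ⟨_, _, h3⟩ := mem_OO.mp he
        have : N x ∧ N y := by
          rcases h3 with h3 | ⟨w, h3, h4⟩
          · exact ⟨h3.2.1, h3.2.2⟩
          · exact ⟨h3.2.1, h4.2.2⟩
        rcases Sym2.mem_iff.mp hv with rfl | rfl
        · exact nf_iff.mpr this.1
        · exact nf_iff.mpr this.2
    · intro x y he
      obtain ⟨hq, _, h3⟩ := mem_OO.mp he
      rcases h3 with h3 | ⟨w, h3, h4⟩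
      · exact Or.inl h3
      · refine Or.inr (Or.inl ⟨w, h3, h4, ?_⟩)
        rw [cN_pos h3.2.2]
        rcases cc_cap (G := G) (X := X) w with h5 | h5
        · exfalso
          have := own_one hcub h5 h3.symm.1 h4.1
          exact (qadj_ne (mem_QE.mp hq).2.2) this
        · exact h5
    · intro v _
      exact dg_le_of_le (by rw [LK_split (N := N) K]; exact Multiset.le_add_right _ _) v
  refine AT.of_le (hE2.at_cells hC h0 ?_) (QE_le_LK K)
  intro R hRl hRs hR2 hR3 hR4 hRt
  have hx : ∀ v, ¬ N v → dg R v ≤ 2 := by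
    intro v hv
    refine (hRs v (fun hn => hv (nf_iff.mp hn))).trans ?_
    by_cases hvS : v ∈ S'
    · have hvs := hside v hvS
      have hblk : IsBlk z b v := by
        by_contra hb
        exact hv ⟨hvs, hb⟩
      rcases hblk with ⟨j, i, rfl⟩ | ⟨j, i, rfl⟩
      · exact (hF.slotZ hcub h hs S' j i).trans ((by decide : ∀ i, slZ i ≤ 2) i)
      · exact (hF.slotB hcub h hs S' j i).trans ((by decide : ∀ i, slD i ≤ 2) i)
    · refine (dg_le_of_le LK_le v).trans ?_
      rw [dg_QE_notMem hvS]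
      omega
  have hdeg : ∀ v, dg R v ≤ 3 := by
    intro v
    by_cases hv : N v
    · rcases nf_iff.mpr hv with h1 | h1
      · exact hR2 v h1
      · rw [hR3 v h1]; omega
    · have := hx v hv
      omega
  have big : ∀ v, 3 ≤ dg R v → cN G X N v = 2 := by
    intro v hv
    by_cases hn : N v
    · rcases nf_iff.mpr hn with h1 | h1
      · exact h1
      · have := hR3 v h1
        omega
    · have := hx v hn
      omega
  refine Helper19.TN.DFN.at m k b z R ?_
  refine
    { injb := ?_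
      inj := hC.inj
      disj := fun j i j' i' => hF.dFB j j' i i'
      capb := ?_
      cap := fun j => ⟨?_, ?_⟩
      two := ?_
      loopless := hRl
      slotsb := ?_
      slots := ?_
      deg := hdeg
      noK4 := ?_
      noTri := ?_ }
  · intro j i j' i' he
    by_cases hj : j = j'
    · subst hj
      exact ⟨rfl, (hF.B j).inj hcub h hs he⟩
    · exact absurd he (hF.dB j j' hj i i')
  · intro j
    have hP := hF.B j
    have c3c : ∀ {v}, (X v ↔ s) → cc G X v = 3 → 3 ≤ c3 G X D v := by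
      intro v hv hc
      unfold c3
      rw [if_neg (far_side h hs hv).1, hc]
    exact ⟨c3c (hP.pa.side 1) hP.pa.c1, c3c (hP.pa.side 2) hP.pa.c2, c3c (hP.pb.side 1) hP.pb.c1,
      c3c (hP.pb.side 2) hP.pb.c2⟩
  · exact hC.cap j 1
  · exact hC.cap j 2
  · intro v
    unfold c3
    split_ifs
    · omega
    · rcases cc_cap (G := G) (X := X) v with h1 | h1 <;> omega
  · intro j i
    exact (hRs _ (fun hn => (nf_iff.mp hn).2 (Or.inr ⟨j, i, rfl⟩))).trans
      (hF.slotB hcub h hs S' j i)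
  · intro j i
    exact (hRs _ (fun hn => (nf_iff.mp hn).2 (Or.inl ⟨j, i, rfl⟩))).trans
      (hF.slotZ hcub h hs S' j i)
  · intro a b' d e hn m1 m2 m3 m4 m5 m6
    have hn' := hn
    simp only [List.nodup_cons, List.mem_cons, List.not_mem_nil, or_false, not_or,
      List.nodup_nil, and_true, not_false_eq_true] at hn'
    obtain ⟨⟨n1, n2, n3⟩, ⟨n4, n5⟩, n6⟩ := hn'
    exact hR4 a b' d e (big a (Helper19.DN.three_le_dg n4 n5 n6 m1 m2 m3))
      (big b' (Helper19.DN.three_le_dg n2 n3 n6 (mem_swap' m1) m4 m5))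
      (big d (Helper19.DN.three_le_dg n1 n3 n5 (mem_swap' m2) (mem_swap' m4) m6))
      (big e (Helper19.DN.three_le_dg n1 n2 n4 (mem_swap' m3) (mem_swap' m5) (mem_swap' m6)))
      hn m1 m2 m3 m4 m5 m6
  · rintro j v ⟨t1, t2, t3⟩
    have ne : ∀ i i' : Fin 4, i ≠ i' → z j i ≠ z j i' := fun i i' hi e =>
      hi (hC.inj _ _ _ _ e).2
    refine hRt v j (big v ?_) t1 t2 t3
    rcases t3 with t3 | t3
    · exact Helper19.DN.three_le_dg (ne 1 2 (by decide)) (ne 1 0 (by decide))
        (ne 2 0 (by decide)) t1 t2 t3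
    · exact Helper19.DN.three_le_dg (ne 1 2 (by decide)) (ne 1 3 (by decide))
        (ne 2 3 (by decide)) t1 t2 t3

end

end Helper33.Off
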