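import Pool.Agent.helper33.L9.Joint2
import Pool.Agent.helper33.L9.T1

/-!
# Composition with the joint stage; T1
-/

set_option linter.unusedSimpArgs false
set_option linter.unusedSectionVars false

namespace Helper33.Joint

open Finset Classical Helper33.L9 Helper33.Off
open Helper42.L9 hiding near
open Pool.Agent.helper40.L9 (JSt Bad Tol LamU Cyc Nice JExt K5Region nice_of_world)
open Pool.Agent.helper58.L9 (St Rel)

variable {V : Type*} [Fintype V] {G : SimpleGraph V} {X D : V → Prop}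

/-- **Main composition with the joint stage.** -/
theorem stack_joint (hcub : ∀ v, (univ.filter fun b => G.Adj v b).card = 3)
    (hD : ∀ v, D v → cr G X v = ∅) (hNM : ∀ w, ¬ D w → NM G X w)
    (Ok : Finset V → Finset V → U5T V → Prop)
    (ok : ∀ Z S t, Ok Z S t → StuckZ G X Z S ∧ t.Is G X Z S ∧ t.z1 ≠ t.z5 ∧ t.Loc G X)
    (okm : ∀ Z' Z S t, Z' ⊆ Z → Ok Z' S t → Ok Z S t)
    (hJ : ∀ Z S t, InvZ G X Z → Ok Z S t → t.Ext G X) (Q : Finset V → Prop)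
    (hQ : ∀ Z S t, InvZ G X Z → Q Z → Ok Z S t → Q (Z \ t.Lam))
    (hQ0 : ∀ Z : Finset V, (∀ v, v ∈ Z ↔ ∀ c, Nice G X c → ∀ i, c i ≠ v) → Q Z)
    (hreg : ∀ Z S : Finset V, InvZ G X Z → Q Z → (∀ S' t, ¬ Ok Z S' t) → StuckMax G X Z S →
      ¬ AT (QE G X S).val (c3 G X D) → ∃ Lam, Region G X Z Lam ∧ Q (Z \ Lam)) :
    ∃ f : V → ℕ, (∀ v, f v ≤ 9) ∧ (∀ u v, G.Adj u v → 2 ≤ |(f u : ℤ) - (f v : ℤ)|) ∧
      (∀ u v w, u ≠ v → G.Adj u w → G.Adj w v → f u ≠ f v) := by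
  refine stack_mainX hcub hD hNM
    (Q := fun Z => Q Z ∧ ((∀ v, v ∈ Z ↔ ∀ c, Nice G X c → ∀ i, c i ≠ v) ∨ ∀ S t, ¬ Ok Z S t))
    (fun Z hZ => ⟨hQ0 Z hZ, Or.inl hZ⟩) ?_
  rintro Z S hI ⟨hq, hor⟩ hS hat
  by_cases hno : ∀ S' t, ¬ Ok Z S' t
  · obtain ⟨Lam, hL, hL2⟩ := hreg Z S hI hq hno hS hat
    exact ⟨Lam, hL, hL2, Or.inr fun S' t h => hno S' t (okm _ _ _ _ Finset.sdiff_subset h)⟩
  · have hZ := hor.resolve_right hno
    push Not at hno
    have hC : ∀ w, w ∉ Z → ∃ c : Fin 5 → V, Nice G X c ∧ ∃ i, c i = w := by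
      intro w hw
      rw [hZ] at hw
      push Not at hw
      obtain ⟨c, hc, i, hi⟩ := hw
      exact ⟨c, hc, i, hi⟩
    have hCa : ∀ w, w ∉ Z → ∀ a, ownR G X w a → a ∉ Z := by
      intro w hw a ha haZ
      obtain ⟨c, hc, i, rfl⟩ := hC w hw
      rcases hc.own i a ha.1 ha.2.symm with h | h
      · exact (hZ a).mp haZ c hc _ h.symm
      · exact (hZ a).mp haZ c hc _ h.symm
    have hCb : ∀ w, w ∉ Z → cc G X w ≠ 2 := by
      intro w hw h2
      obtain ⟨c, hc', i, rfl⟩ := hC w hw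
      have hc := hc'.cyc
      have h1 := cc_two.mp h2
      have h3 := cr_ow (X := X) hcub (c i)
      have h4 : ({c (i + 1), c (i + 4)} : Finset V) ⊆ ow G X (c i) := by
        intro z hz
        rw [Finset.mem_insert, Finset.mem_singleton] at hz
        rcases hz with rfl | rfl
        · exact mem_ow.mpr ⟨hc.adj i, hc.side2 _ _⟩
        · exact mem_ow.mpr ⟨hc.adj' i, hc.side2 _ _⟩
      have h5 := Finset.card_le_card h4
      rw [Finset.card_pair (fun h => Pool.Agent.helper40.L9.f5b i (hc.inj h))] at h5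
      omega
    obtain ⟨Lam, h1, h2, h3⟩ := joint_region hcub Ok ok hJ Q hQ (Z0 := Z) hCa hCb hI hq hno
    exact ⟨Lam, h1, h2, Or.inr h3⟩

/-- `U_5`'s are monotone in `Z` -/
theorem wire_mono {Z Z' S : Finset V} {k : ℕ} {p u v q y : ℕ → V} {σ τ : V} (h : Z' ⊆ Z)
    (hw : Wire G X Z' S k p u v q y σ τ) : Wire G X Z S k p u v q y σ τ :=
  { hw with yZ := fun i hi => h (hw.yZ i hi) }

theorem U5T.Is.mono {Z Z' S : Finset V} {t : U5T V} (h : Z' ⊆ Z) (ht : t.Is G X Z' S) :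
    t.Is G X Z S :=
  { ht with
    A := wire_mono h ht.A
    B := wire_mono h ht.B
    e1 := ⟨h ht.e1.1, ht.e1.2⟩
    e3 := ⟨h ht.e3.1, ht.e3.2⟩
    e5 := ⟨h ht.e5.1, ht.e5.2⟩ }

/-- the joint extension theorem -/
def JExtT (G : SimpleGraph V) (X : V → Prop) : Prop :=
  ∀ (Z S : Finset V) (t : U5T V), InvZ G X Z → StuckZ G X Z S → t.Is G X Z S → t.z1 ≠ t.z5 →
    t.Ext G X

/-- **T1 from the region theorems and the joint extension theorem.** -/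
theorem t1_of_joint (hcub : ∀ v, (univ.filter fun b => G.Adj v b).card = 3)
    (hW : World G X) (hLoop : LoopRegion G X) (hK5 : K5Region G X) (hK4 : K4Region G X)
    (hJ : JExtT G X) :
    ∃ f : V → ℕ, (∀ v, f v ≤ 9) ∧ (∀ u v, G.Adj u v → 2 ≤ |(f u : ℤ) - (f v : ℤ)|) ∧
      (∀ u v w, u ≠ v → G.Adj u w → G.Adj w v → f u ≠ f v) := by
  have hX := hW.noMono
  have hst : ∀ v, StarAt G X v := hW.star
  have hdeg : ∀ v, (univ.filter fun b => G.Adj v b).card ≤ 3 := fun v => (hcub v).le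
  have hF : ∀ v, Fr G X v := Fr.of_noMono hX
  refine stack_joint (D := fun _ => False) hcub (fun v h => h.elim) (fun w _ => (hF w).self)
    (fun Z S t => StuckZ G X Z S ∧ t.Is G X Z S ∧ t.z1 ≠ t.z5)
    (fun Z S t h => ⟨h.1, h.2.1, h.2.2, ⟨hF _, hF _, hF _, hF _, hF _,
      fun i _ => ⟨hF _, hF _, hF _, hF _⟩, fun i _ => ⟨hF _, hF _, hF _, hF _⟩⟩⟩)
    (fun Z' Z S t hs h => ⟨stuckZ_mono hs h.1, h.2.1.mono hs, h.2.2⟩)
    (fun Z S t hI h => hJ Z S t hI h.1 h.2.1 h.2.2)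
    (fun _ => True) (fun _ _ _ _ _ _ => trivial) (fun _ _ => trivial) ?_
  intro Z S hI _ hno hSm hat
  have hS := hSm.1
  have hc3 : c3 G X (fun _ => False) = cc G X := by
    funext v
    unfold c3
    rw [if_neg (fun h => h)]
  rw [hc3] at hat
  by_contra hcon
  have hno' : ∀ Lam, ¬ Region G X Z Lam := fun Lam h => hcon ⟨Lam, h, trivial⟩
  refine hat (ENet.at (own := ownR G X) (enet_of (fun v _ => hst v) hX hcub ?_ ?_ ?_ ?_))
  · intro t h2 hL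
    obtain ⟨Lam, h⟩ := hLoop Z S hI hS t h2 hL
    exact hno' Lam h
  · intro s u w v t c1 c2 c3 c4 c5 o1 o2 o3 o4 huv d1 d5 hB hA
    obtain ⟨z1, z3, z5, l1, l5, kA, kB, pA, uA, vA, qA, yA, pB, uB, vB, qB, yB, hU⟩ :=
      u5_config hX hcub hI hS hst c1 c2 c3 c4 c5 o1 o2 o3 o4 huv d1 d5 hB hA
    by_cases hz : z1 = z5
    · obtain ⟨Lam, h⟩ := hK5 Z S hI hS _ _ _ _ _ _ _ _ _ _ _ _ _ _ _ _ _ _ _ _ _ _ hU hz
      exact hno' Lam h
    · exact hno S ⟨s, u, w, v, t, z1, z3, z5, l1, l5, kA, kB, pA, uA, vA, qA, yA, pB, uB, vB,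
        qB, yB⟩ ⟨hS, hU, hz⟩
  · intro a b d e f ha _ _ _ _ _ h1 h2 h3 h4 h5 hnd
    have := hI.C _ (nice_of_world hdeg hW (cyc_of h1 h2 h3 h4 h5 hnd)) 0
    exact this (hS.1 ha)
  · intro a b d e ha hb hd he hnd r1 r2 r3 r4 r5 r6
    obtain ⟨Lam, h⟩ := hK4 Z S hI hS a b d e ha hb hd he hnd r1 r2 r3 r4 r5 r6
    exact hno' Lam h

end Helper33.Joint
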