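import Pool.Agent.helper33.L9.OffFacts
import Pool.Agent.helper19.L9.Kill

/-!
# Tools: the conflicts outside of given blocks, minimal sets without the Alon-Tarsi property,
killing blocks in such sets, splitting by sides
-/

set_option linter.unusedSimpArgs false
set_option linter.unusedSectionVars false

namespace Helper33.Off

open Finset Classical Helper42.L9 Helper33.L9

section

variable {W : Type*} {A : Finset W} {M N : Multiset (Sym2 W)} {e : Sym2 W}

theorem outt_mono' (h : M ≤ N) : outt A M ≤ outt A N := by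
  unfold outt
  exact Multiset.filter_le_filter _ h

theorem mem_inn' : e ∈ inn A M ↔ e ∈ M ∧ ∀ v ∈ e, v ∈ A := by
  unfold inn
  rw [Multiset.mem_filter]

theorem mem_crs' : e ∈ crs A M ↔ e ∈ M ∧ (∃ v ∈ e, v ∈ A) ∧ ∃ v ∈ e, v ∉ A := by
  unfold crs
  rw [Multiset.mem_filter]

theorem inn_nodup (h : M.Nodup) : (inn A M).Nodup := by
  unfold inn
  exact h.filter _

end

variable {V : Type*} [Fintype V] {G : SimpleGraph V} {X : V → Prop} {Z S S' : Finset V}

/-- the conflicts inside `S` which are not in `K` -/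
noncomputable def LK (G : SimpleGraph V) (X : V → Prop) (S : Finset V)
    (K : Multiset (Sym2 V)) : Multiset (Sym2 V) :=
  ((QE G X S).filter fun e => e ∉ K).val

theorem mem_LK {K : Multiset (Sym2 V)} {e : Sym2 V} :
    e ∈ LK G X S K ↔ e ∈ QE G X S ∧ e ∉ K := by
  unfold LK
  rw [Finset.mem_val, Finset.mem_filter]

theorem LK_le {K : Multiset (Sym2 V)} : LK G X S K ≤ (QE G X S).val := by
  unfold LK
  rw [Finset.val_le_iff]
  exact Finset.filter_subset _ _

theorem QE_le_LK (K : Multiset (Sym2 V)) : (QE G X S).val ≤ K + LK G X S K := by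
  rw [Multiset.le_iff_subset (QE G X S).nodup]
  intro e he
  rw [Multiset.mem_add]
  by_cases h : e ∈ K
  · exact Or.inl h
  · exact Or.inr (mem_LK.mpr ⟨he, h⟩)

theorem QE_loopless : ∀ e ∈ (QE G X S).val, ¬ e.IsDiag := by
  intro e he
  induction e with
  | _ a b =>
    intro h
    have h1 := mem_QE.mp he
    exact qadj_ne h1.2.2 (Sym2.mk_isDiag_iff.mp h)

theorem LK_loopless {K : Multiset (Sym2 V)} : ∀ e ∈ LK G X S K, ¬ e.IsDiag :=
  fun e he => QE_loopless e (Multiset.mem_of_le LK_le he)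

/-- degrees in the rest -/
theorem dg_LK_le {K : Multiset (Sym2 V)} {v : V} (T : Finset V) (hN : ∀ y ∈ T, NM G X y)
    (hT : v ∈ S → ∀ z ∈ S, qadj G X z v → s(v, z) ∉ K →
      ∃ y ∈ T, y ∈ cr G X v ∧ y ∈ cr G X z) : dg (LK G X S K) v ≤ T.card := by
  unfold LK
  rw [dg_val]
  set Q := S.filter fun z => qadj G X z v ∧ s(v, z) ∉ K with hQ
  by_cases hv : v ∈ S
  swap
  · have : (((QE G X S).filter fun e => e ∉ K).filter fun e => v ∈ e) = ∅ := by
      rw [Finset.filter_eq_empty_iff]
      intro e he hve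
      rw [Finset.mem_filter] at he
      induction e with
      | _ a b =>
        have h1 := mem_QE.mp he.1
        rcases Sym2.mem_iff.mp hve with h | h
        · exact hv (h ▸ h1.1)
        · exact hv (h ▸ h1.2.1)
    rw [this]
    simp
  have h1 : (((QE G X S).filter fun e => e ∉ K).filter fun e => v ∈ e) ⊆
      Q.image fun z => s(v, z) := by
    intro e he
    rw [Finset.mem_filter, Finset.mem_filter] at he
    obtain ⟨⟨he1, he2⟩, hve⟩ := he
    obtain ⟨z, rfl⟩ := Sym2.mem_iff_exists.mp hve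
    have h2 := mem_QE.mp he1
    rw [Finset.mem_image]
    exact ⟨z, Finset.mem_filter.mpr ⟨h2.2.1, qadj_symm h2.2.2, he2⟩, rfl⟩
  refine (Finset.card_le_card h1).trans (Finset.card_image_le.trans ?_)
  have h2 : ∀ z, ∃ y, z ∈ Q → y ∈ T ∧ y ∈ cr G X v ∧ y ∈ cr G X z := by
    intro z
    by_cases hz : z ∈ Q
    · rw [hQ, Finset.mem_filter] at hz
      obtain ⟨y, h3, h4, h5⟩ := hT hv z hz.1 hz.2.1 hz.2.2
      exact ⟨y, fun _ => ⟨h3, h4, h5⟩⟩
    · exact ⟨v, fun h => absurd h hz⟩
  choose f hf using h2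
  refine Finset.card_le_card_of_injOn f (fun z hz => (hf z hz).1) ?_
  intro z hz z' hz' he
  have hz := hz
  have hz' := hz'
  simp only [Finset.mem_coe] at hz hz'
  obtain ⟨a1, a2, a3⟩ := hf z hz
  obtain ⟨b1, b2, b3⟩ := hf z' hz'
  rw [← he] at b3
  rw [hQ, Finset.mem_filter] at hz hz'
  by_contra hne
  have c2 := mem_cr.mp a2
  have c3 := mem_cr.mp a3
  have c4 := mem_cr.mp b3
  refine hN _ a1 v z z' c2.1.symm c3.1.symm c4.1.symm (qadj_ne hz.2.1).symm
    (qadj_ne hz'.2.1).symm hne ⟨hz.2.1.1.symm, hz'.2.1.1.symm⟩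

/-! ### minimal sets -/

/-- `S` is minimal without the Alon-Tarsi property -/
def MinN (G : SimpleGraph V) (X : V → Prop) (c : V → ℕ) (S : Finset V) : Prop :=
  ¬ AT (QE G X S).val c ∧ ∀ T, T ⊂ S → AT (QE G X T).val c

theorem exists_minN {c : V → ℕ} (h : ¬ AT (QE G X S).val c) : ∃ S' ⊆ S, MinN G X c S' := by
  induction S using Finset.strongInduction with
  | _ S ih =>
    by_cases h1 : ∀ T, T ⊂ S → AT (QE G X T).val c
    · exact ⟨S, Finset.Subset.refl _, h, h1⟩
    · push Not at h1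
      obtain ⟨T, hT, hT2⟩ := h1
      obtain ⟨S', h2, h3⟩ := ih T hT hT2
      exact ⟨S', h2.trans hT.1, h3⟩

theorem MinN.core {c : V → ℕ} (h : MinN G X c S) {v : V} (hv : v ∈ S) :
    c v < Dq G X S v := by
  by_contra hcon
  push Not at hcon
  refine h.1 (AT.peel v _ _ QE_loopless (by rw [dg_QE hv]; exact hcon) ?_)
  rw [outt_QE]
  refine h.2 _ ?_
  rw [Finset.ssubset_iff_of_subset Finset.sdiff_subset]
  exact ⟨v, hv, by simp⟩

/-- a killer block -/
theorem MinN.kill {c : V → ℕ} (h : MinN G X c S) {n : ℕ} (g : Fin n → V)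
    (hg : Function.Injective g) (cl : List ℕ) (h7 : cl.all (· ≤ 7) = true)
    (hc : ∀ i : Fin n, Helper19.Gadget.cp cl i ≤ c (g i)) (sl : List ℕ)
    (E : List (Fin n × Fin n)) (gE : List (ℕ × ℕ))
    (hE : (E.map fun e => ((e.1 : ℕ), (e.2 : ℕ))) = gE)
    (hs : ∀ i : Fin n, dg (LK G X S (emb g E)) (g i) ≤ sl.getD i 0)
    (hchk : Helper19.Kill.chkK n cl gE sl = true) : ∀ i, g i ∉ S := by
  intro i hi
  have h1 := Helper19.Kill.kill_of_chk g hg cl h7 hc sl E gE hE (LK G X S (emb g E)) hs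
    LK_loopless hchk ?_
  · exact h.1 (h1.of_le (QE_le_LK _))
  · have h2 : outt (@Finset.image _ _ (Classical.decEq V) g Finset.univ)
        (LK G X S (emb g E)) ≤ outt (@Finset.image _ _ (Classical.decEq V) g Finset.univ)
        (QE G X S).val := outt_mono' LK_le
    refine AT.of_le ?_ h2
    rw [outt_QE]
    refine h.2 _ ?_
    rw [Finset.ssubset_iff_of_subset Finset.sdiff_subset]
    refine ⟨g i, hi, ?_⟩
    rw [Finset.mem_sdiff, not_and_not_right]
    intro _
    simp

/-- a killer block with a list of possible inner pairs -/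
theorem MinN.killp {c : V → ℕ} (h : MinN G X c S) {n : ℕ} (g : Fin n → V)
    (hg : Function.Injective g) (cl : List ℕ) (h7 : cl.all (· ≤ 7) = true)
    (hc : ∀ i : Fin n, Helper19.Gadget.cp cl i ≤ c (g i)) (sl : List ℕ)
    (E : List (Fin n × Fin n)) (gE : List (ℕ × ℕ))
    (hE : (E.map fun e => ((e.1 : ℕ), (e.2 : ℕ))) = gE)
    (hs : ∀ i : Fin n, dg (LK G X S (emb g E)) (g i) ≤ sl.getD i 0) (ps : List (ℕ × ℕ))
    (hin : ∀ i j : Fin n, i < j → s(g i, g j) ∈ LK G X S (emb g E) → ((i : ℕ), (j : ℕ)) ∈ ps)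
    (hchk : Helper19.Kill.chkKp n cl gE sl ps = true) : ∀ i, g i ∉ S := by
  intro i hi
  have h1 := Helper19.Kill.kill_of_chkp g hg cl h7 hc sl E gE hE (LK G X S (emb g E)) hs
    LK_loopless ps hin hchk ?_
  · exact h.1 (h1.of_le (QE_le_LK _))
  · have h2 : outt (@Finset.image _ _ (Classical.decEq V) g Finset.univ)
        (LK G X S (emb g E)) ≤ outt (@Finset.image _ _ (Classical.decEq V) g Finset.univ)
        (QE G X S).val := outt_mono' LK_le
    refine AT.of_le ?_ h2
    rw [outt_QE]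
    refine h.2 _ ?_
    rw [Finset.ssubset_iff_of_subset Finset.sdiff_subset]
    refine ⟨g i, hi, ?_⟩
    rw [Finset.mem_sdiff, not_and_not_right]
    intro _
    simp

/-! ### sides -/

theorem at_sides {c : V → ℕ} (P : V → Prop) (hP : ∀ u v, qadj G X u v → (P u ↔ P v))
    (h1 : AT (QE G X (S.filter P)).val c) (h2 : AT (QE G X (S.filter fun v => ¬ P v)).val c) :
    AT (QE G X S).val c := by
  refine AT.block' (S.filter P) _ c c ?_ ?_ ?_
  · refine h1.of_le ?_
    rw [Multiset.le_iff_subset (inn_nodup (QE G X S).nodup)]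
    intro e he
    rw [mem_inn'] at he
    induction e with
    | _ a b =>
      have h4 := mem_QE.mp he.1
      exact mem_QE.mpr ⟨he.2 a (Sym2.mem_mk_left _ _), he.2 b (Sym2.mem_mk_right _ _), h4.2.2⟩
  · rw [outt_QE]
    have : S \ S.filter P = S.filter fun v => ¬ P v := by
      ext v
      rw [Finset.mem_sdiff, Finset.mem_filter, Finset.mem_filter]
      tauto
    rw [this]
    exact h2
  · intro v hv
    have : dg (crs (S.filter P) (QE G X S).val) v = 0 := by
      have h3 : crs (S.filter P) (QE G X S).val = 0 := by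
        rw [Multiset.eq_zero_iff_forall_notMem]
        intro e he
        obtain ⟨he, ⟨a, ha, haP⟩, b, hb, hbP⟩ := mem_crs'.mp he
        induction e with
        | _ x y =>
          have h4 := mem_QE.mp he
          rw [Finset.mem_filter] at haP hbP
          have h5 := hP x y h4.2.2
          rcases Sym2.mem_iff.mp ha with rfl | rfl <;> rcases Sym2.mem_iff.mp hb with rfl | rfl
          · tauto
          · exact hbP ⟨h4.2.1, h5.mp haP.2⟩
          · exact hbP ⟨h4.1, h5.mpr haP.2⟩
          · tauto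
      rw [h3]
      simp [dg]
    omega

/-- a minimal set lies on one side -/
theorem MinN.side {c : V → ℕ} (h : MinN G X c S) : (∀ v ∈ S, X v) ∨ ∀ v ∈ S, ¬ X v := by
  by_contra hcon
  rw [not_or] at hcon
  obtain ⟨h1, h2⟩ := hcon
  push Not at h1 h2
  obtain ⟨a, ha, ha'⟩ := h1
  obtain ⟨b, hb, hb'⟩ := h2
  refine h.1 (at_sides X (fun u v h => h.1) (h.2 _ ?_) (h.2 _ ?_))
  · rw [Finset.ssubset_iff_of_subset (Finset.filter_subset _ _)]
    exact ⟨a, ha, by simp [ha']⟩
  · rw [Finset.ssubset_iff_of_subset (Finset.filter_subset _ _)]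
    exact ⟨b, hb, by simp [hb']⟩

end Helper33.Off
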