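import Pool.Agent.helper33.L9.RecX
import Pool.Agent.helper33.L9.T1J
import Pool.Agent.helper33.L9.Tab
import Pool.Agent.helper97.L9.Legs

/-!
# Legs are not links of the networks: the hypotheses

`N` = the vertices which are not exempt (on one side, closed under own adjacency, far from the
roots).
-/

set_option linter.unusedSimpArgs false
set_option linter.unusedSectionVars false

namespace Helper33.Off

open Finset Classical Helper42.L9 Helper33.L9

variable {V : Type*} [Fintype V] {G : SimpleGraph V} {X D N : V → Prop} {Z S S' : Finset V}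

/-- the ends of the `P_4`'s in `N` are full -/
def FullN (G : SimpleGraph V) (X N : V → Prop) : Prop :=
  ∀ p u v, cc G X p = 2 → ownN G X N p u → Mid (ownN G X N) (cc G X) u v →
    ∀ w, G.Adj p w → w ≠ u → w ∈ pt G X p

/-- no leg is a link of `P_4`'s -/
structure NoLeg (G : SimpleGraph V) (X D N : V → Prop) : Prop where
  /-- a leg does not link a middle vertex and an end -/
  me : ∀ c a b x, ¬ Far G D c → cr G X c = {a, b} → a ≠ b →
    Mid (ownN G X N) (cc G X) a x → cc G X b = 2 → False
  /-- a leg does not link middle vertices of two paths -/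
  mm : ∀ c a b x x', ¬ Far G D c → cr G X c = {a, b} → a ≠ b → x ≠ b →
    Mid (ownN G X N) (cc G X) a x → Mid (ownN G X N) (cc G X) b x' → False

/-- no leg is the first link of a wire of a `U_5` -/
def NoLegU (G : SimpleGraph V) (X D N : V → Prop) (Z S S' : Finset V) : Prop :=
  ∀ t : Helper33.Joint.U5T V, t.Is G X Z S → N t.v1 → N t.v2 → N t.v3 → N t.v4 → N t.v5 →
    UN N t.kA t.pA t.uA t.vA t.qA → UN N t.kB t.pB t.uB t.vB t.qB →
    t.v1 ∈ S' → t.v5 ∈ S' → 4 ≤ Dq G X S' t.v1 → 4 ≤ Dq G X S' t.v5 →
    (0 < t.kA → Far G D (t.yA 0)) ∧ (0 < t.kB → Far G D (t.yB 0))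

end Helper33.Off
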