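import Pool.Agent.helper33.L9.Recog

/-!
# Local versions of the facts on cuts

`NM G X w`: the neighbourhood of `w` is not monochromatic.  `Fr G X v`: this holds at `v` and at all
neighbours of `v`.  The facts of `World`, `Core`, `Recog` for a single vertex `v` with `Fr G X v`.
-/

set_option linter.unusedSimpArgs false
set_option linter.unusedSectionVars false
set_option linter.unusedTactic false

namespace Helper33.Off

open Finset Classical Helper42.L9 Helper33.L9

variable {V : Type*} [Fintype V] {G : SimpleGraph V} {X : V → Prop}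

/-- the neighbourhood of `w` is not monochromatic -/
def NM (G : SimpleGraph V) (X : V → Prop) (w : V) : Prop :=
  ∀ a b c, G.Adj w a → G.Adj w b → G.Adj w c → a ≠ b → a ≠ c → b ≠ c →
    ¬ ((X a ↔ X b) ∧ (X a ↔ X c))

/-- `NM` on the closed neighbourhood of `v` -/
structure Fr (G : SimpleGraph V) (X : V → Prop) (v : V) : Prop where
  self : NM G X v
  nb : ∀ w, G.Adj v w → NM G X w

theorem noMono_iff : NoMono G X ↔ ∀ w, NM G X w := Iff.rfl

theorem Fr.of_noMono (hX : NoMono G X) (v : V) : Fr G X v :=
  ⟨fun a b c => hX v a b c, fun w _ a b c => hX w a b c⟩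

theorem partner_unique {v w u : V} (hw : NM G X w) (hvw : G.Adj v w) (huv : u ≠ v)
    (hwu : G.Adj w u) (hs : X u ↔ X v) : w ∈ pt G X v ∧ partner G X w v = u := by
  have hpt : w ∈ pt G X v := mem_pt.mpr ⟨hvw, u, huv, hwu, hs⟩
  refine ⟨hpt, ?_⟩
  obtain ⟨h1, h2, h3⟩ := partner_spec hpt
  by_contra hne
  exact hw v u (partner G X w v) hvw.symm hwu h2 huv.symm h1.symm (Ne.symm hne)
    ⟨hs.symm, h3.symm⟩

theorem qadj_cases {u v : V} (hv : Fr G X v) (h : qadj G X u v) :
    u ∈ ow G X v ∨ ∃ w ∈ pt G X v, partner G X w v = u := by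
  obtain ⟨hs, hne, hadj | ⟨w, h1, h2⟩⟩ := h
  · exact Or.inl (mem_ow.mpr ⟨hadj.symm, hs⟩)
  · obtain ⟨h3, h4⟩ := partner_unique (hv.nb w h2.symm) h2.symm hne h1.symm hs
    exact Or.inr ⟨w, h3, h4⟩

/-- **Counting lemma.** -/
theorem count_bound (hdeg : ∀ v, (univ.filter fun b => G.Adj v b).card ≤ 3)
    (T : Finset V) {v : V} (hv : Fr G X v) :
    (cr G X v).card + (T.filter fun u => qadj G X u v).card +
      ((ow G X v).filter fun u => u ∉ T).card +
      ((pt G X v).filter fun w => partner G X w v ∉ T).card ≤ 3 + (pt G X v).card := by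
  have h1 : T.filter (fun u => qadj G X u v) ⊆ (ow G X v).filter (fun u => u ∈ T) ∪
      ((pt G X v).filter fun w => partner G X w v ∈ T).image (fun w => partner G X w v) := by
    intro u hu
    rw [Finset.mem_filter] at hu
    rw [Finset.mem_union, Finset.mem_filter, Finset.mem_image]
    rcases qadj_cases hv hu.2 with h | ⟨w, hw, rfl⟩
    · exact Or.inl ⟨h, hu.1⟩
    · exact Or.inr ⟨w, Finset.mem_filter.mpr ⟨hw, hu.1⟩, rfl⟩
  have h2 := (Finset.card_le_card h1).trans (Finset.card_union_le _ _)
  have h3 := Finset.card_image_le (s := (pt G X v).filter fun w => partner G X w v ∈ T)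
    (f := fun w => partner G X w v)
  have h4 := Finset.card_filter_add_card_filter_not (s := ow G X v) (fun u => u ∈ T)
  have h5 := Finset.card_filter_add_card_filter_not (s := pt G X v)
    (fun w => partner G X w v ∈ T)
  have h6 := cr_add_ow (G := G) (X := X) v
  have h7 := hdeg v
  omega

variable {S : Finset V} {v : V}

/-- slots which are lost -/
theorem core_count (hdeg : ∀ v, (univ.filter fun b => G.Adj v b).card ≤ 3) (hv : Fr G X v)
    (hc : CoreAt G X S v) :
    ((ow G X v).filter fun u => u ∉ S).card +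
      ((pt G X v).filter fun w => partner G X w v ∉ S).card + 2 ≤ (pt G X v).card := by
  have h := count_bound hdeg S hv
  unfold CoreAt Dq at hc
  omega

section cubic

variable (hcub : ∀ v, (univ.filter fun b => G.Adj v b).card = 3)

include hcub in
theorem cr_bounds (v : V) (hv : NM G X v) : 1 ≤ (cr G X v).card ∧ (cr G X v).card ≤ 2 := by
  have h0 := cr_ow (X := X) hcub v
  constructor
  · by_contra hcon
    have h6 : (ow G X v).card = 3 := by omega
    obtain ⟨a, b, c, hab, hac, hbc, he⟩ := Finset.card_eq_three.mp h6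
    have ha := mem_ow.mp (he ▸ (by simp : a ∈ ({a, b, c} : Finset V)))
    have hb := mem_ow.mp (he ▸ (by simp : b ∈ ({a, b, c} : Finset V)))
    have hc' := mem_ow.mp (he ▸ (by simp : c ∈ ({a, b, c} : Finset V)))
    exact hv a b c ha.1 hb.1 hc'.1 hab hac hbc (by tauto)
  · by_contra hcon
    have h6 : (cr G X v).card = 3 := by omega
    obtain ⟨a, b, c, hab, hac, hbc, he⟩ := Finset.card_eq_three.mp h6
    have ha := mem_cr.mp (he ▸ (by simp : a ∈ ({a, b, c} : Finset V)))
    have hb := mem_cr.mp (he ▸ (by simp : b ∈ ({a, b, c} : Finset V)))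
    have hc' := mem_cr.mp (he ▸ (by simp : c ∈ ({a, b, c} : Finset V)))
    exact hv a b c ha.1 hb.1 hc'.1 hab hac hbc (by tauto)

include hcub in
/-- a core vertex has degree three and `1 ≤ k ≤ 2` -/
theorem core_deg (hv : Fr G X v) :
    (cr G X v).card + (ow G X v).card = 3 ∧ 1 ≤ (ow G X v).card ∧ 1 ≤ (cr G X v).card := by
  have h1 := cr_ow (X := X) hcub v
  have h2 := cr_bounds hcub v hv.self
  omega

include hcub in
theorem core_I (hv : Fr G X v)
    (hc : CoreAt G X S v) (hst : StarAt G X v) (h1 : (cr G X v).card = 1) :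
    (pt G X v).card = 2 ∧ (∀ u ∈ ow G X v, u ∈ S) ∧ (∀ w ∈ pt G X v, partner G X w v ∈ S) ∧
      Dq G X S v = 4 := by
  have hdeg : ∀ v, (univ.filter fun b => G.Adj v b).card ≤ 3 := fun v => (hcub v).le
  obtain ⟨h3, _, _⟩ := core_deg hcub hv
  have hcnt := core_count hdeg hv hc
  have h2 : (pt G X v).card ≤ (univ.filter fun b => G.Adj v b).card :=
    Finset.card_le_card pt_subset
  have hd := hdeg v
  have hlt : (pt G X v).card ≠ 3 := by
    intro h
    have heq : (pt G X v) = univ.filter fun b => G.Adj v b :=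
      Finset.eq_of_subset_of_card_le pt_subset (by omega)
    have := hst (fun w hw => heq ▸ Finset.mem_filter.mpr ⟨Finset.mem_univ _, hw⟩)
    omega
  have h4 : (pt G X v).card = 2 := by omega
  have h5 : ((ow G X v).filter fun u => u ∉ S).card = 0 := by omega
  have h6 : ((pt G X v).filter fun w => partner G X w v ∉ S).card = 0 := by omega
  rw [Finset.card_eq_zero, Finset.filter_eq_empty_iff] at h5 h6
  refine ⟨h4, fun u hu => not_not.mp (h5 hu), fun w hw => not_not.mp (h6 hw), ?_⟩
  have h7 := count_bound hdeg S hv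
  unfold CoreAt at hc
  unfold Dq at hc ⊢
  omega

include hcub in
/-- explicit form of a core vertex with one cross neighbour -/
theorem core_I_cases (hv : Fr G X v)
    (hc : CoreAt G X S v) (hst : StarAt G X v) (h1 : (cr G X v).card = 1) :
    ∃ a b y, a ≠ b ∧ ow G X v = {a, b} ∧ cr G X v = {y} ∧ a ∈ S ∧ b ∈ S ∧
      ((pt G X v = {a, b} ∧ partner G X a v ∈ S ∧ partner G X b v ∈ S ∧
          S.filter (fun u => qadj G X u v) = {a, b, partner G X a v, partner G X b v} ∧
          [a, b, partner G X a v, partner G X b v].Nodup) ∨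
        (pt G X v = {b, y} ∧ partner G X b v ∈ S ∧ partner G X y v ∈ S ∧
          S.filter (fun u => qadj G X u v) = {a, b, partner G X b v, partner G X y v} ∧
          [a, b, partner G X b v, partner G X y v].Nodup)) := by
  obtain ⟨hp, hown, hpar, hD⟩ := core_I hcub hv hc hst h1
  obtain ⟨h3, _, _⟩ := core_deg hcub hv
  have ho : (ow G X v).card = 2 := by omega
  obtain ⟨a, b, hab, hoab⟩ := Finset.card_eq_two.mp ho
  obtain ⟨y, hy⟩ := Finset.card_eq_one.mp h1
  have haS : a ∈ S := hown a (by rw [hoab]; simp)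
  have hbS : b ∈ S := hown b (by rw [hoab]; simp)
  have hya : y ≠ a := by
    rintro rfl
    have h4 := mem_cr.mp (by rw [hy]; simp : y ∈ cr G X v)
    have h5 := mem_ow.mp (by rw [hoab]; simp : y ∈ ow G X v)
    exact h4.2 h5.2
  have hyb : y ≠ b := by
    rintro rfl
    have h4 := mem_cr.mp (by rw [hy]; simp : y ∈ cr G X v)
    have h5 := mem_ow.mp (by rw [hoab]; simp : y ∈ ow G X v)
    exact h4.2 h5.2
  -- `pt` consists of own and cross neighbours
  have hsub : pt G X v ⊆ {a, b, y} := by
    intro w hw
    have h4 := (mem_pt.mp hw).1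
    by_cases hs : X w ↔ X v
    · have : w ∈ ow G X v := mem_ow.mpr ⟨h4, hs⟩
      rw [hoab] at this
      simp only [Finset.mem_insert, Finset.mem_singleton] at this ⊢
      tauto
    · have : w ∈ cr G X v := mem_cr.mpr ⟨h4, hs⟩
      rw [hy] at this
      simp only [Finset.mem_insert, Finset.mem_singleton] at this ⊢
      tauto
  -- the conflicts of `v`
  have hsubQ : S.filter (fun u => qadj G X u v) ⊆ {a, b} ∪
      (pt G X v).image (fun w => partner G X w v) := by
    intro u hu
    rw [Finset.mem_filter] at hu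
    rw [Finset.mem_union, Finset.mem_image]
    rcases qadj_cases hv hu.2 with h | ⟨w, hw, rfl⟩
    · rw [hoab] at h; exact Or.inl h
    · exact Or.inr ⟨w, hw, rfl⟩
  have key : ∀ z w, z ≠ w → pt G X v = {z, w} →
      S.filter (fun u => qadj G X u v) = {a, b, partner G X z v, partner G X w v} ∧
        [a, b, partner G X z v, partner G X w v].Nodup := by
    intro z w hzw hpt
    rw [hpt, Finset.image_insert, Finset.image_singleton] at hsubQ
    have e1 : ({a, b} ∪ {partner G X z v, partner G X w v} : Finset V) =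
        {a, b, partner G X z v, partner G X w v} := by
      ext u; simp only [Finset.mem_union, Finset.mem_insert, Finset.mem_singleton]; tauto
    rw [e1] at hsubQ
    have e2 : [a, b, partner G X z v, partner G X w v].toFinset =
        ({a, b, partner G X z v, partner G X w v} : Finset V) := by
      ext u; simp
    have e3 : ({a, b, partner G X z v, partner G X w v} : Finset V).card ≤ 4 := by
      rw [← e2]; exact List.toFinset_card_le _
    have e4 : S.filter (fun u => qadj G X u v) =
        ({a, b, partner G X z v, partner G X w v} : Finset V) :=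
      Finset.eq_of_subset_of_card_le hsubQ (by unfold Dq at hD; omega)
    refine ⟨e4, ?_⟩
    have e5 : [a, b, partner G X z v, partner G X w v].toFinset.card = 4 := by
      rw [e2, ← e4]; exact hD
    have h6 : [a, b, partner G X z v, partner G X w v].dedup.length =
        [a, b, partner G X z v, partner G X w v].length := by
      rw [List.card_toFinset] at e5; simpa using e5
    have h7 := (List.dedup_sublist [a, b, partner G X z v, partner G X w v]).eq_of_length h6
    rw [← h7]; exact List.nodup_dedup _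
  -- which two
  obtain ⟨z, w, hzw, hpt⟩ := Finset.card_eq_two.mp hp
  have hz : z ∈ ({a, b, y} : Finset V) := hsub (by rw [hpt]; simp)
  have hw : w ∈ ({a, b, y} : Finset V) := hsub (by rw [hpt]; simp)
  have hpS : ∀ w, w ∈ pt G X v → partner G X w v ∈ S := hpar
  simp only [Finset.mem_insert, Finset.mem_singleton] at hz hw
  have hcases : pt G X v = {a, b} ∨ pt G X v = {b, y} ∨ pt G X v = {a, y} := by
    rcases hz with rfl | rfl | rfl <;> rcases hw with rfl | rfl | rfl
    all_goals first
      | exact absurd rfl hzw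
      | (left; exact hpt)
      | (left; rw [hpt, Finset.pair_comm]; done)
      | (right; left; exact hpt)
      | (right; left; rw [hpt, Finset.pair_comm]; done)
      | (right; right; exact hpt)
      | (right; right; rw [hpt, Finset.pair_comm]; done)
  rcases hcases with h | h | h
  · obtain ⟨k1, k2⟩ := key a b hab h
    exact ⟨a, b, y, hab, hoab, hy, haS, hbS, Or.inl ⟨h, hpS a (by rw [h]; simp),
      hpS b (by rw [h]; simp), k1, k2⟩⟩
  · obtain ⟨k1, k2⟩ := key b y hyb.symm h
    exact ⟨a, b, y, hab, hoab, hy, haS, hbS, Or.inr ⟨h, hpS b (by rw [h]; simp),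
      hpS y (by rw [h]; simp), k1, k2⟩⟩
  · obtain ⟨k1, k2⟩ := key a y hya.symm h
    refine ⟨b, a, y, hab.symm, by rw [hoab, Finset.pair_comm], hy, hbS, haS,
      Or.inr ⟨h, hpS a (by rw [h]; simp), hpS y (by rw [h]; simp), ?_, ?_⟩⟩
    · rw [k1, Finset.insert_comm]
    · exact (List.Perm.swap b a _).nodup_iff.mp k2

include hcub in
theorem cc_three {v : V} (hv : NM G X v) : cc G X v = 3 ↔ (cr G X v).card = 1 := by
  have := cr_bounds hcub v hv
  unfold cc
  split_ifs with h
  · omega
  · constructor
    · intro _; omega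
    · intro _; rfl

theorem cc_two {v : V} : cc G X v = 2 ↔ (cr G X v).card = 2 := by
  unfold cc
  split_ifs with h
  · simp [h]
  · constructor
    · intro h; omega
    · intro h'; exact absurd h' h

include hcub in
/-- an own neighbour `a` of `v` in `pt v` has cap three -/
theorem cc_of_pt {v a : V} (hna : NM G X a) (ho : ownR G X v a) (ha : a ∈ pt G X v) :
    cc G X a = 3 ∧ ownR G X a (partner G X a v) ∧ partner G X a v ≠ v := by
  obtain ⟨h1, h2, h3⟩ := partner_spec ha
  have h4 : ownR G X a (partner G X a v) := ⟨h2, ho.2.symm.trans h3.symm⟩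
  refine ⟨?_, h4, h1⟩
  rw [cc_three hcub hna]
  have h5 : ({v, partner G X a v} : Finset V) ⊆ ow G X a := by
    intro z hz
    rw [Finset.mem_insert, Finset.mem_singleton] at hz
    rcases hz with rfl | rfl
    · exact mem_ow.mpr ⟨ho.1.symm, ho.2⟩
    · exact mem_ow_iff.mpr h4
  have h6 := Finset.card_le_card h5
  rw [Finset.card_pair h1.symm] at h6
  have := cr_ow (X := X) hcub a
  have := cr_bounds hcub a hna
  omega

include hcub in
/-- an own neighbour of `v` outside of `pt v` has cap two -/
theorem cc_of_not_pt {v a : V} (hna : NM G X a) (ho : ownR G X v a) (ha : a ∉ pt G X v) :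
    cc G X a = 2 := by
  rw [cc_two]
  have h0 := cr_ow (X := X) hcub a
  have h1 : ow G X a ⊆ {v} := by
    intro z hz
    rw [Finset.mem_singleton]
    by_contra hne
    have h2 := mem_ow.mp hz
    exact ha (mem_pt.mpr ⟨ho.1, z, hne, h2.1, h2.2.trans ho.2.symm⟩)
  have h2 := Finset.card_le_card h1
  rw [Finset.card_singleton] at h2
  have := cr_bounds hcub a hna
  omega

include hcub in
/-- the field `loc` -/
theorem loc_of {S : Finset V} {u : V} (hu : Fr G X u) (hst : StarAt G X u) (h3 : cc G X u = 3)
    (h4 : 4 ≤ dg (QE G X S).val u) :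
    ∃ x y x' y', LocAt (ownR G X) (cc G X) (QE G X S).val u x y x' y' := by
  have huS : u ∈ S := by
    by_contra h
    rw [dg_QE_notMem h] at h4
    omega
  rw [dg_QE huS] at h4
  have h1 := (cc_three hcub hu.self).mp h3
  have hc : CoreAt G X S u := by unfold CoreAt; omega
  obtain ⟨a, b, y, hab, how, hcr, haS, hbS, h⟩ :=
    core_I_cases hcub hu hc hst h1
  have hoa : ownR G X u a := mem_ow_iff.mp (by rw [how]; simp)
  have hob : ownR G X u b := mem_ow_iff.mp (by rw [how]; simp)
  have hedges : ∀ z w : V, [a, b, z, w].Nodup →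
      S.filter (fun u' => qadj G X u' u) = {a, b, z, w} →
      fl (QE G X S).val u = {s(u, a), s(u, b), s(u, z), s(u, w)} := by
    intro z w hn he
    rw [fl_QE huS, he]
    have : ({a, b, z, w} : Finset V).val = ([a, b, z, w] : List V) := by
      have h5 : ({a, b, z, w} : Finset V) = [a, b, z, w].toFinset := by ext; simp
      rw [h5, List.toFinset_val, hn.dedup]
    rw [this]
    rfl
  rcases h with ⟨hpt, hpa, hpb, he, hn⟩ | ⟨hpt, hpb, hpy, he, hn⟩
  · -- type β
    obtain ⟨ca, oa, na⟩ := cc_of_pt hcub (hu.nb a hoa.1) hoa (by rw [hpt]; simp)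
    obtain ⟨cb, ob, nb⟩ := cc_of_pt hcub (hu.nb b hob.1) hob (by rw [hpt]; simp)
    exact ⟨a, b, partner G X a u, partner G X b u, {
      ne := hab, ox := hoa, oy := hob, bx := fun _ => ⟨oa, na⟩, hy := fun _ => ⟨ob, nb⟩
      one := Or.inl ca, nd := fun _ _ => hn, edges := hedges _ _ hn he }⟩
  · -- type α
    have ca : cc G X a = 2 := by
      refine cc_of_not_pt hcub (hu.nb a hoa.1) hoa ?_
      rw [hpt]
      simp only [Finset.mem_insert, Finset.mem_singleton, not_or]
      refine ⟨hab, ?_⟩
      rintro rfl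
      have h5 := mem_cr.mp (by rw [hcr]; simp : a ∈ cr G X u)
      exact h5.2 hoa.2.symm
    obtain ⟨cb, ob, nb⟩ := cc_of_pt hcub (hu.nb b hob.1) hob (by rw [hpt]; simp)
    have hn' : [a, b, partner G X y u, partner G X b u].Nodup :=
      (List.Perm.cons a (List.Perm.cons b (List.Perm.swap _ _ []))).nodup_iff.mp hn
    have he' : S.filter (fun u' => qadj G X u' u) =
        {a, b, partner G X y u, partner G X b u} := by
      rw [he]; ext z; simp only [Finset.mem_insert, Finset.mem_singleton]; tauto
    exact ⟨a, b, partner G X y u, partner G X b u, {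
      ne := hab, ox := hoa, oy := hob
      bx := fun h => by rw [ca] at h; omega
      hy := fun _ => ⟨ob, nb⟩
      one := Or.inr cb
      nd := fun h => by rw [ca] at h; omega
      edges := hedges _ _ hn' he' }⟩

include hcub in
/-- the field `le4` -/
theorem le4_of {S : Finset V} {q : V} (hq : Fr G X q) (h2 : cc G X q = 2) :
    dg (QE G X S).val q ≤ 4 := by
  by_cases hqS : q ∈ S
  · rw [dg_QE hqS]
    have h := count_bound (fun v => (hcub v).le) S hq
    have h1 := cc_two.mp h2
    have h3 : (pt G X q).card ≤ 3 := by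
      rw [← hcub q]; exact Finset.card_le_card pt_subset
    unfold Dq
    omega
  · rw [dg_QE_notMem hqS]; omega

include hcub in
/-- the field `heavy` -/
theorem heavy_of {S : Finset V} {q : V} (hq : Fr G X q) (h2 : cc G X q = 2)
    (h4 : 4 ≤ dg (QE G X S).val q) :
    ∃ u u', cc G X u = 3 ∧ ownR G X q u ∧ ownR G X u u' ∧ u' ≠ q ∧
      s(q, u) ∈ (QE G X S).val ∧ s(q, u') ∈ (QE G X S).val := by
  have hqS : q ∈ S := by
    by_contra h
    rw [dg_QE_notMem h] at h4
    omega
  rw [dg_QE hqS] at h4
  have h := count_bound (fun v => (hcub v).le) S hq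
  have h1 := cc_two.mp h2
  have h3 : (pt G X q).card ≤ 3 := by
    rw [← hcub q]; exact Finset.card_le_card pt_subset
  unfold Dq at h4
  have h5 : (pt G X q) = univ.filter fun b => G.Adj q b :=
    Finset.eq_of_subset_of_card_le pt_subset (by rw [hcub q]; omega)
  have h6 : ((ow G X q).filter fun u => u ∉ S).card = 0 := by omega
  have h7 : ((pt G X q).filter fun w => partner G X w q ∉ S).card = 0 := by omega
  rw [Finset.card_eq_zero, Finset.filter_eq_empty_iff] at h6 h7
  have h8 : (ow G X q).card = 1 := by have := cr_ow (X := X) hcub q; omega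
  obtain ⟨u, hu⟩ := Finset.card_eq_one.mp h8
  have hou : u ∈ ow G X q := by rw [hu]; simp
  have hown := mem_ow_iff.mp hou
  have hpt : u ∈ pt G X q := by
    rw [h5]; exact Finset.mem_filter.mpr ⟨Finset.mem_univ _, hown.1⟩
  obtain ⟨c1, c2, c3⟩ := cc_of_pt hcub (hq.nb u hown.1) hown hpt
  refine ⟨u, partner G X u q, c1, hown, c2, c3, ?_, ?_⟩
  · exact mem_QE.mpr ⟨hqS, not_not.mp (h6 hou), qadj_symm (ow_qadj hou)⟩
  · exact mem_QE.mpr ⟨hqS, not_not.mp (h7 hpt), qadj_symm (partner_qadj hpt)⟩

theorem own_two {u a b d : V} (hu : NM G X u) (ha : ownR G X u a) (hb : ownR G X u b)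
    (hd : ownR G X u d) : a = b ∨ a = d ∨ b = d := by
  by_contra hcon
  push Not at hcon
  exact hu a b d ha.1 hb.1 hd.1 hcon.1 hcon.2.1 hcon.2.2
    ⟨ha.2.symm.trans hb.2, ha.2.symm.trans hd.2⟩

include hcub in
theorem own_one {q a b : V} (hq : cc G X q = 2) (ha : ownR G X q a) (hb : ownR G X q b) :
    a = b := by
  have h1 := cc_two.mp hq
  have h2 := cr_ow (X := X) hcub q
  obtain ⟨u, hu⟩ := Finset.card_eq_one.mp (by omega : (ow G X q).card = 1)
  have h3 := mem_ow_iff.mpr ha
  have h4 := mem_ow_iff.mpr hb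
  rw [hu, Finset.mem_singleton] at h3 h4
  rw [h3, h4]

end cubic

end Helper33.Off
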