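import Pool.Agent.helper33.L9.OffWire
import Pool.Agent.helper33.L9.LoopRecog

/-!
# Loops of non-exempt vertices in graph terms; two wires are disjoint
-/

set_option linter.unusedSimpArgs false
set_option linter.unusedSectionVars false

namespace Helper33.Off

open Finset Classical Helper42.L9 Helper33.L9

variable {V : Type*} [Fintype V] {G : SimpleGraph V} {X : V → Prop} {Z S : Finset V}
  {N : V → Prop} {k k' : ℕ} {p u v q y p' u' v' q' y' : ℕ → V} {σ τ σ' τ' : V}

/-- all vertices of the units of a wire are non-exempt -/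
def UN (N : V → Prop) (k : ℕ) (p u v q : ℕ → V) : Prop :=
  ∀ i < k, N (p i) ∧ N (u i) ∧ N (v i) ∧ N (q i)

theorem wire_midN (h : Wire G X Z S k p u v q y σ τ) (n : UN N k p u v q) {i : ℕ} (hi : i < k) :
    Mid (ownN G X N) (cc G X) (u i) (v i) := by
  have h1 := h.unit i hi
  obtain ⟨n1, n2, n3, n4⟩ := n i hi
  exact ⟨h1.cu, h1.cv, ⟨h1.uv, n2, n3⟩, ⟨p i, ⟨ownR_symm h1.pu, n2, n1⟩, h1.cp⟩,
    ⟨q i, ⟨h1.vq, n3, n4⟩, h1.cq⟩⟩

theorem walk_midN (h : Wire G X Z S k p u v q y σ τ) (n : UN N k p u v q) : ∀ m < 2 * k,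
    ∃ b, Mid (ownN G X N) (cc G X) (walkOf u v m) b := by
  intro m hm
  rcases Nat.mod_two_eq_zero_or_one m with hpar | hpar
  · obtain ⟨i, rfl⟩ : ∃ i, m = 2 * i := ⟨m / 2, by omega⟩
    rw [walkOf_even]
    exact ⟨v i, wire_midN h n (by omega)⟩
  · obtain ⟨i, rfl⟩ : ∃ i, m = 2 * i + 1 := ⟨m / 2, by omega⟩
    rw [walkOf_odd]
    exact ⟨u i, MidN_symm (wire_midN h n (by omega))⟩

theorem walk_evenN (h : Wire G X Z S k p u v q y σ τ) (n : UN N k p u v q) :
    ∀ m, m + 1 < 2 * k → m % 2 = 0 →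
    Mid (ownN G X N) (cc G X) (walkOf u v m) (walkOf u v (m + 1)) := by
  intro m hm hpar
  obtain ⟨i, rfl⟩ : ∃ i, m = 2 * i := ⟨m / 2, by omega⟩
  rw [walkOf_even, walkOf_odd]
  exact wire_midN h n (by omega)

theorem NoMidN.ne (hσ : NoMidN G X N σ) {b : V} (hb : ∃ d, Mid (ownN G X N) (cc G X) b d) :
    b ≠ σ := by
  rintro rfl
  obtain ⟨d, hd⟩ := hb
  exact hσ d hd

section

variable (hN : ∀ v, N v → Fr G X v) (hst : ∀ v, N v → StarAt G X v)
  (hcub : ∀ v, (univ.filter fun b => G.Adj v b).card = 3)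

include hN hcub in
/-- two wires with different ends have no common middle -/
theorem wire_disj (h : Wire G X Z S k p u v q y σ τ) (n : UN N k p u v q)
    (h' : Wire G X Z S k' p' u' v' q' y' σ' τ') (n' : UN N k' p' u' v' q')
    (nσ : NoMidN G X N σ) (nσ' : NoMidN G X N σ') (nτ' : NoMidN G X N τ')
    (h1 : σ ≠ σ') (h2 : σ ≠ τ') :
    ∀ i < k, ∀ j < k', u i ≠ u' j ∧ u i ≠ v' j ∧ v i ≠ u' j ∧ v i ≠ v' j := by
  have main := walks_disjoint (Mid (ownN G X N) (cc G X)) (Lk G X) (2 * k) (2 * k')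
    (walkOf u v) (walkOf u' v') (by omega) (by omega) (fun _ _ => MidN_symm)
    (fun _ _ => Lk_symm) (fun m _ x z hx hz => MidN_unique hN hx hz)
    (by
      intro m hm x z hx hz
      obtain ⟨b, hb⟩ := walk_midN h' n' m hm
      exact Lk_unique hcub (hN _ hb.2.2.1.2.1) hb.1 hx hz)
    (walk_evenN h n) h.walk_odd (walk_evenN h' n') h'.walk_odd σ σ' τ'
    (by
      intro hk
      have e := walkOf_even u v 0
      rw [Nat.mul_zero] at e
      rw [e]
      exact ⟨(h.nσ 0 (by omega)).1, y 0, h.yu (by omega), h.yσ⟩)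
    (by
      intro hk
      have e := walkOf_even u' v' 0
      rw [Nat.mul_zero] at e
      rw [e]
      exact ⟨(h'.nσ 0 (by omega)).1, y' 0, h'.yu (by omega), h'.yσ⟩)
    (by
      intro hk
      have e := walkOf_odd u' v' (k' - 1)
      have e2 : 2 * (k' - 1) + 1 = 2 * k' - 1 := by omega
      rw [e2] at e
      rw [e]
      have h3 := h'.yv (i := k' - 1) (by omega)
      have e3 : k' - 1 + 1 = k' := by omega
      rw [e3] at h3
      exact ⟨(h'.nτ (k' - 1) (by omega)).2, y' k', h3, h'.yτ⟩)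
    (fun m hm => nσ.ne (walk_midN h' n' m hm)) (fun m hm => nσ'.ne (walk_midN h n m hm))
    (fun m hm => nτ'.ne (walk_midN h n m hm)) h1 h2
  intro i hi j hj
  refine ⟨?_, ?_, ?_, ?_⟩
  · have := main (2 * i) (by omega) (2 * j) (by omega)
    rwa [walkOf_even, walkOf_even] at this
  · have := main (2 * i) (by omega) (2 * j + 1) (by omega)
    rwa [walkOf_even, walkOf_odd] at this
  · have := main (2 * i + 1) (by omega) (2 * j) (by omega)
    rwa [walkOf_odd, walkOf_even] at this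
  · have := main (2 * i + 1) (by omega) (2 * j + 1) (by omega)
    rwa [walkOf_odd, walkOf_odd] at this

include hN hcub in
/-- the links of two wires with different ends are different -/
theorem wire_disj_y (h : Wire G X Z S k p u v q y σ τ) (n : UN N k p u v q)
    (h' : Wire G X Z S k' p' u' v' q' y' σ' τ') (n' : UN N k' p' u' v' q')
    (nσ : NoMidN G X N σ) (nτ : NoMidN G X N τ) (nσ' : NoMidN G X N σ') (nτ' : NoMidN G X N τ')
    (h1 : σ ≠ σ') (h2 : σ ≠ τ') (h3 : τ ≠ σ') (h4 : τ ≠ τ') :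
    ∀ i ≤ k, ∀ j ≤ k', y i ≠ y' j := by
  have hd := wire_disj hN hcub h n h' n' nσ nσ' nτ' h1 h2
  intro i hi j hj he
  have e1 := h.link i hi
  have e2 := h'.link j hj
  rw [he, e2] at e1
  have h5 : (if i = 0 then σ else v (i - 1)) ∈
      ({if j = 0 then σ' else v' (j - 1), if j = k' then τ' else u' j} : Finset V) := by
    rw [e1]; simp
  rw [Finset.mem_insert, Finset.mem_singleton] at h5
  have sv : ∀ j < k', σ ≠ v' j ∧ σ ≠ u' j := fun j hj =>
    ⟨(nσ.ne ⟨_, MidN_symm (wire_midN h' n' hj)⟩).symm, (nσ.ne ⟨_, wire_midN h' n' hj⟩).symm⟩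
  have sv' : ∀ i < k, v i ≠ σ' ∧ v i ≠ τ' := fun i hi =>
    ⟨nσ'.ne ⟨_, MidN_symm (wire_midN h n hi)⟩, nτ'.ne ⟨_, MidN_symm (wire_midN h n hi)⟩⟩
  by_cases hi0 : i = 0
  · simp only [hi0, if_true] at h5
    rcases h5 with h5 | h5
    · by_cases hj0 : j = 0
      · simp only [hj0, if_true] at h5
        exact h1 h5
      · simp only [hj0, if_false] at h5
        exact (sv (j - 1) (by omega)).1 h5
    · by_cases hjk : j = k'
      · simp only [hjk, if_true] at h5
        exact h2 h5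
      · simp only [hjk, if_false] at h5
        exact (sv j (by omega)).2 h5
  · simp only [hi0, if_false] at h5
    rcases h5 with h5 | h5
    · by_cases hj0 : j = 0
      · simp only [hj0, if_true] at h5
        exact (sv' (i - 1) (by omega)).1 h5
      · simp only [hj0, if_false] at h5
        exact (hd (i - 1) (by omega) (j - 1) (by omega)).2.2.2 h5
    · by_cases hjk : j = k'
      · simp only [hjk, if_true] at h5
        exact (sv' (i - 1) (by omega)).2 h5
      · simp only [hjk, if_false] at h5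
        exact (hd (i - 1) (by omega) j (by omega)).2.2.1 h5

include hN hst hcub in
/-- **Loops in graph terms.** -/
theorem loop_configN (hI : InvZ G X Z) (h : StuckZ G X Z S) {t : V}
    (h2 : cc G X t = 2) (hL : Lp (ownN G X N) (cc G X) (QE G X S).val t t) :
    ∃ (k : ℕ) (p u v q y : ℕ → V), 0 < k ∧ Wire G X Z S k p u v q y t t ∧ UN N k p u v q ∧
      y 0 ≠ y k ∧ cr G X t = {y 0, y k} := by
  obtain ⟨k, p, u, v, q, y, hk, hw, hn⟩ := wire_of_lp hN hst hcub hI h hL (NoMidN_of_end h2)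
    (NoMidN_of_end h2)
  have hne : y 0 ≠ y k := by
    intro he
    have := hw.nyy 0 (by omega) k le_rfl he
    omega
  exact ⟨k, p, u, v, q, y, hk, hw, hn, hne, end_cr h2 hw.yσ hw.yτ hne⟩

include hN hst hcub in
/-- loops in the form of `LoopG` -/
theorem loopG_ofN (hI : InvZ G X Z) (h : StuckZ G X Z S) {t : V}
    (h2 : cc G X t = 2) (hL : Lp (ownN G X N) (cc G X) (QE G X S).val t t) :
    ∃ (k : ℕ) (u v p q y : ℕ → V) (z0 z1 : V),
      Helper17.L9.LoopG G X k u v p q y t z0 z1 ∧ t ∈ S ∧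
      ∀ i, i < k → (u i ∈ S ∧ v i ∈ S ∧ p i ∈ S ∧ q i ∈ S) ∧
        (N (u i) ∧ N (v i) ∧ N (p i) ∧ N (q i)) := by
  obtain ⟨k, p, u, v, q, y, hk, hw, hn, hne, _⟩ := loop_configN hN hst hcub hI h h2 hL
  have y0 := mem_cr.mp hw.yσ
  have yk := mem_cr.mp hw.yτ
  have u0 := mem_cr.mp (hw.yu hk)
  have vk := hw.yv (i := k - 1) (by omega)
  have e : k - 1 + 1 = k := by omega
  rw [e] at vk
  have vk := mem_cr.mp vk
  refine ⟨k, u, v, p, q, fun i => y (i + 1), y 0, y k, ⟨hw.wireG, hk, h2, y0, yk, ?_, ?_, hne, ?_⟩,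
    hw.σS, ?_⟩
  · exact ⟨u0.1.symm, u0.2⟩
  · exact ⟨vk.1.symm, vk.2⟩
  · exact ⟨(hw.p0 hk).1.symm, (hw.p0 hk).2.symm, (hw.pk hk).1.symm, (hw.pk hk).2.symm⟩
  · intro i hi
    obtain ⟨a, b, c, d⟩ := hw.mem i hi
    obtain ⟨n1, n2, n3, n4⟩ := hn i hi
    exact ⟨⟨b, c, a, d⟩, n2, n3, n1, n4⟩

end

end Helper33.Off
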