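import Pool.Agent.helper33.L9.T3
import Pool.Agent.helper33.L9.PlusNet
import Pool.Agent.helper42.L9.EX16

/-!
# The side of the roots: two simple cases

`plus_disj`: the set `S'` does not meet the own component of the roots.
`plus_zero`: one root with three short legs.
-/

set_option linter.unusedSimpArgs false
set_option linter.unusedSectionVars false

namespace Helper33.Off

open Finset Classical Helper42.L9 Helper33.L9 Helper97.L9
open Helper19.DN (EZ ED TE slZ slD cZ)

section plain

variable {V : Type*} {R : Multiset (Sym2 V)} {c : V → ℕ}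

/-- networks without blocks -/
theorem at_plain (hl : ∀ e ∈ R, ¬ e.IsDiag) (h3 : ∀ v, dg R v ≤ 3) (hK : NoK4 R)
    (hc : ∀ v, 2 ≤ c v) : AT R c := by
  have h := Helper19.TN.DFN.at 0 0 (fun j => j.elim0) (fun j => j.elim0) R
    (c := c) (V := V)
    { injb := fun j => j.elim0
      inj := fun j => j.elim0
      disj := fun j => j.elim0
      capb := fun j => j.elim0
      cap := fun j => j.elim0
      two := hc
      loopless := hl
      slotsb := fun j => j.elim0
      slots := fun j => j.elim0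
      deg := h3
      noK4 := hK
      noTri := fun j => j.elim0 }
  have e1 : TE ED (fun j : Fin 0 => (j.elim0 : Fin 8 → V)) = 0 := by
    unfold TE
    simp
  have e2 : TE EZ (fun j : Fin 0 => (j.elim0 : Fin 4 → V)) = 0 := by
    unfold TE
    simp
  rw [e1, e2, zero_add, zero_add] at h
  exact h

end plain

variable {V : Type*} [Fintype V] {G : SimpleGraph V} {X D C N : V → Prop} {Z S S' : Finset V}
  {s : Prop} {K : Multiset (Sym2 V)}

theorem c3_two (v : V) : 2 ≤ c3 G X D v := by
  unfold c3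
  split_ifs
  · omega
  · rcases cc_cap (G := G) (X := X) v with h | h <;> omega

/-- **`S'` does not meet the component** -/
theorem plus_disj (hcub : ∀ v, (univ.filter fun b => G.Adj v b).card = 3) (h : StA G X D)
    (hcl : ∀ u v, ownR G X u v → C u → C v) (hfar : ∀ v, (X v ↔ s) → ¬ C v → Far G D v)
    (hside : ∀ v ∈ S', (X v ↔ s)) (hdis : ∀ v ∈ S', ¬ C v)
    (hE : ENetX (ownN G X (NC X s C)) (cN G X (NC X s C)) (c3 G X D) (QE G X S').val) :
    AT (QE G X S').val (c3 G X D) := by
  refine plus_net (K := 0) hcub h hcl hfar (fun e he => absurd he (Multiset.notMem_zero e))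
    (fun e he => absurd he (Multiset.notMem_zero e)) hside hE ?_
  intro R hl hC h3 _ _ hK
  have h0 : ∀ v, C v → dg R v = 0 := by
    intro v hv
    have h1 := hC v hv
    have h2 : v ∉ S' := fun hvS => hdis v hvS hv
    have h3 := dg_le_of_le (LK_le (G := G) (X := X) (S := S') (K := 0)) v
    rw [dg_QE_notMem h2] at h3
    omega
  have hd : ∀ v, dg R v ≤ 3 := by
    intro v
    by_cases hv : C v
    · rw [h0 v hv]; omega
    · exact h3 v hv
  have big : ∀ v, 3 ≤ dg R v → ¬ C v := by
    intro v hv hc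
    rw [h0 v hc] at hv
    omega
  rw [zero_add]
  refine at_plain hl hd ?_ (fun v => c3_two v)
  intro a b d e hn m1 m2 m3 m4 m5 m6
  have hn' := hn
  simp only [List.nodup_cons, List.mem_cons, List.not_mem_nil, or_false, not_or,
    List.nodup_nil, and_true, not_false_eq_true] at hn'
  obtain ⟨⟨n1, n2, n3⟩, ⟨n4, n5⟩, n6⟩ := hn'
  exact hK a b d e (big a (Helper19.DN.three_le_dg n4 n5 n6 m1 m2 m3))
    (big b (Helper19.DN.three_le_dg n2 n3 n6 (mem_swap' m1) m4 m5))
    (big d (Helper19.DN.three_le_dg n1 n3 n5 (mem_swap' m2) (mem_swap' m4) m6))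
    (big e (Helper19.DN.three_le_dg n1 n2 n4 (mem_swap' m3) (mem_swap' m5) (mem_swap' m6)))
    hn m1 m2 m3 m4 m5 m6

/-! ### one root, three short legs -/

section ext

variable {W : Type*} {own : W → W → Prop} {c c' c₂ : W → ℕ} {M : Multiset (Sym2 W)}

theorem locAt_ccongr {u x y x' y' : W} (h : LocAt own c M u x y x' y')
    (hc : ∀ v, own u v → c₂ v = c v) : LocAt own c₂ M u x y x' y' :=
  { ne := h.ne
    ox := h.ox
    oy := h.oy
    bx := fun h1 => h.bx (by rw [← hc x h.ox]; exact h1)
    hy := fun h1 => h.hy (by rw [← hc y h.oy]; exact h1)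
    one := by rw [hc x h.ox, hc y h.oy]; exact h.one
    nd := fun h1 h2 => h.nd (by rw [← hc x h.ox]; exact h1) (by rw [← hc y h.oy]; exact h2)
    edges := h.edges }

/-- exempt vertices `P` without own neighbours become ends -/
theorem enetx_ends (h : ENetX own c c' M) (P : W → Prop) (hP : ∀ v, P v → ¬ Nf c v)
    (hc' : ∀ v, P v → 2 ≤ c' v) (h3 : ∀ v, P v → dg M v ≤ 3)
    (hK : ∀ a b d e, P a → [a, b, d, e].Nodup → (P b ∨ c b = 2) → (P d ∨ c d = 2) →
      (P e ∨ c e = 2) → s(a, b) ∈ M → s(a, d) ∈ M → s(a, e) ∈ M →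
      (P b → s(b, d) ∈ M ∧ s(b, e) ∈ M) → (P d → s(b, d) ∈ M ∧ s(d, e) ∈ M) →
      (P e → s(b, e) ∈ M ∧ s(d, e) ∈ M) → False) :
    ENetX own (fun v => if P v then 2 else c v) c' M := by
  set c₂ : W → ℕ := fun v => if P v then 2 else c v with hc₂
  have eqN : ∀ v, Nf c v → c₂ v = c v := by
    intro v hv
    simp only [hc₂]
    rw [if_neg (fun hp => hP v hp hv)]
  have eqP : ∀ v, P v → c₂ v = 2 := fun v hv => by simp [hc₂, hv]
  have eqO : ∀ v, ¬ P v → c₂ v = c v := fun v hv => by simp [hc₂, hv]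
  have own1 : ∀ {u v}, own u v → c₂ u = c u := fun h1 => eqN _ (h.own2 _ _ h1)
  have own2' : ∀ {u v}, own u v → c₂ v = c v := fun h1 => eqN _ (h.own2 _ _ (h.symm _ _ h1))
  have three : ∀ {u}, c₂ u = 3 → c u = 3 ∧ ¬ P u := by
    intro u hu
    by_cases hp : P u
    · rw [eqP u hp] at hu
      omega
    · exact ⟨by rw [← eqO u hp]; exact hu, hp⟩
  have hport : ∀ {u p}, Port own c₂ M u p → Port own c M u p := by
    rintro u p ⟨h3, x, y, y', hx, hl⟩
    exact ⟨(three h3).1, x, y, y', by rw [← own2' hl.ox]; exact hx,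
      locAt_ccongr hl fun v hv => (own2' hv).symm⟩
  have hmid : ∀ {u v}, Mid own c₂ u v → Mid own c u v := by
    rintro u v ⟨h1, h2, h3, ⟨s, h4, h5⟩, ⟨t, h6, h7⟩⟩
    exact ⟨(three h1).1, (three h2).1, h3, ⟨s, h4, by rw [← own2' h4]; exact h5⟩,
      ⟨t, h6, by rw [← own2' h6]; exact h7⟩⟩
  have hlp : ∀ {t x}, Lp own c₂ M t x → Lp own c M t x := by
    intro t x hL
    induction hL with
    | start h1 h2 h3 => exact Lp.start (hmid h1) (hport h2) (hport h3)
    | cons _ h2 h3 ih => exact Lp.cons ih (hmid h2) (hport h3)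
  have hvr : ∀ {a b}, VR own c₂ M a b → VR own c M a b := by
    rintro a b ⟨u, v, t, t', h1, h2, h3, h4, h5, h6, h7, h8, h9, h10, h11, h12⟩
    exact ⟨u, v, t, t', (three h1).1, (three h2).1, (three h3).1, (three h4).1, h5, h6, h7, h8,
      h9, h10, h11, hport h12⟩
  have hrg : ∀ {a b}, Rg own c₂ M a b → Rg own c M a b := by
    rintro a b (h1 | h1 | h1)
    · exact Or.inl h1
    · exact Or.inr (Or.inl (hvr h1))
    · exact Or.inr (Or.inr (hvr h1))
  have symm : ∀ {a b}, Rg own c M a b → Rg own c M b a := by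
    rintro a b (h1 | h1 | h1)
    · exact Or.inl (mem_swap' h1)
    · exact Or.inr (Or.inr h1)
    · exact Or.inr (Or.inl h1)
  have hreal : ∀ {a b}, P a → Rg own c M a b → s(a, b) ∈ M := by
    rintro a b ha (h1 | h1 | h1)
    · exact h1
    · obtain ⟨u, v, t, t', _, _, _, _, h5, _⟩ := h1
      exact absurd (h.own2 _ _ h5) (hP a ha)
    · obtain ⟨u, v, t, t', _, _, _, _, _, _, _, _, h9, _⟩ := h1
      exact absurd (h.own2 _ _ (h.symm _ _ h9)) (hP a ha)
  have two : ∀ {u}, c₂ u = 2 → P u ∨ c u = 2 := by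
    intro u hu
    by_cases hp : P u
    · exact Or.inl hp
    · exact Or.inr (by rw [← eqO u hp]; exact hu)
  have core : ∀ a b d e, P a → [a, b, d, e].Nodup → c₂ b = 2 → c₂ d = 2 → c₂ e = 2 →
      Rg own c M a b → Rg own c M a d → Rg own c M a e → Rg own c M b d → Rg own c M b e →
      Rg own c M d e → False := by
    intro a b d e ha hn hb hd he r1 r2 r3 r4 r5 r6
    exact hK a b d e ha hn (two hb) (two hd) (two he) (hreal ha r1) (hreal ha r2) (hreal ha r3)
      (fun h1 => ⟨hreal h1 r4, hreal h1 r5⟩)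
      (fun h1 => ⟨mem_swap' (hreal h1 (symm r4)), hreal h1 r6⟩)
      (fun h1 => ⟨mem_swap' (hreal h1 (symm r5)), mem_swap' (hreal h1 (symm r6))⟩)
  exact {
    loopless := h.loopless
    symm := h.symm
    irr := h.irr
    two := h.two
    oneE := fun q a b hq ha hb => h.oneE q a b (by rw [← own1 ha]; exact hq) ha hb
    own2 := fun u v huv => by rw [own1 huv]; exact h.own2 u v huv
    hcc := fun v hv => by
      by_cases hp : P v
      · rw [eqP v hp]; exact hc' v hp
      · rw [eqO v hp] at hv ⊢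
        exact h.hcc v hv
    loc := fun u h3' h4 => by
      obtain ⟨x, y, x', y', h5⟩ := h.loc u (three h3').1 h4
      exact ⟨x, y, x', y', locAt_ccongr h5 fun v hv => own2' hv⟩
    le4 := fun q hq => by
      rcases two hq with h1 | h1
      · have := h3 q h1
        omega
      · exact h.le4 q h1
    heavy := fun q hq h4 => by
      rcases two hq with h1 | h1
      · have := h3 q h1
        omega
      · obtain ⟨u, u', h2, h3, h5, h6, h7, h8⟩ := h.heavy q h1 h4
        exact ⟨u, u', by rw [own2' h3]; exact h2, h3, h5, h6, h7, h8⟩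
    noLoop := fun t ht hL => by
      refine h.noLoop t (fun h1 => ht ?_) (hlp hL)
      have : ¬ P t := fun hp => hP t hp (Or.inr h1)
      rw [eqO t this]
      exact h1
    noU := fun s u w v t hs hu hw hv ht h1 h2 h3 h4 h5 d1 d2 h6 h7 =>
      h.noU s u w v t (by rw [← own1 h1]; exact hs) (three hu).1 (three hw).1 (three hv).1
        (by rw [← own2' h4]; exact ht) h1 h2 h3 h4 h5 d1 d2 (h6.imp hport hlp) (h7.imp hport hlp)
    noC := fun a b d e f ha hb hd he hf h1 h2 h3 h4 h5 h6 h7 =>
      h.noC a b d e f (three ha).1 (three hb).1 (three hd).1 (three he).1 (three hf).1 h1 h2 h3 h4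
        h5 h6 h7
    noK4 := fun a b d e ha hb hd he hn r1 r2 r3 r4 r5 r6 => by
      have r1 := hrg r1
      have r2 := hrg r2
      have r3 := hrg r3
      have r4 := hrg r4
      have r5 := hrg r5
      have r6 := hrg r6
      simp only [List.nodup_cons, List.mem_cons, List.not_mem_nil, or_false, not_or,
        List.nodup_nil, and_true, not_false_eq_true] at hn
      obtain ⟨⟨n1, n2, n3⟩, ⟨n4, n5⟩, n6⟩ := hn
      by_cases pa : P a
      · exact core a b d e pa (by simp [*]) hb hd he r1 r2 r3 r4 r5 r6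
      by_cases pb : P b
      · exact core b a d e pb (by simp [*, Ne.symm n1]) ha hd he (symm r1) r4 r5 r2 r3 r6
      by_cases pd : P d
      · exact core d a b e pd (by simp [*, Ne.symm n2, Ne.symm n4]) ha hb he (symm r2) (symm r4)
          r6 r1 r3 r5
      by_cases pe : P e
      · exact core e a b d pe (by simp [*, Ne.symm n3, Ne.symm n5, Ne.symm n6]) ha hb hd
          (symm r3) (symm r5) (symm r6) r1 r2 r4
      rw [eqO a pa] at ha
      rw [eqO b pb] at hb
      rw [eqO d pd] at hd
      rw [eqO e pe] at he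
      exact h.noK4 a b d e ha hb hd he (by simp [*]) r1 r2 r3 r4 r5 r6 }

end ext

/-- degrees outside of a set of edges -/
theorem dg_filter_le {v : V} (A : Sym2 V → Prop) [hd : DecidablePred fun e => ¬ A e]
    (T : Finset V) (hN : ∀ y ∈ T, NM G X y)
    (hT : v ∈ S → ∀ z ∈ S, qadj G X z v → ¬ A s(v, z) → ∃ y ∈ T, y ∈ cr G X v ∧ y ∈ cr G X z) :
    dg ((QE G X S).val.filter fun e => ¬ A e) v ≤ T.card := by
  have e1 : @Multiset.filter _ (fun e => ¬ A e) hd (QE G X S).val =
      LK G X S ((QE G X S).filter fun e => A e).val := by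
    unfold LK
    rw [← Finset.filter_val]
    congr 1
    ext e
    simp only [Finset.mem_filter, Finset.mem_val]
    tauto
  rw [e1]
  refine dg_LK_le T hN ?_
  intro hv z hz hq hn
  refine hT hv z hz hq fun hA => hn ?_
  rw [Finset.mem_val, Finset.mem_filter]
  exact ⟨mem_QE.mpr ⟨hv, hz, qadj_symm hq⟩, hA⟩

/-- two vertices with a common cross neighbour -/
def Lnk (G : SimpleGraph V) (X : V → Prop) (u v : V) : Prop := ∃ y, y ∈ cr G X u ∧ y ∈ cr G X v

theorem Lnk.symm {u v : V} (h : Lnk G X u v) : Lnk G X v u := by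
  obtain ⟨y, h1, h2⟩ := h
  exact ⟨y, h2, h1⟩

section zero

variable (hcub : ∀ v, (univ.filter fun b => G.Adj v b).card = 3) (h : StA G X D)

include hcub h

/-- conflicts of a short leg -/
theorem leg_conf {x a u : V} (hx : D x) (hxa : G.Adj x a) (ha : cc G X a = 2)
    (hq : qadj G X u a) : u = x ∨ (G.Adj x u ∧ u ≠ a) ∨ Lnk G X a u := by
  have hax : ownR G X a x := ⟨hxa.symm, h.k0 x a hx hxa⟩
  obtain ⟨hs, hne, hadj | ⟨w, hw1, hw2⟩⟩ := hq
  · exact Or.inl (own_one hcub ha ⟨hadj.symm, hs.symm⟩ hax)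
  · by_cases hw : X w ↔ X a
    · have e : w = x := own_one hcub ha ⟨hw2.symm, hw.symm⟩ hax
      subst e
      exact Or.inr (Or.inl ⟨hw1.symm, hne⟩)
    · exact Or.inr (Or.inr ⟨w, mem_cr.mpr ⟨hw2.symm, hw⟩,
        mem_cr.mpr ⟨hw1, fun hh => hw (hh.trans hs)⟩⟩)

/-- three vertices linked to a common vertex -/
theorem three_links {e : V} (he : NM G X e) {a b d : V} (hab : a ≠ b) (had : a ≠ d) (hbd : b ≠ d)
    (hae : a ≠ e) (hbe : b ≠ e) (hde : d ≠ e) (l1 : Lnk G X a e) (l2 : Lnk G X b e)
    (l3 : Lnk G X d e) : False := by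
  obtain ⟨y1, h1, h1'⟩ := l1
  obtain ⟨y2, h2, h2'⟩ := l2
  obtain ⟨y3, h3, h3'⟩ := l3
  have key : ∀ {a b y : V}, a ≠ b → a ≠ e → b ≠ e → y ∈ cr G X a → y ∈ cr G X b → y ∈ cr G X e →
      False := by
    intro a b y hab hae hbe ha hb he'
    have hn : NM G X y := h.nm y (h.not_root (mem_crs.mp ha))
    have hc := (cr_bounds hcub y hn).2
    have hsub : ({a, b, e} : Finset V) ⊆ cr G X y := by
      intro w hw
      simp only [Finset.mem_insert, Finset.mem_singleton] at hw
      rcases hw with rfl | rfl | rfl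
      · exact mem_crs.mp ha
      · exact mem_crs.mp hb
      · exact mem_crs.mp he'
    have := Finset.card_le_card hsub
    rw [Finset.card_insert_of_notMem (by simp [hab, hae]),
      Finset.card_insert_of_notMem (by simp [hbe]), Finset.card_singleton] at this
    omega
  have n12 : y1 ≠ y2 := by
    rintro rfl
    exact key hab hae hbe h1 h2 h1'
  have n13 : y1 ≠ y3 := by
    rintro rfl
    exact key had hae hde h1 h3 h1'
  have n23 : y2 ≠ y3 := by
    rintro rfl
    exact key hbd hbe hde h2 h3 h2'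
  have hc := (cr_bounds hcub e he).2
  have hsub : ({y1, y2, y3} : Finset V) ⊆ cr G X e := by
    intro w hw
    simp only [Finset.mem_insert, Finset.mem_singleton] at hw
    rcases hw with rfl | rfl | rfl <;> assumption
  have := Finset.card_le_card hsub
  rw [Finset.card_insert_of_notMem (by simp [n12, n13]),
    Finset.card_insert_of_notMem (by simp [n23]), Finset.card_singleton] at this
  omega

/-- a short leg has at most one link -/
theorem leg_one_link {x a u v : V} (hx : D x) (hxa : G.Adj x a) (ha : cc G X a = 2)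
    (hau : u ≠ a) (hav : v ≠ a) (l1 : Lnk G X a u) (l2 : Lnk G X a v) : u = v := by
  have hDa : ¬ D a := h.not_root2 ha
  obtain ⟨w, hw1, hw2, hw3⟩ := h.noflip x a hx hDa hxa
  have hax : ownR G X a x := ⟨hxa.symm, h.k0 x a hx hxa⟩
  have hwcr : w ∈ cr G X a := by
    refine mem_cr.mpr ⟨hw2, fun hs => ?_⟩
    have : w = x := own_one hcub ha ⟨hw2, hs.symm⟩ hax
    exact hw1 (this ▸ hx)
  have hc := cc_two.mp ha
  obtain ⟨y1, h1, h1'⟩ := l1
  obtain ⟨y2, h2, h2'⟩ := l2
  have nw : ∀ {y u : V}, u ≠ a → y ∈ cr G X a → y ∈ cr G X u → y ≠ w := by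
    rintro y u hu hy hy' rfl
    refine hw3 (mem_pt.mpr ⟨hw2, u, hu, (mem_cr.mp hy').1.symm, ?_⟩)
    have e1 := (mem_cr.mp hy).2
    have e2 := (mem_cr.mp hy').2
    tauto
  have e12 : y1 = y2 := by
    by_contra hne
    have hsub : ({y1, y2, w} : Finset V) ⊆ cr G X a := by
      intro t ht
      simp only [Finset.mem_insert, Finset.mem_singleton] at ht
      rcases ht with rfl | rfl | rfl <;> assumption
    have := Finset.card_le_card hsub
    rw [Finset.card_insert_of_notMem (by simp [hne, nw hau h1 h1']),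
      Finset.card_insert_of_notMem (by simp [nw hav h2 h2']), Finset.card_singleton] at this
    omega
  subst e12
  by_contra hne
  have hn : NM G X y1 := h.nm y1 (h.not_root (mem_crs.mp h1))
  have hc := (cr_bounds hcub y1 hn).2
  have hsub : ({a, u, v} : Finset V) ⊆ cr G X y1 := by
    intro t ht
    simp only [Finset.mem_insert, Finset.mem_singleton] at ht
    rcases ht with rfl | rfl | rfl
    · exact mem_crs.mp h1
    · exact mem_crs.mp h1'
    · exact mem_crs.mp h2'
  have := Finset.card_le_card hsub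
  rw [Finset.card_insert_of_notMem (by simp [Ne.symm hau, Ne.symm hav]),
    Finset.card_insert_of_notMem (by simp [hne]), Finset.card_singleton] at this
  omega

/-- **One root with three short legs.** -/
theorem plus_zero (hmin : MinN G X (c3 G X D) S')
    (hside : ∀ v ∈ S', ∃ d, D d ∧ (X v ↔ X d)) (hone : ∀ d e, D d → D e → d = e)
    (hL0 : ∀ d c, D d → G.Adj d c → cc G X c = 2)
    (hE : ∀ N : V → Prop, (∀ v, N v → Far G D v ∧ ∃ d, D d ∧ (X v ↔ X d)) →
      (∀ u v, ownR G X u v → N u → N v) →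
      ENetX (ownN G X N) (cN G X N) (c3 G X D) (QE G X S').val) : False := by
  obtain ⟨x, w, _, hxw⟩ := h.two
  have hx : D x := (hxw x).mpr (Or.inl rfl)
  have hxu : ∀ d, D d → d = x := fun d hd => hone d x hd hx
  have hs : ∀ v ∈ S', (X v ↔ X x) := by
    intro v hv
    obtain ⟨d, hd, hs⟩ := hside v hv
    rw [hxu d hd] at hs
    exact hs
  have leg2 : ∀ {a}, G.Adj x a → cc G X a = 2 := fun ha => hL0 x _ hx ha
  have legO : ∀ {a b}, G.Adj x a → ownR G X a b → b = x := fun ha hb =>
    own_one hcub (leg2 ha) hb ⟨ha.symm, h.k0 x _ hx ha⟩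
  -- the root is not in `S'`
  have hxS : x ∉ S' := by
    intro hxS
    have h1 := hmin.core hxS
    have h2 : Dq G X S' x ≤ 3 := by
      rw [← hcub x]
      unfold Dq
      refine Finset.card_le_card fun u hu => ?_
      rw [Finset.mem_filter] at hu
      rw [Finset.mem_filter]
      refine ⟨Finset.mem_univ _, ?_⟩
      obtain ⟨hs1, hne, hadj | ⟨w, hw1, hw2⟩⟩ := hu.2
      · exact hadj.symm
      · exfalso
        have h3 := h.k0 x w hx hw2.symm
        exact hne (legO hw2.symm ⟨hw1.symm, h3.trans hs1.symm⟩)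
    unfold c3 at h1
    rw [if_pos hx] at h1
    omega
  set N : V → Prop := fun v => (X v ↔ X x) ∧ Far G D v with hN
  have hcl : ∀ u v, ownR G X u v → N u → N v := by
    rintro u v huv ⟨hu1, hu2⟩
    refine ⟨huv.2.symm.trans hu1, fun hv => ?_, fun d hd hdv => ?_⟩
    · exact hu2.2 v hv huv.1.symm
    · rw [hxu d hd] at hdv
      have := legO hdv (ownR_symm huv)
      exact hu2.1 (this ▸ hx)
  have hE1 := hE N (fun v hv => ⟨hv.2, x, hx, hv.1⟩) hcl
  set P : V → Prop := fun v => G.Adj x v with hP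
  have hPN : ∀ v, P v → ¬ N v := fun v hv hn => hn.2.2 x hx hv
  -- vertices of `S'`
  have cases : ∀ v ∈ S', P v ∨ N v := by
    intro v hv
    by_cases hp : P v
    · exact Or.inl hp
    · refine Or.inr ⟨hs v hv, fun hd => ?_, fun d hd hdv => hp ?_⟩
      · exact hxS (hxu v hd ▸ hv)
      · rw [hxu d hd] at hdv
        exact hdv
  have conf : ∀ {a u : V}, P a → u ∈ S' → qadj G X u a → (P u ∧ u ≠ a) ∨ Lnk G X a u := by
    intro a u ha hu hq
    rcases leg_conf hcub h hx ha (leg2 ha) hq with h1 | h1 | h1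
    · exact absurd hu (h1 ▸ hxS)
    · exact Or.inl h1
    · exact Or.inr h1
  have hE2 : ENetX (ownN G X N) (fun v => if P v then 2 else cN G X N v) (c3 G X D)
      (QE G X S').val := by
    refine enetx_ends hE1 P (fun v hv hn => hPN v hv (nf_iff.mp hn)) (fun v _ => c3_two v) ?_ ?_
    · intro a ha
      by_cases haS : a ∈ S'
      swap
      · rw [dg_QE_notMem haS]
        omega
      rw [dg_QE haS]
      unfold Dq
      -- the other legs and one link
      have hcard : ((univ.filter fun b => G.Adj x b).erase a).card = 2 := by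
        rw [Finset.card_erase_of_mem (by simpa using ha), hcub x]
      by_cases hl : ∃ l, l ≠ a ∧ Lnk G X a l
      · obtain ⟨l, hla, hl⟩ := hl
        have hsub : (S'.filter fun u => qadj G X u a) ⊆
            insert l ((univ.filter fun b => G.Adj x b).erase a) := by
          intro u hu
          rw [Finset.mem_filter] at hu
          rw [Finset.mem_insert, Finset.mem_erase, Finset.mem_filter]
          rcases conf ha hu.1 hu.2 with h1 | h1
          · exact Or.inr ⟨h1.2, Finset.mem_univ _, h1.1⟩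
          · exact Or.inl (leg_one_link hcub h hx ha (leg2 ha) (qadj_ne hu.2) hla h1 hl)
        have := Finset.card_le_card hsub
        have h2 := Finset.card_insert_le l ((univ.filter fun b => G.Adj x b).erase a)
        omega
      · have hsub : (S'.filter fun u => qadj G X u a) ⊆
            ((univ.filter fun b => G.Adj x b).erase a) := by
          intro u hu
          rw [Finset.mem_filter] at hu
          rw [Finset.mem_erase, Finset.mem_filter]
          rcases conf ha hu.1 hu.2 with h1 | h1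
          · exact ⟨h1.2, Finset.mem_univ _, h1.1⟩
          · exact absurd ⟨u, qadj_ne hu.2, h1⟩ hl
        have := Finset.card_le_card hsub
        omega
    · intro a b d e pa hn hb hd he m1 m2 m3 ib id' ie
      simp only [List.nodup_cons, List.mem_cons, List.not_mem_nil, or_false, not_or,
        List.nodup_nil, and_true, not_false_eq_true] at hn
      obtain ⟨⟨n1, n2, n3⟩, ⟨n4, n5⟩, n6⟩ := hn
      have cl : ∀ {a u : V}, P a → s(a, u) ∈ (QE G X S').val → (P u ∧ u ≠ a) ∨ Lnk G X a u := by
        intro a u ha hm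
        have hq := mem_QE.mp hm
        exact conf ha hq.2.1 (qadj_symm hq.2.2)
      have hS : ∀ {a u : V}, s(a, u) ∈ (QE G X S').val → u ∈ S' := fun hm => (mem_QE.mp hm).2.1
      -- the general case: `e` is not a leg
      have core : ∀ {a b d e : V}, P a → a ≠ b → a ≠ d → a ≠ e → b ≠ d → b ≠ e → d ≠ e →
          ¬ P e → s(a, b) ∈ (QE G X S').val → s(a, d) ∈ (QE G X S').val →
          s(a, e) ∈ (QE G X S').val → (P b → s(b, e) ∈ (QE G X S').val) →
          (P d → s(d, e) ∈ (QE G X S').val) → False := by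
        intro a b d e pa n1 n2 n3 n4 n5 n6 pe m1 m2 m3 ib id'
        have le : Lnk G X a e := (cl pa m3).resolve_left fun h1 => pe h1.1
        have pb : P b := by
          rcases cl pa m1 with h1 | h1
          · exact h1.1
          · exact absurd (leg_one_link hcub h hx pa (leg2 pa) n1.symm n3.symm h1 le) n5
        have pd : P d := by
          rcases cl pa m2 with h1 | h1
          · exact h1.1
          · exact absurd (leg_one_link hcub h hx pa (leg2 pa) n2.symm n3.symm h1 le) n6
        have lb : Lnk G X b e := (cl pb (ib pb)).resolve_left fun h1 => pe h1.1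
        have ld : Lnk G X d e := (cl pd (id' pd)).resolve_left fun h1 => pe h1.1
        have ne : N e := (cases e (hS m3)).resolve_left pe
        exact three_links hcub h (h.fr_of_far ne.2).self n1 n2 n4 n3 n5 n6 le lb ld
      by_cases pe : P e
      swap
      · exact core pa n1 n2 n3 n4 n5 n6 pe m1 m2 m3 (fun hp => (ib hp).2) (fun hp => (id' hp).2)
      by_cases pd : P d
      swap
      · exact core pa n1 n3 n2 n5 n4 (Ne.symm n6) pd m1 m3 m2 (fun hp => (ib hp).1)
          (fun hp => mem_swap' (ie hp).2)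
      by_cases pb : P b
      swap
      · exact core pa n2 n3 n1 n6 (Ne.symm n4) (Ne.symm n5) pb m2 m3 m1 (fun hp => mem_swap' (id' hp).1)
          (fun hp => mem_swap' (ie hp).1)
      exact no_four (fun v => (hcub v).le) pa pb pd pe n1 n2 n3 n4 n5 n6
  set c₂ : V → ℕ := fun v => if P v then 2 else cN G X N v with hc₂
  have c₂P : ∀ {v}, P v → c₂ v = 2 := fun hv => by simp [hc₂, hv]
  have c₂N : ∀ {v}, N v → c₂ v = cc G X v := fun hv => by
    simp only [hc₂]
    rw [if_neg (fun hp => hPN _ hp hv), cN_pos hv]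
  have nf2 : ∀ {v}, Nf c₂ v ↔ P v ∨ N v := by
    intro v
    constructor
    · intro hv
      by_cases hp : P v
      · exact Or.inl hp
      · refine Or.inr ((nf_iff (G := G) (X := X) (N := N)).mp ?_)
        simp only [Nf, hc₂, if_neg hp] at hv
        exact hv
    · rintro (hv | hv)
      · exact Or.inl (c₂P hv)
      · unfold Nf
        rw [c₂N hv]
        exact cc_cap v
  set z : Fin 0 → Fin 4 → V := fun j => j.elim0 with hz
  have hTE : TE EZ z = 0 := by
    unfold TE
    simp
  have hC : Cells c₂ (c3 G X D) 0 z (fun _ => 0) :=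
    { inj := fun j => j.elim0
      ex := fun j => j.elim0
      cap := fun j => j.elim0
      eb := fun e he => absurd he (Multiset.notMem_zero e)
      ebz := fun j => j.elim0
      slz := fun j => j.elim0 }
  obtain ⟨A, hA⟩ : ∃ A : Sym2 V → Prop, ∀ e, A e ↔
      ∃ a b, e = s(a, b) ∧ (OTs G X N a b ∨ (P a ∧ P b)) := ⟨_, fun _ => Iff.rfl⟩
  refine hmin.1 (ENetX.at_split hC (fun e he => absurd he (Multiset.notMem_zero e)) hE2
    (QE G X S').nodup A ?_ ?_ ?_ ?_ ?_)
  · intro a b hm hab _
    obtain ⟨a', b', he, hor⟩ := (hA _).mp hab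
    have hor' : OTs G X N a b ∨ (P a ∧ P b) := by
      rcases Sym2.eq_iff.mp he with ⟨rfl, rfl⟩ | ⟨rfl, rfl⟩
      · exact hor
      · exact hor.imp (fun h1 => h1.symm) (fun h1 => ⟨h1.2, h1.1⟩)
    rcases hor' with h1 | ⟨h1, h2⟩
    · rcases h1 with h1 | ⟨w, h1, h2⟩
      · exact ⟨nf2.mpr (Or.inr h1.2.2), Or.inl h1⟩
      · refine ⟨nf2.mpr (Or.inr h2.2.2), Or.inr (Or.inl ⟨w, h1, h2, ?_⟩)⟩
        rw [c₂N h1.2.2]
        rcases cc_cap (G := G) (X := X) w with h5 | h5
        · exfalso
          have := own_one hcub h5 h1.symm.1 h2.1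
          exact (qadj_ne (mem_QE.mp hm).2.2) this
        · exact h5
    · exact ⟨nf2.mpr (Or.inl h2), Or.inr (Or.inr ⟨c₂P h1, c₂P h2⟩)⟩
  · intro e hm hab hex
    obtain ⟨a, b, rfl, hor⟩ := (hA _).mp hab
    exfalso
    rcases hor with h1 | ⟨h1, _⟩
    · have : N a := by
        rcases h1 with h1 | ⟨w, h1, _⟩
        · exact h1.2.1
        · exact h1.2.1
      exact hex a (Sym2.mem_mk_left _ _) (nf2.mpr (Or.inr this))
    · exact hex a (Sym2.mem_mk_left _ _) (nf2.mpr (Or.inl h1))
  · intro v hv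
    have hvS : v ∉ S' := fun hvS => hv (nf2.mpr (cases v hvS))
    refine (dg_le_of_le (Multiset.filter_le _ _) v).trans ?_
    rw [dg_QE_notMem hvS]
  · intro v hv
    have hv' : P v ∨ N v := nf2.mp (Or.inl hv)
    have hnm : ∀ y ∈ cr G X v, NM G X y := fun y hy => h.nm y (h.not_root (mem_crs.mp hy))
    have hle : (cr G X v).card ≤ 2 := by
      rcases hv' with h1 | h1
      · exact (cc_two.mp (leg2 h1)).le
      · exact (cr_bounds hcub v (h.fr_of_far h1.2).self).2
    refine (dg_filter_le _ (cr G X v) hnm ?_).trans hle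
    intro hvS u hu hq hnA
    rw [hA] at hnA
    rcases hv' with h1 | h1
    · rcases conf h1 hu hq with h2 | ⟨y, h2, h3⟩
      · exact absurd ⟨v, u, rfl, Or.inr ⟨h1, h2.1⟩⟩ hnA
      · exact ⟨y, h2, h2, h3⟩
    · obtain ⟨hs1, hne, hadj | ⟨w, hw1, hw2⟩⟩ := hq
      · exfalso
        have h2 : ownR G X v u := ⟨hadj.symm, hs1.symm⟩
        exact hnA ⟨v, u, rfl, Or.inl (Or.inl ⟨h2, h1, hcl _ _ h2 h1⟩)⟩
      · by_cases hw : X w ↔ X v
        · exfalso
          have h2 : ownR G X v w := ⟨hw2.symm, hw.symm⟩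
          have nw := hcl _ _ h2 h1
          have h3 : ownR G X w u := ⟨hw1.symm, hw.trans hs1.symm⟩
          exact hnA ⟨v, u, rfl, Or.inl (Or.inr ⟨w, ⟨h2, h1, nw⟩, ⟨h3, nw, hcl _ _ h3 nw⟩⟩)⟩
        · exact ⟨w, mem_cr.mpr ⟨hw2.symm, hw⟩, mem_cr.mpr ⟨hw2.symm, hw⟩,
            mem_cr.mpr ⟨hw1, fun hh => hw (hh.trans hs1)⟩⟩
  · intro R hl hex h2 h3 hK _
    rw [hTE, zero_add, zero_add]
    have hdeg : ∀ v, dg R v ≤ 3 ∧ (3 ≤ dg R v → c₂ v = 2) := by
      intro v
      by_cases hn : Nf c₂ v
      · rcases hn with h4 | h4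
        · exact ⟨h2 v h4, fun _ => h4⟩
        · have := h3 v h4
          exact ⟨by omega, fun h5 => by omega⟩
      · have := hex v hn
        exact ⟨by omega, fun h5 => by omega⟩
    refine at_plain hl (fun v => (hdeg v).1) ?_ (fun v => c3_two v)
    intro a b d e hn m1 m2 m3 m4 m5 m6
    have hn' := hn
    simp only [List.nodup_cons, List.mem_cons, List.not_mem_nil, or_false, not_or,
      List.nodup_nil, and_true, not_false_eq_true] at hn'
    obtain ⟨⟨n1, n2, n3⟩, ⟨n4, n5⟩, n6⟩ := hn'
    exact hK a b d e ((hdeg a).2 (Helper19.DN.three_le_dg n4 n5 n6 m1 m2 m3))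
      ((hdeg b).2 (Helper19.DN.three_le_dg n2 n3 n6 (mem_swap' m1) m4 m5))
      ((hdeg d).2 (Helper19.DN.three_le_dg n1 n3 n5 (mem_swap' m2) (mem_swap' m4) m6))
      ((hdeg e).2 (Helper19.DN.three_le_dg n1 n2 n4 (mem_swap' m3) (mem_swap' m5) (mem_swap' m6)))
      hn m1 m2 m3 m4 m5 m6

end zero

end Helper33.Off
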