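import Pool.Agent.helper33.L9.OffLoop
import Pool.Agent.helper42.L9.EX1

/-!
# Recognition with exempt vertices

`N` = the vertices which are not exempt, closed under own adjacency.
-/

set_option linter.unusedSimpArgs false
set_option linter.unusedSectionVars false

namespace Helper33.Off

open Finset Classical Helper42.L9 Helper33.L9

variable {V : Type*} [Fintype V] {G : SimpleGraph V} {X : V → Prop} {Z S S' : Finset V}
  {N : V → Prop}

/-- structural caps -/
noncomputable def cN (G : SimpleGraph V) (X N : V → Prop) (v : V) : ℕ :=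
  if N v then cc G X v else 5

theorem cN_pos {v : V} (h : N v) : cN G X N v = cc G X v := if_pos h

theorem cN_neg {v : V} (h : ¬ N v) : cN G X N v = 5 := if_neg h

theorem N_of_cN {v : V} (h : cN G X N v = 2 ∨ cN G X N v = 3) : N v := by
  by_contra hn
  rw [cN_neg hn] at h
  omega

theorem cN_three {v : V} (h : cN G X N v = 3) : N v ∧ cc G X v = 3 := by
  have h1 := N_of_cN (Or.inr h)
  exact ⟨h1, by rw [← cN_pos h1]; exact h⟩

theorem cN_two {v : V} (h : cN G X N v = 2) : N v ∧ cc G X v = 2 := by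
  have h1 := N_of_cN (Or.inl h)
  exact ⟨h1, by rw [← cN_pos h1]; exact h⟩

variable {M M' : Multiset (Sym2 V)}

theorem locAt_cc {u x y x' y' : V} (h : LocAt (ownN G X N) (cN G X N) M u x y x' y') :
    LocAt (ownN G X N) (cc G X) M u x y x' y' := by
  have ex : cN G X N x = cc G X x := cN_pos h.ox.2.2
  have ey : cN G X N y = cc G X y := cN_pos h.oy.2.2
  exact {
    ne := h.ne
    ox := h.ox
    oy := h.oy
    bx := fun h3 => h.bx (by rw [ex]; exact h3)
    hy := fun h3 => h.hy (by rw [ey]; exact h3)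
    one := by rw [← ex, ← ey]; exact h.one
    nd := fun h1 h2 => h.nd (by rw [ex]; exact h1) (by rw [ey]; exact h2)
    edges := h.edges }

theorem port_cc {u p : V} (h : Port (ownN G X N) (cN G X N) M u p) :
    Port (ownN G X N) (cc G X) M u p := by
  obtain ⟨h3, x, y, y', hx, hl⟩ := h
  exact ⟨(cN_three h3).2, x, y, y', (cN_two hx).2, locAt_cc hl⟩

theorem mid_cc {u v : V} (h : Mid (ownN G X N) (cN G X N) u v) :
    Mid (ownN G X N) (cc G X) u v := by
  obtain ⟨h1, h2, h3, ⟨s, h4, h5⟩, ⟨t, h6, h7⟩⟩ := h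
  exact ⟨(cN_three h1).2, (cN_three h2).2, h3, ⟨s, h4, (cN_two h5).2⟩, ⟨t, h6, (cN_two h7).2⟩⟩

theorem lp_cc {t x : V} (h : Lp (ownN G X N) (cN G X N) M t x) :
    Lp (ownN G X N) (cc G X) M t x := by
  induction h with
  | start h1 h2 h3 => exact Lp.start (mid_cc h1) (port_cc h2) (port_cc h3)
  | cons _ h2 h3 ih => exact Lp.cons ih (mid_cc h2) (port_cc h3)

theorem vr_cc {a b : V} (h : VR (ownN G X N) (cN G X N) M a b) :
    VR (ownN G X N) (cc G X) M a b := by
  obtain ⟨u, v, t, t', h1, h2, h3, h4, h5, h6, h7, h8, h9, h10, h11, h12⟩ := h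
  exact ⟨u, v, t, t', (cN_three h1).2, (cN_three h2).2, (cN_three h3).2, (cN_three h4).2, h5, h6,
    h7, h8, h9, h10, h11, port_cc h12⟩

theorem rg_cc {a b : V} (h : Rg (ownN G X N) (cN G X N) M a b) :
    Rg (ownN G X N) (cc G X) M a b := by
  rcases h with h | h | h
  · exact Or.inl h
  · exact Or.inr (Or.inl (vr_cc h))
  · exact Or.inr (Or.inr (vr_cc h))

/-! ### monotonicity in the set `S` -/

theorem QE_mono (h : S' ⊆ S) : (QE G X S').val ≤ (QE G X S).val := by
  rw [Finset.val_le_iff]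
  intro e he
  induction e with
  | _ a b =>
    have h1 := mem_QE.mp he
    exact mem_QE.mpr ⟨h h1.1, h h1.2.1, h1.2.2⟩

/-- degrees of inner vertices are at most four -/
def Dle (own : V → V → Prop) (c : V → ℕ) (M : Multiset (Sym2 V)) : Prop :=
  ∀ u, c u = 3 → (∃ v, own u v) → dg M u ≤ 4

theorem port_le {own : V → V → Prop} {c : V → ℕ} (hM : Dle own c M) (hN : M' ≤ M) {u p : V}
    (h : Port own c M' u p) : Port own c M u p := by
  refine h.congr (fl_eq_of_le hN ?_).symm
  rw [h.dg_eq]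
  obtain ⟨h3, x, y, y', _, hl⟩ := h
  exact hM u h3 ⟨x, hl.ox⟩

theorem lp_le {own : V → V → Prop} {c : V → ℕ} (hM : Dle own c M) (hN : M' ≤ M) {t x : V}
    (h : Lp own c M' t x) : Lp own c M t x := by
  induction h with
  | start h1 h2 h3 => exact Lp.start h1 (port_le hM hN h2) (port_le hM hN h3)
  | cons _ h2 h3 ih => exact Lp.cons ih h2 (port_le hM hN h3)

theorem rg_le {own : V → V → Prop} {c : V → ℕ} (hM : Dle own c M) (hN : M' ≤ M) {a b : V}
    (h : Rg own c M' a b) : Rg own c M a b := by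
  have key : ∀ {a b : V}, VR own c M' a b → VR own c M a b := by
    rintro a b ⟨u, v, t, t', h1, h2, h3, h4, h5, h6, h7, h8, h9, h10, h11, h12⟩
    exact ⟨u, v, t, t', h1, h2, h3, h4, h5, h6, h7, h8, h9, h10, h11, port_le hM hN h12⟩
  rcases h with h | h | h
  · exact Or.inl (Multiset.mem_of_le hN h)
  · exact Or.inr (Or.inl (key h))
  · exact Or.inr (Or.inr (key h))

section

variable (hN : ∀ v, N v → Fr G X v) (hst : ∀ v, N v → StarAt G X v)
  (hcl : ∀ u v, ownR G X u v → N u → N v)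
  (hcub : ∀ v, (univ.filter fun b => G.Adj v b).card = 3)

include hN hst hcub in
theorem locX {u : V} (hu : N u) (h3 : cc G X u = 3) (h4 : 4 ≤ dg (QE G X S).val u) :
    ∃ x y x' y', LocAt (ownR G X) (cc G X) (QE G X S).val u x y x' y' :=
  loc_of hcub (hN u hu) (hst u hu) h3 h4

include hN hst hcub in
theorem dle_of : Dle (ownN G X N) (cc G X) (QE G X S).val := by
  rintro u h3 ⟨v, hv⟩
  by_contra hcon
  obtain ⟨x, y, x', y', h1⟩ := loc_of (S := S) hcub (hN u hv.2.1) (hst u hv.2.1) h3 (by omega)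
  have := h1.dg_eq
  omega

include hcl in
theorem locAt_N {u x y x' y' : V} (hu : N u)
    (h : LocAt (ownR G X) (cc G X) M u x y x' y') :
    LocAt (ownN G X N) (cN G X N) M u x y x' y' := by
  have nx : N x := hcl _ _ h.ox hu
  have ny : N y := hcl _ _ h.oy hu
  exact {
    ne := h.ne
    ox := ⟨h.ox, hu, nx⟩
    oy := ⟨h.oy, hu, ny⟩
    bx := fun h3 => by
      rw [cN_pos nx] at h3
      obtain ⟨h4, h5⟩ := h.bx h3
      exact ⟨⟨h4, nx, hcl _ _ h4 nx⟩, h5⟩
    hy := fun h3 => by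
      rw [cN_pos ny] at h3
      obtain ⟨h4, h5⟩ := h.hy h3
      exact ⟨⟨h4, ny, hcl _ _ h4 ny⟩, h5⟩
    one := by rw [cN_pos nx, cN_pos ny]; exact h.one
    nd := fun h1 h2 => h.nd (by rw [cN_pos nx] at h1; exact h1) (by rw [cN_pos ny] at h2; exact h2)
    edges := h.edges }

include hN hst hcl hcub in
/-- **Recognition**: the conflicts inside `S` form an `ENetX` -/
theorem enetx_of {c' : V → ℕ} (hc' : ∀ v, N v → cc G X v ≤ c' v)
    (hLoop : ∀ t, (N t → cc G X t = 2) → ¬ Lp (ownN G X N) (cc G X) (QE G X S).val t t)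
    (hU : ∀ s u w v t, N s → cc G X s = 2 → cc G X u = 3 → cc G X w = 3 → cc G X v = 3 →
      cc G X t = 2 → ownN G X N s u → ownN G X N u w → ownN G X N w v → ownN G X N v t →
      u ≠ v → 4 ≤ dg (QE G X S).val s → 4 ≤ dg (QE G X S).val t →
      (Port (ownN G X N) (cc G X) (QE G X S).val u t ∨
        Lp (ownN G X N) (cc G X) (QE G X S).val u t) →
      (Port (ownN G X N) (cc G X) (QE G X S).val v s ∨
        Lp (ownN G X N) (cc G X) (QE G X S).val v s) → False)
    (hC : ∀ a b d e f, N a → cc G X a = 3 → cc G X b = 3 → cc G X d = 3 → cc G X e = 3 →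
      cc G X f = 3 → ownN G X N a b → ownN G X N b d → ownN G X N d e → ownN G X N e f →
      ownN G X N f a → [a, b, d, e, f].Nodup → a ∈ S → False)
    (hK4 : ∀ a b d e, N a → N b → N d → N e → cc G X a = 2 → cc G X b = 2 → cc G X d = 2 →
      cc G X e = 2 → [a, b, d, e].Nodup →
      Rg (ownN G X N) (cc G X) (QE G X S).val a b → Rg (ownN G X N) (cc G X) (QE G X S).val a d →
      Rg (ownN G X N) (cc G X) (QE G X S).val a e → Rg (ownN G X N) (cc G X) (QE G X S).val b d →
      Rg (ownN G X N) (cc G X) (QE G X S).val b e → Rg (ownN G X N) (cc G X) (QE G X S).val d e →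
      False) :
    ENetX (ownN G X N) (cN G X N) c' (QE G X S).val where
  loopless := fun e he => by
    induction e with
    | _ a b =>
      intro h
      have h1 := mem_QE.mp he
      exact qadj_ne h1.2.2 (Sym2.mk_isDiag_iff.mp h)
  symm := fun u v h => h.symm
  irr := fun u h => ownR_ne h.1 rfl
  two := fun u a b d ha hb hd => own_two (hN u ha.2.1).self ha.1 hb.1 hd.1
  oneE := fun q a b hq ha hb => own_one hcub (cN_two hq).2 ha.1 hb.1
  own2 := fun u v h => by
    rw [cN_pos h.2.1]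
    exact cc_cap u
  hcc := fun v hv => by
    have h1 := N_of_cN hv
    rw [cN_pos h1]
    exact hc' v h1
  loc := fun u h3 h4 => by
    obtain ⟨nu, c3⟩ := cN_three h3
    obtain ⟨x, y, x', y', h⟩ := loc_of (S := S) hcub (hN u nu) (hst u nu) c3 h4
    exact ⟨x, y, x', y', locAt_N hcl nu h⟩
  le4 := fun q hq => by
    obtain ⟨nq, c2⟩ := cN_two hq
    exact le4_of hcub (hN q nq) c2
  heavy := fun q hq h4 => by
    obtain ⟨nq, c2⟩ := cN_two hq
    obtain ⟨u, u', h1, h2, h3, h5, h6, h7⟩ := heavy_of hcub (hN q nq) c2 h4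
    have nu := hcl _ _ h2 nq
    exact ⟨u, u', by rw [cN_pos nu]; exact h1, ⟨h2, nq, nu⟩, ⟨h3, nu, hcl _ _ h3 nu⟩, h5, h6, h7⟩
  noLoop := fun t ht hL => by
    refine hLoop t (fun hn => ?_) (lp_cc hL)
    rw [cN_pos hn] at ht
    rcases cc_cap (G := G) (X := X) t with h | h
    · exact h
    · exact absurd h ht
  noU := fun s u w v t hs hu hw hv ht o1 o2 o3 o4 huv d1 d2 hA hB =>
    hU s u w v t (cN_two hs).1 (cN_two hs).2 (cN_three hu).2 (cN_three hw).2 (cN_three hv).2
      (cN_two ht).2 o1 o2 o3 o4 huv d1 d2 (hA.imp port_cc lp_cc) (hB.imp port_cc lp_cc)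
  noC := fun a b d e f ha hb hd he hf h1 h2 h3 h4 h5 hn h0 => by
    have haS : a ∈ S := by
      by_contra h
      exact h0 (dg_QE_notMem h)
    exact hC a b d e f (cN_three ha).1 (cN_three ha).2 (cN_three hb).2 (cN_three hd).2
      (cN_three he).2 (cN_three hf).2 h1 h2 h3 h4 h5 hn haS
  noK4 := fun a b d e ha hb hd he hn r1 r2 r3 r4 r5 r6 =>
    hK4 a b d e (cN_two ha).1 (cN_two hb).1 (cN_two hd).1 (cN_two he).1 (cN_two ha).2
      (cN_two hb).2 (cN_two hd).2 (cN_two he).2 hn (rg_cc r1) (rg_cc r2) (rg_cc r3) (rg_cc r4)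
      (rg_cc r5) (rg_cc r6)

end

end Helper33.Off
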