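import Pool.Agent.helper33.L9.Core
import Pool.Agent.helper42.L9.EphDefs

/-!
# Recognition: the conflicts inside a set `S` form an `ENet`

`G` cubic, `X` a cut without monochromatic neighbourhoods, `star` on `S`; the bad configurations
(loops, `U5`, own `C5`, real `K4`) are excluded by hypotheses on `S`.
-/

set_option linter.unusedSimpArgs false
set_option linter.unusedSectionVars false

namespace Helper33.L9

open Finset Classical Helper42.L9

variable {V : Type*} [Fintype V] {G : SimpleGraph V} {X : V → Prop}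

/-- own adjacency -/
def ownR (G : SimpleGraph V) (X : V → Prop) (u v : V) : Prop := G.Adj u v ∧ (X u ↔ X v)

/-- caps -/
noncomputable def cc (G : SimpleGraph V) (X : V → Prop) (v : V) : ℕ :=
  if (cr G X v).card = 2 then 2 else 3

theorem mem_ow_iff {u v : V} : u ∈ ow G X v ↔ ownR G X v u := by
  rw [mem_ow]; unfold ownR; constructor
  · rintro ⟨h1, h2⟩; exact ⟨h1, h2.symm⟩
  · rintro ⟨h1, h2⟩; exact ⟨h1, h2.symm⟩

theorem fl_QE {S : Finset V} {u : V} (hu : u ∈ S) :
    fl (QE G X S).val u = (S.filter fun z => qadj G X z u).val.map (fun z => s(u, z)) := by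
  have h1 : fl (QE G X S).val u = ((S.filter fun z => qadj G X z u).image (fun z => s(u, z))).val := by
    unfold fl
    have : (QE G X S).filter (fun e => u ∈ e) =
        (S.filter fun z => qadj G X z u).image (fun z => s(u, z)) := by
      ext e
      rw [Finset.mem_filter, Finset.mem_image]
      constructor
      · rintro ⟨h1, h2⟩
        induction e with
        | _ a b =>
          have hq := mem_QE.mp h1
          rcases Sym2.mem_iff.mp h2 with h | h
          · subst h
            exact ⟨b, Finset.mem_filter.mpr ⟨hq.2.1, qadj_symm hq.2.2⟩, rfl⟩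
          · subst h
            exact ⟨a, Finset.mem_filter.mpr ⟨hq.1, hq.2.2⟩, Sym2.eq_swap⟩
      · rintro ⟨z, hz, rfl⟩
        rw [Finset.mem_filter] at hz
        exact ⟨mem_QE.mpr ⟨hu, hz.1, qadj_symm hz.2⟩, Sym2.mem_mk_left _ _⟩
    rw [← this, Finset.filter_val]
  rw [h1, Finset.image_val_of_injOn]
  intro a _ b _ h
  rcases Sym2.eq_iff.mp h with ⟨_, h⟩ | ⟨h3, h4⟩
  · exact h
  · exact h4.trans h3

section cubic

variable (hX : NoMono G X) (hcub : ∀ v, (univ.filter fun b => G.Adj v b).card = 3)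

include hcub in
theorem cr_ow (v : V) : (cr G X v).card + (ow G X v).card = 3 := by
  rw [cr_add_ow, hcub]

include hX hcub in
theorem cr_bounds (v : V) : 1 ≤ (cr G X v).card ∧ (cr G X v).card ≤ 2 := by
  have h0 := cr_ow (X := X) hcub v
  constructor
  · by_contra hcon
    have h6 : (ow G X v).card = 3 := by omega
    obtain ⟨a, b, c, hab, hac, hbc, he⟩ := Finset.card_eq_three.mp h6
    have ha := mem_ow.mp (he ▸ (by simp : a ∈ ({a, b, c} : Finset V)))
    have hb := mem_ow.mp (he ▸ (by simp : b ∈ ({a, b, c} : Finset V)))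
    have hc' := mem_ow.mp (he ▸ (by simp : c ∈ ({a, b, c} : Finset V)))
    exact hX v a b c ha.1 hb.1 hc'.1 hab hac hbc (by tauto)
  · by_contra hcon
    have h6 : (cr G X v).card = 3 := by omega
    obtain ⟨a, b, c, hab, hac, hbc, he⟩ := Finset.card_eq_three.mp h6
    have ha := mem_cr.mp (he ▸ (by simp : a ∈ ({a, b, c} : Finset V)))
    have hb := mem_cr.mp (he ▸ (by simp : b ∈ ({a, b, c} : Finset V)))
    have hc' := mem_cr.mp (he ▸ (by simp : c ∈ ({a, b, c} : Finset V)))
    exact hX v a b c ha.1 hb.1 hc'.1 hab hac hbc (by tauto)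

include hX hcub in
theorem cc_three {v : V} : cc G X v = 3 ↔ (cr G X v).card = 1 := by
  have := cr_bounds hX hcub v
  unfold cc
  split_ifs with h
  · omega
  · constructor
    · intro _; omega
    · intro _; rfl

include hX hcub in
theorem cc_two {v : V} : cc G X v = 2 ↔ (cr G X v).card = 2 := by
  have := cr_bounds hX hcub v
  unfold cc
  split_ifs with h
  · simp [h]
  · constructor
    · intro h; omega
    · intro h'; exact absurd h' h

theorem cc_cap (v : V) : cc G X v = 2 ∨ cc G X v = 3 := by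
  unfold cc; split_ifs <;> simp

include hX hcub in
/-- an own neighbour of `v` in `pt v` has cap three -/
theorem cc_of_pt {v a : V} (ho : ownR G X v a) (ha : a ∈ pt G X v) :
    cc G X a = 3 ∧ ownR G X a (partner G X a v) ∧ partner G X a v ≠ v := by
  obtain ⟨h1, h2, h3⟩ := partner_spec ha
  have h4 : ownR G X a (partner G X a v) := ⟨h2, ho.2.symm.trans h3.symm⟩
  refine ⟨?_, h4, h1⟩
  rw [cc_three hX hcub]
  have h5 : ({v, partner G X a v} : Finset V) ⊆ ow G X a := by
    intro z hz
    rw [Finset.mem_insert, Finset.mem_singleton] at hz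
    rcases hz with rfl | rfl
    · exact mem_ow.mpr ⟨ho.1.symm, ho.2⟩
    · exact mem_ow_iff.mpr h4
  have h6 := Finset.card_le_card h5
  rw [Finset.card_pair h1.symm] at h6
  have := cr_ow (X := X) hcub a
  have := cr_bounds hX hcub a
  omega

include hX hcub in
/-- an own neighbour of `v` outside of `pt v` has cap two -/
theorem cc_of_not_pt {v a : V} (ho : ownR G X v a) (ha : a ∉ pt G X v) : cc G X a = 2 := by
  rw [cc_two hX hcub]
  have h0 := cr_ow (X := X) hcub a
  have h1 : ow G X a ⊆ {v} := by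
    intro z hz
    rw [Finset.mem_singleton]
    by_contra hne
    have h2 := mem_ow.mp hz
    exact ha (mem_pt.mpr ⟨ho.1, z, hne, h2.1, h2.2.trans ho.2.symm⟩)
  have h2 := Finset.card_le_card h1
  rw [Finset.card_singleton] at h2
  have := cr_bounds hX hcub a
  omega

include hX hcub in
/-- the field `loc` -/
theorem loc_of {S : Finset V} (hst : ∀ v ∈ S, StarAt G X v) {u : V} (h3 : cc G X u = 3)
    (h4 : 4 ≤ dg (QE G X S).val u) :
    ∃ x y x' y', LocAt (ownR G X) (cc G X) (QE G X S).val u x y x' y' := by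
  have hu : u ∈ S := by
    by_contra h
    rw [dg_QE_notMem h] at h4
    omega
  rw [dg_QE hu] at h4
  have h1 := (cc_three hX hcub).mp h3
  have hc : CoreAt G X S u := by unfold CoreAt; omega
  obtain ⟨a, b, y, hab, how, hcr, haS, hbS, h⟩ :=
    core_I_cases hX (fun v => (hcub v).le) hc (hst u hu) h1
  have hoa : ownR G X u a := mem_ow_iff.mp (by rw [how]; simp)
  have hob : ownR G X u b := mem_ow_iff.mp (by rw [how]; simp)
  have hedges : ∀ z w : V, [a, b, z, w].Nodup →
      S.filter (fun u' => qadj G X u' u) = {a, b, z, w} →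
      fl (QE G X S).val u = {s(u, a), s(u, b), s(u, z), s(u, w)} := by
    intro z w hn he
    rw [fl_QE hu, he]
    have : ({a, b, z, w} : Finset V).val = ([a, b, z, w] : List V) := by
      have h5 : ({a, b, z, w} : Finset V) = [a, b, z, w].toFinset := by ext; simp
      rw [h5, List.toFinset_val, hn.dedup]
    rw [this]
    rfl
  rcases h with ⟨hpt, hpa, hpb, he, hn⟩ | ⟨hpt, hpb, hpy, he, hn⟩
  · -- type β
    obtain ⟨ca, oa, na⟩ := cc_of_pt hX hcub hoa (by rw [hpt]; simp)
    obtain ⟨cb, ob, nb⟩ := cc_of_pt hX hcub hob (by rw [hpt]; simp)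
    exact ⟨a, b, partner G X a u, partner G X b u, {
      ne := hab, ox := hoa, oy := hob, bx := fun _ => ⟨oa, na⟩, hy := fun _ => ⟨ob, nb⟩
      one := Or.inl ca, nd := fun _ _ => hn, edges := hedges _ _ hn he }⟩
  · -- type α
    have ca : cc G X a = 2 := by
      refine cc_of_not_pt hX hcub hoa ?_
      rw [hpt]
      simp only [Finset.mem_insert, Finset.mem_singleton, not_or]
      refine ⟨hab, ?_⟩
      rintro rfl
      have h5 := mem_cr.mp (by rw [hcr]; simp : a ∈ cr G X u)
      exact h5.2 hoa.2.symm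
    obtain ⟨cb, ob, nb⟩ := cc_of_pt hX hcub hob (by rw [hpt]; simp)
    have hn' : [a, b, partner G X y u, partner G X b u].Nodup :=
      (List.Perm.cons a (List.Perm.cons b (List.Perm.swap _ _ []))).nodup_iff.mp hn
    have he' : S.filter (fun u' => qadj G X u' u) =
        {a, b, partner G X y u, partner G X b u} := by
      rw [he]; ext z; simp only [Finset.mem_insert, Finset.mem_singleton]; tauto
    exact ⟨a, b, partner G X y u, partner G X b u, {
      ne := hab, ox := hoa, oy := hob
      bx := fun h => by rw [ca] at h; omega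
      hy := fun _ => ⟨ob, nb⟩
      one := Or.inr cb
      nd := fun h => by rw [ca] at h; omega
      edges := hedges _ _ hn' he' }⟩

include hX hcub in
/-- the field `le4` -/
theorem le4_of {S : Finset V} {q : V} (h2 : cc G X q = 2) : dg (QE G X S).val q ≤ 4 := by
  by_cases hq : q ∈ S
  · rw [dg_QE hq]
    have h := count_bound hX (fun v => (hcub v).le) S q
    have h1 := (cc_two hX hcub).mp h2
    have h3 : (pt G X q).card ≤ 3 := by
      rw [← hcub q]; exact Finset.card_le_card pt_subset
    unfold Dq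
    omega
  · rw [dg_QE_notMem hq]; omega

include hX hcub in
/-- the field `heavy` -/
theorem heavy_of {S : Finset V} {q : V} (h2 : cc G X q = 2) (h4 : 4 ≤ dg (QE G X S).val q) :
    ∃ u u', cc G X u = 3 ∧ ownR G X q u ∧ ownR G X u u' ∧ u' ≠ q ∧
      s(q, u) ∈ (QE G X S).val ∧ s(q, u') ∈ (QE G X S).val := by
  have hq : q ∈ S := by
    by_contra h
    rw [dg_QE_notMem h] at h4
    omega
  rw [dg_QE hq] at h4
  have h := count_bound hX (fun v => (hcub v).le) S q
  have h1 := (cc_two hX hcub).mp h2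
  have h3 : (pt G X q).card ≤ 3 := by
    rw [← hcub q]; exact Finset.card_le_card pt_subset
  unfold Dq at h4
  have h5 : (pt G X q) = univ.filter fun b => G.Adj q b :=
    Finset.eq_of_subset_of_card_le pt_subset (by rw [hcub q]; omega)
  have h6 : ((ow G X q).filter fun u => u ∉ S).card = 0 := by omega
  have h7 : ((pt G X q).filter fun w => partner G X w q ∉ S).card = 0 := by omega
  rw [Finset.card_eq_zero, Finset.filter_eq_empty_iff] at h6 h7
  have h8 : (ow G X q).card = 1 := by have := cr_ow (X := X) hcub q; omega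
  obtain ⟨u, hu⟩ := Finset.card_eq_one.mp h8
  have hou : u ∈ ow G X q := by rw [hu]; simp
  have hown := mem_ow_iff.mp hou
  have hpt : u ∈ pt G X q := by
    rw [h5]; exact Finset.mem_filter.mpr ⟨Finset.mem_univ _, hown.1⟩
  obtain ⟨c1, c2, c3⟩ := cc_of_pt hX hcub hown hpt
  refine ⟨u, partner G X u q, c1, hown, c2, c3, ?_, ?_⟩
  · exact mem_QE.mpr ⟨hq, not_not.mp (h6 hou), qadj_symm (ow_qadj hou)⟩
  · exact mem_QE.mpr ⟨hq, not_not.mp (h7 hpt), qadj_symm (partner_qadj hpt)⟩

include hX in
theorem own_two {u a b d : V} (ha : ownR G X u a) (hb : ownR G X u b) (hd : ownR G X u d) :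
    a = b ∨ a = d ∨ b = d := by
  by_contra hcon
  push Not at hcon
  exact hX u a b d ha.1 hb.1 hd.1 hcon.1 hcon.2.1 hcon.2.2
    ⟨ha.2.symm.trans hb.2, ha.2.symm.trans hd.2⟩

include hX hcub in
theorem own_one {q a b : V} (hq : cc G X q = 2) (ha : ownR G X q a) (hb : ownR G X q b) :
    a = b := by
  have h1 := (cc_two hX hcub).mp hq
  have h2 := cr_ow (X := X) hcub q
  obtain ⟨u, hu⟩ := Finset.card_eq_one.mp (by omega : (ow G X q).card = 1)
  have h3 := mem_ow_iff.mpr ha
  have h4 := mem_ow_iff.mpr hb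
  rw [hu, Finset.mem_singleton] at h3 h4
  rw [h3, h4]

/-- the port of `u` in graph terms: `p` is joined to `u` through the cross neighbour `y` -/
theorem port_graph (hX : NoMono G X) (hcub : ∀ v, (univ.filter fun b => G.Adj v b).card = 3)
    {S : Finset V} {u p : V}
    (h : Port (ownR G X) (cc G X) (QE G X S).val u p) :
    ∃ s v v' y, ownR G X u s ∧ cc G X s = 2 ∧ ownR G X u v ∧ cc G X v = 3 ∧ s ≠ v ∧
      ownR G X v v' ∧ v' ≠ u ∧
      cr G X u = {y} ∧ G.Adj u y ∧ G.Adj y p ∧ ¬ (X y ↔ X u) ∧ (X p ↔ X u) ∧ p ≠ u ∧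
      ¬ G.Adj u p ∧ p ≠ v' ∧
      u ∈ S ∧ p ∈ S ∧ v ∈ S ∧ v' ∈ S ∧ s ∈ S := by
  obtain ⟨h3, s, v, v', hs, hloc⟩ := h
  have hv3 : cc G X v = 3 := by
    rcases hloc.one with h | h
    · rw [hs] at h; omega
    · exact h
  obtain ⟨hov, hv'u⟩ := hloc.hy hv3
  have hmem : ∀ z, s(u, z) ∈ fl (QE G X S).val u → z ∈ S ∧ u ∈ S ∧ qadj G X u z := by
    intro z hz
    have := mem_QE.mp (mem_fl.mp hz).1
    exact ⟨this.2.1, this.1, this.2.2⟩
  have hfl := hloc.edges
  have hp := hmem p (by rw [hfl]; simp)
  have hvS := hmem v (by rw [hfl]; simp)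
  have hv'S := hmem v' (by rw [hfl]; simp)
  have hsS := hmem s (by rw [hfl]; simp)
  -- the four neighbours are different
  have hnd : [s, v, p, v'].Nodup := by
    have h4 := fl_QE (G := G) (X := X) hp.2.1
    rw [hfl] at h4
    have h5 : ((S.filter fun z => qadj G X z u).val.map (fun z => s(u, z))).Nodup := by
      refine (Multiset.nodup_map_iff_of_inj_on ?_).mpr (Finset.nodup _)
      intro a _ b _ h
      rcases Sym2.eq_iff.mp h with ⟨_, h⟩ | ⟨h3, h4⟩
      · exact h
      · exact h4.trans h3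
    rw [← h4] at h5
    have h6 : (({s(u, s), s(u, v), s(u, p), s(u, v')} : Multiset (Sym2 V))) =
        (([s, v, p, v'].map fun z => s(u, z) : List (Sym2 V)) : Multiset (Sym2 V)) := rfl
    rw [h6, Multiset.coe_nodup] at h5
    exact List.Nodup.of_map _ h5
  simp only [List.nodup_cons, List.mem_cons, List.not_mem_nil, or_false, not_or,
    List.nodup_nil, and_true, not_false_eq_true] at hnd
  obtain ⟨⟨n1, n2, n3⟩, ⟨n4, n5⟩, n6⟩ := hnd
  have hnadj : ¬ G.Adj u p := by
    intro h
    have hop : ownR G X u p := ⟨h, hp.2.2.1⟩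
    rcases own_two hX hloc.ox hloc.oy hop with h | h | h
    · exact n1 h
    · exact n2 h
    · exact n4 h
  obtain ⟨y, hy⟩ := Finset.card_eq_one.mp ((cc_three hX hcub).mp h3)
  obtain ⟨hs1, hne, hadj | ⟨w, hw1, hw2⟩⟩ := hp.2.2
  · exact absurd hadj hnadj
  · -- the common neighbour is `y`
    have hwy : w = y := by
      by_cases hsw : X w ↔ X u
      · have how : ownR G X u w := ⟨hw1, hsw.symm⟩
        have howp : ownR G X w p := ⟨hw2, hsw.trans hs1⟩
        rcases own_two hX hloc.ox hloc.oy how with h | h | h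
        · exact absurd h n1
        · subst h
          exact absurd (own_one hX hcub hs ⟨hw1.symm, hsw⟩ howp) hne
        · subst h
          rcases own_two hX (⟨hw1.symm, hsw⟩ : ownR G X v u) hov howp with h | h | h
          · exact absurd h.symm hv'u
          · exact absurd h hne
          · exact absurd h.symm n6
      · have := mem_cr.mpr ⟨hw1, hsw⟩
        rw [hy, Finset.mem_singleton] at this
        exact this
    subst hwy
    have hcr := mem_cr.mp (by rw [hy]; simp : w ∈ cr G X u)
    exact ⟨s, v, v', w, hloc.ox, hs, hloc.oy, hv3, n1, hov, hv'u, hy, hw1, hw2, hcr.2,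
      hs1.symm, hne.symm, hnadj, n6, hp.2.1, hp.1, hvS.1, hv'S.1, hsS.1⟩

include hX hcub in
/-- a chord `u t'` of an own path `s u v t t'`: the own path ends behind `t'` (`P_6`) -/
theorem chord_end {S : Finset V} (hst : ∀ v ∈ S, StarAt G X v) {u v t t' : V}
    (ht' : cc G X t' = 3) (h2 : ownR G X u v) (h3 : ownR G X v t)
    (h4 : ownR G X t t') (h6 : v ≠ t')
    (hP : Port (ownR G X) (cc G X) (QE G X S).val u t') :
    ∃ s', ownR G X t' s' ∧ s' ≠ t ∧ cc G X s' = 2 := by
  obtain ⟨s1, v1, v', y, _, _, _, _, _, _, _, hcr, hadj, hyp, hyu, _, hpu, _, _, _, hpS, _⟩ :=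
    port_graph hX hcub hP
  have h7 := (cc_three hX hcub).mp ht'
  have h8 := cr_ow (X := X) hcub t'
  obtain ⟨a, b, hab, hoab⟩ := Finset.card_eq_two.mp (by omega : (ow G X t').card = 2)
  have hex : ∃ s', ownR G X t' s' ∧ s' ≠ t := by
    by_cases hat : a = t
    · exact ⟨b, mem_ow_iff.mp (by rw [hoab]; simp), fun h => hab (hat.trans h.symm)⟩
    · exact ⟨a, mem_ow_iff.mp (by rw [hoab]; simp), hat⟩
  obtain ⟨s', hs', hs't⟩ := hex
  refine ⟨s', hs', hs't, ?_⟩
  rcases cc_cap (G := G) (X := X) s' with hc | hc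
  · exact hc
  · exfalso
    have hx := hst t' hpS
    have hle : (ow G X t').card ≤ (cr G X t').card := by
      apply hx
      intro w hw
      by_cases hsw : X w ↔ X t'
      · have how : ownR G X t' w := ⟨hw, hsw.symm⟩
        have h9 : ownR G X t' t := ⟨h4.1.symm, h4.2.symm⟩
        rcases own_two hX h9 hs' how with h | h | h
        · exact absurd h.symm hs't
        · subst h
          exact mem_pt.mpr ⟨hw, v, h6, h3.1.symm, h3.2.trans h4.2⟩
        · subst h
          by_contra hnp
          have := cc_of_not_pt hX hcub how hnp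
          omega
      · have h9 : y ∈ cr G X t' := mem_cr.mpr ⟨hyp.symm, by
          intro h
          exact hyu (h.trans (h4.2.symm.trans (h3.2.symm.trans h2.2.symm)))⟩
        have h10 : w ∈ cr G X t' := mem_cr.mpr ⟨hw, hsw⟩
        obtain ⟨z, hz⟩ := Finset.card_eq_one.mp h7
        rw [hz, Finset.mem_singleton] at h9 h10
        rw [h10, ← h9]
        exact mem_pt.mpr ⟨hyp.symm, u, hpu.symm, hadj.symm, h2.2.trans (h3.2.trans h4.2)⟩
    omega

/-- **Recognition.** -/
theorem enet_of {S : Finset V} (hst : ∀ v ∈ S, StarAt G X v)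
    (hX : NoMono G X) (hcub : ∀ v, (univ.filter fun b => G.Adj v b).card = 3)
    (noLoop : ∀ t, cc G X t = 2 → ¬ Lp (ownR G X) (cc G X) (QE G X S).val t t)
    (noU : ∀ s u w v t, cc G X s = 2 → cc G X u = 3 → cc G X w = 3 → cc G X v = 3 →
      cc G X t = 2 → ownR G X s u → ownR G X u w → ownR G X w v → ownR G X v t → u ≠ v →
    4 ≤ dg (QE G X S).val s → 4 ≤ dg (QE G X S).val t →
      (Port (ownR G X) (cc G X) (QE G X S).val u t ∨ Lp (ownR G X) (cc G X) (QE G X S).val u t) →
      (Port (ownR G X) (cc G X) (QE G X S).val v s ∨ Lp (ownR G X) (cc G X) (QE G X S).val v s) →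
      False)
    (noC : ∀ a b d e f, a ∈ S → cc G X a = 3 → cc G X b = 3 → cc G X d = 3 → cc G X e = 3 →
      cc G X f = 3 → ownR G X a b → ownR G X b d → ownR G X d e → ownR G X e f → ownR G X f a →
      [a, b, d, e, f].Nodup → False)
    (noK4 : ∀ a b d e, cc G X a = 2 → cc G X b = 2 → cc G X d = 2 → cc G X e = 2 →
      [a, b, d, e].Nodup → Rg (ownR G X) (cc G X) (QE G X S).val a b →
      Rg (ownR G X) (cc G X) (QE G X S).val a d → Rg (ownR G X) (cc G X) (QE G X S).val a e →
      Rg (ownR G X) (cc G X) (QE G X S).val b d → Rg (ownR G X) (cc G X) (QE G X S).val b e →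
      Rg (ownR G X) (cc G X) (QE G X S).val d e → False) :
    ENet (ownR G X) (cc G X) (QE G X S).val where
  loopless := fun e he => QE_loopless e he
  symm := fun u v h => ⟨h.1.symm, h.2.symm⟩
  irr := fun u h => h.1.ne rfl
  two := fun u a b d h1 h2 h3 => own_two hX h1 h2 h3
  oneE := fun q a b h1 h2 h3 => own_one hX hcub h1 h2 h3
  cap := fun v => cc_cap v
  loc := fun u h3 h4 => loc_of hX hcub hst h3 h4
  le4 := fun q h2 => le4_of hX hcub h2
  heavy := fun q h2 h4 => heavy_of hX hcub h2 h4
  noLoop := noLoop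
  noU := noU
  noC := by
    intro a b d e f ha hb hd he hf h1 h2 h3 h4 h5 hn hne
    by_cases haS : a ∈ S
    · exact noC a b d e f haS ha hb hd he hf h1 h2 h3 h4 h5 hn
    · exact hne (dg_QE_notMem haS)
  noK4 := noK4

end cubic

end Helper33.L9
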