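import Pool.Agent.helper33.L9.LabelW
import Pool.Agent.helper58.L9.K4Family
import Pool.Agent.helper40.L9.LastC5

/-!
# The stack order

`Z` a set of vertices without vertices of own five-cycles.  By induction on `Z` there is a state
(helper58's `St`) in which exactly `Z` is labelled: either all stuck sets `S ⊆ Z` are clean (then
the game labels `Z` in parity), or a region `Λ ⊆ Z` is removed and labelled last.

`RegionStep G X Z`: a region exists.
`stack_main`: region steps for all `Z` give a labelling of the graph.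
-/

set_option linter.unusedSimpArgs false
set_option linter.unusedSectionVars false

namespace Helper33.L9

open Finset Classical Helper42.L9
open Pool.Agent.helper40.L9 (ParOK Cyc Nice nice_of_world finish)
open Pool.Agent.helper58.L9 (St Rel)

variable {V : Type*} [Fintype V] {G : SimpleGraph V} {X : V → Prop}

/-- distance one or two -/
def near (G : SimpleGraph V) (u v : V) : Prop := u ≠ v ∧ (G.Adj u v ∨ ∃ w, G.Adj u w ∧ G.Adj w v)

theorem near_symm {u v : V} (h : near G u v) : near G v u := by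
  obtain ⟨h1, h2 | ⟨w, h2, h3⟩⟩ := h
  · exact ⟨h1.symm, Or.inl h2.symm⟩
  · exact ⟨h1.symm, Or.inr ⟨w, h3.symm, h2.symm⟩⟩

/-- helper58's relations -/
theorem relG : Rel G.Adj (qadj G X) (near G) X :=
  ⟨fun _ _ h => h.symm, fun _ _ h => qadj_symm h, fun _ _ h => near_symm h,
    fun _ _ h => ⟨h.ne, Or.inl h⟩, fun _ _ h => h.1⟩

theorem qadj_near {u v : V} (h : qadj G X u v) : near G u v := ⟨h.2.1, h.2.2⟩

/-- states of the graph `G` -/
abbrev StG (G : SimpleGraph V) (X : V → Prop) (L E : V → Prop) (f : V → ℕ) : Prop :=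
  St G.Adj (qadj G X) (near G) X L E f

/-- invariants of the set `Z` which is still to be labelled -/
structure InvZ (G : SimpleGraph V) (X : V → Prop) (Z : Finset V) : Prop where
  C : ∀ c : Fin 5 → V, Nice G X c → ∀ i, c i ∉ Z
  own1 : ∀ w, w ∉ Z → ∀ a b, ownR G X w a → ownR G X w b → a ∈ Z → b ∈ Z → a = b
  crs : ∀ y, y ∉ Z → cc G X y = 2 → ∃ x, G.Adj y x ∧ ¬ (X x ↔ X y) ∧ x ∉ Z

/-- stuck sets for `Z` -/
def StuckZ (G : SimpleGraph V) (X : V → Prop) (Z S : Finset V) : Prop :=
  S ⊆ Z ∧ ∀ v ∈ S, 5 ≤ Dq G X S v + (crW G.Adj X Z v).card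

/-- `Λ` is a region: it may be labelled after `Z \ Λ` -/
structure Region (G : SimpleGraph V) (X : V → Prop) (Z Lam : Finset V) : Prop where
  sub : Lam ⊆ Z
  ne : Lam.Nonempty
  inv : InvZ G X (Z \ Lam)
  ext : ∀ (E : V → Prop) (f : V → ℕ), StG G X (fun v => v ∈ Z \ Lam) E f →
    ∃ (E' : V → Prop) (f' : V → ℕ), StG G X (fun v => v ∈ Z) E' f'

theorem stuckZ_stuck {Z S : Finset V} :
    StuckZ G X Z S ↔ Stuck G X Z (fun _ => ∅) S := by
  unfold StuckZ Stuck
  simp

/-- the induction -/
theorem stack_ind (hX : NoMono G X) (hcub : ∀ v, (univ.filter fun b => G.Adj v b).card = 3)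
    (hst : ∀ v, StarAt G X v)
    (hreg : ∀ Z S : Finset V, InvZ G X Z → StuckZ G X Z S → ¬ Clean G X S →
      ∃ Lam, Region G X Z Lam) (n : ℕ) :
    ∀ Z : Finset V, Z.card = n → InvZ G X Z →
      ∃ (E : V → Prop) (f : V → ℕ), StG G X (fun v => v ∈ Z) E f := by
  induction n using Nat.strong_induction_on with
  | _ n ih =>
    intro Z hn hI
    by_cases hall : ∀ S, StuckZ G X Z S → Clean G X S
    · obtain ⟨f, hf, _⟩ := label_W hX hcub Z (fun _ => ∅) (fun v _ => hst v)
        (fun v _ => by
          have h1 := crW_card_le (G := G) (X := X) (W := Z) v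
          have h2 := cr_bounds hX hcub v
          simp only [Finset.card_empty]
          omega)
        (fun S hS => ⟨fun _ _ => rfl, hall S (stuckZ_stuck.mpr hS)⟩)
      exact ⟨fun _ => False, f, St.start hf⟩
    · push Not at hall
      obtain ⟨S, hS, hcl⟩ := hall
      obtain ⟨Lam, hL⟩ := hreg Z S hI hS hcl
      have hlt : (Z \ Lam).card < n := by
        rw [← hn]
        apply Finset.card_lt_card
        rw [Finset.ssubset_iff_of_subset Finset.sdiff_subset]
        obtain ⟨v, hv⟩ := hL.ne
        exact ⟨v, hL.sub hv, by simp [hv]⟩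
      obtain ⟨E, f, hf⟩ := ih _ hlt (Z \ Lam) rfl hL.inv
      exact hL.ext E f hf

/-- **Main composition.** -/
theorem stack_main (hcub : ∀ v, (univ.filter fun b => G.Adj v b).card = 3) (hW : World G X)
    (hreg : ∀ Z S : Finset V, InvZ G X Z → StuckZ G X Z S → ¬ Clean G X S →
      ∃ Lam, Region G X Z Lam) :
    ∃ f : V → ℕ, (∀ v, f v ≤ 9) ∧ (∀ u v, G.Adj u v → 2 ≤ |(f u : ℤ) - (f v : ℤ)|) ∧
      (∀ u v w, u ≠ v → G.Adj u w → G.Adj w v → f u ≠ f v) := by
  have hdeg : ∀ v, (univ.filter fun b => G.Adj v b).card ≤ 3 := fun v => (hcub v).le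
  have hX := hW.noMono
  set Z : Finset V := univ.filter fun v => ∀ c : Fin 5 → V, Cyc G X c → ∀ i, c i ≠ v with hZ
  have memZ : ∀ v, v ∈ Z ↔ ∀ c : Fin 5 → V, Cyc G X c → ∀ i, c i ≠ v := by
    intro v; simp [hZ]
  have hI : InvZ G X Z := by
    refine ⟨?_, ?_, ?_⟩
    · intro c hc i hi
      exact (memZ _).mp hi c hc.cyc i rfl
    · intro w hw a b ha _ haZ _
      exfalso
      rw [memZ] at hw
      push Not at hw
      obtain ⟨c, hc, i, rfl⟩ := hw
      rcases (nice_of_world hdeg hW hc).own i a ha.1 ha.2.symm with h | h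
      · exact (memZ a).mp haZ c hc _ h.symm
      · exact (memZ a).mp haZ c hc _ h.symm
    · intro y hy h2
      exfalso
      rw [memZ] at hy
      push Not at hy
      obtain ⟨c, hc, i, rfl⟩ := hy
      have h1 := (cc_two hX hcub).mp h2
      have h3 := cr_ow (X := X) hcub (c i)
      have h4 : ({c (i + 1), c (i + 4)} : Finset V) ⊆ ow G X (c i) := by
        intro z hz
        rw [Finset.mem_insert, Finset.mem_singleton] at hz
        rcases hz with rfl | rfl
        · exact mem_ow.mpr ⟨hc.adj i, hc.side2 _ _⟩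
        · exact mem_ow.mpr ⟨hc.adj' i, hc.side2 _ _⟩
      have h5 := Finset.card_le_card h4
      rw [Finset.card_pair (fun h => Pool.Agent.helper40.L9.f5b i (hc.inj h))] at h5
      omega
  obtain ⟨E, f, hf⟩ := stack_ind hX hcub hW.star hreg _ Z rfl hI
  have hR : Rel G.Adj (qadj G X) (near G) X := relG
  have hInv : Pool.Agent.helper40.L9.Inv G X (Cyc G X) (fun v => v ∈ Z) f := by
    refine ⟨?_, ?_, ?_, ?_, ?_, ?_⟩
    · intro v hv
      rw [memZ] at hv
      push Not at hv
      obtain ⟨c, hc, i, rfl⟩ := hv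
      refine ⟨fun j => c (j + i), ⟨?_, ?_, ?_⟩, by simp⟩
      · intro a b h
        exact add_right_cancel (hc.inj h)
      · intro j
        have := hc.adj (j + i)
        have e := Pool.Agent.helper40.L9.f5e j i
        rwa [e] at this
      · intro j
        exact hc.side2 _ _
    · intro c hc i j h
      exact absurd rfl ((memZ _).mp h c hc i)
    · intro v hv
      by_cases he : E v
      · exact hf.le v he
      · exact hf.par.le v ⟨hv, he⟩
    · intro u v hu hv huv
      by_cases heu : E u
      · exact hf.adj u v heu huv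
      · by_cases hev : E v
        · exact (hf.adj v u hev huv.symm).symm
        · have pu := hf.par.par u ⟨hu, heu⟩
          have pv := hf.par.par v ⟨hv, hev⟩
          by_cases hs : X u ↔ X v
          · have hq : f u ≠ f v := hf.par.q u v ⟨hu, heu⟩ ⟨hv, hev⟩ ⟨hs, huv.ne, Or.inl huv⟩
            have h6 : Even (f u) ↔ Even (f v) := pu.symm.trans (hs.trans pv)
            rw [Nat.even_iff, Nat.even_iff] at h6
            omega
          · have c1 := hf.par.cross u v ⟨hu, heu⟩ ⟨hv, hev⟩ huv hs
            have c2 := hf.par.cross v u ⟨hv, hev⟩ ⟨hu, heu⟩ huv.symm (fun h => hs h.symm)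
            have h6 : ¬ (Even (f u) ↔ Even (f v)) := fun h => hs (pu.trans (h.trans pv.symm))
            rw [Nat.even_iff, Nat.even_iff] at h6
            omega
    · intro u v w hu hv huv h1 h2
      have hN : near G u v := ⟨huv, Or.inr ⟨w, h1, h2⟩⟩
      by_cases heu : E u
      · exact hf.ne u v heu hN
      · by_cases hev : E v
        · exact (hf.ne v u hev (near_symm hN)).symm
        · have pu := hf.par.par u ⟨hu, heu⟩
          have pv := hf.par.par v ⟨hv, hev⟩
          by_cases hs : X u ↔ X v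
          · exact hf.par.q u v ⟨hu, heu⟩ ⟨hv, hev⟩ ⟨hs, huv, Or.inr ⟨w, h1, h2⟩⟩
          · intro he
            exact hs (pu.trans (by rw [he]; exact pv.symm))
    · intro v w hv hvw hw
      have hev : ¬ E v := fun he => hw (hf.inv v w he ⟨hvw.ne, Or.inl hvw⟩)
      refine ⟨hf.par.par v ⟨hv, hev⟩, fun u hu huv hs => ?_⟩
      have heu : ¬ E u := by
        intro he
        refine hw (hf.inv u w he ⟨?_, Or.inr ⟨v, huv.symm, hvw⟩⟩)
        rintro rfl
        exact hw hu
      exact hf.par.par u ⟨hu, heu⟩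
  obtain ⟨f', hf'⟩ := finish hdeg (fun c hc => nice_of_world hdeg hW hc) _ _ f rfl hInv
  exact ⟨f', fun v => hf'.le v trivial,
    fun u v h => Pool.Agent.helper40.L9.abs_iff.mpr (hf'.far u v trivial trivial h),
    fun u v w h1 h2 h3 => hf'.near u v w trivial trivial h1 h2 h3⟩

end Helper33.L9
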