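import Pool.Agent.helper33.L9.Stack
import Pool.Agent.helper33.L9.E13

/-!
# The stack order for cuts with roots

`D`: the roots (all neighbours on the own side), `NM` at all other vertices, `Q` a property of the
set `Z` which is preserved by the regions.  Caps: `4` on `D`, `cc` elsewhere.  If every largest
stuck set `S ⊆ Z` without the Alon-Tarsi property gives a region, there is a labelling.
-/

set_option linter.unusedSimpArgs false
set_option linter.unusedSectionVars false

namespace Helper33.Off

open Finset Classical Helper42.L9 Helper33.L9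
open Helper33.L9 (near)
open Pool.Agent.helper40.L9 (ParOK Cyc Nice finish)
open Pool.Agent.helper58.L9 (St Rel)

variable {V : Type*} [Fintype V] {G : SimpleGraph V} {X : V → Prop} {D : V → Prop}
  {Q : Finset V → Prop}

/-- **Peeling to the largest core**: a vertex outside of the core has few edges into it. -/
theorem at_of_max {W' : Type*} {R : W' → W' → Prop} (hs : ∀ u v, R u v → R v u)
    (hi : ∀ v, ¬ R v v) (cap : W' → ℕ) (W0 : Finset W')
    (h : ∀ S ⊆ W0, (∀ v ∈ S, cap v < DR R S v) → (∀ v ∈ W0, v ∉ S → DR R S v ≤ cap v) →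
      AT (QR R S).val cap) : AT (QR R W0).val cap := by
  have key : ∀ (n : ℕ) (W : Finset W'), W.card = n → W ⊆ W0 →
      (∀ v ∈ W0, v ∉ W → DR R W v ≤ cap v) → AT (QR R W).val cap := by
    intro n
    induction n with
    | zero =>
      intro W hn hW hcl
      refine h W hW ?_ hcl
      rw [Finset.card_eq_zero] at hn
      subst hn
      intro v hv
      simp at hv
    | succ n ih =>
      intro W hn hW0 hcl
      by_cases hW : ∀ v ∈ W, cap v < DR R W v
      · exact h W hW0 hW hcl
      · push Not at hW
        obtain ⟨v, hv, hle⟩ := hW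
        refine AT.peel v _ _ (fun e he => QR_loopless hs hi e he)
          (by rw [dg_QR hs hv]; exact hle) ?_
        rw [outt_QR hs]
        have hmono : ∀ u, DR R (W \ {v}) u ≤ DR R W u := by
          intro u
          exact Finset.card_le_card (Finset.filter_subset_filter _ Finset.sdiff_subset)
        refine ih _ ?_ (Finset.sdiff_subset.trans hW0) ?_
        · rw [Finset.card_sdiff_of_subset (by simpa using hv)]
          simp [hn]
        · intro u hu hun
          by_cases huv : u = v
          · subst huv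
            exact (hmono u).trans hle
          · refine (hmono u).trans (hcl u hu ?_)
            intro huW
            exact hun (Finset.mem_sdiff.mpr ⟨huW, by simpa using huv⟩)
  exact key _ W0 rfl (Finset.Subset.refl _) (fun v h1 h2 => absurd h1 h2)

/-- `S` is the largest stuck set of `Z` -/
def StuckMax (G : SimpleGraph V) (X : V → Prop) (Z S : Finset V) : Prop :=
  StuckZ G X Z S ∧ ∀ v ∈ Z, v ∉ S → Dq G X S v + (crW G.Adj X Z v).card ≤ 4

/-- the caps: four at the roots -/
noncomputable def c3 (G : SimpleGraph V) (X D : V → Prop) (v : V) : ℕ :=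
  if D v then 4 else cc G X v

theorem label_X (hcub : ∀ v, (univ.filter fun b => G.Adj v b).card = 3)
    (hD : ∀ v, D v → cr G X v = ∅) (hNM : ∀ w, ¬ D w → NM G X w)
    (W : Finset V) (hS : ∀ S, StuckMax G X W S → AT (QE G X S).val (c3 G X D)) :
    ∃ f : V → ℕ, ParOK G.Adj (qadj G X) X (fun v => v ∈ W) f := by
  have hcr : ∀ v, (cr G X v).card ≤ 2 := by
    intro v
    by_cases h : D v
    · rw [hD v h]; simp
    · exact (cr_bounds hcub v (hNM v h)).2
  set cap : V → ℕ := fun v => 4 - (crW G.Adj X W v).card - (∅ : Finset ℕ).card with hcap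
  have hat : AT (QR (qadj G X) W).val cap := by
      refine at_of_max (fun u v h => qadj_symm h) (fun v h => qadj_ne h rfl) cap W ?_
      intro S hSW hcore hmax
      have hstuck0 : StuckZ G X W S := by
        refine ⟨hSW, fun v hv => ?_⟩
        have h1 := hcore v hv
        have h2 := crW_card_le (G := G) (X := X) (W := W) v
        have h4 := hcr v
        simp only [hcap, Finset.card_empty] at h1
        have h3 : DR (qadj G X) S v = Dq G X S v := rfl
        rw [h3] at h1
        omega
      have hstuck : StuckMax G X W S := by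
        refine ⟨hstuck0, fun v hv hvS => ?_⟩
        have h1 := hmax v hv hvS
        have h2 := crW_card_le (G := G) (X := X) (W := W) v
        have h4 := hcr v
        simp only [hcap, Finset.card_empty] at h1
        have h3 : DR (qadj G X) S v = Dq G X S v := rfl
        rw [h3] at h1
        omega
      refine at_mono_on (hS S hstuck) ?_
      intro v hv
      have h5 := crW_card_le (G := G) (X := X) (W := W) v
      simp only [hcap, Finset.card_empty]
      unfold c3
      split_ifs with h6
      · rw [hD v h6] at h5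
        simp only [Finset.card_empty, Nat.le_zero_eq] at h5
        omega
      · have h7 := cr_bounds hcub v (hNM v h6)
        unfold cc
        split_ifs with h8 <;> omega
  obtain ⟨f, hf, _⟩ := label_of_at (X := X) (A := G.Adj) (Q := qadj G X) (fun u v h => h.symm)
    (fun u v h => qadj_symm h) W (fun _ => (∅ : Finset ℕ)) cap (by
      intro v hv
      have := crW_card_le (G := G) (X := X) (W := W) v
      have := hcr v
      simp only [hcap, Finset.card_empty]
      omega) hat
  exact ⟨f, hf⟩

/-- the induction -/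
theorem stack_indX (hcub : ∀ v, (univ.filter fun b => G.Adj v b).card = 3)
    (hD : ∀ v, D v → cr G X v = ∅) (hNM : ∀ w, ¬ D w → NM G X w)
    (hreg : ∀ Z S : Finset V, InvZ G X Z → Q Z → StuckMax G X Z S →
      ¬ AT (QE G X S).val (c3 G X D) → ∃ Lam, Region G X Z Lam ∧ Q (Z \ Lam)) (n : ℕ) :
    ∀ Z : Finset V, Z.card = n → InvZ G X Z → Q Z →
      ∃ (E : V → Prop) (f : V → ℕ), StG G X (fun v => v ∈ Z) E f := by
  induction n using Nat.strong_induction_on with
  | _ n ih =>
    intro Z hn hI hB
    by_cases hall : ∀ S, StuckMax G X Z S → AT (QE G X S).val (c3 G X D)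
    · obtain ⟨f, hf⟩ := label_X hcub hD hNM Z hall
      exact ⟨fun _ => False, f, St.start hf⟩
    · push Not at hall
      obtain ⟨S, hS, hcl⟩ := hall
      obtain ⟨Lam, hL, hLB⟩ := hreg Z S hI hB hS hcl
      have hlt : (Z \ Lam).card < n := by
        rw [← hn]
        apply Finset.card_lt_card
        rw [Finset.ssubset_iff_of_subset Finset.sdiff_subset]
        obtain ⟨v, hv⟩ := hL.ne
        exact ⟨v, hL.sub hv, by simp [hv]⟩
      obtain ⟨E, f, hf⟩ := ih _ hlt (Z \ Lam) rfl hL.inv hLB
      exact hL.ext E f hf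

/-- rotation of a nice cycle -/
theorem _root_.Pool.Agent.helper40.L9.Nice.shift {c : Fin 5 → V} (h : Nice G X c) (i : Fin 5) :
    Nice G X (fun j => c (j + i)) := by
  have hc := h.cyc
  refine ⟨⟨?_, ?_, ?_⟩, ?_, ?_⟩
  · intro a b h
    exact add_right_cancel (hc.inj h)
  · intro j
    have := hc.adj (j + i)
    have e := Pool.Agent.helper40.L9.f5e j i
    rwa [e] at this
  · intro j
    exact hc.side2 _ _
  · intro j u h1 h2
    have := h.own (j + i) u h1 h2
    have e1 : j + 1 + i = j + i + 1 := by abel
    have e2 : j + 4 + i = j + i + 4 := by abel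
    simp only [e1, e2]
    exact this
  · intro j u x h1 h2 h3 h4
    exact h.out (j + i) u x h1 h2 h3 h4

/-- **Main composition.** -/
theorem stack_mainX (hcub : ∀ v, (univ.filter fun b => G.Adj v b).card = 3)
    (hD : ∀ v, D v → cr G X v = ∅) (hNM : ∀ w, ¬ D w → NM G X w)
    (hQ : ∀ Z : Finset V, (∀ v, v ∈ Z ↔ ∀ c, Nice G X c → ∀ i, c i ≠ v) → Q Z)
    (hreg : ∀ Z S : Finset V, InvZ G X Z → Q Z → StuckMax G X Z S →
      ¬ AT (QE G X S).val (c3 G X D) → ∃ Lam, Region G X Z Lam ∧ Q (Z \ Lam)) :
    ∃ f : V → ℕ, (∀ v, f v ≤ 9) ∧ (∀ u v, G.Adj u v → 2 ≤ |(f u : ℤ) - (f v : ℤ)|) ∧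
      (∀ u v w, u ≠ v → G.Adj u w → G.Adj w v → f u ≠ f v) := by
  have hdeg : ∀ v, (univ.filter fun b => G.Adj v b).card ≤ 3 := fun v => (hcub v).le
  set Z : Finset V := univ.filter fun v => ∀ c : Fin 5 → V, Nice G X c → ∀ i, c i ≠ v with hZ
  have memZ : ∀ v, v ∈ Z ↔ ∀ c : Fin 5 → V, Nice G X c → ∀ i, c i ≠ v := by
    intro v; simp [hZ]
  have hI : InvZ G X Z := by
    refine ⟨?_, ?_, ?_⟩
    · intro c hc i hi
      exact (memZ _).mp hi c hc i rfl
    · intro w hw a b ha _ haZ _
      exfalso
      rw [memZ] at hw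
      push Not at hw
      obtain ⟨c, hc, i, rfl⟩ := hw
      rcases hc.own i a ha.1 ha.2.symm with h | h
      · exact (memZ a).mp haZ c hc _ h.symm
      · exact (memZ a).mp haZ c hc _ h.symm
    · intro y hy h2
      exfalso
      rw [memZ] at hy
      push Not at hy
      obtain ⟨c, hc', i, rfl⟩ := hy
      have hc := hc'.cyc
      have h1 := cc_two.mp h2
      have h3 := cr_ow (X := X) hcub (c i)
      have h4 : ({c (i + 1), c (i + 4)} : Finset V) ⊆ ow G X (c i) := by
        intro z hz
        rw [Finset.mem_insert, Finset.mem_singleton] at hz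
        rcases hz with rfl | rfl
        · exact mem_ow.mpr ⟨hc.adj i, hc.side2 _ _⟩
        · exact mem_ow.mpr ⟨hc.adj' i, hc.side2 _ _⟩
      have h5 := Finset.card_le_card h4
      rw [Finset.card_pair (fun h => Pool.Agent.helper40.L9.f5b i (hc.inj h))] at h5
      omega
  obtain ⟨E, f, hf⟩ := stack_indX hcub hD hNM hreg _ Z rfl hI (hQ Z memZ)
  have hInv : Pool.Agent.helper40.L9.Inv G X (Nice G X) (fun v => v ∈ Z) f := by
    refine ⟨?_, ?_, ?_, ?_, ?_, ?_⟩
    · intro v hv
      rw [memZ] at hv
      push Not at hv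
      obtain ⟨c, hn, i, rfl⟩ := hv
      exact ⟨fun j => c (j + i), hn.shift i, by simp⟩
    · intro c hc i j h
      exact absurd rfl ((memZ _).mp h c hc i)
    · intro v hv
      by_cases he : E v
      · exact hf.le v he
      · exact hf.par.le v ⟨hv, he⟩
    · intro u v hu hv huv
      by_cases heu : E u
      · exact hf.adj u v heu huv
      · by_cases hev : E v
        · exact (hf.adj v u hev huv.symm).symm
        · have pu := hf.par.par u ⟨hu, heu⟩
          have pv := hf.par.par v ⟨hv, hev⟩
          by_cases hs : X u ↔ X v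
          · have hq : f u ≠ f v := hf.par.q u v ⟨hu, heu⟩ ⟨hv, hev⟩ ⟨hs, huv.ne, Or.inl huv⟩
            have h6 : Even (f u) ↔ Even (f v) := pu.symm.trans (hs.trans pv)
            rw [Nat.even_iff, Nat.even_iff] at h6
            omega
          · have c1 := hf.par.cross u v ⟨hu, heu⟩ ⟨hv, hev⟩ huv hs
            have c2 := hf.par.cross v u ⟨hv, hev⟩ ⟨hu, heu⟩ huv.symm (fun h => hs h.symm)
            have h6 : ¬ (Even (f u) ↔ Even (f v)) := fun h => hs (pu.trans (h.trans pv.symm))
            rw [Nat.even_iff, Nat.even_iff] at h6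
            omega
    · intro u v w hu hv huv h1 h2
      have hN : Helper33.L9.near G u v := ⟨huv, Or.inr ⟨w, h1, h2⟩⟩
      by_cases heu : E u
      · exact hf.ne u v heu hN
      · by_cases hev : E v
        · exact (hf.ne v u hev (near_symm hN)).symm
        · have pu := hf.par.par u ⟨hu, heu⟩
          have pv := hf.par.par v ⟨hv, hev⟩
          by_cases hs : X u ↔ X v
          · exact hf.par.q u v ⟨hu, heu⟩ ⟨hv, hev⟩ ⟨hs, huv, Or.inr ⟨w, h1, h2⟩⟩
          · intro he
            exact hs (pu.trans (by rw [he]; exact pv.symm))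
    · intro v w hv hvw hw
      have hev : ¬ E v := fun he => hw (hf.inv v w he ⟨hvw.ne, Or.inl hvw⟩)
      refine ⟨hf.par.par v ⟨hv, hev⟩, fun u hu huv hs => ?_⟩
      have heu : ¬ E u := by
        intro he
        refine hw (hf.inv u w he ⟨?_, Or.inr ⟨v, huv.symm, hvw⟩⟩)
        rintro rfl
        exact hw hu
      exact hf.par.par u ⟨hu, heu⟩
  obtain ⟨f', hf'⟩ := finish hdeg (fun c hc => hc) _ _ f rfl hInv
  exact ⟨f', fun v => hf'.le v trivial,
    fun u v h => Pool.Agent.helper40.L9.abs_iff.mpr (hf'.far u v trivial trivial h),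
    fun u v w h1 h2 h3 => hf'.near u v w trivial trivial h1 h2 h3⟩

/-- an own five-cycle of vertices with `NM` and `StarAt` is nice -/
theorem nice_of (hdeg : ∀ v, (univ.filter fun b => G.Adj v b).card ≤ 3)
    {c : Fin 5 → V} (hc : Cyc G X c) (hnm : ∀ i, NM G X (c i)) (hst : ∀ i, StarAt G X (c i)) :
    Nice G X c := by
  have hne : ∀ i : Fin 5, c (i + 1) ≠ c (i + 4) := by
    intro i h
    exact Pool.Agent.helper40.L9.f5b i (hc.inj h)
  have hown : ∀ i u, G.Adj (c i) u → (X u ↔ X (c i)) → u = c (i + 1) ∨ u = c (i + 4) := by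
    intro i u h1 h2
    by_contra hcon
    rw [not_or] at hcon
    refine hnm i (c (i + 1)) (c (i + 4)) u (hc.adj i) (hc.adj' i) h1 (hne i)
      (Ne.symm hcon.1) (Ne.symm hcon.2) ⟨hc.side2 _ _, ?_⟩
    have := hc.side2 (i + 1) i
    tauto
  refine ⟨hc, hown, ?_⟩
  intro i u x h1 h2 h3 h4
  by_contra hx
  have hx' : X x ↔ X (c i) := by tauto
  have hcr : (cr G X (c i)).card ≤ 1 := by
    rw [Finset.card_le_one]
    intro a ha b hb
    rw [mem_cr] at ha hb
    by_contra hab
    refine no_four hdeg (hc.adj i) (hc.adj' i) ha.1 hb.1 (hne i) ?_ ?_ ?_ ?_ hab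
    · rintro rfl
      exact ha.2 (hc.side2 _ _)
    · rintro rfl
      exact hb.2 (hc.side2 _ _)
    · rintro rfl
      exact ha.2 (hc.side2 _ _)
    · rintro rfl
      exact hb.2 (hc.side2 _ _)
  have how : 2 ≤ (ow G X (c i)).card := by
    have hsub : ({c (i + 1), c (i + 4)} : Finset V) ⊆ ow G X (c i) := by
      intro y hy
      simp only [Finset.mem_insert, Finset.mem_singleton] at hy
      rw [mem_ow]
      rcases hy with rfl | rfl
      · exact ⟨hc.adj i, hc.side2 _ _⟩
      · exact ⟨hc.adj' i, hc.side2 _ _⟩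
    have := Finset.card_le_card hsub
    rwa [Finset.card_pair (hne i)] at this
  have hstar := hst i (by
    intro w hw
    rw [mem_pt]
    refine ⟨hw, ?_⟩
    by_cases hXw : X w ↔ X (c i)
    · rcases hown i w hw hXw with rfl | rfl
      · refine ⟨c (i + 1 + 1), ?_, hc.adj _, hc.side2 _ _⟩
        intro h
        exact Pool.Agent.helper40.L9.f5c i (hc.inj h)
      · refine ⟨c (i + 4 + 4), ?_, hc.adj' _, hc.side2 _ _⟩
        intro h
        exact Pool.Agent.helper40.L9.f5d i (hc.inj h)
    · have hwu : w = u := by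
        have := Finset.card_le_one.mp hcr w (mem_cr.mpr ⟨hw, hXw⟩) u (mem_cr.mpr ⟨h1, h2⟩)
        exact this
      subst hwu
      exact ⟨x, h4, h3, hx'⟩)
  omega

end Helper33.Off
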