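import Pool.Agent.helper33.L9.Minus

/-!
# T3 from its parts

Labelling of a cubic graph with a maximal state `StA G X D`.
-/

set_option linter.unusedSimpArgs false
set_option linter.unusedSectionVars false

namespace Helper33.Off

open Finset Classical Helper42.L9 Helper33.L9 Helper97.L9
open Helper33.Joint (U5T WFr stuckZ_mono)
open Pool.Agent.helper40.L9 (Cyc Nice)

variable {V : Type*} [Fintype V] {G : SimpleGraph V} {X D N : V → Prop} {Z S S' : Finset V}

/-- admissible `U_5`'s -/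
def OkD (G : SimpleGraph V) (X D : V → Prop) (Z S : Finset V) (t : U5T V) : Prop :=
  StuckZ G X Z S ∧ t.Is G X Z S ∧ t.z1 ≠ t.z5 ∧ ∀ x, t.lam x → Far G D x

/-- the extension theorem of the joint stage for a state with roots -/
def JExtD (G : SimpleGraph V) (X D : V → Prop) : Prop :=
  ∀ Z S t, InvZ G X Z → OkD G X D Z S t → t.Ext G X

/-- recognition of the conflicts of ordinary vertices -/
def OffEnet (G : SimpleGraph V) (X D : V → Prop) : Prop :=
  ∀ (Z S S' : Finset V) (N : V → Prop), InvZ G X Z → StuckZ G X Z S → S' ⊆ S →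
    (∀ v, N v → Far G D v) → (∀ u v, ownR G X u v → N u → N v) → NoLeg G X D N →
    NoLegU G X D N Z S S' → (∀ Lam, Region G X Z Lam → (∀ v ∈ Lam, Far G D v) → False) →
    (∀ t : U5T V, t.Is G X Z S → t.z1 ≠ t.z5 → (∀ x, t.lam x → Far G D x) → False) →
    ∀ c' : V → ℕ, (∀ v, N v → cc G X v ≤ c' v) →
    ENetX (ownN G X N) (cN G X N) c' (QE G X S').val

/-- the twins -/
def Twins (G : SimpleGraph V) (X D : V → Prop) : Prop :=
  ∀ (Z S S' : Finset V) (N : V → Prop), InvZ G X Z → StuckZ G X Z S → S' ⊆ S →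
    MinN G X (c3 G X D) S' → (∀ v, N v → Far G D v) → (∀ u v, ownR G X u v → N u → N v) →
    FullN G X N → NoLegU G X D N Z S S'

/-- the side of the roots -/
def AtPlus (G : SimpleGraph V) (X D : V → Prop) : Prop :=
  ∀ (Z S S' : Finset V), StuckZ G X Z S → S' ⊆ S → MinN G X (c3 G X D) S' →
    (∀ v ∈ S', ∃ d, D d ∧ (X v ↔ X d)) →
    (∀ N : V → Prop, (∀ v, N v → Far G D v ∧ ∃ d, D d ∧ (X v ↔ X d)) →
      (∀ u v, ownR G X u v → N u → N v) →
      ENetX (ownN G X N) (cN G X N) (c3 G X D) (QE G X S').val) → False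

section

variable (hcub : ∀ v, (univ.filter fun b => G.Adj v b).card = 3) (h : StA G X D)

include hcub h

theorem OkD.loc {t : U5T V} (hok : OkD G X D Z S t) : t.Loc G X := by
  obtain ⟨hS, hU, _, hF⟩ := hok
  have fr : ∀ {x}, t.lam x → Fr G X x := fun hx => h.fr_of_far (hF _ hx)
  refine ⟨fr (Or.inl rfl), fr (Or.inr (Or.inl rfl)), fr (Or.inr (Or.inr (Or.inl rfl))),
    fr (Or.inr (Or.inr (Or.inr (Or.inl rfl)))),
    fr (Or.inr (Or.inr (Or.inr (Or.inr (Or.inl rfl))))), ?_, ?_⟩
  · intro i hi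
    have h1 := hU.A.unit i hi
    have hy : t.yA i ∈ cr G X (t.uA i) := by rw [hU.A.cu i hi]; simp
    have hy' : t.yA (i + 1) ∈ cr G X (t.vA i) := by rw [hU.A.cv i hi]; simp
    have h2 := Helper33.Joint.lam_uA (t := t) hi
    exact ⟨h.fr_of_far (h.far_of hcub h1.cp h1.pu hy), fr h2.1, fr h2.2,
      h.fr_of_far (h.far_of hcub h1.cq (ownR_symm h1.vq) hy')⟩
  · intro i hi
    have h1 := hU.B.unit i hi
    have hy : t.yB i ∈ cr G X (t.uB i) := by rw [hU.B.cu i hi]; simp
    have hy' : t.yB (i + 1) ∈ cr G X (t.vB i) := by rw [hU.B.cv i hi]; simp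
    have h2 := Helper33.Joint.lam_uB (t := t) hi
    exact ⟨h.fr_of_far (h.far_of hcub h1.cp h1.pu hy), fr h2.1, fr h2.2,
      h.fr_of_far (h.far_of hcub h1.cq (ownR_symm h1.vq) hy')⟩

/-- legs do not lie on nice cycles -/
theorem nice_far {c : Fin 5 → V} (hc : Nice G X c) (i : Fin 5) : Far G D (c i) := by
  have h1 := fun i => h.nice_root hcub hc i
  exact ⟨h1 i, fun d hd => h.cyc_leg hc.cyc h1 i hd⟩

/-- **T3 from its parts.** -/
theorem t3_of_parts (hJ : JExtD G X D) (hE : OffEnet G X D) (hT : Twins G X D)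
    (hP : AtPlus G X D) :
    ∃ f : V → ℕ, (∀ v, f v ≤ 9) ∧ (∀ u v, G.Adj u v → 2 ≤ |(f u : ℤ) - (f v : ℤ)|) ∧
      (∀ u v w, u ≠ v → G.Adj u w → G.Adj w v → f u ≠ f v) := by
  refine Helper33.Joint.stack_joint (D := D) hcub (fun v hv => h.cr_root hv)
    (fun w hw => h.nm w hw) (OkD G X D) ?_ ?_ hJ (fun Z => ∀ v, ¬ Far G D v → v ∈ Z) ?_ ?_ ?_
  · intro Z S t hok
    exact ⟨hok.1, hok.2.1, hok.2.2.1, hok.loc hcub h⟩
  · intro Z' Z S t hZ hok
    exact ⟨stuckZ_mono hZ hok.1, hok.2.1.mono hZ, hok.2.2⟩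
  · intro Z S t hI hq hok v hv
    refine Finset.mem_sdiff.mpr ⟨hq v hv, fun hl => hv (hok.2.2.2 v (U5T.mem_Lam.mp hl))⟩
  · intro Z hZ v hv
    rw [hZ]
    rintro c hc i rfl
    exact hv (nice_far hcub h hc i)
  intro Z S hI hq hno hSm hat
  have hS := hSm.1
  by_contra hcon
  have hreg : ∀ Lam, Region G X Z Lam → (∀ v ∈ Lam, Far G D v) → False := by
    intro Lam hL hF
    refine hcon ⟨Lam, hL, fun v hv => Finset.mem_sdiff.mpr ⟨hq v hv, fun hl => hv (hF v hl)⟩⟩
  have hok : ∀ t : U5T V, t.Is G X Z S → t.z1 ≠ t.z5 → (∀ x, t.lam x → Far G D x) → False :=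
    fun t h1 h2 h3 => hno S t ⟨hS, h1, h2, h3⟩
  obtain ⟨S', hSS, hmin⟩ := exists_minN hat
  obtain ⟨x, w, _, hxw⟩ := h.two
  have hx : D x := (hxw x).mpr (Or.inl rfl)
  have hc' : ∀ {N : V → Prop}, (∀ v, N v → Far G D v) → ∀ v, N v → cc G X v ≤ c3 G X D v := by
    intro N hN v hv
    unfold c3
    rw [if_neg (hN v hv).1]
  -- the side without roots
  have minus : ∀ s : Prop, (∀ v ∈ S', (X v ↔ s)) → ¬ (X x ↔ s) → False := by
    intro s hs1 hs2
    have hs : ∀ d, D d → ¬ (X d ↔ s) := by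
      intro d hd he
      exact hs2 ((h.side hx hd).trans he)
    obtain ⟨k, m, z, b, hF⟩ := exists_fam G X s
    have hFar : ∀ v, NB X s z b v → Far G D v := fun v hv => far_side h hs hv.1
    have hcl : ∀ u v, ownR G X u v → NB X s z b u → NB X s z b v :=
      fun u v huv hu => hF.closed hcub h hs huv hu
    exact hmin.1 (hF.at hcub h hs hs1 (hE Z S S' _ hI hS hSS hFar hcl (hF.noLeg hcub h hs)
      (hT Z S S' _ hI hS hSS hmin hFar hcl (hF.full hcub h hs)) hreg hok _ (hc' hFar)))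
  -- the side of the roots
  have plus : (∀ v ∈ S', (X v ↔ X x)) → False := by
    intro hs1
    refine hP Z S S' hS hSS hmin (fun v hv => ⟨x, hx, hs1 v hv⟩) ?_
    intro N hN hcl
    have hFar : ∀ v, N v → Far G D v := fun v hv => (hN v hv).1
    -- legs are not links
    have hleg : ∀ {c a b : V}, ¬ Far G D c → cr G X c = {a, b} → ¬ N a := by
      intro c a b hc hcr na
      have ha : a ∈ cr G X c := by rw [hcr]; simp
      have h1 : ¬ D c := h.not_root ha
      obtain ⟨d', hd', hs'⟩ := (hN a na).2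
      refine hc ⟨h1, fun d hd hdc => ?_⟩
      have h2 := h.k0 d c hd hdc
      have h3 := (mem_cr.mp ha).2
      have h4 := h.side hd hd'
      exact h3 (hs'.trans (h4.symm.trans h2.symm))
    refine hE Z S S' N hI hS hSS hFar hcl ⟨?_, ?_⟩ ?_ hreg hok _ (hc' hFar)
    · intro c a b y hc hcr _ ha _
      exact hleg hc hcr ha.2.2.1.2.1
    · intro c a b y y' hc hcr _ _ ha _
      exact hleg hc hcr ha.2.2.1.2.1
    · intro t hU n1 n2 n3 n4 n5 nA nB _ _ _ _
      constructor
      · intro hk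
        by_contra hc
        have := hU.A.link 0 (by omega)
        simp only [if_true] at this
        exact hleg hc this n4
      · intro hk
        by_contra hc
        have := hU.B.link 0 (by omega)
        simp only [if_true] at this
        exact hleg hc this n2
  rcases hmin.side with h1 | h1
  · by_cases hX : X x
    · exact plus fun v hv => iff_of_true (h1 v hv) hX
    · exact minus True (fun v hv => iff_of_true (h1 v hv) trivial) (fun h2 => hX (h2.mpr trivial))
  · by_cases hX : X x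
    · exact minus False (fun v hv => iff_of_false (h1 v hv) id) (fun h2 => h2.mp hX)
    · exact plus fun v hv => iff_of_false (h1 v hv) hX

end

end Helper33.Off
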