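import Pool.Agent.helper33.L9.SFacts

/-!
# Wires in graph terms

`Wire`: a chain of `k ≥ 0` own paths `p i, u i, v i, q i` (`P4`) joined by links `y 0, ..., y k`
(common cross neighbours), from `σ` to `τ`.  A chain `Lp` of the E-phase is a wire with `k ≥ 1`,
a port is a wire with `k = 0`.
-/

set_option linter.unusedSimpArgs false
set_option linter.unusedSectionVars false

namespace Helper33.L9

open Finset Classical Helper42.L9

variable {V : Type*}

/-- an alternating walk which starts outside of the middles is a path -/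
theorem walk_nodup (M L : V → V → Prop) (N : ℕ) (a : ℕ → V)
    (hMs : ∀ x y, M x y → M y x) (hLs : ∀ x y, L x y → L y x)
    (hM : ∀ n < N, ∀ x y, M (a n) x → M (a n) y → x = y)
    (hL : ∀ n < N, ∀ x y, L (a n) x → L (a n) y → x = y)
    (hMi : ∀ x, ¬ M x x) (hLi : ∀ x, ¬ L x x)
    (he : ∀ n, n + 1 < N → n % 2 = 0 → M (a n) (a (n + 1)))
    (ho : ∀ n, n + 1 < N → n % 2 = 1 → L (a n) (a (n + 1)))
    (σ : V) (hσ : 0 < N → L (a 0) σ) (hσa : ∀ n < N, a n ≠ σ) :
    ∀ n < N, ∀ m < n, a m ≠ a n := by
  intro n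
  induction n using Nat.strong_induction_on with
  | _ n ih =>
    intro hn m hm heq
    -- all earlier ones are different
    have hdiff : ∀ i < n, ∀ j < n, a i = a j → i = j := by
      intro i hi j hj hij
      rcases lt_trichotomy i j with h | h | h
      · exact absurd hij (ih j hj (by omega) i h)
      · exact h
      · exact absurd hij.symm (ih i hi (by omega) j h)
    obtain ⟨n', rfl⟩ : ∃ n', n = n' + 1 := ⟨n - 1, by omega⟩
    rcases Nat.eq_zero_or_pos m with rfl | hmpos
    · rcases Nat.mod_two_eq_zero_or_one n' with hp | hp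
      · -- `a (n'+1)` is the mate of `a n'`
        have h1 := he n' hn hp
        by_cases hn0 : n' = 0
        · subst hn0
          rw [← heq] at h1
          exact hMi _ h1
        · have h2 := he 0 (by omega) rfl
          rw [← heq] at h1
          have h3 := hM 0 (by omega) _ _ (hMs _ _ h1) h2
          have h4 := hdiff n' (by omega) 1 (by omega) h3
          omega
      · have h1 := ho n' hn hp
        rw [← heq] at h1
        have h3 := hL 0 (by omega) _ _ (hLs _ _ h1) (hσ (by omega))
        exact hσa n' (by omega) h3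
    · obtain ⟨m', rfl⟩ : ∃ m', m = m' + 1 := ⟨m - 1, by omega⟩
      rcases Nat.mod_two_eq_zero_or_one n' with hp | hp
      · have h1 := he n' hn hp
        rcases Nat.mod_two_eq_zero_or_one m' with hq | hq
        · -- same kind
          have h2 := he m' (by omega) hq
          rw [heq] at h2
          have h3 := hM (n' + 1) hn _ _ (hMs _ _ h1) (hMs _ _ h2)
          have h4 := hdiff n' (by omega) m' (by omega) h3
          omega
        · -- `m' + 1` even, its mate is `m' + 2`
          by_cases hmn : m' + 1 = n'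
          · subst hmn
            rw [← heq] at h1
            exact hMi _ h1
          · have h2 := he (m' + 1) (by omega) (by omega)
            rw [heq] at h2
            have h3 := hM (n' + 1) hn _ _ (hMs _ _ h1) h2
            have h4 := hdiff n' (by omega) (m' + 1 + 1) (by omega) h3
            omega
      · have h1 := ho n' hn hp
        rcases Nat.mod_two_eq_zero_or_one m' with hq | hq
        · -- `m' + 1` odd, its link is `m' + 2`
          by_cases hmn : m' + 1 = n'
          · subst hmn
            rw [← heq] at h1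
            exact hLi _ h1
          · have h2 := ho (m' + 1) (by omega) (by omega)
            rw [heq] at h2
            have h3 := hL (n' + 1) hn _ _ (hLs _ _ h1) h2
            have h4 := hdiff n' (by omega) (m' + 1 + 1) (by omega) h3
            omega
        · have h2 := ho m' (by omega) hq
          rw [heq] at h2
          have h3 := hL (n' + 1) hn _ _ (hLs _ _ h1) (hLs _ _ h2)
          have h4 := hdiff n' (by omega) m' (by omega) h3
          omega

/-- two alternating walks with different ends are disjoint -/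
theorem walks_disjoint (M L : V → V → Prop) (N N' : ℕ) (a b : ℕ → V) (hN' : N' % 2 = 0)
    (hN : N % 2 = 0)
    (hMs : ∀ x y, M x y → M y x) (hLs : ∀ x y, L x y → L y x)
    (hM : ∀ n < N', ∀ x y, M (b n) x → M (b n) y → x = y)
    (hL : ∀ n < N', ∀ x y, L (b n) x → L (b n) y → x = y)
    (he : ∀ n, n + 1 < N → n % 2 = 0 → M (a n) (a (n + 1)))
    (ho : ∀ n, n + 1 < N → n % 2 = 1 → L (a n) (a (n + 1)))
    (he' : ∀ n, n + 1 < N' → n % 2 = 0 → M (b n) (b (n + 1)))
    (ho' : ∀ n, n + 1 < N' → n % 2 = 1 → L (b n) (b (n + 1)))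
    (σ σ' τ' : V) (hσ : 0 < N → L (a 0) σ) (hσ' : 0 < N' → L (b 0) σ')
    (hτ' : 0 < N' → L (b (N' - 1)) τ')
    (hbσ : ∀ n < N', b n ≠ σ) (haσ' : ∀ n < N, a n ≠ σ') (haτ' : ∀ n < N, a n ≠ τ')
    (h1 : σ ≠ σ') (h2 : σ ≠ τ') :
    ∀ n < N, ∀ m < N', a n ≠ b m := by
  -- the mate and the link of a vertex of `b`
  have mate : ∀ m < N', ∀ x, M (b m) x → ∃ j < N', x = b j := by
    intro m hm x hx
    rcases Nat.mod_two_eq_zero_or_one m with hp | hp
    · exact ⟨m + 1, by omega, hM m hm _ _ hx (he' m (by omega) hp)⟩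
    · obtain ⟨m', rfl⟩ : ∃ m', m = m' + 1 := ⟨m - 1, by omega⟩
      exact ⟨m', by omega, hM _ hm _ _ hx (hMs _ _ (he' m' hm (by omega)))⟩
  have link : ∀ m < N', ∀ x, L (b m) x → (∃ j < N', x = b j) ∨ x = σ' ∨ x = τ' := by
    intro m hm x hx
    rcases Nat.mod_two_eq_zero_or_one m with hp | hp
    · rcases Nat.eq_zero_or_pos m with rfl | hpos
      · exact Or.inr (Or.inl (hL 0 hm _ _ hx (hσ' hm)))
      · obtain ⟨m', rfl⟩ : ∃ m', m = m' + 1 := ⟨m - 1, by omega⟩
        exact Or.inl ⟨m', by omega, hL _ hm _ _ hx (hLs _ _ (ho' m' hm (by omega)))⟩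
    · by_cases hlast : m + 1 = N'
      · have : m = N' - 1 := by omega
        subst this
        exact Or.inr (Or.inr (hL _ hm _ _ hx (hτ' (by omega))))
      · exact Or.inl ⟨m + 1, by omega, hL m hm _ _ hx (ho' m (by omega) hp)⟩
  intro n
  induction n with
  | zero =>
    intro hn m hm heq
    have h3 := hσ hn
    rw [heq] at h3
    rcases link m hm _ h3 with ⟨j, hj, h4⟩ | h4 | h4
    · exact hbσ j hj h4.symm
    · exact h1 h4
    · exact h2 h4
  | succ n ih =>
    intro hn m hm heq
    rcases Nat.mod_two_eq_zero_or_one n with hp | hp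
    · have h3 := hMs _ _ (he n hn hp)
      rw [heq] at h3
      obtain ⟨j, hj, h4⟩ := mate m hm _ h3
      exact ih (by omega) j hj h4
    · have h3 := hLs _ _ (ho n hn hp)
      rw [heq] at h3
      rcases link m hm _ h3 with ⟨j, hj, h4⟩ | h4 | h4
      · exact ih (by omega) j hj h4
      · exact haσ' n (by omega) h4
      · exact haτ' n (by omega) h4

/-- the chain `Lp` as a sequence -/
theorem lp_chain {own : V → V → Prop} {c : V → ℕ} {M : Multiset (Sym2 V)} {t x : V}
    (h : Lp own c M t x) : ∃ (k : ℕ) (u v : ℕ → V), 0 < k ∧ (∀ i < k, Mid own c (u i) (v i)) ∧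
      Port own c M (u 0) t ∧ (∀ i, i + 1 < k → Port own c M (v i) (u (i + 1))) ∧
      Port own c M (v (k - 1)) x := by
  induction h with
  | @start u v x h1 h2 h3 =>
    exact ⟨1, fun _ => u, fun _ => v, by omega, fun _ _ => h1, h2, fun i hi => by omega, h3⟩
  | @cons u v x _ h2 h3 ih =>
    obtain ⟨k, u', v', hk, hmid, hport, hlink, hlast⟩ := ih
    refine ⟨k + 1, fun i => if i < k then u' i else u, fun i => if i < k then v' i else v,
      by omega, ?_, ?_, ?_, ?_⟩
    · intro i hi
      by_cases hik : i < k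
      · simp only [hik, if_true]
        exact hmid i hik
      · simp only [hik, if_false]
        exact h2
    · simp only [hk, if_true]
      exact hport
    · intro i hi
      have hik : i < k := by omega
      simp only [hik, if_true]
      by_cases hik' : i + 1 < k
      · simp only [hik', if_true]
        exact hlink i hik'
      · have : i = k - 1 := by omega
        subst this
        simp only [hik', if_false]
        exact hlast
    · have : ¬ (k + 1 - 1 < k) := by omega
      simp only [this, if_false]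
      exact h3

/-- an own path `p, u, v, q` of four vertices -/
structure P4 (G : SimpleGraph V) (X : V → Prop) [Fintype V] (p u v q : V) : Prop where
  pu : ownR G X p u
  uv : ownR G X u v
  vq : ownR G X v q
  cp : cc G X p = 2
  cu : cc G X u = 3
  cv : cc G X v = 3
  cq : cc G X q = 2
  pq : p ≠ q

variable [Fintype V] {G : SimpleGraph V} {X : V → Prop} {Z S : Finset V}

theorem P4.pv {p u v q : V} (h : P4 G X p u v q) : p ≠ v := by
  rintro rfl
  have h1 := h.cp
  have h2 := h.cv
  omega

theorem P4.uq {p u v q : V} (h : P4 G X p u v q) : u ≠ q := by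
  rintro rfl
  have h1 := h.cu
  have h2 := h.cq
  omega

/-- a wire of `k` units from `σ` to `τ` -/
structure Wire (G : SimpleGraph V) (X : V → Prop) (Z S : Finset V) (k : ℕ)
    (p u v q y : ℕ → V) (σ τ : V) : Prop where
  σS : σ ∈ S
  τS : τ ∈ S
  side : X τ ↔ X σ
  unit : ∀ i < k, P4 G X (p i) (u i) (v i) (q i)
  sides : ∀ i < k, X (u i) ↔ X σ
  mem : ∀ i < k, p i ∈ S ∧ u i ∈ S ∧ v i ∈ S ∧ q i ∈ S
  cu : ∀ i < k, cr G X (u i) = {y i}
  cv : ∀ i < k, cr G X (v i) = {y (i + 1)}
  link : ∀ i ≤ k, cr G X (y i) =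
    {if i = 0 then σ else v (i - 1), if i = k then τ else u i}
  lne : ∀ i ≤ k, (if i = 0 then σ else v (i - 1)) ≠ (if i = k then τ else u i)
  yZ : ∀ i ≤ k, y i ∈ Z
  y2 : ∀ i ≤ k, cc G X (y i) = 2
  nuu : ∀ i < k, ∀ j < k, u i = u j → i = j
  nvv : ∀ i < k, ∀ j < k, v i = v j → i = j
  nuv : ∀ i < k, ∀ j < k, u i ≠ v j
  nσ : ∀ i < k, u i ≠ σ ∧ v i ≠ σ
  nτ : ∀ i < k, u i ≠ τ ∧ v i ≠ τ
  nyy : ∀ i ≤ k, ∀ j ≤ k, y i = y j → i = j
  p0 : 0 < k → σ ≠ p 0 ∧ σ ≠ q 0
  pk : 0 < k → τ ≠ p (k - 1) ∧ τ ≠ q (k - 1)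

/-- `x` is no middle of a `P_4` -/
def NoMid (G : SimpleGraph V) (X : V → Prop) (x : V) : Prop :=
  ∀ b, ¬ Mid (ownR G X) (cc G X) x b

theorem NoMid_of_end {x : V} (h : cc G X x = 2) : NoMid G X x := by
  intro b hb
  have := hb.1
  omega

theorem Mid_symm {x y : V} (h : Mid (ownR G X) (cc G X) x y) :
    Mid (ownR G X) (cc G X) y x := by
  obtain ⟨h1, h2, h3, h4, h5⟩ := h
  exact ⟨h2, h1, ownR_symm h3, h5, h4⟩

section

variable (hX : NoMono G X) (hcub : ∀ v, (univ.filter fun b => G.Adj v b).card = 3)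

include hX hcub in
theorem Mid_unique {x y z : V} (h : Mid (ownR G X) (cc G X) x y)
    (h' : Mid (ownR G X) (cc G X) x z) : y = z := by
  obtain ⟨_, h2, h3, ⟨s, h4, h5⟩, _⟩ := h
  obtain ⟨_, k2, k3, _, _⟩ := h'
  rcases own_two hX h4 h3 k3 with h | h | h
  · subst h; omega
  · subst h; omega
  · exact h

/-- linked: a common cross neighbour -/
def Lk (G : SimpleGraph V) (X : V → Prop) (x y : V) : Prop :=
  x ≠ y ∧ ∃ z, z ∈ cr G X x ∧ z ∈ cr G X y

theorem Lk_symm {x y : V} (h : Lk G X x y) : Lk G X y x := by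
  obtain ⟨h1, z, h2, h3⟩ := h
  exact ⟨h1.symm, z, h3, h2⟩

include hX hcub in
theorem cr_two {y a b d : V} (ha : y ∈ cr G X a) (hb : y ∈ cr G X b) (hd : y ∈ cr G X d)
    (hab : a ≠ b) (had : a ≠ d) : b = d := by
  by_contra hbd
  have h3 : ({a, b, d} : Finset V) ⊆ cr G X y := by
    intro w hw
    rw [Finset.mem_insert, Finset.mem_insert, Finset.mem_singleton] at hw
    rcases hw with rfl | rfl | rfl
    · exact mem_crs.mp ha
    · exact mem_crs.mp hb
    · exact mem_crs.mp hd
  have h4 := Finset.card_le_card h3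
  have h5 : ({a, b, d} : Finset V).card = 3 := by
    rw [Finset.card_eq_three]
    exact ⟨a, b, d, hab, had, hbd, rfl⟩
  have h6 := cr_bounds hX hcub y
  omega

include hX hcub in
theorem Lk_unique {x y z : V} (h3 : cc G X x = 3) (h : Lk G X x y) (h' : Lk G X x z) :
    y = z := by
  obtain ⟨h1, w, h2, h4⟩ := h
  obtain ⟨k1, w', k2, k4⟩ := h'
  have := inner_cr_unique hX hcub h3 h2 k2
  subst this
  exact cr_two hX hcub h2 h4 k4 h1 k1

include hX hcub in
/-- a port is a wire of length zero -/
theorem wire_of_port (hI : InvZ G X Z) (h : StuckZ G X Z S) {σ τ : V}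
    (hP : Port (ownR G X) (cc G X) (QE G X S).val σ τ) (p u v q : ℕ → V) :
    ∃ y, Wire G X Z S 0 p u v q y σ τ := by
  obtain ⟨s, w, w', y, h1, h2, h3, h4, h5, h6, h7, h8, h9, h10, h11, h12, h13, h14, h15, h16,
    h17, h18, h19, h20⟩ := port_graph hX hcub hP
  have hyσ : y ∈ cr G X σ := mem_cr.mpr ⟨h9, h11⟩
  have hyτ : y ∈ cr G X τ := mem_cr.mpr ⟨h10.symm, fun hh => h11 (hh.trans h12)⟩
  obtain ⟨k1, k2, k3⟩ := hI.link hX hcub (h.1 h16) (h.1 h17) h13.symm hyσ hyτ
  refine ⟨fun _ => y, ⟨h16, h17, h12, fun i hi => by omega, fun i hi => by omega,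
    fun i hi => by omega, fun i hi => by omega, fun i hi => by omega, ?_, ?_, fun _ _ => k1,
    fun _ _ => k2, fun i hi => by omega, fun i hi => by omega, fun i hi => by omega,
    fun i hi => by omega, fun i hi => by omega, ?_, fun hk => by omega, fun hk => by omega⟩⟩
  · intro i hi
    obtain rfl : i = 0 := by omega
    simpa using k3
  · intro i hi
    obtain rfl : i = 0 := by omega
    simpa using h13.symm
  · intro i hi j hj _
    omega

include hX hcub in
/-- a chain is a wire -/
theorem wire_of_lp (hI : InvZ G X Z) (h : StuckZ G X Z S) (hst : ∀ v, StarAt G X v) {σ τ : V}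
    (hL : Lp (ownR G X) (cc G X) (QE G X S).val σ τ) (hσ : NoMid G X σ) (hτ : NoMid G X τ) :
    ∃ (k : ℕ) (p u v q y : ℕ → V), 0 < k ∧ Wire G X Z S k p u v q y σ τ := by
  obtain ⟨k, u, v, hk, hmid, hp0, hlk, hpk⟩ := lp_chain hL
  -- the vertices `p`, `q`
  have hex : ∀ i, ∃ a b, i < k → P4 G X a (u i) (v i) b := by
    intro i
    by_cases hi : i < k
    · obtain ⟨h1, h2, h3, ⟨a, h4, h5⟩, ⟨b, h6, h7⟩⟩ := hmid i hi
      refine ⟨a, b, fun _ => ⟨ownR_symm h4, h3, h6, h5, h1, h2, h7, ?_⟩⟩
      rintro rfl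
      have h8 := own_one hX hcub h5 (ownR_symm h4) (ownR_symm h6)
      exact ownR_ne h3 h8
    · exact ⟨u i, u i, fun h => absurd h hi⟩
  choose p q hpq using hex
  -- the alternating walk
  set a : ℕ → V := fun n => if n % 2 = 0 then u (n / 2) else v (n / 2) with ha
  have a0 : ∀ i, a (2 * i) = u i := by
    intro i
    have e1 : 2 * i % 2 = 0 := by omega
    have e2 : 2 * i / 2 = i := by omega
    simp [ha, e1, e2]
  have a1 : ∀ i, a (2 * i + 1) = v i := by
    intro i
    have e1 : (2 * i + 1) % 2 = 1 := by omega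
    have e2 : (2 * i + 1) / 2 = i := by omega
    simp [ha, e1, e2]
  have hLk : ∀ x z, Port (ownR G X) (cc G X) (QE G X S).val x z → Lk G X x z := by
    intro x z hxz
    obtain ⟨s, w, w', y, h1, h2, h3, h4, h5, h6, h7, h8, h9, h10, h11, h12, h13, h14, h15, h16,
      h17, h18, h19, h20⟩ := port_graph hX hcub hxz
    exact ⟨h13.symm, y, mem_cr.mpr ⟨h9, h11⟩, mem_cr.mpr ⟨h10.symm, fun hh => h11 (hh.trans h12)⟩⟩
  have amid : ∀ n < 2 * k, ∃ b, Mid (ownR G X) (cc G X) (a n) b := by
    intro n hn
    rcases Nat.mod_two_eq_zero_or_one n with hpar | hpar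
    · obtain ⟨i, rfl⟩ : ∃ i, n = 2 * i := ⟨n / 2, by omega⟩
      rw [a0]
      exact ⟨v i, hmid i (by omega)⟩
    · obtain ⟨i, rfl⟩ : ∃ i, n = 2 * i + 1 := ⟨n / 2, by omega⟩
      rw [a1]
      exact ⟨u i, Mid_symm (hmid i (by omega))⟩
  have hnd : ∀ n < 2 * k, ∀ m < n, a m ≠ a n := by
    refine walk_nodup (Mid (ownR G X) (cc G X)) (Lk G X) (2 * k) a (fun _ _ => Mid_symm)
      (fun _ _ => Lk_symm) (fun n _ x y hx hy => Mid_unique hX hcub hx hy) ?_ ?_
      (fun x hx => hx.1 rfl) ?_ ?_ σ ?_ ?_
    · intro n hn x y hx hy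
      obtain ⟨b, hb⟩ := amid n hn
      exact Lk_unique hX hcub hb.1 hx hy
    · intro x hx
      exact ownR_ne hx.2.2.1 rfl
    · intro n hn hpar
      obtain ⟨i, rfl⟩ : ∃ i, n = 2 * i := ⟨n / 2, by omega⟩
      rw [a0, a1]
      exact hmid i (by omega)
    · intro n hn hpar
      obtain ⟨i, rfl⟩ : ∃ i, n = 2 * i + 1 := ⟨n / 2, by omega⟩
      have e : 2 * i + 1 + 1 = 2 * (i + 1) := by ring
      rw [a1, e, a0]
      exact hLk _ _ (hlk i (by omega))
    · intro _
      have := a0 0
      rw [Nat.mul_zero] at this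
      rw [this]
      exact hLk _ _ hp0
    · intro n hn he
      obtain ⟨b, hb⟩ := amid n hn
      rw [he] at hb
      exact hσ b hb
  have hnd2 : ∀ n < 2 * k, ∀ m < 2 * k, a m = a n → m = n := by
    intro n hn m hm he
    rcases lt_trichotomy m n with h1 | h1 | h1
    · exact absurd he (hnd n hn m h1)
    · exact h1
    · exact absurd he.symm (hnd m hm n h1)
  -- port facts
  obtain ⟨s0, w0, w0', y0, g1, g2, g3, g4, g5, g6, g7, g8, g9, g10, g11, g12, g13, g14, g15,
    g16, g17, g18, g19, g20⟩ := port_graph hX hcub hp0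
  obtain ⟨sk, wk, wk', yk, f1, f2, f3, f4, f5, f6, f7, f8, f9, f10, f11, f12, f13, f14, f15,
    f16, f17, f18, f19, f20⟩ := port_graph hX hcub hpk
  -- membership
  have huS : ∀ i < k, u i ∈ S ∧ v i ∈ S := by
    intro i hi
    have hu : u i ∈ S := by
      rcases Nat.eq_zero_or_pos i with rfl | hpos
      · exact g16
      · obtain ⟨j, rfl⟩ : ∃ j, i = j + 1 := ⟨i - 1, by omega⟩
        obtain ⟨_, _, _, _, _, _, _, _, _, _, _, _, _, _, _, _, _, _, _, _, hh, _⟩ :=
          port_graph hX hcub (hlk j hi)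
        exact hh
    exact ⟨hu, h.inner_own hX hcub hst hu (hmid i hi).1 (hmid i hi).2.2.1⟩
  have hmem : ∀ i < k, p i ∈ S ∧ u i ∈ S ∧ v i ∈ S ∧ q i ∈ S := by
    intro i hi
    obtain ⟨h1, h2⟩ := huS i hi
    have h3 := hpq i hi
    exact ⟨h.inner_own hX hcub hst h1 h3.cu (ownR_symm h3.pu), h1, h2,
      h.inner_own hX hcub hst h2 h3.cv h3.vq⟩
  -- the links
  have hexy : ∀ i, ∃ y, (i < k → cr G X (u i) = {y}) ∧ (i = k → cr G X (v (k - 1)) = {y}) := by
    intro i
    rcases lt_trichotomy i k with hi | hi | hi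
    · obtain ⟨y, hy⟩ := Finset.card_eq_one.mp ((cc_three hX hcub).mp (hmid i hi).1)
      exact ⟨y, fun _ => hy, fun h => by omega⟩
    · obtain ⟨y, hy⟩ := Finset.card_eq_one.mp
        ((cc_three hX hcub).mp (hmid (k - 1) (by omega)).2.1)
      exact ⟨y, fun h => by omega, fun _ => hy⟩
    · exact ⟨u i, fun h => by omega, fun h => by omega⟩
  choose y hy using hexy
  have cu : ∀ i < k, cr G X (u i) = {y i} := fun i hi => (hy i).1 hi
  have cv : ∀ i < k, cr G X (v i) = {y (i + 1)} := by
    intro i hi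
    by_cases hik : i + 1 < k
    · obtain ⟨_, z, h1, h2⟩ := hLk _ _ (hlk i hik)
      have h3 := inner_cr_eq hX hcub (hmid i hi).2.1 h1
      rw [cu (i + 1) hik, Finset.mem_singleton] at h2
      rw [h3, h2]
    · obtain rfl : i = k - 1 := by omega
      have e : k - 1 + 1 = k := by omega
      rw [e]
      exact (hy k).2 rfl
  have hside : ∀ i < k, X (u i) ↔ X σ := by
    intro i
    induction i with
    | zero =>
      intro _
      exact g12.symm
    | succ j ih =>
      intro hj
      have h1 := ih (by omega)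
      have h2 := (hmid j (by omega)).2.2.1.2
      obtain ⟨_, z, h3, h4⟩ := hLk _ _ (hlk j hj)
      have h5 := side_of_cr h3 h4
      exact h5.symm.trans (h2.symm.trans h1)
  have hyu : ∀ i < k, y i ∈ cr G X (u i) := fun i hi => by rw [cu i hi]; simp
  have hyv : ∀ i < k, y (i + 1) ∈ cr G X (v i) := fun i hi => by rw [cv i hi]; simp
  have hyσ : y 0 ∈ cr G X σ := by
    have h1 : y0 = y 0 := by
      have h2 := cu 0 hk
      rw [g8] at h2
      exact Finset.singleton_injective h2
    rw [← h1]
    exact mem_cr.mpr ⟨g10.symm, fun hh => g11 (hh.trans g12)⟩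
  have hyτ : y k ∈ cr G X τ := by
    have h1 : yk = y k := by
      have h2 := cv (k - 1) (by omega)
      have e : k - 1 + 1 = k := by omega
      rw [f8, e] at h2
      exact Finset.singleton_injective h2
    rw [← h1]
    exact mem_cr.mpr ⟨f10.symm, fun hh => f11 (hh.trans f12)⟩
  have nuσ : ∀ i < k, u i ≠ σ ∧ v i ≠ σ := by
    intro i hi
    refine ⟨?_, ?_⟩
    · intro he
      exact hσ (v i) (he ▸ hmid i hi)
    · intro he
      exact hσ (u i) (he ▸ Mid_symm (hmid i hi))
  have nuτ : ∀ i < k, u i ≠ τ ∧ v i ≠ τ := by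
    intro i hi
    refine ⟨?_, ?_⟩
    · intro he
      exact hτ (v i) (he ▸ hmid i hi)
    · intro he
      exact hτ (u i) (he ▸ Mid_symm (hmid i hi))
  have nuu : ∀ i < k, ∀ j < k, u i = u j → i = j := by
    intro i hi j hj he
    have := hnd2 (2 * j) (by omega) (2 * i) (by omega) (by rw [a0, a0]; exact he)
    omega
  have nvv : ∀ i < k, ∀ j < k, v i = v j → i = j := by
    intro i hi j hj he
    have := hnd2 (2 * j + 1) (by omega) (2 * i + 1) (by omega) (by rw [a1, a1]; exact he)
    omega
  have nuv : ∀ i < k, ∀ j < k, u i ≠ v j := by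
    intro i hi j hj he
    have := hnd2 (2 * j + 1) (by omega) (2 * i) (by omega) (by rw [a0, a1]; exact he)
    omega
  have lne : ∀ i ≤ k, (if i = 0 then σ else v (i - 1)) ≠ (if i = k then τ else u i) := by
    intro i hi
    by_cases h0 : i = 0
    · subst h0
      have : ¬ (0 = k) := by omega
      simp only [if_true, this, if_false]
      exact (nuσ 0 hk).1.symm
    · by_cases h1 : i = k
      · subst h1
        simp only [h0, if_false, if_true]
        exact (nuτ (i - 1) (by omega)).2
      · simp only [h0, h1, if_false]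
        exact (nuv i (by omega) (i - 1) (by omega)).symm
  have hleft : ∀ i ≤ k, (if i = 0 then σ else v (i - 1)) ∈ S ∧
      y i ∈ cr G X (if i = 0 then σ else v (i - 1)) := by
    intro i hi
    by_cases h0 : i = 0
    · subst h0
      simp only [if_true]
      exact ⟨g17, hyσ⟩
    · simp only [h0, if_false]
      have := hyv (i - 1) (by omega)
      have e : i - 1 + 1 = i := by omega
      rw [e] at this
      exact ⟨(hmem (i - 1) (by omega)).2.2.1, this⟩
  have hright : ∀ i ≤ k, (if i = k then τ else u i) ∈ S ∧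
      y i ∈ cr G X (if i = k then τ else u i) := by
    intro i hi
    by_cases h0 : i = k
    · subst h0
      simp only [if_true]
      exact ⟨f17, hyτ⟩
    · simp only [h0, if_false]
      exact ⟨(hmem i (by omega)).2.1, hyu i (by omega)⟩
  have hlink : ∀ i ≤ k, y i ∈ Z ∧ cc G X (y i) = 2 ∧ cr G X (y i) =
      {if i = 0 then σ else v (i - 1), if i = k then τ else u i} := fun i hi =>
    hI.link hX hcub (h.1 (hleft i hi).1) (h.1 (hright i hi).1) (lne i hi) (hleft i hi).2
      (hright i hi).2
  have hside2 : X τ ↔ X σ := by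
    have h1 := side_of_cr hyτ (hyv (k - 1) (by omega) |> fun h2 => by
      have e : k - 1 + 1 = k := by omega
      rwa [e] at h2)
    have h2 := (hmid (k - 1) (by omega)).2.2.1.2
    exact h1.trans (h2.symm.trans (hside (k - 1) (by omega)))
  refine ⟨k, p, u, v, q, y, hk, ⟨g17, f17, hside2, hpq, hside, hmem, cu, cv,
    fun i hi => (hlink i hi).2.2, lne, fun i hi => (hlink i hi).1, fun i hi => (hlink i hi).2.1,
    nuu, nvv, nuv, nuσ, nuτ, ?_, ?_, ?_⟩⟩
  · -- the links are different
    have key : ∀ i j, i < j → j ≤ k → y i ≠ y j := by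
      intro i j hij hj he
      have h1 := (hleft j hj).2
      rw [← he] at h1
      have h2 := (hlink i (by omega)).2.2
      have h3 := mem_crs.mp h1
      rw [h2, Finset.mem_insert, Finset.mem_singleton] at h3
      have hj0 : ¬ (j = 0) := by omega
      have hik : ¬ (i = k) := by omega
      simp only [hj0, hik, if_false] at h3
      rcases h3 with h3 | h3
      · by_cases hi0 : i = 0
        · simp only [hi0, if_true] at h3
          exact (nuσ (j - 1) (by omega)).2 h3
        · simp only [hi0, if_false] at h3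
          have := nvv (j - 1) (by omega) (i - 1) (by omega) h3
          omega
      · exact nuv i (by omega) (j - 1) (by omega) h3.symm
    intro i hi j hj he
    rcases lt_trichotomy i j with h1 | h1 | h1
    · exact absurd he (key i j h1 hj)
    · exact h1
    · exact absurd he.symm (key j i h1 hi)
  · intro _
    have h3 := hpq 0 hk
    refine ⟨?_, ?_⟩
    · rintro rfl
      exact g14 h3.pu.1.symm
    · rintro rfl
      -- `w0 = v 0`, `w0' = q 0`
      have e1 : w0 = v 0 := by
        rcases own_two hX (ownR_symm h3.pu) h3.uv g3 with h4 | h4 | h4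
        · exact absurd h4 h3.pv
        · have h5 := h3.cp
          rw [h4] at h5
          omega
        · exact h4.symm
      subst e1
      rcases own_two hX (ownR_symm h3.uv) h3.vq g6 with h4 | h4 | h4
      · exact h3.uq h4
      · exact g7 h4.symm
      · exact g15 h4
  · intro _
    have h3 := hpq (k - 1) (by omega)
    refine ⟨?_, ?_⟩
    · rintro rfl
      have e1 : wk = u (k - 1) := by
        rcases own_two hX h3.vq (ownR_symm h3.uv) f3 with h4 | h4 | h4
        · exact absurd h4 h3.uq.symm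
        · have h5 := h3.cq
          rw [h4] at h5
          omega
        · exact h4.symm
      subst e1
      rcases own_two hX h3.uv (ownR_symm h3.pu) f6 with h4 | h4 | h4
      · exact h3.pv h4.symm
      · exact f7 h4.symm
      · exact f15 h4
    · rintro rfl
      exact f14 h3.vq.1

end

end Helper33.L9
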