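import Pool.Agent.helper40.L9.LastC5

/-!
# A world cut with few own five-cycles

Among the cuts without monochromatic neighbourhoods take one with the largest cut size and, among
these, with the fewest vertices in own five-cycles.

`exch`: let `m` have the own neighbours `t ≠ t'` and the cross neighbour `z` in an own five-cycle.
If all neighbours of `t` have a further neighbour on the side of `t` (flipping `t` is allowed), and
`y1 ≠ y2` are the neighbours of `t` other than `m` (on the other side), then there is an own path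
`y1, b1, b2, y2`.  (Otherwise flip `t` and `z`.)
-/

set_option linter.unusedSimpArgs false

namespace Helper33.L9

open Finset Classical Helper42.L9 Pool.Agent.helper40.L9

variable {V : Type*} [Fintype V] {G : SimpleGraph V} {X : V → Prop}

/-- the vertices in own five-cycles -/
noncomputable def C5V (G : SimpleGraph V) (X : V → Prop) : Finset V :=
  univ.filter fun v => ∃ c : Fin 5 → V, Cyc G X c ∧ ∃ i, c i = v

theorem mem_C5V {v : V} : v ∈ C5V G X ↔ ∃ c : Fin 5 → V, Cyc G X c ∧ ∃ i, c i = v := by
  simp [C5V]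

/-- world cut with the exchange property -/
structure World2 (G : SimpleGraph V) (X : V → Prop) : Prop extends World G X where
  exch : ∀ t m t' z y1 y2, G.Adj m t → G.Adj m t' → t ≠ t' → (X t ↔ X m) → (X t' ↔ X m) →
    G.Adj m z → ¬ (X z ↔ X m) → z ∈ C5V G X → (∀ w, G.Adj t w → w ∈ pt G X t) →
    G.Adj t y1 → G.Adj t y2 → y1 ≠ y2 → ¬ (X y1 ↔ X t) → ¬ (X y2 ↔ X t) →
    ∃ b1 b2, G.Adj y1 b1 ∧ G.Adj b1 b2 ∧ G.Adj b2 y2 ∧ (X b1 ↔ X y1) ∧ (X b2 ↔ X y1)

theorem iff_not_of {a b : Prop} (h : ¬ (a ↔ b)) : (a ↔ ¬ b) := by tauto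

omit [Fintype V] in
theorem Cyc.rot {c : Fin 5 → V} (h : Cyc G X c) (k : Fin 5) : Cyc G X (fun i => c (i + k)) := by
  refine ⟨fun i j hij => ?_, fun i => ?_, fun i => ?_⟩
  · exact add_right_cancel (h.inj hij)
  · have := h.adj (i + k)
    have e : i + k + 1 = i + 1 + k := f5e i k
    rwa [e] at this
  · exact h.side2 _ _

set_option maxHeartbeats 4000000 in
theorem exists_world2 (hdeg : ∀ v, (univ.filter fun b => G.Adj v b).card ≤ 3)
    (h : ∃ X, NoMono G X) : ∃ X, World2 G X := by
  set N := (univ : Finset V).card with hN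
  have hNle : ∀ X, (C5V G X).card ≤ N := fun X => Finset.card_le_univ _
  obtain ⟨X0, hX0⟩ := h
  obtain ⟨X, hXm, hmax⟩ := Finset.exists_max_image
    ((univ : Finset (V → Prop)).filter fun X => NoMono G X)
    (fun X => ksize G X * (N + 1) + (N - (C5V G X).card))
    ⟨X0, Finset.mem_filter.mpr ⟨Finset.mem_univ _, hX0⟩⟩
  have hX : NoMono G X := (Finset.mem_filter.mp hXm).2
  have hmax' : ∀ X', NoMono G X' → ksize G X' * (N + 1) + (N - (C5V G X').card) ≤
      ksize G X * (N + 1) + (N - (C5V G X).card) := fun X' h' =>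
    hmax X' (Finset.mem_filter.mpr ⟨Finset.mem_univ _, h'⟩)
  refine ⟨X, ⟨hX, ?_⟩, ?_⟩
  · intro v hv
    by_contra hcon
    have h1 := hmax' _ (flip_noMono hdeg hX hv)
    have h2 := ksize_flip (G := G) (X := X) v
    have h3 : ksize G X + 1 ≤ ksize G (flip X v) := by omega
    have h4 := Nat.mul_le_mul_right (N + 1) h3
    rw [add_mul] at h4
    omega
  · intro t m t' z y1 y2 hmt hmt' htt' htm ht'm hmz hzm hzC htpt hty1 hty2 hy12 hy1 hy2
    by_contra hcon
    -- sides and inequalities
    have hzt : z ≠ t := by rintro rfl; exact hzm htm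
    have hmt_ne : m ≠ t := hmt.ne
    obtain ⟨c0, hc0, i0, hi0⟩ := mem_C5V.mp hzC
    -- rotate such that `c 0 = z`
    have hc := Cyc.rot hc0 i0
    set c : Fin 5 → V := fun i => c0 (i + i0) with hcdef
    have hcz : c 0 = z := by simp [hcdef, hi0]
    have a1 : G.Adj z (c 1) := by have := hc.adj 0; rwa [hcz, zero_add] at this
    have a4 : G.Adj z (c 4) := by have := hc.adj' 0; rwa [hcz, zero_add] at this
    have a12 : G.Adj (c 1) (c 2) := hc.adj 1
    have a43 : G.Adj (c 4) (c 3) := by have := (hc.adj 3).symm; exact this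
    have s1 : X (c 1) ↔ X z := by rw [← hcz]; exact hc.side2 _ _
    have s2 : X (c 2) ↔ X z := by rw [← hcz]; exact hc.side2 _ _
    have s3 : X (c 3) ↔ X z := by rw [← hcz]; exact hc.side2 _ _
    have s4 : X (c 4) ↔ X z := by rw [← hcz]; exact hc.side2 _ _
    have n14 : c 1 ≠ c 4 := fun h => by have := hc.inj h; exact absurd this (by decide)
    have n20 : c 2 ≠ z := fun h => by
      rw [← hcz] at h; have := hc.inj h; exact absurd this (by decide)
    have n30 : c 3 ≠ z := fun h => by
      rw [← hcz] at h; have := hc.inj h; exact absurd this (by decide)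
    have nt : ∀ w, (X w ↔ X z) → w ≠ t := by
      rintro w h rfl
      exact hzm (h.symm.trans htm)
    -- the two flips
    set X1 := flip X t with hX1
    set X2 := flip X1 z with hX2
    have f1 : ∀ w, w ≠ t → (X1 w ↔ X w) := fun w hw => flip_ne hw
    have f1t : X1 t ↔ ¬ X t := flip_self t
    have f2 : ∀ w, w ≠ z → (X2 w ↔ X1 w) := fun w hw => flip_ne hw
    have f2z : X2 z ↔ ¬ X1 z := flip_self z
    have hNM1 : NoMono G X1 := flip_noMono hdeg hX htpt
    have hz3 : ∀ w, G.Adj z w → w = m ∨ w = c 1 ∨ w = c 4 := by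
      intro w hw
      by_contra hne
      push Not at hne
      exact no_four hdeg hw hmz.symm a1 a4 hne.1 hne.2.1 hne.2.2
        (by rintro rfl; exact hzm s1.symm) (by rintro rfl; exact hzm s4.symm) n14
    have hzpt : ∀ w, G.Adj z w → w ∈ pt G X1 z := by
      intro w hw
      rcases hz3 w hw with rfl | rfl | rfl
      · refine mem_pt.mpr ⟨hw, t, Ne.symm hzt, hmt, ?_⟩
        rw [f1t, f1 z hzt, htm]
        constructor
        · intro h; by_contra h'; exact hzm ⟨fun h2 => absurd h2 h', fun h2 => absurd h2 h⟩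
        · intro h h2; exact hzm ⟨fun _ => h2, fun _ => h⟩
      · refine mem_pt.mpr ⟨hw, c 2, n20, a12, ?_⟩
        rw [f1 _ (nt _ s2), f1 z hzt]
        exact s2
      · refine mem_pt.mpr ⟨hw, c 3, n30, a43, ?_⟩
        rw [f1 _ (nt _ s3), f1 z hzt]
        exact s3
    have hNM2 : NoMono G X2 := flip_noMono hdeg hNM1 hzpt
    -- cut sizes
    have ht3 : ∀ w, G.Adj t w → w = m ∨ w = y1 ∨ w = y2 := by
      intro w hw
      by_contra hne
      push Not at hne
      exact no_four hdeg hw hmt.symm hty1 hty2 hne.1 hne.2.1 hne.2.2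
        (by rintro rfl; exact hy1 htm.symm) (by rintro rfl; exact hy2 htm.symm) hy12
    have hk1 := ksize_flip (G := G) (X := X) t
    have hk2 := ksize_flip (G := G) (X := X1) z
    have e1 : cr G X t = {y1, y2} := by
      ext w
      rw [mem_cr]
      simp only [Finset.mem_insert, Finset.mem_singleton]
      constructor
      · rintro ⟨h1, h2⟩
        rcases ht3 w h1 with rfl | h | h
        · exact absurd htm.symm h2
        · exact Or.inl h
        · exact Or.inr h
      · rintro (rfl | rfl)
        · exact ⟨hty1, hy1⟩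
        · exact ⟨hty2, hy2⟩
    have e2 : ow G X t = {m} := by
      ext w
      rw [mem_ow]
      simp only [Finset.mem_singleton]
      constructor
      · rintro ⟨h1, h2⟩
        rcases ht3 w h1 with h | rfl | rfl
        · exact h
        · exact absurd h2 hy1
        · exact absurd h2 hy2
      · rintro rfl
        exact ⟨hmt.symm, htm.symm⟩
    have e3 : cr G X1 z = {m} := by
      ext w
      rw [mem_cr]
      simp only [Finset.mem_singleton]
      constructor
      · rintro ⟨h1, h2⟩
        rcases hz3 w h1 with h | rfl | rfl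
        · exact h
        · rw [f1 _ (nt _ s1), f1 z hzt] at h2
          exact absurd s1 h2
        · rw [f1 _ (nt _ s4), f1 z hzt] at h2
          exact absurd s4 h2
      · rintro rfl
        refine ⟨hmz.symm, ?_⟩
        rw [f1 _ hmt_ne, f1 z hzt]
        exact fun h => hzm h.symm
    have e4 : ow G X1 z = {c 1, c 4} := by
      ext w
      rw [mem_ow]
      simp only [Finset.mem_insert, Finset.mem_singleton]
      constructor
      · rintro ⟨h1, h2⟩
        rcases hz3 w h1 with rfl | h | h
        · rw [f1 _ hmt_ne, f1 z hzt] at h2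
          exact absurd h2.symm hzm
        · exact Or.inl h
        · exact Or.inr h
      · rintro (rfl | rfl)
        · refine ⟨a1, ?_⟩
          rw [f1 _ (nt _ s1), f1 z hzt]
          exact s1
        · refine ⟨a4, ?_⟩
          rw [f1 _ (nt _ s4), f1 z hzt]
          exact s4
    rw [e1, e2, Finset.card_pair hy12, Finset.card_singleton] at hk1
    rw [e3, e4, Finset.card_pair n14, Finset.card_singleton] at hk2
    have hks : ksize G X2 = ksize G X := by
      have h1 : ksize G X1 = ksize G (flip X t) := rfl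
      have h2 : ksize G X2 = ksize G (flip X1 z) := rfl
      omega
    -- fewer own five-cycles
    have hX2z : ∀ w, w ≠ z → w ≠ t → (X2 w ↔ X w) := fun w h1 h2 => (f2 w h1).trans (f1 w h2)
    have hX2zz : X2 z ↔ ¬ X z := by rw [f2z, f1 z hzt]
    have hX2t : X2 t ↔ ¬ X t := by rw [f2 t hzt.symm, f1t]
    have hzr : ∀ d : Fin 5 → V, Cyc G X2 d → ∀ j, d j ≠ z := by
      intro d hd j hj
      have b1 := hd.adj j
      have b4 := hd.adj' j
      have t1 : X2 (d (j + 1)) ↔ X2 (d j) := hd.side2 _ _
      have t4 : X2 (d (j + 4)) ↔ X2 (d j) := hd.side2 _ _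
      rw [hj] at b1 b4 t1 t4
      have only : ∀ w, G.Adj z w → (X2 w ↔ X2 z) → w = m := by
        intro w hw hs
        rcases hz3 w hw with h | rfl | rfl
        · exact h
        · have := hX2z (c 1) a1.ne' (nt _ s1)
          exact absurd (((hX2zz.symm.trans hs.symm).trans this).trans s1) not_iff_self
        · have := hX2z (c 4) a4.ne' (nt _ s4)
          exact absurd (((hX2zz.symm.trans hs.symm).trans this).trans s4) not_iff_self
      have h1 := only _ b1 t1
      have h4 := only _ b4 t4
      exact f5b j (hd.inj (h1.trans h4.symm))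
    have htr : ∀ d : Fin 5 → V, Cyc G X2 d → ∀ j, d j ≠ t := by
      intro d hd j hj
      have hr := Cyc.rot hd j
      set r : Fin 5 → V := fun i => d (i + j) with hrdef
      have hr0 : r 0 = t := by simp [hrdef, hj]
      have b1 : G.Adj t (r 1) := by have := hr.adj 0; rwa [hr0, zero_add] at this
      have b4 : G.Adj t (r 4) := by have := hr.adj' 0; rwa [hr0, zero_add] at this
      have b12 : G.Adj (r 1) (r 2) := hr.adj 1
      have b23 : G.Adj (r 2) (r 3) := hr.adj 2
      have b34 : G.Adj (r 3) (r 4) := hr.adj 3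
      have sd : ∀ i, X2 (r i) ↔ X2 t := fun i => by rw [← hr0]; exact hr.side2 _ _
      have m14 : r 1 ≠ r 4 := fun h => by have := hr.inj h; exact absurd this (by decide)
      have hnm : ∀ w, G.Adj t w → (X2 w ↔ X2 t) → w = y1 ∨ w = y2 := by
        intro w hw hs
        rcases ht3 w hw with rfl | h | h
        · have := hX2z w (by rintro rfl; exact hzm Iff.rfl) hmt_ne
          exact absurd (hX2t.symm.trans (hs.symm.trans (this.trans htm.symm))) not_iff_self
        · exact Or.inl h
        · exact Or.inr h
      have g1 := hnm _ b1 (sd 1)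
      have g4 := hnm _ b4 (sd 4)
      have r2t : r 2 ≠ t := fun h => by
        rw [← hr0] at h; have := hr.inj h; exact absurd this (by decide)
      have r3t : r 3 ≠ t := fun h => by
        rw [← hr0] at h; have := hr.inj h; exact absurd this (by decide)
      have x2 : X (r 2) ↔ ¬ X t := by
        rw [← hX2z (r 2) (hzr r hr 2) r2t, sd 2, hX2t]
      have x3 : X (r 3) ↔ ¬ X t := by
        rw [← hX2z (r 3) (hzr r hr 3) r3t, sd 3, hX2t]
      rcases g1 with g1 | g1 <;> rcases g4 with g4 | g4
      · exact m14 (g1.trans g4.symm)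
      · refine hcon ⟨r 2, r 3, ?_, b23, ?_, ?_, ?_⟩
        · rw [← g1]; exact b12
        · rw [← g4]; exact b34
        · exact x2.trans (iff_not_of hy1).symm
        · exact x3.trans (iff_not_of hy1).symm
      · refine hcon ⟨r 3, r 2, ?_, b23.symm, ?_, ?_, ?_⟩
        · rw [← g4]; exact b34.symm
        · rw [← g1]; exact b12.symm
        · exact x3.trans (iff_not_of hy1).symm
        · exact x2.trans (iff_not_of hy1).symm
      · exact m14 (g1.trans g4.symm)
    have hsub : C5V G X2 ⊆ (C5V G X).erase z := by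
      intro v hv
      obtain ⟨d, hd, i, rfl⟩ := mem_C5V.mp hv
      rw [Finset.mem_erase]
      refine ⟨hzr d hd i, mem_C5V.mpr ⟨d, ⟨hd.inj, hd.adj, fun k => ?_⟩, i, rfl⟩⟩
      rw [← hX2z (d k) (hzr d hd k) (htr d hd k), ← hX2z (d 0) (hzr d hd 0) (htr d hd 0)]
      exact hd.side k
    have hlt : (C5V G X2).card < (C5V G X).card :=
      lt_of_le_of_lt (Finset.card_le_card hsub) (Finset.card_erase_lt_of_mem hzC)
    have h1 := hmax' _ hNM2
    rw [hks] at h1
    have h2 := hNle X
    omega

end Helper33.L9
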